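import Pool.Agent.H46R2.K3.Defs

/-!
# FAM: calculus of expectations
-/

set_option autoImplicit false

namespace Pool.Agent.H46R2.K3.P

open Finset

theorem fam_card_pos (𝒢 : Fam) (θ : 𝒢.ι) : (0 : ℝ) < #(𝒢.F θ) := by
  exact_mod_cast Finset.card_pos.2 (𝒢.hne θ)

theorem fam_iota_pos (𝒢 : Fam) : (0 : ℝ) < Fintype.card 𝒢.ι := by
  exact_mod_cast Fintype.card_pos

theorem fam_eq (𝒢 : Fam) (f : List St → ℝ) :
    𝒢.E f = ∑ θ, ∑ w ∈ 𝒢.F θ, f w * ((#(𝒢.F θ) : ℝ)⁻¹ * (Fintype.card 𝒢.ι : ℝ)⁻¹) := by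
  unfold Fam.E
  rw [Finset.sum_div]
  refine Finset.sum_congr rfl fun θ _ => ?_
  rw [← Finset.sum_mul, ← mul_assoc, div_eq_mul_inv, div_eq_mul_inv]

theorem fam_injOn (𝒢 ℋ : Fam) (θ : 𝒢.ι × ℋ.ι) :
    Set.InjOn (fun p : List St × List St => p.1 ++ p.2)
      ((𝒢.F θ.1 ×ˢ ℋ.F θ.2 : Finset (List St × List St)) : Set (List St × List St)) := by
  rintro ⟨u, v⟩ huv ⟨u', v'⟩ huv' h
  simp only [Finset.coe_product, Set.mem_prod, Finset.mem_coe] at huv huv'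
  have hlen : u.length = u'.length := by rw [𝒢.hlen _ _ huv.1, 𝒢.hlen _ _ huv'.1]
  obtain ⟨h1, h2⟩ := List.append_inj h hlen
  exact Prod.ext h1 h2

theorem card_mul (𝒢 ℋ : Fam) (θ : 𝒢.ι × ℋ.ι) :
    #((𝒢.mul ℋ).F θ) = #(𝒢.F θ.1) * #(ℋ.F θ.2) := by
  classical
  have h : (𝒢.mul ℋ).F θ = (𝒢.F θ.1 ×ˢ ℋ.F θ.2).image fun p => p.1 ++ p.2 := by
    unfold Fam.mul
    congr!
  rw [h, Finset.card_image_of_injOn (fam_injOn 𝒢 ℋ θ), Finset.card_product]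

theorem fam_sum_mul (𝒢 ℋ : Fam) (θ : 𝒢.ι × ℋ.ι) (f : List St → ℝ) :
    ∑ w ∈ (𝒢.mul ℋ).F θ, f w = ∑ u ∈ 𝒢.F θ.1, ∑ v ∈ ℋ.F θ.2, f (u ++ v) := by
  classical
  have h : (𝒢.mul ℋ).F θ = (𝒢.F θ.1 ×ˢ ℋ.F θ.2).image fun p => p.1 ++ p.2 := by
    unfold Fam.mul
    congr!
  rw [h, Finset.sum_image (fam_injOn 𝒢 ℋ θ), Finset.sum_product]

theorem E_mul (𝒢 ℋ : Fam) (f : List St → ℝ) :
    (𝒢.mul ℋ).E f = 𝒢.E fun u => ℋ.E fun v => f (u ++ v) := by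
  rw [fam_eq (𝒢.mul ℋ), fam_eq 𝒢]
  have hc : (Fintype.card (𝒢.mul ℋ).ι : ℝ) = Fintype.card 𝒢.ι * Fintype.card ℋ.ι := by
    have : Fintype.card (𝒢.mul ℋ).ι = Fintype.card 𝒢.ι * Fintype.card ℋ.ι :=
      Fintype.card_prod 𝒢.ι ℋ.ι
    rw [this]; push_cast; ring
  have h1 : ∑ θ, ∑ w ∈ (𝒢.mul ℋ).F θ, f w * ((#((𝒢.mul ℋ).F θ) : ℝ)⁻¹ *
      (Fintype.card (𝒢.mul ℋ).ι : ℝ)⁻¹) =
      ∑ θ : 𝒢.ι × ℋ.ι, ∑ u ∈ 𝒢.F θ.1, ∑ v ∈ ℋ.F θ.2, f (u ++ v) *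
        (((#(𝒢.F θ.1) : ℝ) * #(ℋ.F θ.2))⁻¹ *
          ((Fintype.card 𝒢.ι : ℝ) * Fintype.card ℋ.ι)⁻¹) := by
    refine Finset.sum_congr rfl fun θ _ => ?_
    rw [hc, card_mul 𝒢 ℋ θ]
    push_cast
    exact fam_sum_mul 𝒢 ℋ θ (fun w => f w * (((#(𝒢.F θ.1) : ℝ) * #(ℋ.F θ.2))⁻¹ *
          ((Fintype.card 𝒢.ι : ℝ) * Fintype.card ℋ.ι)⁻¹))
  rw [h1, Fintype.sum_prod_type]
  refine Finset.sum_congr rfl fun a _ => ?_
  simp only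
  rw [Finset.sum_comm]
  refine Finset.sum_congr rfl fun u _ => ?_
  rw [fam_eq ℋ, Finset.sum_mul]
  refine Finset.sum_congr rfl fun b _ => ?_
  rw [Finset.sum_mul]
  refine Finset.sum_congr rfl fun v _ => ?_
  rw [mul_inv, mul_inv]
  ring

theorem E_comm (𝒢 ℋ : Fam) (f : List St → List St → ℝ) :
    (𝒢.E fun u => ℋ.E fun v => f u v) = ℋ.E fun v => 𝒢.E fun u => f u v := by
  rw [fam_eq 𝒢, fam_eq ℋ]
  simp only [fam_eq ℋ (f _), fam_eq 𝒢 (fun u => f u _), Finset.sum_mul]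
  -- both sides are quadruple sums
  have h1 : ∀ θ : 𝒢.ι, ∑ u ∈ 𝒢.F θ, ∑ θ' : ℋ.ι, ∑ v ∈ ℋ.F θ',
      f u v * ((#(ℋ.F θ') : ℝ)⁻¹ * (Fintype.card ℋ.ι : ℝ)⁻¹) *
        ((#(𝒢.F θ) : ℝ)⁻¹ * (Fintype.card 𝒢.ι : ℝ)⁻¹) =
      ∑ θ' : ℋ.ι, ∑ v ∈ ℋ.F θ', ∑ u ∈ 𝒢.F θ,
      f u v * ((#(𝒢.F θ) : ℝ)⁻¹ * (Fintype.card 𝒢.ι : ℝ)⁻¹) *
        ((#(ℋ.F θ') : ℝ)⁻¹ * (Fintype.card ℋ.ι : ℝ)⁻¹) := by
    intro θ
    rw [Finset.sum_comm]
    refine Finset.sum_congr rfl fun θ' _ => ?_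
    rw [Finset.sum_comm]
    refine Finset.sum_congr rfl fun v _ => Finset.sum_congr rfl fun u _ => ?_
    ring
  simp only [h1]
  rw [Finset.sum_comm]
  refine Finset.sum_congr rfl fun θ' _ => ?_
  rw [Finset.sum_comm]

theorem E_mono (𝒢 : Fam) {f g : List St → ℝ} (h : ∀ θ, ∀ w ∈ 𝒢.F θ, f w ≤ g w) :
    𝒢.E f ≤ 𝒢.E g := by
  rw [fam_eq, fam_eq]
  refine Finset.sum_le_sum fun θ _ => Finset.sum_le_sum fun w hw => ?_
  refine mul_le_mul_of_nonneg_right (h θ w hw) ?_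
  have h1 := fam_card_pos 𝒢 θ
  have h2 := fam_iota_pos 𝒢
  positivity

theorem E_add (𝒢 : Fam) (f g : List St → ℝ) : 𝒢.E (fun w => f w + g w) = 𝒢.E f + 𝒢.E g := by
  rw [fam_eq, fam_eq, fam_eq, ← Finset.sum_add_distrib]
  refine Finset.sum_congr rfl fun θ _ => ?_
  rw [← Finset.sum_add_distrib]
  refine Finset.sum_congr rfl fun w _ => ?_
  ring

theorem E_const (𝒢 : Fam) (x : ℝ) : 𝒢.E (fun _ => x) = x := by
  unfold Fam.E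
  have h1 : ∀ θ : 𝒢.ι, (∑ _w ∈ 𝒢.F θ, x) / (#(𝒢.F θ) : ℝ) = x := by
    intro θ
    rw [Finset.sum_const, nsmul_eq_mul, mul_comm]
    exact mul_div_cancel_right₀ x (fam_card_pos 𝒢 θ).ne'
  simp only [h1]
  rw [Finset.sum_const, nsmul_eq_mul, Finset.card_univ, mul_comm]
  exact mul_div_cancel_right₀ x (fam_iota_pos 𝒢).ne'

theorem E_mul_left (𝒢 : Fam) (x : ℝ) (f : List St → ℝ) :
    𝒢.E (fun w => x * f w) = x * 𝒢.E f := by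
  rw [fam_eq, fam_eq, Finset.mul_sum]
  refine Finset.sum_congr rfl fun θ _ => ?_
  rw [Finset.mul_sum]
  refine Finset.sum_congr rfl fun w _ => ?_
  ring

theorem E_sum (𝒢 : Fam) {κ : Type} (s : Finset κ) (f : κ → List St → ℝ) :
    𝒢.E (fun w => ∑ i ∈ s, f i w) = ∑ i ∈ s, 𝒢.E (f i) := by
  classical
  induction s using Finset.induction_on with
  | empty => simpa using E_const 𝒢 0
  | insert a s ha ih =>
    simp only [Finset.sum_insert ha]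
    rw [E_add, ih]

theorem E_listsum (𝒢 : Fam) {κ : Type} (s : List κ) (f : κ → List St → ℝ) :
    𝒢.E (fun w => (s.map fun i => f i w).sum) = (s.map fun i => 𝒢.E (f i)).sum := by
  induction s with
  | nil => simpa using E_const 𝒢 0
  | cons a s ih =>
    simp only [List.map_cons, List.sum_cons]
    rw [E_add, ih]

open Classical in
theorem exists_half (𝒢 : Fam) {f : List St → ℝ} (hf : ∀ w, 0 ≤ f w) {y : ℝ} (h : 𝒢.E f ≤ y) :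
    ∃ θ, (#(𝒢.F θ) : ℝ) ≤ 2 * #((𝒢.F θ).filter fun w => f w ≤ 2 * y) := by
  by_contra hcon
  push Not at hcon
  have hy : 0 ≤ y := by
    have h0 := E_mono 𝒢 (f := fun _ => (0 : ℝ)) (g := f) (fun θ w _ => hf w)
    rw [E_const] at h0
    linarith
  have key : ∀ θ : 𝒢.ι, y < (∑ w ∈ 𝒢.F θ, f w) / (#(𝒢.F θ) : ℝ) := by
    intro θ
    rw [lt_div_iff₀ (fam_card_pos 𝒢 θ)]
    have h1 := hcon θ
    have h2 : (#((𝒢.F θ).filter fun w => f w ≤ 2 * y) : ℝ) +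
        #((𝒢.F θ).filter fun w => ¬ f w ≤ 2 * y) = #(𝒢.F θ) := by
      exact_mod_cast Finset.card_filter_add_card_filter_not (s := 𝒢.F θ) (fun w => f w ≤ 2 * y)
    have hne : ((𝒢.F θ).filter fun w => ¬ f w ≤ 2 * y).Nonempty := by
      rw [← Finset.card_pos]
      have : (0 : ℝ) < #((𝒢.F θ).filter fun w => ¬ f w ≤ 2 * y) := by
        have h3 : (0 : ℝ) ≤ #((𝒢.F θ).filter fun w => f w ≤ 2 * y) := Nat.cast_nonneg _
        linarith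
      exact_mod_cast this
    have h3 : 2 * y * #((𝒢.F θ).filter fun w => ¬ f w ≤ 2 * y) <
        ∑ w ∈ (𝒢.F θ).filter (fun w => ¬ f w ≤ 2 * y), f w := by
      have := Finset.sum_lt_sum_of_nonempty (f := fun _ => 2 * y) (g := f) hne
        (fun w hw => not_le.1 (Finset.mem_filter.1 hw).2)
      rw [Finset.sum_const, nsmul_eq_mul] at this
      linarith
    have h4 : ∑ w ∈ (𝒢.F θ).filter (fun w => ¬ f w ≤ 2 * y), f w ≤ ∑ w ∈ 𝒢.F θ, f w :=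
      Finset.sum_le_sum_of_subset_of_nonneg (Finset.filter_subset _ _) fun w _ _ => hf w
    nlinarith
  have h5 : y < 𝒢.E f := by
    unfold Fam.E
    rw [lt_div_iff₀ (fam_iota_pos 𝒢)]
    have h6 := Finset.sum_lt_sum_of_nonempty (s := (univ : Finset 𝒢.ι)) univ_nonempty
      (fun θ _ => key θ)
    rw [Finset.sum_const, nsmul_eq_mul, Finset.card_univ] at h6
    linarith
  linarith

end Pool.Agent.H46R2.K3.P
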