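import Mathlib

/-!
Self-avoiding walks on `ℤ³` : definitions.  Words are lists of letters; the letter `(i, true)` is the
step `+e_i`, the letter `(i, false)` is the step `-e_i`.
-/

namespace Pool.Agent.H46R2.K3

open Finset

/-- letters -/
abbrev St : Type := Fin 3 × Bool

/-- points of `ℤ³` -/
abbrev V : Type := Fin 3 → ℤ

/-- the step of a letter -/
def vec (s : St) : V := fun i => if i = s.1 then (if s.2 then 1 else -1) else 0

/-- position after `k` letters -/
def pos (w : List St) (k : ℕ) : V := ((w.take k).map vec).sum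

/-- total displacement -/
def disp (w : List St) : V := (w.map vec).sum

/-- all words of length `n` -/
def W (n : ℕ) : Finset (List St) := (Finset.univ : Finset (List.Vector St n)).image (fun v => v.1)

/-- self-avoiding words -/
def Saw (w : List St) : Prop := ∀ i j, i < j → j ≤ w.length → pos w i ≠ pos w j

/-- bridges (in the direction `e_0`) -/
def Br (w : List St) : Prop :=
  Saw w ∧ ∀ i, 1 ≤ i → i ≤ w.length → 0 < pos w i 0 ∧ pos w i 0 ≤ disp w 0

/-- half-space walks -/
def Hsp (w : List St) : Prop := Saw w ∧ ∀ i, 1 ≤ i → i ≤ w.length → 0 < pos w i 0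

open Classical in
/-- number of self-avoiding words of length `n` -/
noncomputable def c (n : ℕ) : ℕ := #((W n).filter Saw)

open Classical in
/-- number of bridges of length `n` -/
noncomputable def b (n : ℕ) : ℕ := #((W n).filter Br)

open Classical in
/-- bridges of length `n` and span at least `r` -/
noncomputable def bge (n r : ℕ) : ℕ := #((W n).filter fun w => Br w ∧ (r : ℤ) ≤ disp w 0)

open Classical in
/-- half-space walks of length `n` -/
noncomputable def hs (n : ℕ) : ℕ := #((W n).filter Hsp)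

open Classical in
/-- half-space walks of length `n` which reach the height `r` -/
noncomputable def hge (n r : ℕ) : ℕ :=
  #((W n).filter fun w => Hsp w ∧ ∃ i ≤ n, (r : ℤ) ≤ pos w i 0)

open Classical in
/-- half-space walks of length `n` whose height stays `≤ r` -/
noncomputable def hle (n r : ℕ) : ℕ :=
  #((W n).filter fun w => Hsp w ∧ ∀ i ≤ n, pos w i 0 ≤ (r : ℤ))

open Classical in
/-- self-avoiding words of length `n` with extension at least `r` in the direction `e_0` -/
noncomputable def cext (n r : ℕ) : ℕ :=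
  #((W n).filter fun w => Saw w ∧ ∃ i ≤ n, ∃ j ≤ n, (r : ℤ) ≤ pos w i 0 - pos w j 0)

open Classical in
/-- self-avoiding words of length `n` in the slab `|x_0| ≤ r` -/
noncomputable def slab (n r : ℕ) : ℕ :=
  #((W n).filter fun w => Saw w ∧ ∀ i ≤ n, |pos w i 0| ≤ (r : ℤ))

/-- the connective constant -/
noncomputable def mu : ℝ := ⨅ n : ℕ, ((c (n + 1) : ℕ) : ℝ) ^ (1 / ((n : ℝ) + 1))

/-- the vector `a e_i` -/
def ax (i : Fin 3) (a : ℤ) : V := fun j => if j = i then a else 0

open Classical in
/-- bridges of length `n` with displacement `(a,0,0)` -/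
noncomputable def Bl (n a : ℕ) : Finset (List St) :=
  (W n).filter fun w => Br w ∧ disp w = ax 0 a

open Classical in
/-- simple closed words of length `m` -/
noncomputable def loops (m : ℕ) : ℕ :=
  #((W m).filter fun w => disp w = 0 ∧ ∀ i j, i < j → j < m → pos w i ≠ pos w j)

open Classical in
/-- number of coincidences `i < j`, `pos i = pos j` -/
noncomputable def K (w : List St) : ℕ :=
  #((range (w.length + 1) ×ˢ range (w.length + 1)).filter
    fun p => p.1 < p.2 ∧ pos w p.1 = pos w p.2)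

/-- bridge-like words (not necessarily self-avoiding) -/
def BrL (w : List St) : Prop := ∀ i, 1 ≤ i → i ≤ w.length → 0 < pos w i 0 ∧ pos w i 0 ≤ disp w 0

open Classical in
/-- number of bridge-like words of length `L` with at most `k` coincidences -/
noncomputable def G (L k : ℕ) : ℕ := #((W L).filter fun w => BrL w ∧ K w ≤ k)

/-- hits of the points `pos w j`, `1 ≤ j ≤ |w|`, with the list `A` -/
def H (A : List V) (w : List St) : ℕ := ∑ j ∈ Icc 1 w.length, A.count (pos w j)

/-- the points of `u` relative to its end -/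
def rel (u : List St) : List V := (List.range (u.length + 1)).map fun i => pos u i - disp u

/-- translate of a list of points by `-z` -/
def sh (A : List V) (z : V) : List V := A.map fun p => p - z

/-- reflection of the coordinate `0` of a letter -/
def flip0 (s : St) : St := if s.1 = 0 then (s.1, !s.2) else s

/-- reflection of the coordinates `1` and `2` of a letter -/
def flip12 (s : St) : St := if s.1 = 0 then s else (s.1, !s.2)

/-- exchange of the coordinates `0` and `i` of a letter -/
def perm (i : Fin 3) (s : St) : St := (Equiv.swap 0 i s.1, s.2)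

/-! ### families of words -/

/-- a finite family of words: for every index a nonempty finite set of words of the same length -/
structure Fam where
  /-- indices -/
  ι : Type
  [fin : Fintype ι]
  [ne : Nonempty ι]
  /-- words with the given index -/
  F : ι → Finset (List St)
  /-- their length -/
  len : ι → ℕ
  hlen : ∀ θ, ∀ w ∈ F θ, w.length = len θ
  hne : ∀ θ, (F θ).Nonempty

attribute [instance] Fam.fin Fam.ne

/-- expectation: uniform index, then uniform word -/
noncomputable def Fam.E (𝒢 : Fam) (f : List St → ℝ) : ℝ :=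
  (∑ θ, (∑ w ∈ 𝒢.F θ, f w) / #(𝒢.F θ)) / Fintype.card 𝒢.ι

open Classical in
/-- concatenation of two independent families -/
noncomputable def Fam.mul (𝒢 ℋ : Fam) : Fam where
  ι := 𝒢.ι × ℋ.ι
  F := fun θ => (𝒢.F θ.1 ×ˢ ℋ.F θ.2).image fun p => p.1 ++ p.2
  len := fun θ => 𝒢.len θ.1 + ℋ.len θ.2
  hlen := by
    intro θ w hw
    simp only [Finset.mem_image, Finset.mem_product] at hw
    obtain ⟨p, ⟨h1, h2⟩, rfl⟩ := hw
    rw [List.length_append, 𝒢.hlen _ _ h1, ℋ.hlen _ _ h2]
  hne := by
    intro θ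
    exact ((𝒢.hne θ.1).product (ℋ.hne θ.2)).image _

/-- the family with the only (empty) word -/
noncomputable def Fam.one : Fam where
  ι := Unit
  F := fun _ => {[]}
  len := fun _ => 0
  hlen := by intro θ w hw; simp at hw; simp [hw]
  hne := by intro θ; exact ⟨[], by simp⟩

/-- the family with one index and the words in `S`, all of length `n` -/
noncomputable def Fam.ofSet (S : Finset (List St)) (n : ℕ) (h : ∀ w ∈ S, w.length = n)
    (hne : S.Nonempty) : Fam where
  ι := Unit
  F := fun _ => S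
  len := fun _ => n
  hlen := fun _ w hw => h w hw
  hne := fun _ => hne

/-- monotone word with displacement `y` -/
def sw (y : Fin 3 → ℕ) : List St :=
  List.replicate (y 0) ((0 : Fin 3), true) ++ List.replicate (y 1) ((1 : Fin 3), true) ++
    List.replicate (y 2) ((2 : Fin 3), true)

/-- uniform shift in the cube `[0,T)³` (`T+1` instead of `T` to have a nonempty index set) -/
noncomputable def Sh (T : ℕ) : Fam where
  ι := Fin 3 → Fin (T + 1)
  F := fun y => {sw fun i => (y i : ℕ)}
  len := fun y => (y 0 : ℕ) + (y 1 : ℕ) + (y 2 : ℕ)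
  hlen := by intro θ w hw; simp at hw; subst hw; simp [sw]; ring
  hne := by intro θ; simp

open Classical in
/-- concatenations of `m` words of `B` -/
noncomputable def Ch (B : Finset (List St)) : ℕ → Finset (List St)
  | 0 => {[]}
  | m + 1 => (B ×ˢ Ch B m).image fun p => p.1 ++ p.2

theorem Ch_length {B : Finset (List St)} {n : ℕ} (h : ∀ w ∈ B, w.length = n) (m : ℕ) :
    ∀ w ∈ Ch B m, w.length = n * m := by
  induction m with
  | zero => intro w hw; simp [Ch] at hw; simp [hw]
  | succ m ih =>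
    intro w hw
    simp only [Ch, Finset.mem_image, Finset.mem_product] at hw
    obtain ⟨p, ⟨h1, h2⟩, rfl⟩ := hw
    rw [List.length_append, h _ h1, ih _ h2]; ring

theorem Ch_nonempty {B : Finset (List St)} (h : B.Nonempty) (m : ℕ) : (Ch B m).Nonempty := by
  induction m with
  | zero => exact ⟨[], by simp [Ch]⟩
  | succ m ih => exact (h.product ih).image _

open Classical in
/-- chains in the direction `i`, with a uniform number of blocks in `[0,M]` -/
noncomputable def ChF (B : Finset (List St)) (n : ℕ) (h : ∀ w ∈ B, w.length = n)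
    (hne : B.Nonempty) (i : Fin 3) (M : ℕ) : Fam where
  ι := Fin (M + 1)
  F := fun m => (Ch B m).image (List.map (perm i))
  len := fun m => n * m
  hlen := by
    intro θ w hw
    simp only [Finset.mem_image] at hw
    obtain ⟨u, hu, rfl⟩ := hw
    rw [List.length_map, Ch_length h _ u hu]
  hne := fun m => (Ch_nonempty hne m).image _

/-- `𝒢` followed by a uniform shift and by `𝒞` -/
noncomputable def Fam.app (𝒢 : Fam) (T : ℕ) (𝒞 : Fam) : Fam := (𝒢.mul (Sh T)).mul 𝒞

/-- the quantitative properties of a family -/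
structure Good (𝒢 : Fam) (L J : ℕ) (R : ℤ) (c k h₀ h₁ D : ℝ) : Prop where
  len_le : ∀ θ, 𝒢.len θ ≤ L
  vis : ∀ θ, ∀ w ∈ 𝒢.F θ, ∀ z, (rel w).count z ≤ J
  wan : ∀ θ, ∀ w ∈ 𝒢.F θ, ∀ i ≤ w.length, |pos w i 0| ≤ R
  cost : ∀ θ, mu ^ (𝒢.len θ) * Real.exp (-c) ≤ #(𝒢.F θ)
  Kexp : 𝒢.E (fun w => (K w : ℝ)) ≤ k
  hit : ∀ (A : List V) (ν : ℕ), (∀ z, A.count z ≤ ν) →
    𝒢.E (fun w => (H A w : ℝ)) ≤ h₀ * A.length + h₁ * ν
  dens : ∀ z, 𝒢.E (fun w => if disp w = z then 1 else 0) ≤ D

/-- a family of self-avoiding words -/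
structure SawF (𝒞 : Fam) (L : ℕ) (R : ℤ) (c : ℝ) : Prop where
  len_le : ∀ θ, 𝒞.len θ ≤ L
  saw : ∀ θ, ∀ w ∈ 𝒞.F θ, Saw w
  wan : ∀ θ, ∀ w ∈ 𝒞.F θ, ∀ i ≤ w.length, |pos w i 0| ≤ R
  cost : ∀ θ, mu ^ (𝒞.len θ) * Real.exp (-c) ≤ #(𝒞.F θ)

/-- exit families: the end is the highest point, far above the start -/
structure ExitF (𝒢 : Fam) (ρ L J : ℕ) (Y : ℝ) : Prop where
  len_le : ∀ θ, 𝒢.len θ ≤ L
  vis : ∀ θ, ∀ w ∈ 𝒢.F θ, ∀ z, (rel w).count z ≤ J
  cost : ∀ θ, mu ^ (𝒢.len θ) * Real.exp (-Y) ≤ #(𝒢.F θ)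
  Kexp : 𝒢.E (fun w => (K w : ℝ)) ≤ Y
  hit : ∀ A : List V, A.length ≤ 2 * L + 2 → (∀ z, A.count z ≤ J + 2) →
    𝒢.E (fun w => (H A w : ℝ)) ≤ Y
  top : ∀ θ, ∀ w ∈ 𝒢.F θ, ∀ i ≤ w.length, pos w i 0 ≤ disp w 0
  low : ∃ R : ℤ, 0 ≤ R ∧ (∀ θ, ∀ w ∈ 𝒢.F θ, ∀ i ≤ w.length, -R ≤ pos w i 0) ∧
    ∀ θ, ∀ w ∈ 𝒢.F θ, 2 * (ρ : ℤ) + R ≤ disp w 0

end Pool.Agent.H46R2.K3
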