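import Mathlib
import Pool.Agent.H46R2.K3.Defs

/-!
# Task MU: elementary facts on the connective constant
-/

namespace Pool.Agent.H46R2.K3.P

open Finset

theorem mu_mem_W {n : ℕ} {w : List St} : w ∈ W n ↔ w.length = n := by
  unfold W
  rw [Finset.mem_image]
  constructor
  · rintro ⟨v, _, rfl⟩
    exact v.2
  · intro h
    exact ⟨⟨w, h⟩, Finset.mem_univ _, rfl⟩

theorem mu_card_W (n : ℕ) : #(W n) = 6 ^ n := by
  have hinj : Function.Injective (fun v : List.Vector St n => v.1) := fun a b h => Subtype.ext h
  unfold W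
  rw [Finset.card_image_of_injective _ hinj, Finset.card_univ, card_vector]
  congr 1

theorem mu_pos_zero (w : List St) : pos w 0 = 0 := by simp [pos]

theorem mu_pos_length (w : List St) : pos w w.length = disp w := by simp [pos, disp]

theorem mu_pos_append_left (u v : List St) {i : ℕ} (h : i ≤ u.length) :
    pos (u ++ v) i = pos u i := by
  unfold pos
  rw [List.take_append_of_le_length h]

theorem mu_pos_append_right (u v : List St) (j : ℕ) :
    pos (u ++ v) (u.length + j) = disp u + pos v j := by
  unfold pos disp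
  rw [List.take_length_add_append, List.map_append, List.sum_append]

theorem mu_disp_append (u v : List St) : disp (u ++ v) = disp u + disp v := by
  simp [disp]

theorem mu_pos_take (w : List St) {m i : ℕ} (h : i ≤ m) : pos (w.take m) i = pos w i := by
  unfold pos
  rw [List.take_take, min_eq_left h]

theorem mu_pos_drop (w : List St) (m i : ℕ) : pos (w.drop m) i = pos w (m + i) - pos w m := by
  unfold pos
  rw [eq_sub_iff_add_eq, add_comm, ← List.sum_append, ← List.map_append, List.take_add]

theorem mu_saw_take {w : List St} (h : Saw w) (m : ℕ) : Saw (w.take m) := by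
  intro i j hij hj
  rw [List.length_take] at hj
  rw [mu_pos_take w (by omega), mu_pos_take w (by omega)]
  exact h i j hij (by omega)

theorem mu_saw_drop {w : List St} (h : Saw w) (m : ℕ) : Saw (w.drop m) := by
  intro i j hij hj
  rw [List.length_drop] at hj
  rw [mu_pos_drop, mu_pos_drop]
  intro h'
  have := sub_left_injective h'
  exact h (m + i) (m + j) (by omega) (by omega) this

theorem mu_c_add (m n : ℕ) : c (m + n) ≤ c m * c n := by
  classical
  unfold c
  rw [← Finset.card_product]
  refine Finset.card_le_card_of_injOn (fun w => (w.take m, w.drop m)) ?_ ?_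
  · intro w hw
    rw [Finset.mem_coe, Finset.mem_filter, mu_mem_W] at hw
    rw [Finset.mem_coe, Finset.mem_product, Finset.mem_filter, Finset.mem_filter, mu_mem_W,
      mu_mem_W]
    refine ⟨⟨?_, mu_saw_take hw.2 m⟩, ⟨?_, mu_saw_drop hw.2 m⟩⟩
    · simp only [List.length_take]; omega
    · simp only [List.length_drop]; omega
  · intro w _ w' _ h
    simp only [Prod.mk.injEq] at h
    rw [← List.take_append_drop m w, ← List.take_append_drop m w', h.1, h.2]

theorem mu_saw_straight (n : ℕ) : Saw (List.replicate n ((0 : Fin 3), true)) := by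
  have hp : ∀ i ≤ n, pos (List.replicate n ((0 : Fin 3), true)) i 0 = (i : ℤ) := by
    intro i hi
    unfold pos
    rw [List.take_replicate, min_eq_left hi, List.map_replicate, List.sum_replicate]
    simp [vec]
  intro i j hij hj h
  rw [List.length_replicate] at hj
  have := congrFun h 0
  rw [hp i (by omega), hp j hj] at this
  omega

theorem mu_one_le_c (n : ℕ) : 1 ≤ c n := by
  classical
  unfold c
  rw [Nat.one_le_iff_ne_zero, Finset.card_ne_zero]
  exact ⟨List.replicate n ((0 : Fin 3), true), by
    rw [Finset.mem_filter, mu_mem_W]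
    exact ⟨by simp, mu_saw_straight n⟩⟩

theorem mu_c_le (n : ℕ) : c n ≤ 6 ^ n := by
  classical
  unfold c
  exact (Finset.card_filter_le _ _).trans (mu_card_W n).le

theorem mu_b_le_c (n : ℕ) : b n ≤ c n := by
  classical
  unfold b c
  refine Finset.card_le_card ?_
  intro w hw
  rw [Finset.mem_filter] at hw ⊢
  exact ⟨hw.1, hw.2.1⟩

theorem mu_one_le_b_zero : 1 ≤ b 0 := by
  classical
  unfold b
  rw [Nat.one_le_iff_ne_zero, Finset.card_ne_zero]
  refine ⟨[], ?_⟩
  rw [Finset.mem_filter, mu_mem_W]
  refine ⟨rfl, ?_, ?_⟩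
  · intro i j hij hj
    simp at hj
    omega
  · intro i h1 h2
    simp at h2
    omega

theorem mu_br_disp {u : List St} (h : Br u) : 0 ≤ disp u 0 := by
  rcases Nat.eq_zero_or_pos u.length with h0 | h0
  · rw [List.length_eq_zero_iff] at h0
    subst h0
    simp [disp]
  · have := h.2 u.length h0 le_rfl
    omega

theorem mu_br_le {u : List St} (h : Br u) {i : ℕ} (hi : i ≤ u.length) :
    0 ≤ pos u i 0 ∧ pos u i 0 ≤ disp u 0 := by
  rcases Nat.eq_zero_or_pos i with h0 | h0
  · subst h0
    rw [mu_pos_zero]
    exact ⟨le_rfl, mu_br_disp h⟩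
  · have := h.2 i h0 hi
    omega

theorem mu_br_append {u v : List St} (hu : Br u) (hv : Br v) : Br (u ++ v) := by
  have hR : ∀ i, u.length < i → i ≤ (u ++ v).length →
      pos (u ++ v) i = disp u + pos v (i - u.length) := by
    intro i h1 _
    have := mu_pos_append_right u v (i - u.length)
    rwa [show u.length + (i - u.length) = i by omega] at this
  refine ⟨?_, ?_⟩
  · intro i j hij hj
    by_cases h1 : j ≤ u.length
    · rw [mu_pos_append_left u v (by omega), mu_pos_append_left u v h1]
      exact hu.1 i j hij h1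
    · push Not at h1
      rw [hR j h1 hj]
      rw [List.length_append] at hj
      by_cases h2 : i ≤ u.length
      · rw [mu_pos_append_left u v h2]
        intro h3
        have h4 := congrFun h3 0
        rw [Pi.add_apply] at h4
        have h5 := (mu_br_le hu h2).2
        have h6 := (hv.2 (j - u.length) (by omega) (by omega)).1
        omega
      · push Not at h2
        rw [hR i h2 (by rw [List.length_append]; omega)]
        intro h3
        exact hv.1 (i - u.length) (j - u.length) (by omega) (by omega) (add_left_cancel h3)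
  · intro i h1 h2
    rw [mu_disp_append, Pi.add_apply]
    have h0 := mu_br_disp hu
    have h0' := mu_br_disp hv
    by_cases h3 : i ≤ u.length
    · rw [mu_pos_append_left u v h3]
      have := hu.2 i h1 h3
      omega
    · push Not at h3
      rw [hR i h3 h2, Pi.add_apply]
      rw [List.length_append] at h2
      have := hv.2 (i - u.length) (by omega) (by omega)
      omega

theorem mu_b_mul (m n : ℕ) : b m * b n ≤ b (m + n) := by
  classical
  unfold b
  rw [← Finset.card_product]
  refine Finset.card_le_card_of_injOn (fun p => p.1 ++ p.2) ?_ ?_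
  · intro p hp
    rw [Finset.mem_coe, Finset.mem_product, Finset.mem_filter, Finset.mem_filter, mu_mem_W,
      mu_mem_W] at hp
    rw [Finset.mem_coe, Finset.mem_filter, mu_mem_W]
    exact ⟨by rw [List.length_append, hp.1.1, hp.2.1], mu_br_append hp.1.2 hp.2.2⟩
  · intro p hp q hq h
    rw [Finset.mem_coe, Finset.mem_product, Finset.mem_filter, Finset.mem_filter, mu_mem_W,
      mu_mem_W] at hp hq
    have := List.append_inj h (hp.1.1.trans hq.1.1.symm)
    exact Prod.ext this.1 this.2

theorem mu_b_pow (n k : ℕ) : b n ^ k ≤ b (n * k) := by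
  induction k with
  | zero => simpa using mu_one_le_b_zero
  | succ k ih =>
    calc b n ^ (k + 1) = b n ^ k * b n := pow_succ _ _
      _ ≤ b (n * k) * b n := Nat.mul_le_mul_right _ ih
      _ ≤ b (n * k + n) := mu_b_mul _ _
      _ = b (n * (k + 1)) := by rw [Nat.mul_succ]

theorem mu_bdd : BddBelow (Set.range fun n : ℕ => ((c (n + 1) : ℕ) : ℝ) ^ (1 / ((n : ℝ) + 1))) :=
  ⟨0, by rintro _ ⟨n, rfl⟩; positivity⟩

theorem mu_one_le_cR (n : ℕ) : (1 : ℝ) ≤ (c n : ℝ) := by exact_mod_cast mu_one_le_c n

theorem one_le_mu : 1 ≤ mu := by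
  unfold mu
  refine le_ciInf fun n => ?_
  exact Real.one_le_rpow (mu_one_le_cR _) (by positivity)

theorem mu_le_root (n : ℕ) : mu ≤ ((c (n + 1) : ℕ) : ℝ) ^ (1 / ((n : ℝ) + 1)) :=
  ciInf_le mu_bdd n

theorem mu_le_six : mu ≤ 6 := by
  refine (mu_le_root 0).trans ?_
  have h : (c 1 : ℝ) ≤ 6 := by exact_mod_cast mu_c_le 1
  simpa using h

theorem mu_pow_le (n : ℕ) : mu ^ n ≤ (c n : ℝ) := by
  rcases n with _ | n
  · simpa using mu_one_le_cR 0
  · have h0 : 0 ≤ mu := zero_le_one.trans one_le_mu
    calc mu ^ (n + 1) ≤ (((c (n + 1) : ℕ) : ℝ) ^ (1 / ((n : ℝ) + 1))) ^ (n + 1) :=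
          pow_le_pow_left₀ h0 (mu_le_root n) _
      _ = c (n + 1) := by
          rw [← Real.rpow_natCast, ← Real.rpow_mul (by positivity)]
          push_cast
          rw [one_div_mul_cancel (by positivity), Real.rpow_one]

theorem tendsto_c :
    Filter.Tendsto (fun n : ℕ => (c n : ℝ) ^ (1 / (n : ℝ))) Filter.atTop (nhds mu) := by
  have hsub : Subadditive fun n : ℕ => Real.log (c n) := by
    intro m n
    have h1 : (0 : ℝ) < c m := zero_lt_one.trans_le (mu_one_le_cR m)
    have h2 : (0 : ℝ) < c n := zero_lt_one.trans_le (mu_one_le_cR n)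
    have h3 : (0 : ℝ) < c (m + n) := zero_lt_one.trans_le (mu_one_le_cR _)
    change Real.log (c (m + n)) ≤ Real.log (c m) + Real.log (c n)
    rw [← Real.log_mul h1.ne' h2.ne']
    refine Real.log_le_log h3 ?_
    exact_mod_cast mu_c_add m n
  have hbdd : BddBelow (Set.range fun n : ℕ => Real.log (c n) / n) :=
    ⟨0, by
      rintro _ ⟨n, rfl⟩
      exact div_nonneg (Real.log_nonneg (mu_one_le_cR n)) (Nat.cast_nonneg n)⟩
  have hlim := hsub.tendsto_lim hbdd
  have hexp : Filter.Tendsto (fun n : ℕ => (c n : ℝ) ^ (1 / (n : ℝ))) Filter.atTop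
      (nhds (Real.exp hsub.lim)) := by
    have h1 := (Real.continuous_exp.tendsto hsub.lim).comp hlim
    refine h1.congr fun n => ?_
    have h2 : (0 : ℝ) < c n := zero_lt_one.trans_le (mu_one_le_cR n)
    simp only [Function.comp]
    rw [Real.rpow_def_of_pos h2]
    congr 1
    ring
  have heq : Real.exp hsub.lim = mu := by
    apply le_antisymm
    · unfold mu
      refine le_ciInf fun n => ?_
      have h1 := hsub.lim_le_div hbdd (n := n + 1) (by omega)
      have h2 : (0 : ℝ) < c (n + 1) := zero_lt_one.trans_le (mu_one_le_cR _)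
      rw [Real.rpow_def_of_pos h2]
      refine Real.exp_le_exp.2 (h1.trans (le_of_eq ?_))
      push_cast
      ring
    · refine ge_of_tendsto hexp ?_
      filter_upwards [Filter.eventually_ge_atTop 1] with n hn
      obtain ⟨m, rfl⟩ : ∃ m, n = m + 1 := ⟨n - 1, by omega⟩
      have := mu_le_root m
      push_cast
      exact this
  rwa [heq] at hexp

theorem b_le (n : ℕ) : (b n : ℝ) ≤ mu ^ n := by
  rcases Nat.eq_zero_or_pos n with h0 | h0
  · subst h0
    have : b 0 ≤ 1 := (mu_b_le_c 0).trans (by simpa using mu_c_le 0)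
    simpa using (by exact_mod_cast this : (b 0 : ℝ) ≤ 1)
  · have hn : (0 : ℝ) < n := by exact_mod_cast h0
    have h1 : Filter.Tendsto (fun k : ℕ => n * k) Filter.atTop Filter.atTop :=
      Filter.tendsto_id.const_mul_atTop' h0
    have h2 := tendsto_c.comp h1
    have h3 : (b n : ℝ) ^ (1 / (n : ℝ)) ≤ mu := by
      refine ge_of_tendsto h2 ?_
      filter_upwards [Filter.eventually_ge_atTop 1] with k hk
      have hk' : (0 : ℝ) < k := by exact_mod_cast hk
      simp only [Function.comp]
      have h4 : (b n : ℝ) ^ k ≤ (c (n * k) : ℝ) := by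
        exact_mod_cast (mu_b_pow n k).trans (mu_b_le_c _)
      calc (b n : ℝ) ^ (1 / (n : ℝ)) = ((b n : ℝ) ^ k) ^ (1 / ((n * k : ℕ) : ℝ)) := by
            rw [← Real.rpow_natCast, ← Real.rpow_mul (by positivity)]
            congr 1
            push_cast
            field_simp
        _ ≤ (c (n * k) : ℝ) ^ (1 / ((n * k : ℕ) : ℝ)) :=
            Real.rpow_le_rpow (by positivity) h4 (by positivity)
    calc (b n : ℝ) = ((b n : ℝ) ^ (1 / (n : ℝ))) ^ n := by
          rw [← Real.rpow_natCast, ← Real.rpow_mul (by positivity), one_div_mul_cancel hn.ne',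
            Real.rpow_one]
      _ ≤ mu ^ n := pow_le_pow_left₀ (by positivity) h3 n

end Pool.Agent.H46R2.K3.P
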