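import Pool.Agent.H46R2.K3.Defs
import Pool.Agent.H46R2.K3.MU

/-!
Task SHIFT of team K3: monotone words and the uniform shift.
-/

namespace Pool.Agent.H46R2.K3.P

open Finset

theorem shift_sum_vec (s : St) (h : s.2 = true) : ∑ i, vec s i = 1 := by
  simp [vec, h]

theorem shift_vec_nonneg (s : St) (h : s.2 = true) (i : Fin 3) : 0 ≤ vec s i := by
  simp only [vec, h, if_true]
  split_ifs <;> simp

theorem shift_sum_map (w : List St) (h : ∀ s ∈ w, s.2 = true) :
    ∑ i, (w.map vec).sum i = w.length := by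
  induction w with
  | nil => simp
  | cons s w ih =>
    rw [List.map_cons, List.sum_cons, List.length_cons]
    simp only [Pi.add_apply, Finset.sum_add_distrib]
    rw [shift_sum_vec s (h s (List.mem_cons_self)),
      ih (fun t ht => h t (List.mem_cons_of_mem _ ht))]
    push_cast
    ring

theorem shift_map_nonneg (w : List St) (h : ∀ s ∈ w, s.2 = true) (i : Fin 3) :
    0 ≤ (w.map vec).sum i := by
  induction w with
  | nil => simp
  | cons s w ih =>
    rw [List.map_cons, List.sum_cons, Pi.add_apply]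
    exact add_nonneg (shift_vec_nonneg s (h s (List.mem_cons_self)) i)
      (ih (fun t ht => h t (List.mem_cons_of_mem _ ht)))

theorem shift_sw_true (y : Fin 3 → ℕ) : ∀ s ∈ sw y, s.2 = true := by
  intro s hs
  unfold sw at hs
  simp only [List.mem_append, List.mem_replicate] at hs
  rcases hs with (⟨-, rfl⟩ | ⟨-, rfl⟩) | ⟨-, rfl⟩ <;> rfl

theorem saw_sw (y : Fin 3 → ℕ) : Saw (sw y) := by
  intro i j hij hj h
  have key : ∀ k, k ≤ (sw y).length → ∑ t, pos (sw y) k t = k := by
    intro k hk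
    unfold pos
    rw [shift_sum_map _ (fun s hs => shift_sw_true y s (List.mem_of_mem_take hs)),
      List.length_take, min_eq_left hk]
  have h1 := key i (hij.le.trans hj)
  have h2 := key j hj
  rw [h, h2] at h1
  have : j = i := by exact_mod_cast h1
  omega

theorem disp_sw (y : Fin 3 → ℕ) : disp (sw y) = fun i => (y i : ℤ) := by
  unfold disp sw
  simp only [List.map_append, List.map_replicate, List.sum_append, List.sum_replicate]
  funext i
  fin_cases i <;> simp [vec]

theorem pos_sw (y : Fin 3 → ℕ) (i : ℕ) : 0 ≤ pos (sw y) i 0 ∧ pos (sw y) i 0 ≤ y 0 := by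
  have h1 : 0 ≤ (((sw y).take i).map vec).sum 0 :=
    shift_map_nonneg _ (fun s hs => shift_sw_true y s (List.mem_of_mem_take hs)) 0
  have h2 : 0 ≤ (((sw y).drop i).map vec).sum 0 :=
    shift_map_nonneg _ (fun s hs => shift_sw_true y s (List.mem_of_mem_drop hs)) 0
  have h3 : (((sw y).take i).map vec).sum 0 + (((sw y).drop i).map vec).sum 0 = y 0 := by
    have h4 := congrFun (disp_sw y) 0
    unfold disp at h4
    rw [← Pi.add_apply, ← List.sum_append, ← List.map_append, List.take_append_drop]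
    exact h4
  refine ⟨h1, ?_⟩
  unfold pos
  linarith

theorem Sh_dens (T : ℕ) (z : V) :
    (Sh T).E (fun w => if disp w = z then 1 else 0) ≤ 1 / ((T : ℝ) + 1) ^ 3 := by
  unfold Fam.E
  have hcard : (Fintype.card (Sh T).ι : ℝ) = ((T : ℝ) + 1) ^ 3 := by
    have : Fintype.card (Sh T).ι = (T + 1) ^ 3 := by
      show Fintype.card (Fin 3 → Fin (T + 1)) = _
      simp
    rw [this]
    push_cast
    rfl
  rw [hcard]
  have hpos : (0:ℝ) < ((T : ℝ) + 1) ^ 3 := by positivity
  refine div_le_div_of_nonneg_right ?_ hpos.le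
  have hterm : ∀ θ : (Sh T).ι, (∑ w ∈ (Sh T).F θ, (if disp w = z then (1:ℝ) else 0)) /
      #((Sh T).F θ) = if (fun i => (((show Fin 3 → Fin (T + 1) from θ) i : ℕ) : ℤ)) = z
        then (1:ℝ) else 0 := by
    intro θ
    have e1 : (Sh T).F θ = {sw fun i => ((show Fin 3 → Fin (T + 1) from θ) i : ℕ)} := rfl
    rw [e1, Finset.sum_singleton, Finset.card_singleton, disp_sw]
    simp
  rw [Finset.sum_congr rfl (fun θ _ => hterm θ)]
  by_cases hex : ∃ θ0 : (Sh T).ι, (fun i => (((show Fin 3 → Fin (T + 1) from θ0) i : ℕ) : ℤ)) = z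
  · obtain ⟨θ0, hθ0⟩ := hex
    rw [Finset.sum_eq_single θ0]
    · rw [if_pos hθ0]
    · intro θ _ hne
      rw [if_neg]
      intro h
      apply hne
      have h1 : (show Fin 3 → Fin (T + 1) from θ) = (show Fin 3 → Fin (T + 1) from θ0) := by
        funext i
        have h2 := congrFun (h.trans hθ0.symm) i
        apply Fin.ext
        exact_mod_cast h2
      exact h1
    · intro h
      exact absurd (Finset.mem_univ _) h
  · push Not at hex
    rw [Finset.sum_eq_zero]
    · norm_num
    · intro θ _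
      rw [if_neg (hex θ)]

theorem Sh_sawF (T : ℕ) : SawF (Sh T) (3 * T) T (3 * (T : ℝ) * Real.log 6) where
  len_le θ := by
    have e1 : (Sh T).len θ = ((show Fin 3 → Fin (T + 1) from θ) 0 : ℕ) +
      ((show Fin 3 → Fin (T + 1) from θ) 1 : ℕ) + ((show Fin 3 → Fin (T + 1) from θ) 2 : ℕ) := rfl
    rw [e1]
    have h0 := ((show Fin 3 → Fin (T + 1) from θ) 0).2
    have h1 := ((show Fin 3 → Fin (T + 1) from θ) 1).2
    have h2 := ((show Fin 3 → Fin (T + 1) from θ) 2).2
    omega
  saw θ w hw := by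
    have e1 : (Sh T).F θ = {sw fun i => ((show Fin 3 → Fin (T + 1) from θ) i : ℕ)} := rfl
    rw [e1, Finset.mem_singleton] at hw
    rw [hw]
    exact saw_sw _
  wan θ w hw i _ := by
    have e1 : (Sh T).F θ = {sw fun i => ((show Fin 3 → Fin (T + 1) from θ) i : ℕ)} := rfl
    rw [e1, Finset.mem_singleton] at hw
    rw [hw]
    obtain ⟨h1, h2⟩ := pos_sw (fun i => ((show Fin 3 → Fin (T + 1) from θ) i : ℕ)) i
    rw [abs_of_nonneg h1]
    have h3 := ((show Fin 3 → Fin (T + 1) from θ) 0).2
    refine h2.trans ?_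
    exact_mod_cast Nat.lt_succ_iff.1 h3
  cost θ := by
    have e1 : (Sh T).F θ = {sw fun i => ((show Fin 3 → Fin (T + 1) from θ) i : ℕ)} := rfl
    have hlen : (Sh T).len θ ≤ 3 * T := by
      have e1 : (Sh T).len θ = ((show Fin 3 → Fin (T + 1) from θ) 0 : ℕ) +
        ((show Fin 3 → Fin (T + 1) from θ) 1 : ℕ) +
        ((show Fin 3 → Fin (T + 1) from θ) 2 : ℕ) := rfl
      rw [e1]
      have h0 := ((show Fin 3 → Fin (T + 1) from θ) 0).2
      have h1 := ((show Fin 3 → Fin (T + 1) from θ) 1).2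
      have h2 := ((show Fin 3 → Fin (T + 1) from θ) 2).2
      omega
    rw [e1, Finset.card_singleton, Nat.cast_one]
    have h0 : (0:ℝ) ≤ mu := zero_le_one.trans one_le_mu
    have h1 : mu ^ ((Sh T).len θ) ≤ (6:ℝ) ^ (3 * T) :=
      (pow_le_pow_left₀ h0 mu_le_six _).trans (pow_le_pow_right₀ (by norm_num) hlen)
    have h2 : (6:ℝ) ^ (3 * T) = Real.exp (3 * (T : ℝ) * Real.log 6) := by
      rw [← Real.exp_log (show (0:ℝ) < 6 by norm_num), ← Real.exp_nat_mul, Real.log_exp]
      congr 1
      push_cast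
      ring
    calc mu ^ ((Sh T).len θ) * Real.exp (-(3 * (T : ℝ) * Real.log 6))
        ≤ (6:ℝ) ^ (3 * T) * Real.exp (-(3 * (T : ℝ) * Real.log 6)) := by gcongr
      _ = 1 := by rw [h2, ← Real.exp_add, add_neg_cancel, Real.exp_zero]

end Pool.Agent.H46R2.K3.P
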