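import Pool.Agent.H46R2.K3.HK
import Pool.Agent.H46R2.K3.FAM
import Pool.Agent.H46R2.K3.SHIFT
import Pool.Agent.H46R2.K3.MU

/-!
Task APP of project K3 (self-avoiding walks on `ℤ³`): appending a uniform shift and a family of
self-avoiding words to a family.
-/

namespace Pool.Agent.H46R2.K3.P

open Finset

theorem app_aux_disp (u v : List St) : disp (u ++ v) = disp u + disp v := by
  simp [disp]

theorem app_aux_pos_le (u v : List St) {i : ℕ} (h : i ≤ u.length) : pos (u ++ v) i = pos u i := by
  unfold pos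
  rw [List.take_append_of_le_length h]

theorem app_aux_pos_ge (u v : List St) {i : ℕ} (h : u.length ≤ i) :
    pos (u ++ v) i = disp u + pos v (i - u.length) := by
  unfold pos disp
  rw [List.take_append, List.take_of_length_le h, List.map_append, List.sum_append]

theorem app_aux_pos_length (w : List St) : pos w w.length = disp w := by
  unfold pos disp
  rw [List.take_length]

theorem app_aux_pos_zero (w : List St) : pos w 0 = 0 := by
  simp [pos]

theorem app_aux_mem_mul {𝒢 ℋ : Fam} {θ : 𝒢.ι × ℋ.ι} {w : List St} (h : w ∈ (𝒢.mul ℋ).F θ) :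
    ∃ u ∈ 𝒢.F θ.1, ∃ v ∈ ℋ.F θ.2, w = u ++ v := by
  classical
  simp only [Fam.mul, Finset.mem_image, Finset.mem_product] at h
  obtain ⟨p, ⟨h1, h2⟩, rfl⟩ := h
  exact ⟨p.1, h1, p.2, h2, rfl⟩

/-- the horizontal extension of concatenations -/
theorem app_aux_wan {u v : List St} {R R' : ℤ} (hu : ∀ i ≤ u.length, |pos u i 0| ≤ R)
    (hv : ∀ i ≤ v.length, |pos v i 0| ≤ R') : ∀ i ≤ (u ++ v).length, |pos (u ++ v) i 0| ≤ R + R' := by
  intro i hi
  have h0 : 0 ≤ R' := by
    have := hv 0 (Nat.zero_le _)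
    exact le_trans (abs_nonneg _) this
  rcases le_total i u.length with h | h
  · rw [app_aux_pos_le u v h]
    have := hu i h
    linarith
  · rw [app_aux_pos_ge u v h, Pi.add_apply]
    have h1 := hu u.length le_rfl
    rw [app_aux_pos_length] at h1
    have h2 := hv (i - u.length) (by rw [List.length_append] at hi; omega)
    exact le_trans (abs_add_le _ _) (add_le_add h1 h2)

theorem app_aux_count (A : List V) (z y : V) :
    (((sh A z).count y : ℕ) : ℝ) = (A.map fun p => if z = p - y then (1 : ℝ) else 0).sum := by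
  induction A with
  | nil => simp [sh]
  | cons p A ih =>
    have h1 : sh (p :: A) z = (p - z) :: sh A z := rfl
    rw [h1, List.count_cons, List.map_cons, List.sum_cons, ← ih]
    by_cases h : z = p - y
    · have : p - z = y := by rw [h]; abel
      simp [h]
      ring
    · have : p - z ≠ y := by
        intro h'
        apply h
        rw [← h']; abel
      simp [h, this]

/-- the expected number of hits of a fixed word after a family with bounded density -/
theorem app_aux_hit {𝒢 : Fam} {D : ℝ} (hD : ∀ z, 𝒢.E (fun w => if disp w = z then 1 else 0) ≤ D)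
    (A : List V) (w : List St) :
    𝒢.E (fun u => (H (sh A (disp u)) w : ℝ)) ≤ w.length * (A.length * D) := by
  have h1 : (fun u : List St => ((H (sh A (disp u)) w : ℕ) : ℝ)) =
      fun u => ∑ j ∈ Icc 1 w.length,
        (A.map fun p => if disp u = p - pos w j then (1 : ℝ) else 0).sum := by
    funext u
    unfold H
    push_cast
    exact Finset.sum_congr rfl fun j _ => app_aux_count A _ _
  rw [h1, E_sum]
  have h2 : ∀ j ∈ Icc 1 w.length,
      𝒢.E (fun u => (A.map fun p => if disp u = p - pos w j then (1 : ℝ) else 0).sum) ≤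
        A.length * D := by
    intro j _
    rw [E_listsum]
    have : ∀ B : List V, (B.map fun p => 𝒢.E
        (fun u => if disp u = p - pos w j then (1 : ℝ) else 0)).sum ≤ B.length * D := by
      intro B
      induction B with
      | nil => simp
      | cons p B ih =>
        rw [List.map_cons, List.sum_cons, List.length_cons]
        push_cast
        have := hD (p - pos w j)
        linarith
    exact this A
  calc _ ≤ ∑ _j ∈ Icc 1 w.length, (A.length * D) := Finset.sum_le_sum h2
    _ = w.length * (A.length * D) := by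
      rw [Finset.sum_const, Nat.card_Icc, Nat.add_sub_cancel, nsmul_eq_mul]

theorem app_aux_dens_right {𝒢 ℋ : Fam} {D : ℝ}
    (hD : ∀ z, ℋ.E (fun w => if disp w = z then 1 else 0) ≤ D) (z : V) :
    (𝒢.mul ℋ).E (fun w => if disp w = z then 1 else 0) ≤ D := by
  rw [E_mul]
  have h1 : 𝒢.E (fun u => ℋ.E fun v => if disp (u ++ v) = z then (1:ℝ) else 0) ≤
      𝒢.E (fun _ => D) := by
    apply E_mono
    intro θ u _
    have := hD (z - disp u)
    have h2 : (fun v : List St => if disp (u ++ v) = z then (1:ℝ) else 0) =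
        fun v => if disp v = z - disp u then (1:ℝ) else 0 := by
      funext v
      rw [app_aux_disp]
      have : disp u + disp v = z ↔ disp v = z - disp u := by
        constructor
        · intro h; rw [← h]; abel
        · intro h; rw [h]; abel
      simp only [this]
    rw [h2]
    exact this
  rwa [E_const] at h1

theorem app_aux_dens_left {𝒢 ℋ : Fam} {D : ℝ}
    (hD : ∀ z, 𝒢.E (fun w => if disp w = z then 1 else 0) ≤ D) (z : V) :
    (𝒢.mul ℋ).E (fun w => if disp w = z then 1 else 0) ≤ D := by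
  rw [E_mul, E_comm]
  have h1 : ℋ.E (fun v => 𝒢.E fun u => if disp (u ++ v) = z then (1:ℝ) else 0) ≤
      ℋ.E (fun _ => D) := by
    apply E_mono
    intro θ v _
    have := hD (z - disp v)
    have h2 : (fun u : List St => if disp (u ++ v) = z then (1:ℝ) else 0) =
        fun u => if disp u = z - disp v then (1:ℝ) else 0 := by
      funext u
      rw [app_aux_disp]
      have : disp u + disp v = z ↔ disp u = z - disp v := by
        constructor
        · intro h; rw [← h]; abel
        · intro h; rw [h]; abel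
      simp only [this]
    rw [h2]
    exact this
  rwa [E_const] at h1

theorem app_aux_count_sh {A : List V} {ν : ℕ} (h : ∀ z, A.count z ≤ ν) (x z : V) :
    (sh A x).count z ≤ ν := by
  have : (sh A x).count z = A.count (z + x) := by
    unfold sh
    rw [show z = (fun p : V => p - x) (z + x) by simp,
      List.count_map_of_injective A (fun p => p - x) (sub_left_injective) (z + x)]
    simp
  rw [this]
  exact h _

theorem app_aux_len_sh {T : ℕ} {θ : (Sh T).ι} : (Sh T).len θ ≤ 3 * T := (Sh_sawF T).len_le θ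

theorem app_good {𝒢 𝒞 : Fam} {L J L' : ℕ} {R R' : ℤ} {c k h₀ h₁ D c' : ℝ}
    (hG : Good 𝒢 L J R c k h₀ h₁ D) (hC : SawF 𝒞 L' R' c') (hD : 0 ≤ D) (T : ℕ) :
    Good (𝒢.app T 𝒞) (L + 3 * T + L') (J + 2) (R + T + R') (c + 3 * T * Real.log 6 + c')
      (k + 3 * T * J + (3 * T + 1) + ((L : ℝ) + 1) * L' / ((T : ℝ) + 1) ^ 3)
      (h₀ + L' * min D (1 / ((T : ℝ) + 1) ^ 3)) (h₁ + 3 * T)
      (min D (1 / ((T : ℝ) + 1) ^ 3)) := by
  have hS := Sh_sawF T
  have hGne : 𝒢.ι × 𝒞.ι := ⟨Classical.choice 𝒢.ne, Classical.choice 𝒞.ne⟩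
  have hmin : 0 ≤ min D (1 / ((T : ℝ) + 1) ^ 3) := le_min hD (by positivity)
  -- density of the first two factors
  have hdens2 : ∀ z, (𝒢.mul (Sh T)).E (fun w => if disp w = z then 1 else 0) ≤
      min D (1 / ((T : ℝ) + 1) ^ 3) := fun z =>
    le_min (app_aux_dens_left hG.dens z) (app_aux_dens_right (Sh_dens T) z)
  -- lengths
  have hslen : ∀ θ : (Sh T).ι, ∀ s ∈ (Sh T).F θ, s.length ≤ 3 * T := fun θ s hs => by
    rw [(Sh T).hlen θ s hs]; exact hS.len_le θ
  have hclen : ∀ θ : 𝒞.ι, ∀ s ∈ 𝒞.F θ, s.length ≤ L' := fun θ s hs => by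
    rw [𝒞.hlen θ s hs]; exact hC.len_le θ
  have hglen : ∀ θ : 𝒢.ι, ∀ s ∈ 𝒢.F θ, s.length ≤ L := fun θ s hs => by
    rw [𝒢.hlen θ s hs]; exact hG.len_le θ
  refine ⟨?_, ?_, ?_, ?_, ?_, ?_, ?_⟩
  · -- len
    intro θ
    have h1 := hG.len_le θ.1.1
    have h2 := hS.len_le θ.1.2
    have h3 := hC.len_le θ.2
    change (𝒢.len θ.1.1 + (Sh T).len θ.1.2) + 𝒞.len θ.2 ≤ _
    omega
  · -- vis
    intro θ w hw z
    obtain ⟨u, hu, v, hv, rfl⟩ := app_aux_mem_mul hw
    obtain ⟨g, hg, s, hs, rfl⟩ := app_aux_mem_mul hu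
    have h1 := count_rel_append (g ++ s) v z
    have h2 := count_rel_append g s (z + disp v)
    have h3 := hG.vis _ g hg (z + disp v + disp s)
    have h4 := count_rel_saw (hS.saw _ s hs) (z + disp v)
    have h5 := count_rel_saw (hC.saw _ v hv) z
    omega
  · -- wan
    intro θ w hw
    obtain ⟨u, hu, v, hv, rfl⟩ := app_aux_mem_mul hw
    obtain ⟨g, hg, s, hs, rfl⟩ := app_aux_mem_mul hu
    exact app_aux_wan (app_aux_wan (hG.wan _ g hg) (hS.wan _ s hs)) (hC.wan _ v hv)
  · -- cost
    intro θ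
    have h1 := hG.cost θ.1.1
    have h2 := hS.cost θ.1.2
    have h3 := hC.cost θ.2
    have e1 : #((𝒢.app T 𝒞).F θ) = #(𝒢.F θ.1.1) * #((Sh T).F θ.1.2) * #(𝒞.F θ.2) := by
      have a1 := card_mul (𝒢.mul (Sh T)) 𝒞 θ
      have a2 := card_mul 𝒢 (Sh T) θ.1
      exact a1.trans (by rw [a2])
    have e2 : mu ^ ((𝒢.app T 𝒞).len θ) * Real.exp (-(c + 3 * T * Real.log 6 + c')) =
        (mu ^ (𝒢.len θ.1.1) * Real.exp (-c)) *
          (mu ^ ((Sh T).len θ.1.2) * Real.exp (-(3 * (T : ℝ) * Real.log 6))) *
          (mu ^ (𝒞.len θ.2) * Real.exp (-c')) := by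
      change mu ^ ((𝒢.len θ.1.1 + (Sh T).len θ.1.2) + 𝒞.len θ.2) * _ = _
      rw [pow_add, pow_add, show -(c + 3 * T * Real.log 6 + c') =
        (-c) + (-(3 * (T : ℝ) * Real.log 6)) + (-c') by ring, Real.exp_add, Real.exp_add]
      ring
    rw [e1, e2]
    push_cast
    have hmu : 0 ≤ mu := le_trans zero_le_one one_le_mu
    apply mul_le_mul (mul_le_mul h1 h2 (by positivity) (by positivity)) h3 (by positivity)
      (by positivity)
  · -- Kexp
    have hK : ∀ θ, ∀ g ∈ 𝒢.F θ, ∀ θ', ∀ s ∈ (Sh T).F θ', ∀ θ'', ∀ v ∈ 𝒞.F θ'',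
        (K (g ++ s ++ v) : ℝ) ≤ K g + 3 * T * J + (3 * T + 1) + H (sh (rel g) (disp s)) v := by
      intro θ g hg θ' s hs θ'' v hv
      have h1 := K_append (g ++ s) v
      have h2 := K_append g s
      have h3 := K_saw (hS.saw _ s hs)
      have h4 := K_saw (hC.saw _ v hv)
      have h5 : H (rel g) s ≤ J * s.length := H_le_count (hG.vis _ g hg) s
      have h6 := H_rel_append g s v
      have h7 : H (rel s) v ≤ (rel s).length := H_le_length (hC.saw _ v hv) _
      have h8 : (rel s).length = s.length + 1 := by simp [rel]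
      have h9 := hslen _ s hs
      have h10 : J * s.length ≤ J * (3 * T) := Nat.mul_le_mul_left _ h9
      have h11 : K (g ++ s ++ v) ≤ K g + J * (3 * T) + (3 * T + 1) + H (sh (rel g) (disp s)) v := by
        omega
      have h12 : (K (g ++ s ++ v) : ℝ) ≤
          ((K g + J * (3 * T) + (3 * T + 1) + H (sh (rel g) (disp s)) v : ℕ) : ℝ) := by
        exact_mod_cast h11
      push_cast at h12
      linarith
    have hL : (𝒢.app T 𝒞).E (fun w => (K w : ℝ)) ≤ 𝒢.E fun g => 𝒞.E fun v => (Sh T).E fun s =>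
        ((K g : ℝ) + 3 * T * J + (3 * T + 1) + H (sh (rel g) (disp s)) v) := by
      change ((𝒢.mul (Sh T)).mul 𝒞).E _ ≤ _
      rw [E_mul, E_mul]
      apply E_mono
      intro θ g hg
      rw [E_comm]
      apply E_mono
      intro θ'' v hv
      apply E_mono
      intro θ' s hs
      exact hK θ g hg θ' s hs θ'' v hv
    refine hL.trans ?_
    have hL2 : (𝒢.E fun g => 𝒞.E fun v => (Sh T).E fun s =>
        ((K g : ℝ) + 3 * T * J + (3 * T + 1) + H (sh (rel g) (disp s)) v)) ≤
        𝒢.E fun g => ((K g : ℝ) + (3 * T * J + (3 * T + 1) +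
          ((L : ℝ) + 1) * L' / ((T : ℝ) + 1) ^ 3)) := by
      apply E_mono
      intro θ g hg
      have : (𝒞.E fun v => (Sh T).E fun s =>
          ((K g : ℝ) + 3 * T * J + (3 * T + 1) + H (sh (rel g) (disp s)) v)) ≤
          𝒞.E fun _ => ((K g : ℝ) + (3 * T * J + (3 * T + 1) +
          ((L : ℝ) + 1) * L' / ((T : ℝ) + 1) ^ 3)) := by
        apply E_mono
        intro θ'' v hv
        rw [E_add, E_const]
        have h1 := app_aux_hit (Sh_dens T) (rel g) v
        have h2 : ((rel g).length : ℝ) ≤ (L : ℝ) + 1 := by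
          have : (rel g).length = g.length + 1 := by simp [rel]
          rw [this]
          push_cast
          have : (g.length : ℝ) ≤ L := by exact_mod_cast hglen _ g hg
          linarith
        have h3 : (v.length : ℝ) ≤ (L' : ℝ) := by exact_mod_cast hclen _ v hv
        have h4 : (v.length : ℝ) * ((rel g).length * (1 / ((T : ℝ) + 1) ^ 3)) ≤
            (L' : ℝ) * (((L : ℝ) + 1) * (1 / ((T : ℝ) + 1) ^ 3)) := by
          apply mul_le_mul h3 _ (by positivity) (by positivity)
          exact mul_le_mul_of_nonneg_right h2 (by positivity)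
        have h5 : (L' : ℝ) * (((L : ℝ) + 1) * (1 / ((T : ℝ) + 1) ^ 3)) =
          ((L : ℝ) + 1) * L' / ((T : ℝ) + 1) ^ 3 := by ring
        linarith
      rwa [E_const] at this
    refine hL2.trans ?_
    rw [E_add, E_const]
    have := hG.Kexp
    linarith
  · -- hit
    intro A ν hA
    have h1 : (𝒢.app T 𝒞).E (fun w => (H A w : ℝ)) ≤ (𝒢.mul (Sh T)).E fun u => 𝒞.E fun v =>
        ((H A u : ℝ) + H (sh A (disp u)) v) := by
      change ((𝒢.mul (Sh T)).mul 𝒞).E _ ≤ _
      rw [E_mul]
      apply E_mono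
      intro θ u hu
      apply E_mono
      intro θ' v hv
      rw [H_append]
      push_cast
      exact le_rfl
    have h2 : ((𝒢.mul (Sh T)).E fun u => 𝒞.E fun v =>
        ((H A u : ℝ) + H (sh A (disp u)) v)) =
        (𝒢.mul (Sh T)).E (fun u => (H A u : ℝ)) +
          𝒞.E fun v => (𝒢.mul (Sh T)).E fun u => (H (sh A (disp u)) v : ℝ) := by
      have : (fun u => 𝒞.E fun v => ((H A u : ℝ) + H (sh A (disp u)) v)) =
          fun u => (H A u : ℝ) + 𝒞.E fun v => (H (sh A (disp u)) v : ℝ) := by
        funext u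
        rw [E_add, E_const]
      rw [this, E_add, E_comm]
    have h3 : (𝒢.mul (Sh T)).E (fun u => (H A u : ℝ)) ≤
        h₀ * A.length + h₁ * ν + 3 * T * ν := by
      rw [E_mul]
      have : (𝒢.E fun u => (Sh T).E fun v => ((H A (u ++ v) : ℕ) : ℝ)) ≤
          𝒢.E fun u => ((H A u : ℝ) + 3 * T * ν) := by
        apply E_mono
        intro θ g hg
        have : ((Sh T).E fun v => ((H A (g ++ v) : ℕ) : ℝ)) ≤
            (Sh T).E fun _ => ((H A g : ℝ) + 3 * T * ν) := by
          apply E_mono
          intro θ' s hs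
          rw [H_append]
          have h5 : H (sh A (disp g)) s ≤ ν * s.length :=
            H_le_count (fun z => app_aux_count_sh hA _ z) s
          have h6 : ν * s.length ≤ ν * (3 * T) := Nat.mul_le_mul_left _ (hslen _ s hs)
          have h7 : ((H (sh A (disp g)) s : ℕ) : ℝ) ≤ ((ν * (3 * T) : ℕ) : ℝ) := by
            exact_mod_cast h5.trans h6
          push_cast at h7 ⊢
          linarith
        rwa [E_const] at this
      refine this.trans ?_
      rw [E_add, E_const]
      have := hG.hit A ν hA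
      linarith
    have h4 : (𝒞.E fun v => (𝒢.mul (Sh T)).E fun u => (H (sh A (disp u)) v : ℝ)) ≤
        L' * (A.length * min D (1 / ((T : ℝ) + 1) ^ 3)) := by
      have : (𝒞.E fun v => (𝒢.mul (Sh T)).E fun u => (H (sh A (disp u)) v : ℝ)) ≤
          𝒞.E fun _ => (L' * (A.length * min D (1 / ((T : ℝ) + 1) ^ 3)) : ℝ) := by
        apply E_mono
        intro θ v hv
        refine (app_aux_hit hdens2 A v).trans ?_
        have h3 : (v.length : ℝ) ≤ (L' : ℝ) := by exact_mod_cast hclen _ v hv
        exact mul_le_mul_of_nonneg_right h3 (by positivity)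
      rwa [E_const] at this
    rw [h2] at h1
    nlinarith
  · -- dens
    intro z
    exact app_aux_dens_left hdens2 z

end Pool.Agent.H46R2.K3.P
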