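import Pool.Agent.H46R2.K3.Defs

/-!
# Task DBL: blocks with displacement exactly `(2a,0,0)` (helper793)
-/

namespace Pool.Agent.H46R2.K3.P

open Finset

theorem dbl_mem_W (n : ℕ) (w : List St) : w ∈ W n ↔ w.length = n := by
  unfold W
  rw [Finset.mem_image]
  constructor
  · rintro ⟨v, _, rfl⟩
    exact v.2
  · intro h
    exact ⟨⟨w, h⟩, Finset.mem_univ _, rfl⟩

theorem dbl_pos_left (u v : List St) {i : ℕ} (h : i ≤ u.length) : pos (u ++ v) i = pos u i := by
  unfold pos
  rw [List.take_append_of_le_length h]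

theorem dbl_pos_right (u v : List St) (j : ℕ) :
    pos (u ++ v) (u.length + j) = disp u + pos v j := by
  unfold pos disp
  rw [List.take_length_add_append, List.map_append, List.sum_append]

theorem dbl_disp_append (u v : List St) : disp (u ++ v) = disp u + disp v := by
  unfold disp
  rw [List.map_append, List.sum_append]

theorem dbl_pos_length (u : List St) : pos u u.length = disp u := by
  unfold pos disp
  rw [List.take_length]

theorem dbl_pos_zero (u : List St) : pos u 0 = 0 := by
  unfold pos
  simp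

theorem dbl_disp_nonneg {u : List St} (hu : Br u) : 0 ≤ disp u 0 := by
  rcases Nat.eq_zero_or_pos u.length with h | h
  · rw [← dbl_pos_length, h, dbl_pos_zero]
    rfl
  · have := (hu.2 u.length h le_rfl).1
    rw [dbl_pos_length] at this
    exact this.le

theorem dbl_pos_le {u : List St} (hu : Br u) {i : ℕ} (hi : i ≤ u.length) :
    0 ≤ pos u i 0 ∧ pos u i 0 ≤ disp u 0 := by
  rcases Nat.eq_zero_or_pos i with h | h
  · rw [h, dbl_pos_zero]
    exact ⟨le_rfl, dbl_disp_nonneg hu⟩
  · have := hu.2 i h hi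
    exact ⟨this.1.le, this.2⟩

theorem dbl_br_append {u v : List St} (hu : Br u) (hv : Br v) : Br (u ++ v) := by
  have hu0 := dbl_disp_nonneg hu
  have hv0 := dbl_disp_nonneg hv
  constructor
  · intro i j hij hj
    rw [List.length_append] at hj
    rcases le_or_gt j u.length with h1 | h1
    · rw [dbl_pos_left u v (by omega), dbl_pos_left u v h1]
      exact hu.1 i j hij h1
    · rcases le_or_gt u.length i with h2 | h2
      · obtain ⟨i', rfl⟩ := Nat.exists_eq_add_of_le h2
        obtain ⟨j', rfl⟩ := Nat.exists_eq_add_of_le h1.le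
        rw [dbl_pos_right, dbl_pos_right]
        intro h
        exact hv.1 i' j' (by omega) (by omega) (add_left_cancel h)
      · obtain ⟨j', rfl⟩ := Nat.exists_eq_add_of_le h1.le
        rw [dbl_pos_right, dbl_pos_left u v h2.le]
        intro h
        have h3 := congrFun h 0
        rw [Pi.add_apply] at h3
        have h4 := (dbl_pos_le hu h2.le).2
        have h5 := (hv.2 j' (by omega) (by omega)).1
        omega
  · intro i h1 h2
    rw [List.length_append] at h2
    rw [dbl_disp_append, Pi.add_apply]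
    rcases le_or_gt i u.length with h3 | h3
    · rw [dbl_pos_left u v h3]
      have := hu.2 i h1 h3
      exact ⟨this.1, by omega⟩
    · obtain ⟨j', rfl⟩ := Nat.exists_eq_add_of_le h3.le
      rw [dbl_pos_right, Pi.add_apply]
      have := hv.2 j' (by omega) (by omega)
      exact ⟨by omega, by omega⟩

theorem dbl_vec_flip (s : St) (i : Fin 3) :
    vec (flip12 s) i = if i = 0 then vec s i else - vec s i := by
  obtain ⟨a, t⟩ := s
  fin_cases a <;> fin_cases i <;> cases t <;> simp [vec, flip12]

theorem dbl_disp_flip (w : List St) (i : Fin 3) :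
    disp (w.map flip12) i = if i = 0 then disp w i else - disp w i := by
  induction w with
  | nil => simp [disp]
  | cons s w ih =>
    have e1 : disp (List.map flip12 (s :: w)) = vec (flip12 s) + disp (w.map flip12) := by
      simp [disp]
    have e2 : disp (s :: w) = vec s + disp w := by simp [disp]
    rw [e1, e2, Pi.add_apply, Pi.add_apply, ih, dbl_vec_flip]
    split_ifs
    · rfl
    · ring

theorem dbl_pos_flip (w : List St) (k : ℕ) (i : Fin 3) :
    pos (w.map flip12) k i = if i = 0 then pos w k i else - pos w k i := by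
  have e : ∀ (u : List St), pos u k = disp (u.take k) := fun u => rfl
  rw [e, e, ← List.map_take, dbl_disp_flip]

theorem dbl_br_flip {w : List St} (hw : Br w) : Br (w.map flip12) := by
  constructor
  · intro i j hij hj h
    rw [List.length_map] at hj
    apply hw.1 i j hij hj
    funext x
    have h1 := congrFun h x
    rw [dbl_pos_flip, dbl_pos_flip] at h1
    split_ifs at h1
    · exact h1
    · exact neg_injective h1
  · intro i h1 h2
    rw [List.length_map] at h2
    rw [dbl_pos_flip, dbl_disp_flip, if_pos rfl, if_pos rfl]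
    exact hw.2 i h1 h2

theorem dbl_flip_inj : Function.Injective flip12 := by
  have h : Function.LeftInverse flip12 flip12 := by
    rintro ⟨a, t⟩
    by_cases ha : a = 0 <;> simp [flip12, ha]
  exact h.injective

theorem dbl_abs_le (w : List St) (i : Fin 3) : |disp w i| ≤ (w.length : ℤ) := by
  induction w with
  | nil => simp [disp]
  | cons s w ih =>
    have e2 : disp (s :: w) = vec s + disp w := by simp [disp]
    rw [e2, Pi.add_apply, List.length_cons]
    have h1 : |vec s i| ≤ 1 := by
      unfold vec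
      split_ifs <;> simp
    have := abs_add_le (vec s i) (disp w i)
    push_cast
    linarith

theorem dbl_disp_replicate (n : ℕ) :
    disp (List.replicate n ((0 : Fin 3), true)) 0 = n := by
  induction n with
  | zero => simp [disp]
  | succ n ih =>
    have e2 : disp (List.replicate (n + 1) ((0 : Fin 3), true)) =
        vec ((0 : Fin 3), true) + disp (List.replicate n ((0 : Fin 3), true)) := by
      simp [disp, List.replicate_succ]
    rw [e2, Pi.add_apply, ih]
    simp [vec]
    ring

theorem dbl_c_pos (n : ℕ) : 1 ≤ c n := by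
  classical
  unfold c
  rw [Nat.succ_le_iff, Finset.card_pos]
  refine ⟨List.replicate n ((0 : Fin 3), true), ?_⟩
  rw [Finset.mem_filter, dbl_mem_W, List.length_replicate]
  refine ⟨rfl, ?_⟩
  intro i j hij hj h
  rw [List.length_replicate] at hj
  have e : ∀ (u : List St) (k : ℕ), pos u k = disp (u.take k) := fun u k => rfl
  rw [e, e, List.take_replicate, List.take_replicate, min_eq_left (by omega),
    min_eq_left (by omega)] at h
  have h1 := congrFun h 0
  rw [dbl_disp_replicate, dbl_disp_replicate] at h1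
  omega

theorem dbl_mu_pos : 0 < mu := by
  have h : (1 : ℝ) ≤ mu := by
    unfold mu
    apply le_ciInf
    intro n
    apply Real.one_le_rpow
    · exact_mod_cast dbl_c_pos (n + 1)
    · positivity
  linarith

theorem dbl {k r : ℕ} {δ : ℝ} (hδ : 0 < δ) (h : mu ^ k * δ ≤ (bge k r : ℝ)) :
    ∃ a, r ≤ a ∧ a ≤ k ∧
      mu ^ (2 * k) * (δ / (2 * (k : ℝ) + 1) ^ 3) ^ 2 ≤ (#(Bl (2 * k) (2 * a)) : ℝ) := by
  classical
  set B : Finset (List St) := (W k).filter fun w => Br w ∧ (r : ℤ) ≤ disp w 0 with hB
  have hBc : bge k r = #B := by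
    unfold bge
    rw [hB]
  rw [hBc] at h
  set T : Finset V := Fintype.piFinset (fun _ : Fin 3 => Finset.Icc (-(k : ℤ)) k) with hT
  have hTc : (#T : ℝ) = (2 * (k : ℝ) + 1) ^ 3 := by
    rw [hT, Fintype.card_piFinset]
    simp only [Int.card_Icc, Finset.prod_const, Finset.card_univ, Fintype.card_fin]
    have : ((k : ℤ) + 1 - -(k : ℤ)).toNat = 2 * k + 1 := by omega
    rw [this]
    push_cast
    ring
  have hmaps : ∀ w ∈ B, disp w ∈ T := by
    intro w hw
    rw [hB, Finset.mem_filter, dbl_mem_W] at hw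
    rw [hT, Fintype.mem_piFinset]
    intro i
    rw [Finset.mem_Icc, ← abs_le, ← hw.1]
    exact dbl_abs_le w i
  have hTne : T.Nonempty := by
    refine ⟨0, ?_⟩
    rw [hT, Fintype.mem_piFinset]
    intro i
    rw [Finset.mem_Icc]
    simp
  have hpos : (0 : ℝ) < (2 * (k : ℝ) + 1) ^ 3 := by positivity
  have hmu : 0 < mu ^ k := pow_pos dbl_mu_pos k
  obtain ⟨z, _, hz⟩ := Finset.exists_le_card_fiber_of_nsmul_le_card_of_maps_to
    (s := B) (t := T) (f := disp) (b := mu ^ k * δ / (2 * (k : ℝ) + 1) ^ 3) hmaps hTne (by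
      rw [nsmul_eq_mul, hTc, mul_div_cancel₀ _ hpos.ne']
      exact h)
  set S : Finset (List St) := B.filter (fun w => disp w = z) with hS
  have hSpos : 0 < #S := by
    have h1 : (0 : ℝ) < mu ^ k * δ / (2 * (k : ℝ) + 1) ^ 3 := by positivity
    have h2 : (0 : ℝ) < #S := lt_of_lt_of_le h1 hz
    exact_mod_cast h2
  have hSmem : ∀ w ∈ S, w.length = k ∧ Br w ∧ (r : ℤ) ≤ disp w 0 ∧ disp w = z := by
    intro w hw
    rw [hS, Finset.mem_filter, hB, Finset.mem_filter, dbl_mem_W] at hw
    exact ⟨hw.1.1, hw.1.2.1, hw.1.2.2, hw.2⟩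
  obtain ⟨w₀, hw₀⟩ := Finset.card_pos.1 hSpos
  obtain ⟨e1, e2, e3, e4⟩ := hSmem w₀ hw₀
  have hz1 : (r : ℤ) ≤ z 0 := by rw [← e4]; exact e3
  have hz2 : z 0 ≤ (k : ℤ) := by
    rw [← e4, ← e1]
    exact (le_abs_self _).trans (dbl_abs_le w₀ 0)
  refine ⟨(z 0).toNat, by omega, by omega, ?_⟩
  have hinj : Set.InjOn (fun p : List St × List St => p.1 ++ p.2.map flip12)
      ((S ×ˢ S : Finset (List St × List St)) : Set (List St × List St)) := by
    rintro ⟨u, v⟩ hp ⟨u', v'⟩ hq hpq
    rw [Finset.mem_coe, Finset.mem_product] at hp hq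
    have h1 := (hSmem u hp.1).1
    have h2 := (hSmem u' hq.1).1
    have h3 := List.append_inj hpq (h1.trans h2.symm)
    have h4 : v = v' := (List.map_injective_iff.2 dbl_flip_inj) h3.2
    rw [Prod.mk.injEq]
    exact ⟨h3.1, h4⟩
  have hsub : (S ×ˢ S).image (fun p : List St × List St => p.1 ++ p.2.map flip12) ⊆
      Bl (2 * k) (2 * (z 0).toNat) := by
    intro w hw
    rw [Finset.mem_image] at hw
    obtain ⟨⟨u, v⟩, hp, rfl⟩ := hw
    rw [Finset.mem_product] at hp
    obtain ⟨a1, a2, a3, a4⟩ := hSmem u hp.1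
    obtain ⟨b1, b2, b3, b4⟩ := hSmem v hp.2
    unfold Bl
    rw [Finset.mem_filter, dbl_mem_W, List.length_append, List.length_map, a1, b1]
    refine ⟨by ring, dbl_br_append a2 (dbl_br_flip b2), ?_⟩
    rw [dbl_disp_append]
    funext i
    rw [Pi.add_apply, dbl_disp_flip, a4, b4]
    unfold ax
    split_ifs with hi
    · rw [hi]
      omega
    · ring
  have hcard : #S * #S ≤ #(Bl (2 * k) (2 * (z 0).toNat)) := by
    rw [← Finset.card_product, ← Finset.card_image_of_injOn hinj]
    exact Finset.card_le_card hsub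
  have hcard' : (#S : ℝ) * #S ≤ (#(Bl (2 * k) (2 * (z 0).toNat)) : ℝ) := by exact_mod_cast hcard
  refine le_trans ?_ hcard'
  have h5 : mu ^ (2 * k) * (δ / (2 * (k : ℝ) + 1) ^ 3) ^ 2 =
      (mu ^ k * δ / (2 * (k : ℝ) + 1) ^ 3) * (mu ^ k * δ / (2 * (k : ℝ) + 1) ^ 3) := by
    ring
  rw [h5]
  exact mul_le_mul hz hz (by positivity) (by positivity)

end Pool.Agent.H46R2.K3.P
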