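import Pool.Agent.H46R2.K3.TYP2
import Pool.Agent.H46R2.K3.DBL

/-! Task BLOB (helper58): existence of blocks. -/

namespace Pool.Agent.H46R2.K3.P

open Finset

theorem blob_exp (Q : ℕ) (hQ : 2 ≤ Q) (e : ℕ) (X : ℝ) (hX : (e : ℝ) ≤ X) :
    Real.exp (-(X * Real.log Q)) ≤ 1 / (Q : ℝ) ^ e := by
  have hQ0 : (0 : ℝ) < Q := by exact_mod_cast (by omega : 0 < Q)
  have hQ1 : (1 : ℝ) ≤ Q := by exact_mod_cast (by omega : 1 ≤ Q)
  have hlog : 0 ≤ Real.log Q := Real.log_nonneg hQ1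
  have h1 : (Q : ℝ) ^ e = Real.exp ((e : ℝ) * Real.log Q) := by
    rw [Real.exp_nat_mul, Real.exp_log hQ0]
  rw [h1, one_div, ← Real.exp_neg]
  apply Real.exp_le_exp.2
  have := mul_le_mul_of_nonneg_right hX hlog
  linarith

/-- the final inequality from an integer bound of the inverse weight -/
theorem blob_cost (Q : ℕ) (hQ : 2 ≤ Q) (n m : ℕ) (e M : ℕ) (hM : 1 ≤ M) (δ : ℝ)
    (k : ℕ) (hδ : δ = 1 / (M : ℝ)) (hle : M * (2 * k + 1) ^ 3 ≤ Q ^ e) (X : ℝ)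
    (hX : ((2 * e : ℕ) : ℝ) ≤ X)
    (h : mu ^ n * (δ / (2 * (k : ℝ) + 1) ^ 3) ^ 2 ≤ (m : ℝ)) :
    mu ^ n * Real.exp (-(X * Real.log Q)) ≤ (m : ℝ) := by
  have hmu1 := one_le_mu
  have hmu0 : (0 : ℝ) < mu := by linarith
  refine le_trans (mul_le_mul_of_nonneg_left ?_ (by positivity)) h
  refine (blob_exp Q hQ (2 * e) X hX).trans ?_
  have hQ0 : (0 : ℝ) < Q := by exact_mod_cast (by omega : 0 < Q)
  have hM0 : (0 : ℝ) < M := by exact_mod_cast hM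
  have hk0 : (0 : ℝ) < 2 * (k : ℝ) + 1 := by positivity
  have h1 : δ / (2 * (k : ℝ) + 1) ^ 3 = 1 / ((M : ℝ) * (2 * (k : ℝ) + 1) ^ 3) := by
    rw [hδ]; field_simp
  rw [h1, div_pow, one_pow]
  apply one_div_le_one_div_of_le (by positivity)
  have h2 : (M : ℝ) * (2 * (k : ℝ) + 1) ^ 3 ≤ (Q : ℝ) ^ e := by exact_mod_cast hle
  calc ((M : ℝ) * (2 * (k : ℝ) + 1) ^ 3) ^ 2 ≤ ((Q : ℝ) ^ e) ^ 2 :=
        pow_le_pow_left₀ (by positivity) h2 2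
    _ = (Q : ℝ) ^ (2 * e) := by rw [← pow_mul, mul_comm]

theorem blob (J : ℕ) (hJ : 1 ≤ J) : ∃ C : ℝ, 0 < C ∧ ∀ Q : ℕ, 2 ≤ Q → ∀ j < J, ∃ n a : ℕ,
    Q ^ (j + 1) ≤ a ∧ a ≤ n ∧ n ≤ 4 * Q ^ (3 * J + 3 * j + 4) ∧
    n ≤ 4 * a * Q ^ (3 * J + 2 * j + 3) ∧
    mu ^ n * Real.exp (-(C * ((a : ℝ) / (Q : ℝ) ^ (j + 1)) * Real.log Q)) ≤ (#(Bl n a) : ℝ) := by
  refine ⟨((2 * (200 * J + 200) : ℕ) : ℝ), by positivity, ?_⟩
  intro Q hQ j hj
  have hQ0 : 0 < Q := by omega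
  set ℓ := Q ^ (3 * J + 3 * j + 4) with hℓ
  set s := Q ^ (j + 1) with hs'
  set R := Q ^ (J + j + 1) with hR'
  set N := Q ^ (24 * J) + 1 with hN'
  have hℓ1 : 1 ≤ ℓ := Nat.one_le_pow _ _ hQ0
  have hs1 : 1 ≤ s := Nat.one_le_pow _ _ hQ0
  have hpos : ∀ e, 0 < Q ^ e := fun e => Nat.pow_pos hQ0
  have hmono : ∀ {e f : ℕ}, e ≤ f → Q ^ e ≤ Q ^ f := fun h => Nat.pow_le_pow_right hQ0 h
  have hQs : ∀ i : ℕ, 2 ^ i ≤ Q ^ i := fun i => Nat.pow_le_pow_left hQ i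
  have hR3 : R ^ 3 ≤ ℓ := by
    rw [hR', hℓ, ← pow_mul]; exact hmono (by omega)
  have hNℓ : ℓ + 1 ≤ N := by
    rw [hN', hℓ]; exact Nat.succ_le_succ (hmono (by omega))
  -- bounds of the factors
  have b1 : N + 2 ≤ Q ^ (24 * J + 2) := by
    rw [hN', pow_add]
    have h4 : 4 ≤ Q ^ 2 := by have := hQs 2; norm_num at this; exact this
    have := hpos (24 * J)
    nlinarith
  have b2 : ∀ k ≤ ℓ + 1, 2 * k + 1 ≤ Q ^ (6 * J + 7) := by
    intro k hk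
    have h8 : 8 ≤ Q ^ 3 := by have := hQs 3; norm_num at this; exact this
    have h9 : Q ^ 3 * ℓ ≤ Q ^ (6 * J + 7) := by
      rw [hℓ, ← pow_add]; exact hmono (by omega)
    have h10 : 8 * ℓ ≤ Q ^ 3 * ℓ := Nat.mul_le_mul_right _ h8
    omega
  have b3 : ∀ k ≤ ℓ + 1, (2 * k + 1) ^ 3 ≤ Q ^ (18 * J + 21) := by
    intro k hk
    calc (2 * k + 1) ^ 3 ≤ (Q ^ (6 * J + 7)) ^ 3 := Nat.pow_le_pow_left (b2 k hk) 3
      _ = Q ^ (18 * J + 21) := by rw [← pow_mul]; congr 1; ring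
  -- the geometric part
  have geo : ∀ k a' : ℕ, k ≤ ℓ + 1 → s ≤ a' → a' ≤ k → 2 * k ≤ 4 * (2 * a') * Q ^ (3 * J + 2 * j + 3) →
      Q ^ (j + 1) ≤ 2 * a' ∧ 2 * a' ≤ 2 * k ∧ 2 * k ≤ 4 * Q ^ (3 * J + 3 * j + 4) ∧
      2 * k ≤ 4 * (2 * a') * Q ^ (3 * J + 2 * j + 3) := by
    intro k a' hk ha1 ha2 h4
    refine ⟨?_, by omega, ?_, h4⟩
    · rw [← hs']; omega
    · rw [← hℓ]; omega
  rcases type2 N s ℓ R hs1 hR3 hNℓ with ⟨k, hk, hb⟩ | ⟨k, hk, hb⟩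
  · -- cheap class with small span
    have hδ : (0 : ℝ) < 1 / (8 * ((N : ℝ) + 2)) := by positivity
    obtain ⟨a', ha1, ha2, hc⟩ := dbl (k := k) (r := s) hδ (by
      refine le_trans (le_of_eq ?_) hb.le
      ring)
    have h4 : 2 * k ≤ 4 * (2 * a') * Q ^ (3 * J + 2 * j + 3) := by
      have e1 : s * Q ^ (3 * J + 2 * j + 3) = ℓ := by
        rw [hs', hℓ, ← pow_add]; congr 1; ring
      have e2 : s * Q ^ (3 * J + 2 * j + 3) ≤ a' * Q ^ (3 * J + 2 * j + 3) :=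
        Nat.mul_le_mul_right _ ha1
      have e3 : 4 * (2 * a') * Q ^ (3 * J + 2 * j + 3) = 8 * (a' * Q ^ (3 * J + 2 * j + 3)) := by
        ring
      omega
    obtain ⟨g1, g2, g3, g4⟩ := geo k a' hk ha1 ha2 h4
    refine ⟨2 * k, 2 * a', g1, g2, g3, g4, ?_⟩
    refine blob_cost Q hQ (2 * k) _ (42 * J + 26) (8 * (N + 2)) (by omega) _ k (by push_cast; ring)
      ?_ _ ?_ hc
    · calc 8 * (N + 2) * (2 * k + 1) ^ 3 ≤ Q ^ 3 * Q ^ (24 * J + 2) * Q ^ (18 * J + 21) := by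
            apply Nat.mul_le_mul (Nat.mul_le_mul _ b1) (b3 k hk)
            have := hQs 3; norm_num at this; exact this
        _ = Q ^ (42 * J + 26) := by rw [← pow_add, ← pow_add]; congr 1; ring
    · have hfrac : (1 : ℝ) ≤ ((2 * a' : ℕ) : ℝ) / (Q : ℝ) ^ (j + 1) := by
        rw [le_div_iff₀ (by positivity), one_mul]
        exact_mod_cast g1
      calc ((2 * (42 * J + 26) : ℕ) : ℝ) ≤ ((2 * (200 * J + 200) : ℕ) : ℝ) * 1 := by
            rw [mul_one]; exact_mod_cast (by omega : 2 * (42 * J + 26) ≤ 2 * (200 * J + 200))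
        _ ≤ _ := mul_le_mul_of_nonneg_left hfrac (by positivity)
  · have hδ : (0 : ℝ) < 1 / (145 * ((N : ℝ) + 2) ^ (2 * s)) := by positivity
    obtain ⟨a', ha1, ha2, hc⟩ := dbl (k := k) (r := R) hδ (by
      refine le_trans (le_of_eq ?_) hb
      ring)
    have hsR : s ≤ R := by rw [hs', hR']; exact hmono (by omega)
    have h4 : 2 * k ≤ 4 * (2 * a') * Q ^ (3 * J + 2 * j + 3) := by
      have e1 : ℓ ≤ R * Q ^ (3 * J + 2 * j + 3) := by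
        rw [hR', hℓ, ← pow_add]; exact hmono (by omega)
      have e2 : R * Q ^ (3 * J + 2 * j + 3) ≤ a' * Q ^ (3 * J + 2 * j + 3) :=
        Nat.mul_le_mul_right _ ha1
      have e3 : 4 * (2 * a') * Q ^ (3 * J + 2 * j + 3) = 8 * (a' * Q ^ (3 * J + 2 * j + 3)) := by
        ring
      omega
    obtain ⟨g1, g2, g3, g4⟩ := geo k a' hk (hsR.trans ha1) ha2 h4
    refine ⟨2 * k, 2 * a', g1, g2, g3, g4, ?_⟩
    refine blob_cost Q hQ (2 * k) _ ((200 * J + 200) * s) (145 * (N + 2) ^ (2 * s)) (by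
      have : 0 < (N + 2) ^ (2 * s) := Nat.pow_pos (by omega)
      omega) _ k (by push_cast; ring) ?_ _ ?_ hc
    · calc 145 * (N + 2) ^ (2 * s) * (2 * k + 1) ^ 3
          ≤ Q ^ 8 * (Q ^ (24 * J + 2)) ^ (2 * s) * Q ^ (18 * J + 21) := by
            apply Nat.mul_le_mul (Nat.mul_le_mul _ (Nat.pow_le_pow_left b1 _)) (b3 k hk)
            have := hQs 8; norm_num at this; omega
        _ = Q ^ (8 + (24 * J + 2) * (2 * s) + (18 * J + 21)) := by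
            rw [← pow_mul, ← pow_add, ← pow_add]
        _ ≤ Q ^ ((200 * J + 200) * s) := by
            apply hmono
            nlinarith [Nat.mul_le_mul_left J hs1]
    · have hfrac : (s : ℝ) ≤ ((2 * a' : ℕ) : ℝ) / (Q : ℝ) ^ (j + 1) := by
        rw [le_div_iff₀ (by positivity)]
        have : s * Q ^ (j + 1) ≤ 2 * a' := by
          have e1 : s * Q ^ (j + 1) ≤ R := by
            rw [hs', hR', ← pow_add]; exact hmono (by omega)
          omega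
        exact_mod_cast this
      calc ((2 * ((200 * J + 200) * s) : ℕ) : ℝ) = ((2 * (200 * J + 200) : ℕ) : ℝ) * (s : ℝ) := by
            push_cast; ring
        _ ≤ _ := mul_le_mul_of_nonneg_left hfrac (by positivity)

end Pool.Agent.H46R2.K3.P
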