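import Pool.Agent.H46R2.K3.Defs

/-! Basic lemmas on words, positions and displacements. -/

namespace Pool.Agent.H46R2.K3.P

open Finset

theorem mem_W {n : ℕ} {w : List St} : w ∈ W n ↔ w.length = n := by
  unfold W
  simp only [Finset.mem_image, Finset.mem_univ, true_and]
  constructor
  · rintro ⟨v, rfl⟩; exact v.2
  · intro h; exact ⟨⟨w, h⟩, rfl⟩

theorem card_W (n : ℕ) : #(W n) = 6 ^ n := by
  have h : Function.Injective (fun v : List.Vector St n => v.1) := fun x y h => Subtype.ext h
  have h2 := Finset.card_image_of_injective (Finset.univ : Finset (List.Vector St n)) h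
  have h3 : #(W n) = #(Finset.univ : Finset (List.Vector St n)) := h2
  rw [h3, Finset.card_univ, card_vector]
  simp

@[simp] theorem pos_zero (w : List St) : pos w 0 = 0 := by simp [pos]

@[simp] theorem disp_nil : disp [] = 0 := by simp [disp]

@[simp] theorem pos_nil (k : ℕ) : pos [] k = 0 := by simp [pos]

theorem pos_length (w : List St) : pos w w.length = disp w := by simp [pos, disp]

theorem pos_of_le {w : List St} {k : ℕ} (h : w.length ≤ k) : pos w k = disp w := by
  simp [pos, disp, List.take_of_length_le h]

theorem disp_take (w : List St) (k : ℕ) : disp (w.take k) = pos w k := by simp [pos, disp]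

theorem disp_append (u v : List St) : disp (u ++ v) = disp u + disp v := by simp [disp]

theorem disp_cons (s : St) (w : List St) : disp (s :: w) = vec s + disp w := by simp [disp]

theorem disp_singleton (s : St) : disp [s] = vec s := by simp [disp]

theorem pos_succ_cons (s : St) (w : List St) (k : ℕ) :
    pos (s :: w) (k + 1) = vec s + pos w k := by simp [pos]

theorem pos_append_left {u : List St} (v : List St) {k : ℕ} (h : k ≤ u.length) :
    pos (u ++ v) k = pos u k := by
  simp [pos, List.take_append_of_le_length h]

theorem pos_append_right (u v : List St) (k : ℕ) :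
    pos (u ++ v) (u.length + k) = disp u + pos v k := by
  have : (u ++ v).take (u.length + k) = u ++ v.take k := by
    rw [List.take_append, Nat.add_sub_cancel_left, List.take_of_length_le (by omega)]
  simp only [pos, disp]
  rw [this]; simp

theorem pos_append_right' {u : List St} (v : List St) {k : ℕ} (h : u.length ≤ k) :
    pos (u ++ v) k = disp u + pos v (k - u.length) := by
  obtain ⟨j, rfl⟩ := Nat.exists_eq_add_of_le h
  rw [pos_append_right, Nat.add_sub_cancel_left]

theorem pos_take {w : List St} {k i : ℕ} (h : i ≤ k) : pos (w.take k) i = pos w i := by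
  simp [pos, List.take_take, Nat.min_eq_left h]

theorem pos_drop (w : List St) {k : ℕ} (hk : k ≤ w.length) (i : ℕ) :
    pos (w.drop k) i = pos w (k + i) - pos w k := by
  have h := pos_append_right (w.take k) (w.drop k) i
  rw [List.take_append_drop, List.length_take, Nat.min_eq_left hk, disp_take] at h
  rw [h]; abel

theorem disp_drop (w : List St) (k : ℕ) : disp (w.drop k) = disp w - pos w k := by
  have h := disp_append (w.take k) (w.drop k)
  rw [List.take_append_drop, disp_take] at h
  rw [h]; abel

theorem disp_reverse (w : List St) : disp w.reverse = disp w := by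
  simp [disp, List.sum_reverse]

theorem pos_reverse (w : List St) {i : ℕ} (_hi : i ≤ w.length) :
    pos w.reverse i = disp w - pos w (w.length - i) := by
  have h : pos w.reverse i = disp (w.drop (w.length - i)) := by
    simp only [pos, disp]
    rw [List.take_reverse, List.map_reverse, List.sum_reverse]
  rw [h, disp_drop]

theorem pos_succ {w : List St} {k : ℕ} (h : k < w.length) :
    pos w (k + 1) = pos w k + vec w[k] := by
  have h2 : w.take (k + 1) = w.take k ++ [w[k]] := List.take_succ_eq_append_getElem h
  rw [← disp_take, h2, disp_append, disp_take, disp_singleton]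

theorem abs_vec_le (s : St) (i : Fin 3) : |vec s i| ≤ 1 := by
  unfold vec; split_ifs <;> simp

theorem abs_pos_le (w : List St) (k : ℕ) (i : Fin 3) : |pos w k i| ≤ k := by
  induction k with
  | zero => simp
  | succ k ih =>
    rcases Nat.lt_or_ge k w.length with h | h
    · rw [pos_succ h]
      have := abs_vec_le w[k] i
      simp only [Pi.add_apply]
      push_cast
      exact (abs_add_le _ _).trans (by linarith)
    · rw [pos_of_le (by omega), ← pos_of_le h]
      push_cast; linarith

theorem abs_pos_le' (w : List St) (k : ℕ) (i : Fin 3) : |pos w k i| ≤ w.length := by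
  rcases Nat.lt_or_ge k w.length with h | h
  · exact (abs_pos_le w k i).trans (by exact_mod_cast h.le)
  · rw [pos_of_le h, ← pos_length]
    exact abs_pos_le w _ i

theorem abs_disp_le (w : List St) (i : Fin 3) : |disp w i| ≤ w.length := by
  rw [← pos_length]; exact abs_pos_le' w _ i

/-! symmetries -/

theorem vec_flip0 (s : St) (i : Fin 3) : vec (flip0 s) i = if i = 0 then -vec s i else vec s i := by
  obtain ⟨d, b⟩ := s
  fin_cases d <;> fin_cases i <;> cases b <;> simp [vec, flip0]

theorem vec_flip12 (s : St) (i : Fin 3) :
    vec (flip12 s) i = if i = 0 then vec s i else -vec s i := by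
  obtain ⟨d, b⟩ := s
  fin_cases d <;> fin_cases i <;> cases b <;> simp [vec, flip12]

theorem vec_perm (j : Fin 3) (s : St) (i : Fin 3) : vec (perm j s) i = vec s (Equiv.swap 0 j i) := by
  obtain ⟨d, b⟩ := s
  fin_cases j <;> fin_cases d <;> fin_cases i <;> cases b <;> simp [vec, perm, Equiv.swap_apply_def]

theorem disp_apply (w : List St) (i : Fin 3) : disp w i = (w.map fun s => vec s i).sum := by
  induction w with
  | nil => simp
  | cons s w ih => rw [disp_cons]; simp [ih]

theorem disp_map_flip0 (w : List St) (i : Fin 3) :
    disp (w.map flip0) i = if i = 0 then -disp w i else disp w i := by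
  rw [disp_apply, disp_apply, List.map_map]
  by_cases hi : i = 0
  · subst hi
    simp only [Function.comp_def, vec_flip0, if_true]
    induction w with
    | nil => simp
    | cons s w ih => simp only [List.map_cons, List.sum_cons, ih]; ring
  · simp only [Function.comp_def, vec_flip0, if_neg hi]

theorem disp_map_flip12 (w : List St) (i : Fin 3) :
    disp (w.map flip12) i = if i = 0 then disp w i else -disp w i := by
  rw [disp_apply, disp_apply, List.map_map]
  by_cases hi : i = 0
  · simp only [Function.comp_def, vec_flip12, if_pos hi]
  · simp only [Function.comp_def, vec_flip12, if_neg hi]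
    induction w with
    | nil => simp
    | cons s w ih => simp only [List.map_cons, List.sum_cons, ih]; ring

theorem disp_map_perm (j : Fin 3) (w : List St) (i : Fin 3) :
    disp (w.map (perm j)) i = disp w (Equiv.swap 0 j i) := by
  rw [disp_apply, disp_apply, List.map_map]
  simp only [Function.comp_def, vec_perm]

theorem pos_map_flip0 (w : List St) (k : ℕ) (i : Fin 3) :
    pos (w.map flip0) k i = if i = 0 then -pos w k i else pos w k i := by
  rw [← disp_take, ← List.map_take, disp_map_flip0, disp_take]

theorem pos_map_flip12 (w : List St) (k : ℕ) (i : Fin 3) :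
    pos (w.map flip12) k i = if i = 0 then pos w k i else -pos w k i := by
  rw [← disp_take, ← List.map_take, disp_map_flip12, disp_take]

theorem pos_map_perm (j : Fin 3) (w : List St) (k : ℕ) (i : Fin 3) :
    pos (w.map (perm j)) k i = pos w k (Equiv.swap 0 j i) := by
  rw [← disp_take, ← List.map_take, disp_map_perm, disp_take]

theorem flip0_flip0 (s : St) : flip0 (flip0 s) = s := by
  obtain ⟨d, b⟩ := s
  fin_cases d <;> cases b <;> simp [flip0]

theorem flip12_flip12 (s : St) : flip12 (flip12 s) = s := by
  obtain ⟨d, b⟩ := s
  fin_cases d <;> cases b <;> simp [flip12]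

theorem perm_perm (j : Fin 3) (s : St) : perm j (perm j s) = s := by
  obtain ⟨d, b⟩ := s
  simp [perm]

theorem map_flip0_flip0 (w : List St) : (w.map flip0).map flip0 = w := by
  rw [List.map_map]; convert List.map_id w using 2; funext s; exact flip0_flip0 s

theorem map_flip12_flip12 (w : List St) : (w.map flip12).map flip12 = w := by
  rw [List.map_map]; convert List.map_id w using 2; funext s; exact flip12_flip12 s

theorem map_perm_perm (j : Fin 3) (w : List St) : (w.map (perm j)).map (perm j) = w := by
  rw [List.map_map]; convert List.map_id w using 2; funext s; exact perm_perm j s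

theorem saw_nil : Saw [] := by intro i j h1 h2; simp at h2; omega

theorem br_nil : Br [] := ⟨saw_nil, by intro i h1 h2; simp at h2; omega⟩

theorem hsp_nil : Hsp [] := ⟨saw_nil, by intro i h1 h2; simp at h2; omega⟩

theorem br_hsp {w : List St} (h : Br w) : Hsp w := ⟨h.1, fun i h1 h2 => (h.2 i h1 h2).1⟩

theorem saw_take {w : List St} (h : Saw w) (k : ℕ) : Saw (w.take k) := by
  intro i j h1 h2
  rw [List.length_take] at h2
  rw [pos_take (by omega), pos_take (by omega)]
  exact h i j h1 (by omega)

theorem saw_drop {w : List St} (h : Saw w) (k : ℕ) : Saw (w.drop k) := by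
  rcases Nat.le_total w.length k with hk | hk
  · rw [List.drop_of_length_le hk]; exact saw_nil
  intro i j h1 h2
  rw [List.length_drop] at h2
  rw [pos_drop w hk, pos_drop w hk]
  intro hc
  exact h (k + i) (k + j) (by omega) (by omega) (by simpa using hc)

theorem saw_reverse {w : List St} (h : Saw w) : Saw w.reverse := by
  intro i j h1 h2
  rw [List.length_reverse] at h2
  rw [pos_reverse w (by omega), pos_reverse w h2]
  intro hc
  exact h (w.length - j) (w.length - i) (by omega) (by omega) (by
    have := congrArg (fun x => disp w - x) hc
    simpa using this.symm)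

theorem saw_map_flip0 {w : List St} (h : Saw w) : Saw (w.map flip0) := by
  intro i j h1 h2 hc
  rw [List.length_map] at h2
  refine h i j h1 h2 (funext fun l => ?_)
  have := congrFun hc l
  rw [pos_map_flip0, pos_map_flip0] at this
  split_ifs at this with h3
  · linarith
  · exact this

theorem saw_map_flip12 {w : List St} (h : Saw w) : Saw (w.map flip12) := by
  intro i j h1 h2 hc
  rw [List.length_map] at h2
  refine h i j h1 h2 (funext fun l => ?_)
  have := congrFun hc l
  rw [pos_map_flip12, pos_map_flip12] at this
  split_ifs at this with h3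
  · exact this
  · linarith

theorem saw_map_perm (j : Fin 3) {w : List St} (h : Saw w) : Saw (w.map (perm j)) := by
  intro i k h1 h2 hc
  rw [List.length_map] at h2
  refine h i k h1 h2 (funext fun l => ?_)
  have := congrFun hc (Equiv.swap 0 j l)
  rw [pos_map_perm, pos_map_perm] at this
  simpa using this

theorem br_map_flip12 {w : List St} (h : Br w) : Br (w.map flip12) := by
  refine ⟨saw_map_flip12 h.1, fun i h1 h2 => ?_⟩
  rw [List.length_map] at h2
  rw [pos_map_flip12, disp_map_flip12]
  simpa using h.2 i h1 h2

theorem disp_nonneg_of_br {w : List St} (h : Br w) : 0 ≤ disp w 0 := by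
  rcases Nat.eq_zero_or_pos w.length with h0 | h0
  · rw [List.length_eq_zero_iff.1 h0]; simp
  · exact ((h.2 w.length h0 le_rfl).1.trans_le (h.2 w.length h0 le_rfl).2).le

theorem pos_nonneg_of_br {w : List St} (h : Br w) {i : ℕ} (hi : i ≤ w.length) :
    0 ≤ pos w i 0 ∧ pos w i 0 ≤ disp w 0 := by
  rcases Nat.eq_zero_or_pos i with h0 | h0
  · subst h0; simpa using disp_nonneg_of_br h
  · exact ⟨(h.2 i h0 hi).1.le, (h.2 i h0 hi).2⟩

theorem append_inj_of_length {u v u' v' : List St} (h : u.length = u'.length)
    (h2 : u ++ v = u' ++ v') : u = u' ∧ v = v' := List.append_inj h2 h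

end Pool.Agent.H46R2.K3.P
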