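import Pool.Agent.H46R2.K3.Defs

/-! Chains of blocks. -/

namespace Pool.Agent.H46R2.K3.P

open Finset

theorem chain_pos_zero (w : List St) : pos w 0 = 0 := by simp [pos]

theorem chain_pos_length (w : List St) : pos w w.length = disp w := by simp [pos, disp]

theorem chain_disp_append (u v : List St) : disp (u ++ v) = disp u + disp v := by simp [disp]

theorem chain_pos_left (u v : List St) {i : ℕ} (h : i ≤ u.length) : pos (u ++ v) i = pos u i := by
  unfold pos
  rw [List.take_append_of_le_length h]

theorem chain_pos_right (u v : List St) (j : ℕ) :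
    pos (u ++ v) (u.length + j) = disp u + pos v j := by
  unfold pos disp
  rw [List.take_append, List.take_of_length_le (by omega), Nat.add_sub_cancel_left,
    List.map_append, List.sum_append]

theorem chain_disp_nonneg {u : List St} (h : Br u) : 0 ≤ disp u 0 := by
  rcases Nat.eq_zero_or_pos u.length with h0 | h0
  · have : u = [] := List.length_eq_zero_iff.1 h0
    subst this
    simp [disp]
  · have := (h.2 u.length h0 le_rfl)
    exact (this.1.trans_le this.2).le

theorem chain_pos_le {u : List St} (h : Br u) {i : ℕ} (hi : i ≤ u.length) :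
    0 ≤ pos u i 0 ∧ pos u i 0 ≤ disp u 0 := by
  rcases Nat.eq_zero_or_pos i with h0 | h0
  · subst h0
    rw [chain_pos_zero]
    exact ⟨le_rfl, chain_disp_nonneg h⟩
  · exact ⟨(h.2 i h0 hi).1.le, (h.2 i h0 hi).2⟩

theorem br_append {u v : List St} (hu : Br u) (hv : Br v) : Br (u ++ v) := by
  constructor
  · intro i j hij hj
    rw [List.length_append] at hj
    rcases le_or_gt j u.length with h1 | h1
    · rw [chain_pos_left u v h1, chain_pos_left u v (hij.le.trans h1)]
      exact hu.1 i j hij h1
    · obtain ⟨j', rfl⟩ := Nat.exists_eq_add_of_le h1.le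
      rcases le_or_gt u.length i with h2 | h2
      · obtain ⟨i', rfl⟩ := Nat.exists_eq_add_of_le h2
        rw [chain_pos_right, chain_pos_right]
        intro h
        exact hv.1 i' j' (by omega) (by omega) (add_left_cancel h)
      · rw [chain_pos_left u v h2.le, chain_pos_right]
        intro h
        have h3 := (chain_pos_le hu h2.le).2
        have h4 := (hv.2 j' (by omega) (by omega)).1
        have h5 := congrFun h 0
        rw [Pi.add_apply] at h5
        omega
  · intro i h1 hi
    rw [List.length_append] at hi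
    rw [chain_disp_append, Pi.add_apply]
    have hv0 := chain_disp_nonneg hv
    have hu0 := chain_disp_nonneg hu
    rcases le_or_gt i u.length with h2 | h2
    · rw [chain_pos_left u v h2]
      have := hu.2 i h1 h2
      exact ⟨this.1, by omega⟩
    · obtain ⟨i', rfl⟩ := Nat.exists_eq_add_of_le h2.le
      rw [chain_pos_right, Pi.add_apply]
      have := hv.2 i' (by omega) (by omega)
      exact ⟨by omega, by omega⟩

theorem chain_br_nil : Br [] := by
  constructor
  · intro i j h1 h2
    simp at h2
    omega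
  · intro i h1 h2
    simp at h2
    omega

theorem chain_mem_succ {B : Finset (List St)} {m : ℕ} {w : List St} (hw : w ∈ Ch B (m + 1)) :
    ∃ u ∈ B, ∃ v ∈ Ch B m, w = u ++ v := by
  simp only [Ch, Finset.mem_image, Finset.mem_product] at hw
  obtain ⟨p, ⟨h1, h2⟩, rfl⟩ := hw
  exact ⟨p.1, h1, p.2, h2, rfl⟩

theorem chain_mem_zero {B : Finset (List St)} {w : List St} (hw : w ∈ Ch B 0) : w = [] := by
  simpa [Ch] using hw

theorem Ch_br {B : Finset (List St)} (h : ∀ w ∈ B, Br w) (m : ℕ) : ∀ w ∈ Ch B m, Br w := by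
  induction m with
  | zero =>
    intro w hw
    rw [chain_mem_zero hw]
    exact chain_br_nil
  | succ m ih =>
    intro w hw
    obtain ⟨u, hu, v, hv, rfl⟩ := chain_mem_succ hw
    exact br_append (h u hu) (ih v hv)

theorem Ch_span {B : Finset (List St)} {r : ℤ} (h : ∀ w ∈ B, r ≤ disp w 0) (m : ℕ) :
    ∀ w ∈ Ch B m, r * m ≤ disp w 0 := by
  induction m with
  | zero =>
    intro w hw
    rw [chain_mem_zero hw]
    simp [disp]
  | succ m ih =>
    intro w hw
    obtain ⟨u, hu, v, hv, rfl⟩ := chain_mem_succ hw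
    rw [chain_disp_append, Pi.add_apply]
    have h1 := h u hu
    have h2 := ih v hv
    push_cast
    rw [mul_add, mul_one]
    omega

theorem chain_ax_add (i : Fin 3) (a b : ℤ) : ax i a + ax i b = ax i (a + b) := by
  ext j
  simp only [Pi.add_apply, ax]
  split_ifs <;> simp

theorem Ch_disp {B : Finset (List St)} {a : ℕ} (h : ∀ w ∈ B, disp w = ax 0 a) (m : ℕ) :
    ∀ w ∈ Ch B m, disp w = ax 0 (a * m) := by
  induction m with
  | zero =>
    intro w hw
    rw [chain_mem_zero hw]
    ext j
    simp [disp, ax]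
  | succ m ih =>
    intro w hw
    obtain ⟨u, hu, v, hv, rfl⟩ := chain_mem_succ hw
    rw [chain_disp_append, h u hu, ih v hv, chain_ax_add]
    congr 1
    push_cast
    ring

theorem Ch_card {B : Finset (List St)} {n : ℕ} (h : ∀ w ∈ B, w.length = n) (m : ℕ) :
    #(Ch B m) = #B ^ m := by
  induction m with
  | zero => simp [Ch]
  | succ m ih =>
    unfold Ch
    rw [Finset.card_image_of_injOn, Finset.card_product, ih, pow_succ, mul_comm]
    intro p hp q hq hpq
    simp only [Finset.coe_product, Set.mem_prod, Finset.mem_coe] at hp hq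
    have := List.append_inj hpq (by rw [h _ hp.1, h _ hq.1])
    exact Prod.ext this.1 this.2

theorem chain_vec_perm (i : Fin 3) (s : St) (j : Fin 3) :
    vec (perm i s) j = vec s (Equiv.swap 0 i j) := by
  unfold vec perm
  simp only
  have : (j = Equiv.swap 0 i s.1) ↔ (Equiv.swap 0 i j = s.1) := by
    constructor
    · intro h
      rw [h, Equiv.swap_apply_self]
    · intro h
      rw [← h, Equiv.swap_apply_self]
  simp only [this]

theorem chain_sum_perm (i : Fin 3) (w : List St) (j : Fin 3) :
    ((w.map (perm i)).map vec).sum j = (w.map vec).sum (Equiv.swap 0 i j) := by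
  induction w with
  | nil => simp
  | cons s w ih =>
    simp only [List.map_cons, List.sum_cons, Pi.add_apply, chain_vec_perm]
    rw [ih]

theorem chain_disp_perm (i : Fin 3) (w : List St) (j : Fin 3) :
    disp (w.map (perm i)) j = disp w (Equiv.swap 0 i j) := chain_sum_perm i w j

theorem chain_pos_perm (i : Fin 3) (w : List St) (k : ℕ) (j : Fin 3) :
    pos (w.map (perm i)) k j = pos w k (Equiv.swap 0 i j) := by
  unfold pos
  rw [← List.map_take]
  exact chain_sum_perm i _ j

theorem chain_saw_perm {i : Fin 3} {w : List St} (h : Saw w) : Saw (w.map (perm i)) := by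
  intro k l hkl hl
  rw [List.length_map] at hl
  intro he
  refine h k l hkl hl ?_
  ext j
  have := congrFun he (Equiv.swap 0 i j)
  rw [chain_pos_perm, chain_pos_perm, Equiv.swap_apply_self] at this
  exact this

theorem ChF_disp {B : Finset (List St)} {n a : ℕ} (h : ∀ w ∈ B, w.length = n) (hne : B.Nonempty)
    (hd : ∀ w ∈ B, disp w = ax 0 a) (i : Fin 3) (M : ℕ) (θ : (ChF B n h hne i M).ι) :
    ∀ w ∈ (ChF B n h hne i M).F θ, disp w = ax i (a * ((show Fin (M + 1) from θ : ℕ) : ℤ)) := by
  intro w hw
  simp only [ChF, Finset.mem_image] at hw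
  obtain ⟨u, hu, rfl⟩ := hw
  ext j
  rw [chain_disp_perm, Ch_disp hd _ u hu]
  unfold ax
  have : (Equiv.swap 0 i j = 0) ↔ (j = i) := by
    constructor
    · intro h
      have := congrArg (Equiv.swap 0 i) h
      rwa [Equiv.swap_apply_self, Equiv.swap_apply_left] at this
    · intro h
      rw [h, Equiv.swap_apply_right]
  simp only [this]

theorem chain_abs_pos_le (w : List St) (k : ℕ) (i : Fin 3) : |pos w k i| ≤ k := by
  unfold pos
  have h : ∀ v : List St, |(v.map vec).sum i| ≤ v.length := by
    intro v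
    induction v with
    | nil => simp
    | cons s v ih =>
      simp only [List.map_cons, List.sum_cons, Pi.add_apply, List.length_cons]
      have h1 : |vec s i| ≤ 1 := by
        unfold vec
        split_ifs <;> simp
      have := abs_add_le (vec s i) ((v.map vec).sum i)
      push_cast
      omega
  refine (h _).trans ?_
  have := List.length_take_le k w
  exact_mod_cast this

theorem chain_perp {B : Finset (List St)} {n a : ℕ} (h : ∀ w ∈ B, w.length = n)
    (hd : ∀ w ∈ B, disp w = ax 0 a) {i : Fin 3} (hi : i ≠ 0) (m : ℕ) :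
    ∀ w ∈ Ch B m, ∀ k ≤ w.length, |pos w k i| ≤ n := by
  induction m with
  | zero =>
    intro w hw k hk
    rw [chain_mem_zero hw] at hk ⊢
    simp [pos]
  | succ m ih =>
    intro w hw k hk
    obtain ⟨u, hu, v, hv, rfl⟩ := chain_mem_succ hw
    rcases le_or_gt k u.length with h1 | h1
    · rw [chain_pos_left u v h1]
      have := chain_abs_pos_le u k i
      rw [h u hu] at h1
      have h2 : (k : ℤ) ≤ n := by exact_mod_cast h1
      exact this.trans h2
    · obtain ⟨k', rfl⟩ := Nat.exists_eq_add_of_le h1.le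
      rw [List.length_append] at hk
      rw [chain_pos_right, Pi.add_apply, hd u hu]
      have : ax 0 (a : ℤ) i = 0 := by simp [ax, hi]
      rw [this, zero_add]
      exact ih v hv k' (by omega)

theorem chain_perm_injective (i : Fin 3) : Function.Injective (perm i) := by
  intro s t h
  unfold perm at h
  simp only [Prod.mk.injEq, EmbeddingLike.apply_eq_iff_eq] at h
  exact Prod.ext h.1 h.2

theorem chain_mu_nonneg : 0 ≤ mu := by
  unfold mu
  exact Real.iInf_nonneg fun n => Real.rpow_nonneg (Nat.cast_nonneg _) _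

theorem chain_mem_Bl {n a : ℕ} {w : List St} (hw : w ∈ Bl n a) : Br w ∧ disp w = ax 0 a := by
  classical
  simp only [Bl, Finset.mem_filter] at hw
  exact hw.2

theorem ChF_sawF {n a : ℕ} (h : ∀ w ∈ Bl n a, w.length = n) (hne : (Bl n a).Nonempty)
    {cB : ℝ} (hc : 0 ≤ cB) (hB : mu ^ n * Real.exp (-cB) ≤ (#(Bl n a) : ℝ)) (i : Fin 3) (M : ℕ) :
    SawF (ChF (Bl n a) n h hne i M) (n * M) ((n : ℤ) + a * M) (M * cB) := by
  have hd : ∀ w ∈ Bl n a, disp w = ax 0 a := by
    intro w hw
    exact (chain_mem_Bl hw).2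
  have hbr : ∀ w ∈ Bl n a, Br w := by
    intro w hw
    exact (chain_mem_Bl hw).1
  constructor
  · intro θ
    change n * ((show Fin (M + 1) from θ : ℕ)) ≤ n * M
    exact Nat.mul_le_mul_left _ (Nat.lt_succ_iff.1 (show Fin (M + 1) from θ).2)
  · intro θ w hw
    simp only [ChF, Finset.mem_image] at hw
    obtain ⟨u, hu, rfl⟩ := hw
    exact chain_saw_perm (Ch_br hbr _ u hu).1
  · intro θ w hw k hk
    simp only [ChF, Finset.mem_image] at hw
    obtain ⟨u, hu, rfl⟩ := hw
    rw [List.length_map] at hk
    rw [chain_pos_perm, Equiv.swap_apply_left]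
    have hn : (0 : ℤ) ≤ n := Int.natCast_nonneg n
    have ha : (0 : ℤ) ≤ a := Int.natCast_nonneg a
    have hM : (0 : ℤ) ≤ M := Int.natCast_nonneg M
    by_cases hi : i = 0
    · subst hi
      have h1 := chain_pos_le (Ch_br hbr _ u hu) hk
      have h2 := Ch_disp hd _ u hu
      rw [h2] at h1
      have h3 : ax 0 ((a : ℤ) * ((show Fin (M + 1) from θ : ℕ) : ℤ)) 0 =
          (a : ℤ) * ((show Fin (M + 1) from θ : ℕ) : ℤ) := by simp [ax]
      rw [h3] at h1
      have h4 : ((show Fin (M + 1) from θ : ℕ) : ℤ) ≤ M := by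
        exact_mod_cast Nat.lt_succ_iff.1 (show Fin (M + 1) from θ).2
      rw [abs_of_nonneg h1.1]
      have h5 := mul_le_mul_of_nonneg_left h4 ha
      omega
    · have h1 := chain_perp h hd hi _ u hu k hk
      have h2 : 0 ≤ (a : ℤ) * M := mul_nonneg ha hM
      omega
  · intro θ
    have h1 : #((ChF (Bl n a) n h hne i M).F θ) = #(Bl n a) ^ ((show Fin (M + 1) from θ : ℕ)) := by
      simp only [ChF]
      rw [Finset.card_image_of_injective _ (List.map_injective_iff.2 (chain_perm_injective i))]
      exact Ch_card h _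
    rw [h1]
    change mu ^ (n * ((show Fin (M + 1) from θ : ℕ))) * Real.exp (-(M * cB)) ≤ _
    set m : ℕ := (show Fin (M + 1) from θ : ℕ) with hm
    have h2 : (m : ℝ) ≤ M := by
      exact_mod_cast Nat.lt_succ_iff.1 (show Fin (M + 1) from θ).2
    push_cast
    calc mu ^ (n * m) * Real.exp (-(M * cB)) ≤ mu ^ (n * m) * Real.exp (m * (-cB)) := by
          refine mul_le_mul_of_nonneg_left (Real.exp_le_exp.2 ?_) (pow_nonneg chain_mu_nonneg _)
          nlinarith
      _ = (mu ^ n * Real.exp (-cB)) ^ m := by
          rw [mul_pow, ← pow_mul, ← Real.exp_nat_mul]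
      _ ≤ _ := pow_le_pow_left₀ (mul_nonneg (pow_nonneg chain_mu_nonneg _) (Real.exp_nonneg _)) hB _

end Pool.Agent.H46R2.K3.P
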