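import Mathlib
import Pool.Agent.H46R2.K3.Defs

/-!
Task CUT (helper477): cutting a self-avoiding word at the last minimum of its height.
-/

set_option autoImplicit false

namespace Pool.Agent.H46R2.K3.P

open Finset Pool.Agent.H46R2.K3

theorem cut_mem_W {n : ℕ} {w : List St} : w ∈ W n ↔ w.length = n := by
  unfold W
  rw [Finset.mem_image]
  constructor
  · rintro ⟨v, _, rfl⟩
    exact v.2
  · intro h
    exact ⟨⟨w, h⟩, Finset.mem_univ _, rfl⟩

theorem cut_pos_zero (w : List St) : pos w 0 = 0 := by
  unfold pos
  rw [List.take_zero, List.map_nil, List.sum_nil]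

theorem cut_pos_add (w : List St) (k i : ℕ) : pos w (k + i) = pos w k + pos (w.drop k) i := by
  unfold pos
  rw [List.take_add, List.map_append, List.sum_append]

theorem cut_pos_cons (s : St) (w : List St) (i : ℕ) : pos (s :: w) (i + 1) = vec s + pos w i := by
  unfold pos
  rw [List.take_succ_cons, List.map_cons, List.sum_cons]

/-- reflection of the coordinate `0` -/
def cutF : V →+ V where
  toFun x := fun i => if i = 0 then - x i else x i
  map_zero' := by
    funext i
    by_cases hi : i = 0 <;> simp [hi]
  map_add' x y := by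
    funext i
    by_cases hi : i = 0
    · simp only [hi, if_true, Pi.add_apply]
      ring
    · simp only [hi, if_false, Pi.add_apply]

theorem cutF_zero (x : V) : cutF x 0 = - x 0 := by
  show (if (0 : Fin 3) = 0 then - x 0 else x 0) = _
  rw [if_pos rfl]

theorem cutF_inj {x y : V} (h : cutF x = cutF y) : x = y := by
  funext i
  have h1 := congrFun h i
  change (if i = 0 then - x i else x i) = (if i = 0 then - y i else y i) at h1
  by_cases hi : i = 0
  · rw [if_pos hi, if_pos hi] at h1
    exact neg_inj.1 h1
  · rw [if_neg hi, if_neg hi] at h1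
    exact h1

theorem cut_vec_flip0 (s : St) : vec (flip0 s) = cutF (vec s) := by
  obtain ⟨j, b⟩ := s
  funext i
  show vec (flip0 (j, b)) i = if i = 0 then - vec (j, b) i else vec (j, b) i
  unfold vec flip0
  fin_cases j <;> fin_cases i <;> cases b <;> decide

theorem cut_flip0_flip0 (s : St) : flip0 (flip0 s) = s := by
  obtain ⟨j, b⟩ := s
  unfold flip0
  fin_cases j <;> cases b <;> decide

theorem cut_pos_flip (w : List St) (i : ℕ) : pos (w.map flip0) i = cutF (pos w i) := by
  unfold pos
  rw [← List.map_take, List.map_map, map_list_sum, List.map_map]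
  congr 1
  refine List.map_congr_left fun s _ => ?_
  exact cut_vec_flip0 s

theorem cut_pos_reverse (w : List St) (k i : ℕ) (hk : k ≤ w.length) (_hi : i ≤ k) :
    pos ((w.take k).reverse) i = pos w k - pos w (k - i) := by
  have h1 : (w.take k).length = k := by rw [List.length_take, min_eq_left hk]
  have h2 : (w.take k).reverse.take i = ((w.take k).drop (k - i)).reverse := by
    rw [List.take_reverse, h1]
  have h3 : w.take k = w.take (k - i) ++ (w.take k).drop (k - i) := by
    conv_lhs => rw [← List.take_append_drop (k - i) (w.take k)]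
    rw [List.take_take, min_eq_left (Nat.sub_le k i)]
  have h4 : pos w k = pos w (k - i) + (((w.take k).drop (k - i)).map vec).sum := by
    unfold pos
    conv_lhs => rw [h3]
    rw [List.map_append, List.sum_append]
  rw [h4, add_sub_cancel_left]
  unfold pos
  rw [h2, List.map_reverse, List.sum_reverse]

/-- the first piece -/
def cutU (w : List St) (k : ℕ) : List St := ((0 : Fin 3), true) :: ((w.take k).reverse.map flip0)

theorem cutU_length (w : List St) (k : ℕ) (hk : k ≤ w.length) : (cutU w k).length = k + 1 := by
  unfold cutU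
  rw [List.length_cons, List.length_map, List.length_reverse, List.length_take, min_eq_left hk]

theorem cutU_pos (w : List St) (k i : ℕ) (hk : k ≤ w.length) (hi : i ≤ k) :
    pos (cutU w k) (i + 1) = vec ((0 : Fin 3), true) + cutF (pos w k - pos w (k - i)) := by
  unfold cutU
  rw [cut_pos_cons, cut_pos_flip, cut_pos_reverse w k i hk hi]

theorem cutU_height (w : List St) (k i : ℕ) (hk : k ≤ w.length) (hi : i ≤ k) :
    pos (cutU w k) (i + 1) 0 = 1 + (pos w (k - i) 0 - pos w k 0) := by
  rw [cutU_pos w k i hk hi, Pi.add_apply, cutF_zero, Pi.sub_apply]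
  have h1 : vec ((0 : Fin 3), true) 0 = 1 := by
    unfold vec
    simp
  rw [h1]
  ring

theorem cut_drop_pos (w : List St) (k i : ℕ) : pos (w.drop k) i = pos w (k + i) - pos w k := by
  rw [cut_pos_add, add_sub_cancel_left]

/-- `k` is the last index of the minimum of the height -/
def CutAt (w : List St) (k : ℕ) : Prop :=
  k ≤ w.length ∧ (∀ i ≤ w.length, pos w k 0 ≤ pos w i 0) ∧
    ∀ i ≤ w.length, k < i → pos w k 0 < pos w i 0

theorem exists_cutAt (w : List St) : ∃ k, CutAt w k := by
  classical
  obtain ⟨m, hm, hmin⟩ := Finset.exists_min_image (range (w.length + 1)) (fun i => pos w i 0)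
    ⟨0, by simp⟩
  have hm' : m ≤ w.length := Nat.lt_succ_iff.1 (Finset.mem_range.1 hm)
  set S := (range (w.length + 1)).filter (fun i => pos w i 0 = pos w m 0) with hS
  have hne : S.Nonempty := ⟨m, by rw [hS, Finset.mem_filter]; exact ⟨hm, rfl⟩⟩
  have hk := S.max'_mem hne
  set k := S.max' hne with hkdef
  rw [hS, Finset.mem_filter, Finset.mem_range] at hk
  refine ⟨k, Nat.lt_succ_iff.1 hk.1, ?_, ?_⟩
  · intro i hi
    rw [hk.2]
    exact hmin i (Finset.mem_range.2 (Nat.lt_succ_of_le hi))
  · intro i hi hki
    have h1 : pos w m 0 ≤ pos w i 0 := hmin i (Finset.mem_range.2 (Nat.lt_succ_of_le hi))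
    rw [hk.2]
    rcases h1.lt_or_eq with h | h
    · exact h
    · exfalso
      have h2 : i ∈ S := by
        rw [hS, Finset.mem_filter, Finset.mem_range]
        exact ⟨Nat.lt_succ_of_le hi, h.symm⟩
      have h3 := S.le_max' i h2
      rw [← hkdef] at h3
      omega

theorem cutU_hsp {w : List St} {k : ℕ} (hw : Saw w) (h : CutAt w k) : Hsp (cutU w k) := by
  obtain ⟨hk, h1, h2⟩ := h
  have hpos : ∀ i, 1 ≤ i → i ≤ (cutU w k).length → 0 < pos (cutU w k) i 0 := by
    intro i hi hi2
    rw [cutU_length w k hk] at hi2
    obtain ⟨j, rfl⟩ : ∃ j, i = j + 1 := ⟨i - 1, by omega⟩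
    rw [cutU_height w k j hk (by omega)]
    have := h1 (k - j) (by omega)
    omega
  refine ⟨?_, hpos⟩
  intro i j hij hj heq
  rcases Nat.eq_zero_or_pos i with rfl | hi
  · have h3 := hpos j (by omega) hj
    rw [← heq, cut_pos_zero] at h3
    exact absurd h3 (lt_irrefl _)
  · rw [cutU_length w k hk] at hj
    obtain ⟨a, rfl⟩ : ∃ a, i = a + 1 := ⟨i - 1, by omega⟩
    obtain ⟨b, rfl⟩ : ∃ b, j = b + 1 := ⟨j - 1, by omega⟩
    rw [cutU_pos w k a hk (by omega), cutU_pos w k b hk (by omega)] at heq
    have h3 := cutF_inj (add_left_cancel heq)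
    have h4 : pos w (k - b) = pos w (k - a) := (sub_right_injective h3).symm
    exact hw (k - b) (k - a) (by omega) (by omega) h4

theorem drop_hsp {w : List St} {k : ℕ} (hw : Saw w) (h : CutAt w k) : Hsp (w.drop k) := by
  obtain ⟨hk, h1, h2⟩ := h
  refine ⟨?_, ?_⟩
  · intro i j hij hj heq
    rw [List.length_drop] at hj
    rw [cut_drop_pos, cut_drop_pos] at heq
    exact hw (k + i) (k + j) (by omega) (by omega) (sub_left_injective heq)
  · intro i hi hi2
    rw [List.length_drop] at hi2
    rw [cut_drop_pos, Pi.sub_apply]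
    have := h2 (k + i) (by omega) (by omega)
    omega

theorem cut_inj {w w' : List St} {k : ℕ} (h1 : cutU w k = cutU w' k)
    (h2 : w.drop k = w'.drop k) : w = w' := by
  unfold cutU at h1
  have h3 := (List.cons.inj h1).2
  have hinj : Function.Injective flip0 := fun a b hab => by
    rw [← cut_flip0_flip0 a, hab, cut_flip0_flip0]
  have h4 := List.map_injective_iff.2 hinj h3
  have h5 := List.reverse_injective h4
  rw [← List.take_append_drop k w, h5, h2, List.take_append_drop]

open Classical in
theorem c_split (n : ℕ) : c n ≤ ∑ k ∈ range (n + 1), hs (k + 1) * hs (n - k) := by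
  unfold c
  calc #((W n).filter Saw)
      ≤ #((range (n + 1)).biUnion fun k => (W n).filter fun w => Saw w ∧ CutAt w k) := by
        refine Finset.card_le_card ?_
        intro w hw
        rw [Finset.mem_filter] at hw
        obtain ⟨k, hk⟩ := exists_cutAt w
        rw [Finset.mem_biUnion]
        have hl := cut_mem_W.1 hw.1
        refine ⟨k, Finset.mem_range.2 ?_, ?_⟩
        · have := hk.1
          omega
        · rw [Finset.mem_filter]
          exact ⟨hw.1, hw.2, hk⟩
    _ ≤ ∑ k ∈ range (n + 1), #((W n).filter fun w => Saw w ∧ CutAt w k) := card_biUnion_le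
    _ ≤ ∑ k ∈ range (n + 1), hs (k + 1) * hs (n - k) := by
        refine Finset.sum_le_sum fun k _ => ?_
        unfold hs
        rw [← Finset.card_product]
        refine Finset.card_le_card_of_injOn (fun w => (cutU w k, w.drop k)) ?_ ?_
        · intro w hw
          rw [Finset.mem_coe, Finset.mem_filter] at hw
          obtain ⟨hw1, hw2, hw3⟩ := hw
          have hl := cut_mem_W.1 hw1
          rw [Finset.mem_coe, Finset.mem_product, Finset.mem_filter, Finset.mem_filter,
            cut_mem_W, cut_mem_W]
          refine ⟨⟨cutU_length w k hw3.1, cutU_hsp hw2 hw3⟩, ?_, drop_hsp hw2 hw3⟩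
          show (w.drop k).length = n - k
          rw [List.length_drop, hl]
        · intro w _ w' _ hww
          have h1 := congrArg Prod.fst hww
          have h2 := congrArg Prod.snd hww
          exact cut_inj h1 h2

open Classical in
theorem cext_split (n r : ℕ) :
    cext n r ≤ ∑ k ∈ range (n + 1), (hge (k + 1) r * hs (n - k) + hs (k + 1) * hge (n - k) r) := by
  unfold cext
  calc #((W n).filter fun w => Saw w ∧ ∃ i ≤ n, ∃ j ≤ n, (r : ℤ) ≤ pos w i 0 - pos w j 0)
      ≤ #((range (n + 1)).biUnion fun k => (W n).filter fun w => (Saw w ∧ CutAt w k) ∧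
          ∃ i ≤ n, (r : ℤ) ≤ pos w i 0 - pos w k 0) := by
        refine Finset.card_le_card ?_
        intro w hw
        rw [Finset.mem_filter] at hw
        obtain ⟨hw1, hw2, i, hi, j, hj, hij⟩ := hw
        obtain ⟨k, hk⟩ := exists_cutAt w
        rw [Finset.mem_biUnion]
        have hl := cut_mem_W.1 hw1
        refine ⟨k, Finset.mem_range.2 ?_, ?_⟩
        · have := hk.1
          omega
        · rw [Finset.mem_filter]
          refine ⟨hw1, ⟨hw2, hk⟩, i, hi, ?_⟩
          have := hk.2.1 j (by omega)
          omega
    _ ≤ ∑ k ∈ range (n + 1), #((W n).filter fun w => (Saw w ∧ CutAt w k) ∧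
          ∃ i ≤ n, (r : ℤ) ≤ pos w i 0 - pos w k 0) := card_biUnion_le
    _ ≤ ∑ k ∈ range (n + 1), (hge (k + 1) r * hs (n - k) + hs (k + 1) * hge (n - k) r) := by
        refine Finset.sum_le_sum fun k _ => ?_
        unfold hs hge
        rw [← Finset.card_product, ← Finset.card_product]
        refine le_trans ?_ (Finset.card_union_le _ _)
        refine Finset.card_le_card_of_injOn (fun w => (cutU w k, w.drop k)) ?_ ?_
        · intro w hw
          rw [Finset.mem_coe, Finset.mem_filter] at hw
          obtain ⟨hw1, ⟨hw2, hw3⟩, i, hi, hir⟩ := hw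
          have hl := cut_mem_W.1 hw1
          have hU := cutU_hsp hw2 hw3
          have hD := drop_hsp hw2 hw3
          have hUl := cutU_length w k hw3.1
          have hDl : (w.drop k).length = n - k := by rw [List.length_drop, hl]
          rw [Finset.mem_coe, Finset.mem_union, Finset.mem_product, Finset.mem_product,
            Finset.mem_filter, Finset.mem_filter, Finset.mem_filter, Finset.mem_filter,
            cut_mem_W, cut_mem_W]
          rcases le_total i k with hik | hki
          · left
            refine ⟨⟨hUl, hU, (k - i) + 1, by omega, ?_⟩, hDl, hD⟩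
            show (r : ℤ) ≤ pos (cutU w k) ((k - i) + 1) 0
            rw [cutU_height w k (k - i) hw3.1 (Nat.sub_le _ _), Nat.sub_sub_self hik]
            omega
          · right
            refine ⟨⟨hUl, hU⟩, hDl, hD, i - k, by omega, ?_⟩
            show (r : ℤ) ≤ pos (w.drop k) (i - k) 0
            rw [cut_drop_pos, Pi.sub_apply, Nat.add_sub_cancel' hki]
            exact hir
        · intro w _ w' _ hww
          have h1 := congrArg Prod.fst hww
          have h2 := congrArg Prod.snd hww
          exact cut_inj h1 h2

end Pool.Agent.H46R2.K3.P
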