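import Pool.Agent.H46R2.K3.Defs
import Pool.Agent.H46R2.K3.FAM
import Pool.Agent.H46R2.K3.SHIFT
import Pool.Agent.H46R2.K3.CHAIN

/-!
# Task DENS of team K3 (self-avoiding walks on `ℤ³`), by helper497
-/

namespace Pool.Agent.H46R2.K3.P

open Finset Pool.Agent.H46R2.K3

theorem dens_disp_append (u v : List St) : disp (u ++ v) = disp u + disp v := by
  simp [disp, List.map_append, List.sum_append]

theorem dens_swap {α β γ δ ε ζ : Type} [Fintype α] [Fintype β] [Fintype γ] [Fintype δ] [Fintype ε]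
    [Fintype ζ] (F : α → β → γ → δ → ε → ζ → ℝ) :
    ∑ y, ∑ m0, ∑ y', ∑ m1, ∑ y'', ∑ m2, F y m0 y' m1 y'' m2 =
      ∑ y', ∑ y'', ∑ y, ∑ m0, ∑ m1, ∑ m2, F y m0 y' m1 y'' m2 := by
  calc _ = ∑ y, ∑ m0, ∑ y', ∑ y'', ∑ m1, ∑ m2, F y m0 y' m1 y'' m2 := by
        refine sum_congr rfl fun y _ => sum_congr rfl fun m0 _ => sum_congr rfl fun y' _ => ?_
        exact sum_comm
    _ = ∑ y, ∑ y', ∑ m0, ∑ y'', ∑ m1, ∑ m2, F y m0 y' m1 y'' m2 :=
        sum_congr rfl fun y _ => sum_comm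
    _ = ∑ y, ∑ y', ∑ y'', ∑ m0, ∑ m1, ∑ m2, F y m0 y' m1 y'' m2 :=
        sum_congr rfl fun y _ => sum_congr rfl fun y' _ => sum_comm
    _ = ∑ y', ∑ y, ∑ y'', ∑ m0, ∑ m1, ∑ m2, F y m0 y' m1 y'' m2 := sum_comm
    _ = _ := sum_congr rfl fun y' _ => sum_comm

theorem dens_Sh (T : ℕ) (ψ : V → ℝ) : (Sh T).E (fun w => ψ (disp w)) =
    (∑ y : Fin 3 → Fin (T + 1), ψ (fun i => ((y i : ℕ) : ℤ))) / ((T : ℝ) + 1) ^ 3 := by
  unfold Fam.E
  have hc : (Fintype.card (Sh T).ι : ℝ) = ((T : ℝ) + 1) ^ 3 := by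
    show (Fintype.card (Fin 3 → Fin (T + 1)) : ℝ) = _
    simp
  rw [hc]
  congr 1
  show ∑ y : Fin 3 → Fin (T + 1), _ = _
  refine sum_congr rfl fun y _ => ?_
  show (∑ w ∈ ({sw fun i => (y i : ℕ)} : Finset (List St)), ψ (disp w)) /
    ((#({sw fun i => (y i : ℕ)} : Finset (List St)) : ℕ) : ℝ) = _
  rw [sum_singleton, card_singleton, Nat.cast_one, div_one, disp_sw]

theorem dens_Ch {B : Finset (List St)} {n a : ℕ} (h : ∀ w ∈ B, w.length = n)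
    (hne : B.Nonempty) (hd : ∀ w ∈ B, disp w = ax 0 a) (i : Fin 3) (M : ℕ) (ψ : V → ℝ) :
    (ChF B n h hne i M).E (fun w => ψ (disp w)) =
      (∑ m : Fin (M + 1), ψ (ax i (a * ((m : ℕ) : ℤ)))) / ((M : ℝ) + 1) := by
  unfold Fam.E
  have hc : (Fintype.card (ChF B n h hne i M).ι : ℝ) = (M : ℝ) + 1 := by
    show (Fintype.card (Fin (M + 1)) : ℝ) = _
    simp
  rw [hc]
  congr 1
  show ∑ m : Fin (M + 1), _ = _
  refine sum_congr rfl fun m _ => ?_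
  have hne' := (ChF B n h hne i M).hne m
  have hcard : ((#((ChF B n h hne i M).F m) : ℕ) : ℝ) ≠ 0 := by
    have := Finset.card_pos.2 hne'
    positivity
  rw [div_eq_iff hcard]
  rw [sum_congr rfl (g := fun _ => ψ (ax i (a * ((m : ℕ) : ℤ))))
    (fun w hw => by
      show ψ (disp w) = _
      rw [ChF_disp h hne hd i M m w hw])]
  rw [sum_const, nsmul_eq_mul, mul_comm]

/-- pairs `(t, m)` with `t + a m = c` -/
theorem dens_pairs (a M T : ℕ) (ha : 1 ≤ a) (haT : a ≤ T) (c : ℤ) :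
    ∑ t : Fin (T + 1), ∑ m : Fin (M + 1),
      (if ((t : ℕ) : ℤ) + a * ((m : ℕ) : ℤ) = c then (1 : ℝ) else 0) ≤ 2 * ((T : ℝ) + 1) / a := by
  rw [← Finset.sum_product', Finset.univ_product_univ, Finset.sum_boole]
  have hcard : #((univ : Finset (Fin (T + 1) × Fin (M + 1))).filter
      fun p => ((p.1 : ℕ) : ℤ) + a * ((p.2 : ℕ) : ℤ) = c) ≤ #(range (T / a + 1)) := by
    apply Finset.card_le_card_of_injOn (fun p => (p.1 : ℕ) / a)
    · intro p _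
      simp only [coe_range, Set.mem_Iio]
      have : (p.1 : ℕ) ≤ T := Nat.lt_succ_iff.1 p.1.2
      exact Nat.lt_succ_of_le (Nat.div_le_div_right this)
    · intro p hp q hq hpq
      simp only [coe_filter, mem_univ, true_and, Set.mem_ofPred_eq] at hp hq
      simp only at hpq
      have e : ((p.1 : ℕ) : ℤ) + a * ((p.2 : ℕ) : ℤ) = ((q.1 : ℕ) : ℤ) + a * ((q.2 : ℕ) : ℤ) :=
        hp.trans hq.symm
      have e' : (p.1 : ℕ) + a * (p.2 : ℕ) = (q.1 : ℕ) + a * (q.2 : ℕ) := by exact_mod_cast e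
      have hmod : (p.1 : ℕ) % a = (q.1 : ℕ) % a := by
        have := congrArg (· % a) e'
        simpa [Nat.add_mul_mod_self_left] using this
      have h1 : (p.1 : ℕ) = q.1 := by
        rw [← Nat.div_add_mod (p.1 : ℕ) a, ← Nat.div_add_mod (q.1 : ℕ) a, hpq, hmod]
      have h2 : (p.2 : ℕ) = q.2 := by
        rw [h1] at e'
        exact Nat.eq_of_mul_eq_mul_left ha (Nat.add_left_cancel e')
      exact Prod.ext (Fin.ext h1) (Fin.ext h2)
  rw [card_range] at hcard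
  have ha' : (0 : ℝ) < a := by exact_mod_cast ha
  have haT' : (a : ℝ) ≤ T := by exact_mod_cast haT
  have h3 : ((T / a : ℕ) : ℝ) ≤ (T : ℝ) / a := Nat.cast_div_le
  have h4 : (1 : ℝ) ≤ T / a := by rw [le_div_iff₀ ha']; linarith
  calc _ ≤ ((T / a + 1 : ℕ) : ℝ) := by exact_mod_cast hcard
    _ ≤ 2 * (T / a : ℝ) := by push_cast; linarith
    _ ≤ 2 * ((T : ℝ) + 1) / a := by
        rw [← mul_div_assoc]
        apply div_le_div_of_nonneg_right _ ha'.le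
        linarith

/-- the number of solutions `(y, m₀, m₁, m₂)` -/
theorem dens_count (a M T : ℕ) (ha : 1 ≤ a) (haT : a ≤ T) (x y' y'' z : V) :
    ∑ y : Fin 3 → Fin (T + 1), ∑ m0 : Fin (M + 1), ∑ m1 : Fin (M + 1), ∑ m2 : Fin (M + 1),
      (if x + (fun i => ((y i : ℕ) : ℤ)) + ax 0 (a * ((m0 : ℕ) : ℤ)) + y' +
        ax 1 (a * ((m1 : ℕ) : ℤ)) + y'' + ax 2 (a * ((m2 : ℕ) : ℤ)) = z then (1 : ℝ) else 0) ≤
      (2 * ((T : ℝ) + 1) / a) ^ 3 := by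
  set g : Fin 3 → Fin (T + 1) → ℝ := fun i t => ∑ m : Fin (M + 1),
    (if ((t : ℕ) : ℤ) + a * ((m : ℕ) : ℤ) = z i - x i - y' i - y'' i then (1 : ℝ) else 0) with hg
  have hg0 : ∀ i t, 0 ≤ g i t := fun i t => Finset.sum_nonneg fun m _ => by
    split_ifs <;> norm_num
  have h1 : ∀ y : Fin 3 → Fin (T + 1), ∑ m0 : Fin (M + 1), ∑ m1 : Fin (M + 1),
      ∑ m2 : Fin (M + 1),
      (if x + (fun i => ((y i : ℕ) : ℤ)) + ax 0 (a * ((m0 : ℕ) : ℤ)) + y' +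
        ax 1 (a * ((m1 : ℕ) : ℤ)) + y'' + ax 2 (a * ((m2 : ℕ) : ℤ)) = z then (1 : ℝ) else 0) ≤
      ∏ i, g i (y i) := by
    intro y
    rw [Fin.prod_univ_three]
    simp only [hg]
    rw [Finset.sum_mul_sum, Finset.sum_mul]
    refine Finset.sum_le_sum fun m0 _ => ?_
    rw [Finset.sum_mul]
    refine Finset.sum_le_sum fun m1 _ => ?_
    rw [Finset.mul_sum]
    refine Finset.sum_le_sum fun m2 _ => ?_
    split_ifs with hh h0 h1 h2
    all_goals first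
      | (norm_num; done)
      | skip
    all_goals
      exfalso
      have k0 := congrFun hh 0
      have k1 := congrFun hh 1
      have k2 := congrFun hh 2
      simp [ax] at k0 k1 k2
      omega
  refine (Finset.sum_le_sum fun y _ => h1 y).trans ?_
  have h2 := Finset.prod_univ_sum (fun _ : Fin 3 => (Finset.univ : Finset (Fin (T + 1)))) g
  rw [Fintype.piFinset_univ] at h2
  rw [← h2, Fin.prod_univ_three]
  have h3 : ∀ i, ∑ t, g i t ≤ 2 * ((T : ℝ) + 1) / a := fun i =>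
    dens_pairs a M T ha haT _
  have h4 : ∀ i, 0 ≤ ∑ t, g i t := fun i => Finset.sum_nonneg fun t _ => hg0 i t
  calc _ ≤ (2 * ((T : ℝ) + 1) / a) * (2 * ((T : ℝ) + 1) / a) * (2 * ((T : ℝ) + 1) / a) := by
        apply mul_le_mul (mul_le_mul (h3 0) (h3 1) (h4 1) ((h4 0).trans (h3 0))) (h3 2) (h4 2)
        exact mul_nonneg ((h4 0).trans (h3 0)) ((h4 0).trans (h3 0))
    _ = _ := by ring

theorem dens_stage (𝒢 : Fam) {B : Finset (List St)} {n a : ℕ} (h : ∀ w ∈ B, w.length = n)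
    (hne : B.Nonempty) (hd : ∀ w ∈ B, disp w = ax 0 a) (ha : 1 ≤ a) (M T : ℕ) (haT : a ≤ T)
    (z : V) :
    (((𝒢.app T (ChF B n h hne 0 M)).app T (ChF B n h hne 1 M)).app T (ChF B n h hne 2 M)).E
      (fun w => if disp w = z then 1 else 0) ≤ 8 / ((a : ℝ) * ((M : ℝ) + 1)) ^ 3 := by
  unfold Fam.app
  simp only [E_mul, dens_disp_append]
  set D : ℝ := 8 / ((a : ℝ) * ((M : ℝ) + 1)) ^ 3 with hD
  rw [← E_const 𝒢 D]
  refine E_mono 𝒢 fun θ g _ => ?_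
  have ha' : (0 : ℝ) < a := by exact_mod_cast ha
  -- from inside to outside
  have key : ∀ x : V, (Sh T).E (fun y => (ChF B n h hne 0 M).E fun u => (Sh T).E fun y' =>
      (ChF B n h hne 1 M).E fun u' => (Sh T).E fun y'' => (ChF B n h hne 2 M).E fun u'' =>
      if x + disp y + disp u + disp y' + disp u' + disp y'' + disp u'' = z then (1 : ℝ) else 0) ≤
      D := by
    intro x
    have e1 : ∀ v : V, ((ChF B n h hne 2 M).E fun u'' => if v + disp u'' = z then (1 : ℝ) else 0) =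
        (∑ m : Fin (M + 1), (if v + ax 2 (a * ((m : ℕ) : ℤ)) = z then (1 : ℝ) else 0)) /
          ((M : ℝ) + 1) := fun v =>
      dens_Ch h hne hd 2 M (fun w => if v + w = z then (1 : ℝ) else 0)
    simp only [e1]
    have e2 : ∀ v : V, ((Sh T).E fun y'' => (∑ m : Fin (M + 1),
        (if v + disp y'' + ax 2 (a * ((m : ℕ) : ℤ)) = z then (1 : ℝ) else 0)) / ((M : ℝ) + 1)) =
        (∑ y'' : Fin 3 → Fin (T + 1), (∑ m : Fin (M + 1),
        (if v + (fun i => ((y'' i : ℕ) : ℤ)) + ax 2 (a * ((m : ℕ) : ℤ)) = z then (1 : ℝ) else 0)) /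
          ((M : ℝ) + 1)) / ((T : ℝ) + 1) ^ 3 := fun v =>
      dens_Sh T (fun w => (∑ m : Fin (M + 1),
        (if v + w + ax 2 (a * ((m : ℕ) : ℤ)) = z then (1 : ℝ) else 0)) / ((M : ℝ) + 1))
    simp only [e2]
    have e3 : ∀ v : V, ((ChF B n h hne 1 M).E fun u' =>
        (∑ y'' : Fin 3 → Fin (T + 1), (∑ m : Fin (M + 1),
        (if v + disp u' + (fun i => ((y'' i : ℕ) : ℤ)) + ax 2 (a * ((m : ℕ) : ℤ)) = z then (1 : ℝ)
          else 0)) / ((M : ℝ) + 1)) / ((T : ℝ) + 1) ^ 3) =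
        (∑ m1 : Fin (M + 1), (∑ y'' : Fin 3 → Fin (T + 1), (∑ m : Fin (M + 1),
        (if v + ax 1 (a * ((m1 : ℕ) : ℤ)) + (fun i => ((y'' i : ℕ) : ℤ)) +
          ax 2 (a * ((m : ℕ) : ℤ)) = z then (1 : ℝ)
          else 0)) / ((M : ℝ) + 1)) / ((T : ℝ) + 1) ^ 3) / ((M : ℝ) + 1) := fun v =>
      dens_Ch h hne hd 1 M (fun w => (∑ y'' : Fin 3 → Fin (T + 1), (∑ m : Fin (M + 1),
        (if v + w + (fun i => ((y'' i : ℕ) : ℤ)) + ax 2 (a * ((m : ℕ) : ℤ)) = z then (1 : ℝ)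
          else 0)) / ((M : ℝ) + 1)) / ((T : ℝ) + 1) ^ 3)
    simp only [e3]
    have e4 : ∀ v : V, ((Sh T).E fun y' =>
        (∑ m1 : Fin (M + 1), (∑ y'' : Fin 3 → Fin (T + 1), (∑ m : Fin (M + 1),
        (if v + disp y' + ax 1 (a * ((m1 : ℕ) : ℤ)) + (fun i => ((y'' i : ℕ) : ℤ)) +
          ax 2 (a * ((m : ℕ) : ℤ)) = z then (1 : ℝ)
          else 0)) / ((M : ℝ) + 1)) / ((T : ℝ) + 1) ^ 3) / ((M : ℝ) + 1)) =
        (∑ y' : Fin 3 → Fin (T + 1), (∑ m1 : Fin (M + 1), (∑ y'' : Fin 3 → Fin (T + 1),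
          (∑ m : Fin (M + 1),
        (if v + (fun i => ((y' i : ℕ) : ℤ)) + ax 1 (a * ((m1 : ℕ) : ℤ)) +
          (fun i => ((y'' i : ℕ) : ℤ)) + ax 2 (a * ((m : ℕ) : ℤ)) = z then (1 : ℝ)
          else 0)) / ((M : ℝ) + 1)) / ((T : ℝ) + 1) ^ 3) / ((M : ℝ) + 1)) /
          ((T : ℝ) + 1) ^ 3 := fun v =>
      dens_Sh T (fun w =>
        (∑ m1 : Fin (M + 1), (∑ y'' : Fin 3 → Fin (T + 1), (∑ m : Fin (M + 1),
        (if v + w + ax 1 (a * ((m1 : ℕ) : ℤ)) + (fun i => ((y'' i : ℕ) : ℤ)) +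
          ax 2 (a * ((m : ℕ) : ℤ)) = z then (1 : ℝ)
          else 0)) / ((M : ℝ) + 1)) / ((T : ℝ) + 1) ^ 3) / ((M : ℝ) + 1))
    simp only [e4]
    have e5 : ∀ v : V, ((ChF B n h hne 0 M).E fun u =>
        (∑ y' : Fin 3 → Fin (T + 1), (∑ m1 : Fin (M + 1), (∑ y'' : Fin 3 → Fin (T + 1),
          (∑ m : Fin (M + 1),
        (if v + disp u + (fun i => ((y' i : ℕ) : ℤ)) + ax 1 (a * ((m1 : ℕ) : ℤ)) +
          (fun i => ((y'' i : ℕ) : ℤ)) + ax 2 (a * ((m : ℕ) : ℤ)) = z then (1 : ℝ)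
          else 0)) / ((M : ℝ) + 1)) / ((T : ℝ) + 1) ^ 3) / ((M : ℝ) + 1)) /
          ((T : ℝ) + 1) ^ 3) =
        (∑ m0 : Fin (M + 1), (∑ y' : Fin 3 → Fin (T + 1), (∑ m1 : Fin (M + 1),
          (∑ y'' : Fin 3 → Fin (T + 1), (∑ m : Fin (M + 1),
        (if v + ax 0 (a * ((m0 : ℕ) : ℤ)) + (fun i => ((y' i : ℕ) : ℤ)) +
          ax 1 (a * ((m1 : ℕ) : ℤ)) +
          (fun i => ((y'' i : ℕ) : ℤ)) + ax 2 (a * ((m : ℕ) : ℤ)) = z then (1 : ℝ)
          else 0)) / ((M : ℝ) + 1)) / ((T : ℝ) + 1) ^ 3) / ((M : ℝ) + 1)) /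
          ((T : ℝ) + 1) ^ 3) / ((M : ℝ) + 1) := fun v =>
      dens_Ch h hne hd 0 M (fun w =>
        (∑ y' : Fin 3 → Fin (T + 1), (∑ m1 : Fin (M + 1), (∑ y'' : Fin 3 → Fin (T + 1),
          (∑ m : Fin (M + 1),
        (if v + w + (fun i => ((y' i : ℕ) : ℤ)) + ax 1 (a * ((m1 : ℕ) : ℤ)) +
          (fun i => ((y'' i : ℕ) : ℤ)) + ax 2 (a * ((m : ℕ) : ℤ)) = z then (1 : ℝ)
          else 0)) / ((M : ℝ) + 1)) / ((T : ℝ) + 1) ^ 3) / ((M : ℝ) + 1)) /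
          ((T : ℝ) + 1) ^ 3)
    simp only [e5]
    have e6 := dens_Sh T (fun v => (∑ m0 : Fin (M + 1), (∑ y' : Fin 3 → Fin (T + 1),
          (∑ m1 : Fin (M + 1), (∑ y'' : Fin 3 → Fin (T + 1), (∑ m : Fin (M + 1),
        (if x + v + ax 0 (a * ((m0 : ℕ) : ℤ)) + (fun i => ((y' i : ℕ) : ℤ)) +
          ax 1 (a * ((m1 : ℕ) : ℤ)) +
          (fun i => ((y'' i : ℕ) : ℤ)) + ax 2 (a * ((m : ℕ) : ℤ)) = z then (1 : ℝ)
          else 0)) / ((M : ℝ) + 1)) / ((T : ℝ) + 1) ^ 3) / ((M : ℝ) + 1)) /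
          ((T : ℝ) + 1) ^ 3) / ((M : ℝ) + 1))
    rw [e6]
    simp only [← Finset.sum_div]
    rw [dens_swap]
    have hsum : ∑ y' : Fin 3 → Fin (T + 1), ∑ y'' : Fin 3 → Fin (T + 1),
        ∑ y : Fin 3 → Fin (T + 1), ∑ m0 : Fin (M + 1), ∑ m1 : Fin (M + 1), ∑ m2 : Fin (M + 1),
        (if x + (fun i => ((y i : ℕ) : ℤ)) + ax 0 (a * ((m0 : ℕ) : ℤ)) +
          (fun i => ((y' i : ℕ) : ℤ)) + ax 1 (a * ((m1 : ℕ) : ℤ)) +
          (fun i => ((y'' i : ℕ) : ℤ)) + ax 2 (a * ((m2 : ℕ) : ℤ)) = z then (1 : ℝ) else 0) ≤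
        ((T : ℝ) + 1) ^ 3 * (((T : ℝ) + 1) ^ 3 * (2 * ((T : ℝ) + 1) / a) ^ 3) := by
      refine (Finset.sum_le_sum fun y' _ => Finset.sum_le_sum fun y'' _ =>
        dens_count a M T ha haT x _ _ z).trans (le_of_eq ?_)
      simp only [Finset.sum_const, Finset.card_univ, nsmul_eq_mul]
      simp
    have hT : (0 : ℝ) < (T : ℝ) + 1 := by positivity
    have hM : (0 : ℝ) < (M : ℝ) + 1 := by positivity
    rw [div_div, div_div, div_div, div_div, div_div, div_le_iff₀ (by positivity)]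
    refine hsum.trans (le_of_eq ?_)
    rw [hD]
    field_simp
    ring
  have := key (disp g)
  simpa only [add_assoc] using this

end Pool.Agent.H46R2.K3.P
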