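import Pool.Agent.H46R2.K3.Defs

/-!
# Functions versus words (task EQ, helper655)
-/

namespace Pool.Agent.H46R2.K3.P

open Finset

theorem eq_mem_W {n : ℕ} {w : List St} : w ∈ W n ↔ w.length = n := by
  unfold W
  simp only [Finset.mem_image, Finset.mem_univ, true_and]
  constructor
  · rintro ⟨v, rfl⟩
    exact v.2
  · intro h
    exact ⟨⟨w, h⟩, rfl⟩

theorem eq_pos_zero (w : List St) : pos w 0 = 0 := by simp [pos]

theorem eq_pos_succ {w : List St} {k : ℕ} (h : k < w.length) :
    pos w (k + 1) = pos w k + vec w[k] := by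
  unfold pos
  rw [List.take_add_one, List.map_append, List.sum_append]
  simp [h]

theorem eq_vec_inj : Function.Injective vec := by
  rintro ⟨i, b⟩ ⟨j, b'⟩ h
  have h1 := congrFun h i
  have h2 : i = j := by
    by_contra hne
    simp only [vec, if_true] at h1
    rw [if_neg hne] at h1
    cases b <;> simp at h1
  subst h2
  have h3 : b = b' := by
    cases b <;> cases b' <;> simp [vec] at h1 ⊢
  rw [h3]

theorem eq_vec_norm (s : St) : ∑ j : Fin 3, |vec s j| = 1 := by
  rw [Finset.sum_eq_single s.1]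
  · obtain ⟨i, b⟩ := s
    cases b <;> simp [vec]
  · intro j _ hj
    simp [vec, hj]
  · simp

theorem eq_exists_letter (v : V) (hv : ∑ k, |v k| = 1) : ∃ a : St, vec a = v := by
  have h1 : ∃ k, v k ≠ 0 := by
    by_contra hc
    push Not at hc
    simp [hc] at hv
  obtain ⟨k0, hk0⟩ := h1
  have h2 : |v k0| + ∑ k ∈ Finset.univ.erase k0, |v k| = 1 := by
    rw [Finset.add_sum_erase Finset.univ (fun k => |v k|) (Finset.mem_univ k0)]; exact hv
  have h3 : 1 ≤ |v k0| := Int.one_le_abs hk0
  have h4 : 0 ≤ ∑ k ∈ Finset.univ.erase k0, |v k| := Finset.sum_nonneg fun k _ => abs_nonneg _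
  have h5 : ∑ k ∈ Finset.univ.erase k0, |v k| = 0 := by linarith
  have h6 : |v k0| = 1 := by linarith
  have h7 : ∀ k, k ≠ k0 → v k = 0 := by
    intro k hk
    have := (Finset.sum_eq_zero_iff_of_nonneg (fun k _ => abs_nonneg (v k))).1 h5 k
      (Finset.mem_erase.2 ⟨hk, Finset.mem_univ _⟩)
    exact abs_eq_zero.1 this
  refine ⟨(k0, decide (0 < v k0)), ?_⟩
  funext k
  by_cases hk : k = k0
  · subst hk
    simp only [vec, if_true]
    rcases abs_eq (show (0 : ℤ) ≤ 1 by norm_num) |>.1 h6 with h | h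
    · simp [h]
    · simp [h]
  · rw [h7 k hk]
    simp [vec, hk]

theorem eq_ext {n : ℕ} {w w' : List St} (hw : w.length = n) (hw' : w'.length = n)
    (h : ∀ k ≤ n, pos w k = pos w' k) : w = w' := by
  refine List.ext_getElem (hw.trans hw'.symm) fun k hk hk' => ?_
  have h1 := h k (by omega)
  have h2 := h (k + 1) (by omega)
  rw [eq_pos_succ hk, eq_pos_succ hk', h1] at h2
  exact eq_vec_inj (add_left_cancel h2)

theorem eq_exists_word {n : ℕ} (f : Fin (n + 1) → (Fin 3 → ℤ)) (h0 : f 0 = 0)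
    (h1 : ∀ i : Fin n, ∑ j : Fin 3, |f i.succ j - f i.castSucc j| = 1) :
    ∃ w : List St, w.length = n ∧ ∀ i : Fin (n + 1), pos w i = f i := by
  have hl : ∀ i : Fin n, ∃ a : St, vec a = f i.succ - f i.castSucc :=
    fun i => eq_exists_letter _ (h1 i)
  choose g hg using hl
  refine ⟨List.ofFn g, by simp, ?_⟩
  have hpos : ∀ t : ℕ, ∀ ht : t < n + 1, pos (List.ofFn g) t = f ⟨t, ht⟩ := by
    intro t
    induction t with
    | zero =>
      intro _
      rw [eq_pos_zero]
      exact h0.symm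
    | succ t ih =>
      intro ht
      rw [eq_pos_succ (by simp; omega), ih (by omega), List.getElem_ofFn, hg]
      simp
  intro i
  exact hpos i i.isLt

theorem card_eq (n : ℕ) :
    Nat.card {f : Fin (n + 1) → (Fin 3 → ℤ) // f 0 = 0 ∧ Function.Injective f ∧
      ∀ i : Fin n, ∑ j : Fin 3, |f i.succ j - f i.castSucc j| = 1} = c n := by
  classical
  have hfilter : c n = Nat.card ((W n).filter Saw) := by
    rw [Nat.card_eq_fintype_card, Fintype.card_coe]
    unfold c
    congr
  rw [hfilter]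
  symm
  have hprop : ∀ w : (W n).filter Saw, (fun i : Fin (n + 1) => pos w.1 i) 0 = 0 ∧
      Function.Injective (fun i : Fin (n + 1) => pos w.1 i) ∧
      ∀ i : Fin n, ∑ j : Fin 3, |(fun i : Fin (n + 1) => pos w.1 i) i.succ j -
        (fun i : Fin (n + 1) => pos w.1 i) i.castSucc j| = 1 := by
    rintro ⟨w, hw⟩
    rw [Finset.mem_filter, eq_mem_W] at hw
    obtain ⟨hlen, hsaw⟩ := hw
    refine ⟨?_, ?_, ?_⟩
    · simp [eq_pos_zero]
    · intro i j hij
      by_contra hne
      rcases lt_or_gt_of_ne hne with h | h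
      · exact hsaw i j h (by omega) hij
      · exact hsaw j i h (by omega) hij.symm
    · intro i
      have h1 : ∀ j, pos w (i.succ : Fin (n + 1)) j - pos w (i.castSucc : Fin (n + 1)) j =
          vec (w[(i : ℕ)]'(by omega)) j := by
        intro j
        have h2 := eq_pos_succ (w := w) (k := i) (by omega)
        rw [Fin.val_succ, Fin.val_castSucc, h2]
        simp
      simp only [h1]
      exact eq_vec_norm _
  refine Nat.card_eq_of_bijective (fun w => ⟨fun i => pos w.1 i, hprop w⟩) ⟨?_, ?_⟩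
  · rintro ⟨w, hw⟩ ⟨w', hw'⟩ h
    rw [Finset.mem_filter, eq_mem_W] at hw hw'
    rw [Subtype.mk.injEq] at h
    apply Subtype.ext
    refine eq_ext hw.1 hw'.1 fun k hk => ?_
    exact congrFun h ⟨k, by omega⟩
  · rintro ⟨f, h0, hinj, h1⟩
    obtain ⟨w, hlen, hw⟩ := eq_exists_word f h0 h1
    refine ⟨⟨w, ?_⟩, ?_⟩
    · rw [Finset.mem_filter, eq_mem_W]
      refine ⟨hlen, fun i j hij hj h => ?_⟩
      have e1 := hw ⟨i, by omega⟩
      have e2 := hw ⟨j, by omega⟩
      simp only at e1 e2
      rw [e1, e2] at h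
      have := hinj h
      rw [Fin.mk.injEq] at this
      omega
    · apply Subtype.ext
      funext i
      exact hw i

end Pool.Agent.H46R2.K3.P
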