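import Pool.Agent.H46R2.K3.APP
import Pool.Agent.H46R2.K3.SHIFT
import Pool.Agent.H46R2.K3.MU

/-!
Task EXITG (helper880 for helper46): an exit family from a good family.
-/

namespace Pool.Agent.H46R2.K3.P

open Finset

theorem exitg_pos_left {u v : List St} {i : ℕ} (h : i ≤ u.length) : pos (u ++ v) i = pos u i := by
  unfold pos
  rw [List.take_append_of_le_length h]

theorem exitg_pos_right (u v : List St) (j : ℕ) :
    pos (u ++ v) (u.length + j) = disp u + pos v j := by
  unfold pos disp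
  rw [List.take_length_add_append, List.map_append, List.sum_append]

theorem exitg_disp_append (u v : List St) : disp (u ++ v) = disp u + disp v := by
  unfold disp
  rw [List.map_append, List.sum_append]

theorem exitg_pos_length (u : List St) : pos u u.length = disp u := by
  unfold pos disp
  rw [List.take_length]

theorem exitg_pos_zero (u : List St) : pos u 0 = 0 := by simp [pos]

theorem exitg_abs_disp (u : List St) (j : Fin 3) : |disp u j| ≤ (u.length : ℤ) := by
  induction u with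
  | nil => simp [disp]
  | cons s u ih =>
    have h1 : disp (s :: u) j = vec s j + disp u j := by
      unfold disp
      rw [List.map_cons, List.sum_cons]
      rfl
    have h2 : |vec s j| ≤ 1 := by
      unfold vec
      split_ifs <;> simp
    rw [h1, List.length_cons]
    push_cast
    calc |vec s j + disp u j| ≤ |vec s j| + |disp u j| := abs_add_le _ _
      _ ≤ _ := by linarith

theorem exitg_abs_pos (u : List St) (i : ℕ) (hi : i ≤ u.length) (j : Fin 3) :
    |pos u i j| ≤ (u.length : ℤ) := by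
  have h := exitg_abs_disp (u.take i) j
  have h1 : disp (u.take i) = pos u i := rfl
  rw [h1, List.length_take] at h
  refine h.trans ?_
  exact_mod_cast min_le_right _ _

theorem exitg_sawF {n : ℕ} {c' : ℝ} (S : Finset (List St)) (hne : S.Nonempty)
    (hS : ∀ w ∈ S, w.length = n) (hS1 : ∀ w ∈ S, Br w)
    (hc : mu ^ n * Real.exp (-c') ≤ (#S : ℝ)) :
    SawF (Fam.ofSet S n hS hne) n (n : ℤ) c' where
  len_le := fun _ => le_rfl
  saw := fun _ w hw => (hS1 w hw).1
  wan := fun _ w hw i hi => by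
    have := exitg_abs_pos w i hi 0
    rwa [hS w hw] at this
  cost := fun _ => hc

theorem exit_of_good {𝒢 : Fam} {L J n Λ ρ L₁ J₁ T : ℕ} {R : ℤ} {c k h₀ h₁ D c' Y : ℝ}
    (hG : Good 𝒢 L J R c k h₀ h₁ D) (hD : 0 ≤ D) (hh₀ : 0 ≤ h₀) (hh₁ : 0 ≤ h₁)
    (S : Finset (List St)) (hne : S.Nonempty)
    (hS : ∀ w ∈ S, w.length = n) (hS1 : ∀ w ∈ S, Br w) (hS2 : ∀ w ∈ S, (Λ : ℤ) ≤ disp w 0)
    (hΛ : 2 * (ρ : ℤ) + 2 * (R + T) ≤ Λ)
    (hc : mu ^ n * Real.exp (-c') ≤ (#S : ℝ)) (hL : L + 3 * T + n ≤ L₁) (hJ : J + 2 ≤ J₁)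
    (hY1 : c + 3 * T * Real.log 6 + c' ≤ Y)
    (hY2 : k + 3 * T * J + (3 * T + 1) + ((L : ℝ) + 1) * n / ((T : ℝ) + 1) ^ 3 ≤ Y)
    (hY3 : (h₀ + n * D) * (2 * L₁ + 2) + (h₁ + 3 * T) * (J₁ + 2) ≤ Y) :
    ExitF (𝒢.app T (Fam.ofSet S n hS hne)) ρ L₁ J₁ Y := by
  classical
  have hA := app_good hG (exitg_sawF S hne hS hS1 hc) hD T
  have hR : 0 ≤ R := by
    obtain ⟨θ⟩ := 𝒢.ne
    obtain ⟨w, hw⟩ := 𝒢.hne θ
    have := hG.wan θ w hw 0 (Nat.zero_le _)
    rw [exitg_pos_zero] at this
    simpa using this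
  have hmu : 0 ≤ mu := le_trans zero_le_one one_le_mu
  -- structure of the words
  have key : ∀ θ, ∀ w ∈ (𝒢.app T (Fam.ofSet S n hS hne)).F θ,
      (∀ i ≤ w.length, -R ≤ pos w i 0) ∧ (∀ i ≤ w.length, pos w i 0 ≤ disp w 0) ∧
        2 * (ρ : ℤ) + R ≤ disp w 0 := by
    intro θ w hw
    simp only [Fam.app, Fam.mul, Finset.mem_image, Finset.mem_product, Sh,
      Finset.mem_singleton, Fam.ofSet] at hw
    obtain ⟨⟨gs, e⟩, ⟨⟨⟨g, s⟩, ⟨hg, hs⟩, hgs⟩, he⟩, rfl⟩ := hw
    simp only at hgs he hg hs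
    subst hgs
    -- facts on the pieces
    have hgw : ∀ i ≤ g.length, |pos g i 0| ≤ R := hG.wan _ g hg
    have hgd : |disp g 0| ≤ R := by
      have := hgw g.length le_rfl
      rwa [exitg_pos_length] at this
    have hsw : ∀ i, 0 ≤ pos s i 0 ∧ pos s i 0 ≤ T := by
      intro i
      rw [hs]
      refine ⟨(pos_sw _ i).1, (pos_sw _ i).2.trans ?_⟩
      have := (θ.1.2 0).is_le
      exact_mod_cast this
    have hsd : 0 ≤ disp s 0 ∧ disp s 0 ≤ T := by
      have := hsw s.length
      rwa [exitg_pos_length] at this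
    have hebr := hS1 e he
    have hed := hS2 e he
    have hep : ∀ i ≤ e.length, 0 ≤ pos e i 0 ∧ pos e i 0 ≤ disp e 0 := by
      intro i hi
      rcases Nat.eq_zero_or_pos i with h0 | h0
      · subst h0
        rw [exitg_pos_zero]
        refine ⟨le_rfl, ?_⟩
        simp only [Pi.zero_apply]
        omega
      · have := hebr.2 i h0 hi
        exact ⟨this.1.le, this.2⟩
    have hdw : disp (g ++ s ++ e) 0 = disp g 0 + disp s 0 + disp e 0 := by
      rw [exitg_disp_append, exitg_disp_append]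
      rfl
    have hgd' := abs_le.mp hgd
    have hpos : ∀ i ≤ (g ++ s ++ e).length, -R ≤ pos (g ++ s ++ e) i 0 ∧
        pos (g ++ s ++ e) i 0 ≤ disp (g ++ s ++ e) 0 := by
      intro i hi
      rw [hdw]
      rcases le_or_gt i (g ++ s).length with h1 | h1
      · rw [exitg_pos_left h1]
        rcases le_or_gt i g.length with h2 | h2
        · rw [exitg_pos_left h2]
          have := abs_le.mp (hgw i h2)
          constructor
          · exact this.1
          · omega
        · obtain ⟨j, rfl⟩ := Nat.exists_eq_add_of_le h2.le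
          rw [exitg_pos_right]
          have := hsw j
          have e1 : (disp g + pos s j) 0 = disp g 0 + pos s j 0 := rfl
          rw [e1]
          constructor <;> omega
      · obtain ⟨j, rfl⟩ := Nat.exists_eq_add_of_le h1.le
        rw [exitg_pos_right]
        rw [List.length_append (as := g ++ s)] at hi
        have := hep j (by omega)
        have e1 : (disp (g ++ s) + pos e j) 0 = disp g 0 + disp s 0 + pos e j 0 := by
          rw [exitg_disp_append]
          rfl
        rw [e1]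
        constructor <;> omega
    refine ⟨fun i hi => (hpos i hi).1, fun i hi => (hpos i hi).2, ?_⟩
    change 2 * (ρ : ℤ) + R ≤ disp (g ++ s ++ e) 0
    rw [hdw]
    omega
  refine ⟨fun θ => (hA.len_le θ).trans hL, fun θ w hw z => (hA.vis θ w hw z).trans hJ, ?_, ?_, ?_,
    fun θ w hw => (key θ w hw).2.1, ⟨R, hR, fun θ w hw => (key θ w hw).1,
    fun θ w hw => (key θ w hw).2.2⟩⟩
  · intro θ
    refine le_trans ?_ (hA.cost θ)
    apply mul_le_mul_of_nonneg_left _ (pow_nonneg hmu _)
    apply Real.exp_le_exp.mpr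
    linarith
  · exact hA.Kexp.trans hY2
  · intro A hAl hAc
    have h1 := hA.hit A (J₁ + 2) hAc
    refine h1.trans (le_trans ?_ hY3)
    have h2 : (A.length : ℝ) ≤ 2 * L₁ + 2 := by exact_mod_cast hAl
    have h3 : h₀ + n * min D (1 / ((T : ℝ) + 1) ^ 3) ≤ h₀ + n * D := by
      have := min_le_left D (1 / ((T : ℝ) + 1) ^ 3)
      have := mul_le_mul_of_nonneg_left this (Nat.cast_nonneg (α := ℝ) n)
      linarith
    have h4 : 0 ≤ h₀ + n * min D (1 / ((T : ℝ) + 1) ^ 3) := by
      have : 0 ≤ min D (1 / ((T : ℝ) + 1) ^ 3) := le_min hD (by positivity)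
      positivity
    have h5 : (h₀ + n * min D (1 / ((T : ℝ) + 1) ^ 3)) * A.length ≤
        (h₀ + n * D) * (2 * L₁ + 2) :=
      mul_le_mul h3 h2 (by positivity) (by positivity)
    push_cast
    linarith

end Pool.Agent.H46R2.K3.P
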