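import Pool.Agent.H46R2.K3.STAGES
import Pool.Agent.H46R2.K3.BLOB
import Pool.Agent.H46R2.K3.EXITG
import Pool.Agent.H46R2.K3.CHAIN
import Pool.Agent.H46R2.K3.MU

/-! Task EXIT of the team K3 (helper46): existence of the exit families. -/

namespace Pool.Agent.H46R2.K3.P

open Finset

theorem exit_len_W {n : ℕ} {w : List St} (h : w ∈ W n) : w.length = n := by
  unfold W at h
  obtain ⟨v, _, rfl⟩ := Finset.mem_image.1 h
  exact v.2

theorem exit_mem_Bl {n a : ℕ} {w : List St} (h : w ∈ Bl n a) :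
    w ∈ W n ∧ Br w ∧ disp w = ax 0 a := by
  classical
  unfold Bl at h
  exact Finset.mem_filter.1 h

theorem exit_len_Bl {n a : ℕ} {w : List St} (h : w ∈ Bl n a) : w.length = n :=
  exit_len_W (exit_mem_Bl h).1

theorem exit_log6 : Real.log 6 ≤ 2 := by
  rw [Real.log_le_iff_le_exp (by norm_num)]
  have h3 : Real.exp 2 = Real.exp 1 ^ 2 := by
    rw [← Real.exp_nat_mul]
    norm_num
  rw [h3]
  have h4 := Real.exp_one_gt_d9
  nlinarith

theorem exit_logQ {Q : ℕ} (hQ : 2 ≤ Q) : (1 : ℝ) ≤ 2 * Real.log Q := by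
  have h1 : (2 : ℝ) ≤ Q := by exact_mod_cast hQ
  have h2 : Real.log 2 ≤ Real.log Q := Real.log_le_log (by norm_num) h1
  have h3 := Real.log_two_gt_d9
  linarith

/-- the constant of the length and of the number of visits -/
def exit_C1 (C J : ℕ) : ℕ := C + 3 + (4 * (2 * C + 4) + 4) + (6 * J + 3)

/-- the constant of the cost -/
noncomputable def exit_C2 (C J : ℕ) (C3 : ℝ) : ℝ :=
  ((C : ℝ) + 12 + C3) +
    (2 * C + 6 * (6 * J + 1) + 8 + 2 * ((C + 1) * (4 * (2 * C + 4) + 4))) +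
    2 * (C * (2 * (exit_C1 C J : ℝ) + 2) +
      8 * (4 * (2 * (C : ℝ) + 4) + 4) * (2 * (exit_C1 C J : ℝ) + 2) +
      (C + 3) * ((exit_C1 C J : ℝ) + 2))

theorem exit_core (J : ℕ) (hJ : 1 ≤ J) (C : ℕ) (C3 : ℝ) (hC3 : 0 ≤ C3) (Q : ℕ) (hQ : 2 ≤ Q)
    {𝒢 : Fam} {D : ℝ}
    (hG : Good 𝒢 (C * Q ^ (15 * J + 2)) (6 * J + 1) (C * (Q : ℤ) ^ (10 * J + 1))
      (C * (Q : ℝ) ^ (9 * J + 1) * Real.log Q) (C * (Q : ℝ) ^ (9 * J + 1))
      (C * (Q : ℝ) ^ 2 / (Q : ℝ) ^ (15 * J)) (C * (Q : ℝ) ^ (9 * J + 1)) D)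
    (hD : 0 ≤ D) (hD2 : D ≤ 8 / ((Q : ℝ) ^ (10 * J + 1)) ^ 3)
    (ρ : ℕ) (hρ : Q ^ (10 * J + 1) ≤ ρ)
    (S : Finset (List St)) (hne : S.Nonempty) (n : ℕ)
    (hS : ∀ w ∈ S, w.length = n) (hS1 : ∀ w ∈ S, Br w)
    (hS2 : ∀ w ∈ S, (((2 * C + 4) * ρ : ℕ) : ℤ) ≤ disp w 0)
    (hn : n ≤ (4 * (2 * C + 4) + 4) * Q ^ (15 * J + 2)) {c' : ℝ}
    (hc' : c' ≤ C3 * ((Q : ℝ) ^ (9 * J + 1) * Real.log Q))
    (hc : mu ^ n * Real.exp (-c') ≤ (#S : ℝ)) :
    ∃ 𝒢 : Fam, ExitF 𝒢 ρ (exit_C1 C J * Q ^ (24 * J)) (exit_C1 C J)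
      ((⌈exit_C2 C J C3⌉₊ : ℕ) * (Q : ℝ) ^ (9 * J + 2) * Real.log Q) := by
  have hQ1 : 1 ≤ Q := by omega
  have hQr : (2 : ℝ) ≤ Q := by exact_mod_cast hQ
  have hQr1 : (1 : ℝ) ≤ Q := by linarith
  have hq0 : (0 : ℝ) < Q := by linarith
  have hlog := exit_logQ hQ
  have hlog0 : 0 < Real.log Q := by linarith
  set X : ℝ := (Q : ℝ) ^ (9 * J + 2) * Real.log Q with hX
  have hX1 : (Q : ℝ) ^ (9 * J + 1) * Real.log Q ≤ X := by
    rw [hX]
    have : (Q : ℝ) ^ (9 * J + 1) ≤ (Q : ℝ) ^ (9 * J + 2) := pow_le_pow_right₀ hQr1 (by omega)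
    gcongr
  have hX2 : (Q : ℝ) ^ (9 * J + 2) ≤ 2 * X := by
    rw [hX]
    have : 0 < (Q : ℝ) ^ (9 * J + 2) := by positivity
    nlinarith
  have hX0 : 0 < X := by positivity
  have hT1 : (Q : ℝ) ^ (7 * J + 1) ≤ (Q : ℝ) ^ (9 * J + 2) := pow_le_pow_right₀ hQr1 (by omega)
  have hT2 : (1 : ℝ) ≤ (Q : ℝ) ^ (9 * J + 2) := one_le_pow₀ hQr1
  have hT3 : (Q : ℝ) ^ (9 * J + 1) ≤ (Q : ℝ) ^ (9 * J + 2) := pow_le_pow_right₀ hQr1 (by omega)
  have hnr : (n : ℝ) ≤ (4 * (2 * (C : ℝ) + 4) + 4) * (Q : ℝ) ^ (15 * J + 2) := by exact_mod_cast hn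
  set C1 : ℕ := exit_C1 C J with hC1
  have hC1r : (C1 : ℝ) = C + 3 + (4 * (2 * C + 4) + 4) + (6 * J + 3) := by
    rw [hC1]
    unfold exit_C1
    push_cast
    ring
  refine ⟨𝒢.app (Q ^ (7 * J + 1)) (Fam.ofSet S n hS hne), ?_⟩
  refine exit_of_good (Λ := (2 * C + 4) * ρ) (c' := c') hG hD (by positivity) (by positivity) S hne
    hS hS1 hS2 ?_ hc ?_ ?_ ?_ ?_ ?_
  · -- the span
    have h1 : (Q : ℤ) ^ (10 * J + 1) ≤ ρ := by exact_mod_cast hρ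
    have h2 : ((Q ^ (7 * J + 1) : ℕ) : ℤ) ≤ ρ := by
      have : Q ^ (7 * J + 1) ≤ Q ^ (10 * J + 1) := Nat.pow_le_pow_right hQ1 (by omega)
      exact_mod_cast this.trans hρ
    have h3 : (C : ℤ) * (Q : ℤ) ^ (10 * J + 1) ≤ C * ρ := by gcongr
    push_cast at h2 ⊢
    nlinarith
  · -- the length
    have h1 : Q ^ (15 * J + 2) ≤ Q ^ (24 * J) := Nat.pow_le_pow_right hQ1 (by omega)
    have h2 : Q ^ (7 * J + 1) ≤ Q ^ (24 * J) := Nat.pow_le_pow_right hQ1 (by omega)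
    calc C * Q ^ (15 * J + 2) + 3 * Q ^ (7 * J + 1) + n
        ≤ C * Q ^ (24 * J) + 3 * Q ^ (24 * J) + (4 * (2 * C + 4) + 4) * Q ^ (24 * J) := by
          have h3 : (4 * (2 * C + 4) + 4) * Q ^ (15 * J + 2) ≤
            (4 * (2 * C + 4) + 4) * Q ^ (24 * J) := Nat.mul_le_mul_left _ h1
          have h4 : C * Q ^ (15 * J + 2) ≤ C * Q ^ (24 * J) := Nat.mul_le_mul_left _ h1
          omega
      _ = (C + 3 + (4 * (2 * C + 4) + 4)) * Q ^ (24 * J) := by ring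
      _ ≤ C1 * Q ^ (24 * J) := by
          apply Nat.mul_le_mul_right
          rw [hC1]
          unfold exit_C1
          omega
  · rw [hC1]
    unfold exit_C1
    omega
  all_goals
    have hceil : exit_C2 C J C3 ≤ (⌈exit_C2 C J C3⌉₊ : ℝ) := Nat.le_ceil _
    have hY : exit_C2 C J C3 * X ≤ (⌈exit_C2 C J C3⌉₊ : ℕ) * (Q : ℝ) ^ (9 * J + 2) * Real.log Q := by
      rw [mul_assoc, ← hX]
      gcongr
    refine le_trans ?_ hY
    push_cast
    have hp1 : 0 ≤ ((C : ℝ) + 12 + C3) * X := by positivity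
    have hp2 : 0 ≤ (2 * (C : ℝ) + 6 * (6 * J + 1) + 8 + 2 * ((C + 1) * (4 * (2 * C + 4) + 4))) * X := by
      positivity
    have hp3 : 0 ≤ (2 * (C * (2 * (C1 : ℝ) + 2) +
      8 * (4 * (2 * (C : ℝ) + 4) + 4) * (2 * (C1 : ℝ) + 2) +
      (C + 3) * ((C1 : ℝ) + 2))) * X := by positivity
    have hC2 : exit_C2 C J C3 * X = ((C : ℝ) + 12 + C3) * X +
      (2 * (C : ℝ) + 6 * (6 * J + 1) + 8 + 2 * ((C + 1) * (4 * (2 * C + 4) + 4))) * X +
      (2 * (C * (2 * (C1 : ℝ) + 2) +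
      8 * (4 * (2 * (C : ℝ) + 4) + 4) * (2 * (C1 : ℝ) + 2) +
      (C + 3) * ((C1 : ℝ) + 2))) * X := by
      unfold exit_C2
      ring
    rw [hC2]
  · -- Y1
    have h6 := exit_log6
    have h7 : 3 * (Q : ℝ) ^ (7 * J + 1) * Real.log 6 ≤ 12 * X := by
      have h60 : 0 ≤ Real.log 6 := Real.log_nonneg (by norm_num)
      calc 3 * (Q : ℝ) ^ (7 * J + 1) * Real.log 6 ≤ 3 * (Q : ℝ) ^ (9 * J + 2) * 2 := by gcongr
        _ ≤ 3 * (2 * X) * 2 := by gcongr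
        _ = _ := by ring
    have h8 : (C : ℝ) * (Q : ℝ) ^ (9 * J + 1) * Real.log Q ≤ C * X := by
      rw [mul_assoc]
      gcongr
    have h9 : c' ≤ C3 * X := hc'.trans (by gcongr)
    have h10 : (C : ℝ) * (Q : ℝ) ^ (9 * J + 1) * Real.log Q + 3 * (Q : ℝ) ^ (7 * J + 1) * Real.log 6 + c' ≤
        ((C : ℝ) + 12 + C3) * X := by linarith
    linarith
  · -- Y2
    have h1 : (C : ℝ) * (Q : ℝ) ^ (9 * J + 1) ≤ C * (2 * X) := by
      gcongr
      exact hT3.trans hX2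
    have h2 : 3 * (Q : ℝ) ^ (7 * J + 1) * (6 * J + 1) ≤ 3 * (2 * X) * (6 * J + 1) := by
      gcongr
      exact hT1.trans hX2
    have h3 : 3 * (Q : ℝ) ^ (7 * J + 1) + 1 ≤ 8 * X := by linarith
    have h4 : ((C : ℝ) * (Q : ℝ) ^ (15 * J + 2) + 1) * n / ((Q : ℝ) ^ (7 * J + 1) + 1) ^ 3 ≤
        ((C + 1) * (4 * (2 * C + 4) + 4)) * (2 * X) := by
      have h5 : (1 : ℝ) ≤ (Q : ℝ) ^ (15 * J + 2) := one_le_pow₀ hQr1
      rw [div_le_iff₀ (by positivity)]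
      calc ((C : ℝ) * (Q : ℝ) ^ (15 * J + 2) + 1) * n ≤
          ((C : ℝ) * (Q : ℝ) ^ (15 * J + 2) + (Q : ℝ) ^ (15 * J + 2)) *
            ((4 * (2 * (C : ℝ) + 4) + 4) * (Q : ℝ) ^ (15 * J + 2)) := by gcongr
        _ = ((C + 1) * (4 * (2 * C + 4) + 4)) *
            ((Q : ℝ) ^ (9 * J + 1) * ((Q : ℝ) ^ (7 * J + 1)) ^ 3) := by
          rw [← pow_mul, ← pow_add]
          have e : 9 * J + 1 + (7 * J + 1) * 3 = (15 * J + 2) + (15 * J + 2) := by ring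
          rw [e, pow_add]
          ring
        _ ≤ ((C + 1) * (4 * (2 * C + 4) + 4)) *
            ((2 * X) * ((Q : ℝ) ^ (7 * J + 1) + 1) ^ 3) := by
          gcongr
          · exact hT3.trans hX2
          · linarith
        _ = _ := by ring
    have h10 : (C : ℝ) * (Q : ℝ) ^ (9 * J + 1) + 3 * (Q : ℝ) ^ (7 * J + 1) * (6 * J + 1) +
        (3 * (Q : ℝ) ^ (7 * J + 1) + 1) +
        ((C : ℝ) * (Q : ℝ) ^ (15 * J + 2) + 1) * n / ((Q : ℝ) ^ (7 * J + 1) + 1) ^ 3 ≤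
        (2 * (C : ℝ) + 6 * (6 * J + 1) + 8 + 2 * ((C + 1) * (4 * (2 * C + 4) + 4))) * X := by
      have e : (2 * (C : ℝ) + 6 * (6 * J + 1) + 8 + 2 * ((C + 1) * (4 * (2 * C + 4) + 4))) * X =
        C * (2 * X) + 3 * (2 * X) * (6 * J + 1) + 8 * X +
          ((C + 1) * (4 * (2 * C + 4) + 4)) * (2 * X) := by ring
      rw [e]
      linarith
    linarith
  · -- Y3
    have h1 : (1 : ℝ) ≤ (Q : ℝ) ^ (24 * J) := one_le_pow₀ hQr1
    have h2 : 2 * ((C1 : ℝ) * (Q : ℝ) ^ (24 * J)) + 2 ≤ (2 * (C1 : ℝ) + 2) * (Q : ℝ) ^ (24 * J) := by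
      nlinarith
    have h3 : (C : ℝ) * (Q : ℝ) ^ 2 / (Q : ℝ) ^ (15 * J) * (2 * ((C1 : ℝ) * (Q : ℝ) ^ (24 * J)) + 2) ≤
        C * (2 * (C1 : ℝ) + 2) * (2 * X) := by
      calc (C : ℝ) * (Q : ℝ) ^ 2 / (Q : ℝ) ^ (15 * J) * (2 * ((C1 : ℝ) * (Q : ℝ) ^ (24 * J)) + 2) ≤
          (C : ℝ) * (Q : ℝ) ^ 2 / (Q : ℝ) ^ (15 * J) * ((2 * (C1 : ℝ) + 2) * (Q : ℝ) ^ (24 * J)) := by
            gcongr
        _ = C * (2 * (C1 : ℝ) + 2) * (Q : ℝ) ^ (9 * J + 2) := by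
            have e : 24 * J + 2 = (9 * J + 2) + 15 * J := by ring
            have e2 : (Q : ℝ) ^ (24 * J) * (Q : ℝ) ^ 2 =
              (Q : ℝ) ^ (9 * J + 2) * (Q : ℝ) ^ (15 * J) := by
              rw [← pow_add, ← pow_add, e]
            field_simp
            linear_combination (2 * (C : ℝ) * (C1 + 1)) * e2
        _ ≤ _ := by gcongr
    have h4 : (n : ℝ) * D * (2 * ((C1 : ℝ) * (Q : ℝ) ^ (24 * J)) + 2) ≤
        8 * (4 * (2 * (C : ℝ) + 4) + 4) * (2 * (C1 : ℝ) + 2) * (2 * X) := by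
      calc (n : ℝ) * D * (2 * ((C1 : ℝ) * (Q : ℝ) ^ (24 * J)) + 2) ≤
          ((4 * (2 * (C : ℝ) + 4) + 4) * (Q : ℝ) ^ (15 * J + 2)) *
            (8 / ((Q : ℝ) ^ (10 * J + 1)) ^ 3) * ((2 * (C1 : ℝ) + 2) * (Q : ℝ) ^ (24 * J)) := by
            gcongr
        _ ≤ 8 * (4 * (2 * (C : ℝ) + 4) + 4) * (2 * (C1 : ℝ) + 2) * (Q : ℝ) ^ (9 * J + 2) := by
            have e2 : (Q : ℝ) ^ (15 * J + 2) * (Q : ℝ) ^ (24 * J) ≤
              (Q : ℝ) ^ (9 * J + 2) * ((Q : ℝ) ^ (10 * J + 1)) ^ 3 := by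
              rw [← pow_mul, ← pow_add, ← pow_add]
              exact pow_le_pow_right₀ hQr1 (by omega)
            have e3 : ((4 * (2 * (C : ℝ) + 4) + 4) * (Q : ℝ) ^ (15 * J + 2)) *
                (8 / ((Q : ℝ) ^ (10 * J + 1)) ^ 3) * ((2 * (C1 : ℝ) + 2) * (Q : ℝ) ^ (24 * J)) =
                8 * (4 * (2 * (C : ℝ) + 4) + 4) * (2 * (C1 : ℝ) + 2) *
                  (((Q : ℝ) ^ (15 * J + 2) * (Q : ℝ) ^ (24 * J)) / ((Q : ℝ) ^ (10 * J + 1)) ^ 3) := by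
              ring
            rw [e3]
            gcongr
            rw [div_le_iff₀ (by positivity)]
            exact e2
        _ ≤ _ := by gcongr
    have h5 : ((C : ℝ) * (Q : ℝ) ^ (9 * J + 1) + 3 * (Q : ℝ) ^ (7 * J + 1)) * ((C1 : ℝ) + 2) ≤
        (C + 3) * ((C1 : ℝ) + 2) * (2 * X) := by
      calc ((C : ℝ) * (Q : ℝ) ^ (9 * J + 1) + 3 * (Q : ℝ) ^ (7 * J + 1)) * ((C1 : ℝ) + 2) ≤
          ((C : ℝ) * (2 * X) + 3 * (2 * X)) * ((C1 : ℝ) + 2) := by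
            gcongr
            · exact hT3.trans hX2
            · exact hT1.trans hX2
        _ = _ := by ring
    have h10 : ((C : ℝ) * (Q : ℝ) ^ 2 / (Q : ℝ) ^ (15 * J) + n * D) *
        (2 * ((C1 : ℝ) * (Q : ℝ) ^ (24 * J)) + 2) +
        ((C : ℝ) * (Q : ℝ) ^ (9 * J + 1) + 3 * (Q : ℝ) ^ (7 * J + 1)) * ((C1 : ℝ) + 2) ≤
        (2 * (C * (2 * (C1 : ℝ) + 2) +
      8 * (4 * (2 * (C : ℝ) + 4) + 4) * (2 * (C1 : ℝ) + 2) +
      (C + 3) * ((C1 : ℝ) + 2))) * X := by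
      rw [add_mul]
      linarith
    linarith

theorem exit_exists (J : ℕ) (hJ : 1 ≤ J) : ∃ C₁ C₂ : ℕ, 2 ≤ C₁ ∧ ∀ Q : ℕ, 2 ≤ Q → ∀ ρ : ℕ,
    (ρ = Q ^ (10 * J + 1) ∨ (Q ^ (10 * J + 1) ≤ ρ ∧ ∃ k < Q ^ (15 * J - 1),
      mu ^ k / (8 * ((Q : ℝ) ^ (24 * J) + 3)) < (bge k ρ : ℝ))) →
    ∃ 𝒢 : Fam, ExitF 𝒢 ρ (C₁ * Q ^ (24 * J)) C₁ (C₂ * (Q : ℝ) ^ (9 * J + 2) * Real.log Q) := by
  obtain ⟨C, hstages⟩ := stages J hJ
  obtain ⟨Cb, hCb, hblob⟩ := blob J hJ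
  set C3 : ℝ := Cb * ((2 * C + 4) + 4) + (2 * C + 4) * (24 * J + 5) with hC3
  refine ⟨exit_C1 C J, ⌈exit_C2 C J C3⌉₊, by unfold exit_C1; omega, ?_⟩
  intro Q hQ ρ hρ
  obtain ⟨𝒢, D, hG, hD, hD2⟩ := hstages Q hQ
  have hQ1 : 1 ≤ Q := by omega
  have hQr : (2 : ℝ) ≤ Q := by exact_mod_cast hQ
  have hQr1 : (1 : ℝ) ≤ Q := by linarith
  have hq0 : (0 : ℝ) < Q := by linarith
  have hlog := exit_logQ hQ
  have hlog0 : 0 < Real.log Q := by linarith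
  have hmu : 0 < mu := by linarith [one_le_mu]
  have hC30 : 0 ≤ C3 := by positivity
  rcases hρ with hρ | ⟨hρ, k, hk, hbge⟩
  · -- the block of the last scale
    obtain ⟨n, a, ha, han, hn1, hn2, hcard⟩ := hblob Q hQ (J - 1) (by omega)
    have e1 : J - 1 + 1 = J := by omega
    have e2 : 3 * J + 3 * (J - 1) + 4 = 6 * J + 1 := by omega
    have e3 : 3 * J + 2 * (J - 1) + 3 = 5 * J + 1 := by omega
    rw [e1] at ha hcard
    rw [e2] at hn1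
    rw [e3] at hn2
    have ha0 : 0 < a := lt_of_lt_of_le (by positivity) ha
    have hBne : (Bl n a).Nonempty := by
      rw [← Finset.card_pos]
      have h1 : 0 < mu ^ n * Real.exp (-(Cb * ((a : ℝ) / (Q : ℝ) ^ J) * Real.log Q)) := by
        positivity
      exact_mod_cast h1.trans_le hcard
    have hlen : ∀ w ∈ Bl n a, w.length = n := fun w hw => exit_len_Bl hw
    set K' : ℕ := ((2 * C + 4) * ρ) / a + 1 with hK'
    have hK1 : (2 * C + 4) * ρ ≤ a * K' := by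
      have := Nat.lt_mul_div_succ ((2 * C + 4) * ρ) ha0
      rw [hK']
      exact this.le
    have hK2 : K' * a ≤ (2 * C + 4) * ρ + a := by
      rw [hK', add_mul, one_mul]
      have := Nat.div_mul_le_self ((2 * C + 4) * ρ) a
      omega
    have hrho : Q ^ (10 * J + 1) ≤ ρ := hρ.ge
    refine exit_core J hJ C C3 hC30 Q hQ hG hD hD2 ρ hrho (Ch (Bl n a) K')
      (Ch_nonempty hBne K') (n * K') (Ch_length hlen K')
      (Ch_br (fun w hw => ?_) K') ?_ ?_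
      (c' := K' * (Cb * ((a : ℝ) / (Q : ℝ) ^ J) * Real.log Q)) ?_ ?_
    · exact (exit_mem_Bl hw).2.1
    · intro w hw
      have h1 : disp w = ax 0 (a * K') := by
        exact Ch_disp (B := Bl n a) (fun u hu => (exit_mem_Bl hu).2.2) K' w hw
      rw [h1]
      have h2 : ax 0 ((a : ℤ) * (K' : ℤ)) 0 = (a : ℤ) * K' := by simp [ax]
      rw [h2]
      exact_mod_cast hK1
    · -- length
      have h1 : n * (((2 * C + 4) * ρ) / a) ≤ 4 * (2 * C + 4) * Q ^ (15 * J + 2) := by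
        calc n * (((2 * C + 4) * ρ) / a) ≤ (4 * a * Q ^ (5 * J + 1)) * (((2 * C + 4) * ρ) / a) :=
              Nat.mul_le_mul_right _ hn2
          _ = (4 * Q ^ (5 * J + 1)) * ((((2 * C + 4) * ρ) / a) * a) := by ring
          _ ≤ (4 * Q ^ (5 * J + 1)) * ((2 * C + 4) * ρ) :=
              Nat.mul_le_mul_left _ (Nat.div_mul_le_self _ _)
          _ = 4 * (2 * C + 4) * Q ^ (15 * J + 2) := by
              rw [hρ]
              have e : 15 * J + 2 = (5 * J + 1) + (10 * J + 1) := by ring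
              rw [e, pow_add]
              ring
      have h2 : n ≤ 4 * Q ^ (15 * J + 2) := hn1.trans
        (Nat.mul_le_mul_left _ (Nat.pow_le_pow_right hQ1 (by omega)))
      rw [hK', mul_add, mul_one]
      calc _ ≤ 4 * (2 * C + 4) * Q ^ (15 * J + 2) + 4 * Q ^ (15 * J + 2) := Nat.add_le_add h1 h2
        _ = _ := by ring
    · -- cost
      have h1 : (K' : ℝ) * a ≤ (2 * (C : ℝ) + 4) * (Q : ℝ) ^ (10 * J + 1) +
          4 * (Q : ℝ) ^ (10 * J + 1) := by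
        have h2 : (K' : ℝ) * a ≤ (2 * (C : ℝ) + 4) * (ρ : ℝ) + a := by exact_mod_cast hK2
        have h3 : (ρ : ℝ) = (Q : ℝ) ^ (10 * J + 1) := by exact_mod_cast hρ
        have h4 : (a : ℝ) ≤ 4 * (Q : ℝ) ^ (10 * J + 1) := by
          have h5 : a ≤ 4 * Q ^ (10 * J + 1) := (han.trans hn1).trans
            (Nat.mul_le_mul_left _ (Nat.pow_le_pow_right hQ1 (by omega)))
          exact_mod_cast h5
        rw [h3] at h2
        linarith
      have h2 : (Q : ℝ) ^ (10 * J + 1) / (Q : ℝ) ^ J = (Q : ℝ) ^ (9 * J + 1) := by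
        have e : 10 * J + 1 = (9 * J + 1) + J := by ring
        rw [e, pow_add]
        field_simp
      calc (K' : ℝ) * (Cb * ((a : ℝ) / (Q : ℝ) ^ J) * Real.log Q)
          = Cb * ((K' * a) / (Q : ℝ) ^ J) * Real.log Q := by ring
        _ ≤ Cb * (((2 * (C : ℝ) + 4) * (Q : ℝ) ^ (10 * J + 1) +
          4 * (Q : ℝ) ^ (10 * J + 1)) / (Q : ℝ) ^ J) * Real.log Q := by gcongr
        _ = Cb * ((2 * C + 4) + 4) * ((Q : ℝ) ^ (10 * J + 1) / (Q : ℝ) ^ J * Real.log Q) := by ring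
        _ = Cb * ((2 * C + 4) + 4) * ((Q : ℝ) ^ (9 * J + 1) * Real.log Q) := by rw [h2]
        _ ≤ C3 * ((Q : ℝ) ^ (9 * J + 1) * Real.log Q) := by
          gcongr
          rw [hC3]
          have : 0 ≤ (2 * (C : ℝ) + 4) * (24 * J + 5) := by positivity
          linarith
    · rw [Ch_card hlen K']
      push_cast
      calc mu ^ (n * K') * Real.exp (-(K' * (Cb * ((a : ℝ) / (Q : ℝ) ^ J) * Real.log Q)))
          = (mu ^ n * Real.exp (-(Cb * ((a : ℝ) / (Q : ℝ) ^ J) * Real.log Q))) ^ K' := by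
            rw [mul_pow, pow_mul, ← Real.exp_nat_mul]
            congr 2
            ring
        _ ≤ _ := by gcongr
  · -- bridges of the cheap class
    classical
    set B : Finset (List St) := (W k).filter fun w => Br w ∧ (ρ : ℤ) ≤ disp w 0 with hB
    have hBcard : (#B : ℝ) = bge k ρ := by
      unfold bge
      rw [hB]
    have hlen : ∀ w ∈ B, w.length = k := fun w hw => exit_len_W (Finset.mem_filter.1 hw).1
    have hpos : 0 < mu ^ k / (8 * ((Q : ℝ) ^ (24 * J) + 3)) := by positivity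
    have hBne : B.Nonempty := by
      rw [← Finset.card_pos]
      have : (0 : ℝ) < #B := by
        rw [hBcard]
        exact hpos.trans hbge
      exact_mod_cast this
    refine exit_core J hJ C C3 hC30 Q hQ hG hD hD2 ρ hρ (Ch B (2 * C + 4))
      (Ch_nonempty hBne _) (k * (2 * C + 4)) (Ch_length hlen _)
      (Ch_br (fun w hw => (Finset.mem_filter.1 hw).2.1) _) ?_ ?_
      (c' := (2 * C + 4) * Real.log (8 * ((Q : ℝ) ^ (24 * J) + 3))) ?_ ?_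
    · intro w hw
      have h1 := Ch_span (B := B) (r := ρ) (fun u hu => (Finset.mem_filter.1 hu).2.2) (2 * C + 4)
        w hw
      push_cast at h1 ⊢
      linarith
    · -- length
      have h1 : k ≤ Q ^ (15 * J + 2) :=
        hk.le.trans (Nat.pow_le_pow_right hQ1 (by omega))
      calc k * (2 * C + 4) ≤ Q ^ (15 * J + 2) * (2 * C + 4) := Nat.mul_le_mul_right _ h1
        _ ≤ _ := by nlinarith [Nat.zero_le (Q ^ (15 * J + 2)), Nat.zero_le (C * Q ^ (15 * J + 2))]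
    · -- cost
      have h1 : Real.log (8 * ((Q : ℝ) ^ (24 * J) + 3)) ≤ (24 * J + 5) * Real.log Q := by
        have h2 : 8 * ((Q : ℝ) ^ (24 * J) + 3) ≤ (Q : ℝ) ^ (24 * J + 5) := by
          have h3 : (1 : ℝ) ≤ (Q : ℝ) ^ (24 * J) := one_le_pow₀ hQr1
          have h4 : (2 : ℝ) ^ 5 ≤ (Q : ℝ) ^ 5 := by gcongr
          rw [pow_add]
          calc 8 * ((Q : ℝ) ^ (24 * J) + 3) ≤ (Q : ℝ) ^ (24 * J) * 2 ^ 5 := by
                norm_num
                linarith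
            _ ≤ _ := by gcongr
        calc Real.log (8 * ((Q : ℝ) ^ (24 * J) + 3)) ≤ Real.log ((Q : ℝ) ^ (24 * J + 5)) :=
              Real.log_le_log (by positivity) h2
          _ = _ := by
            rw [Real.log_pow]
            push_cast
            ring
      have h5 : (1 : ℝ) ≤ (Q : ℝ) ^ (9 * J + 1) := one_le_pow₀ hQr1
      calc (2 * (C : ℝ) + 4) * Real.log (8 * ((Q : ℝ) ^ (24 * J) + 3)) ≤
          (2 * (C : ℝ) + 4) * ((24 * J + 5) * Real.log Q) := by gcongr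
        _ = (2 * (C : ℝ) + 4) * (24 * J + 5) * (1 * Real.log Q) := by ring
        _ ≤ (2 * (C : ℝ) + 4) * (24 * J + 5) * ((Q : ℝ) ^ (9 * J + 1) * Real.log Q) := by gcongr
        _ ≤ C3 * ((Q : ℝ) ^ (9 * J + 1) * Real.log Q) := by
          gcongr
          rw [hC3]
          have : 0 ≤ Cb * ((2 * (C : ℝ) + 4) + 4) := by positivity
          linarith
    · rw [Ch_card hlen]
      push_cast
      rw [hBcard]
      have hY : 0 < 8 * ((Q : ℝ) ^ (24 * J) + 3) := by positivity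
      calc mu ^ (k * (2 * C + 4)) *
            Real.exp (-((2 * (C : ℝ) + 4) * Real.log (8 * ((Q : ℝ) ^ (24 * J) + 3))))
          = (mu ^ k / (8 * ((Q : ℝ) ^ (24 * J) + 3))) ^ (2 * C + 4) := by
            rw [div_eq_mul_inv, mul_pow, pow_mul]
            congr 1
            rw [← Real.exp_log (inv_pos.2 hY), Real.log_inv, ← Real.exp_nat_mul]
            congr 1
            push_cast
            ring
        _ ≤ _ := by gcongr

end Pool.Agent.H46R2.K3.P
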