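import Pool.Agent.H46R2.K3.Defs

/-!
Team K3, task EXT: a self-avoiding walk of length `n ≥ r³` has extension at least `r` in some
direction, so `c n ≤ 3 cext n r`.
-/

namespace Pool.Agent.H46R2.K3.P

open Finset

theorem ext_mem_W {n : ℕ} {w : List St} : w ∈ W n ↔ w.length = n := by
  unfold W
  simp only [mem_image, mem_univ, true_and]
  constructor
  · rintro ⟨v, rfl⟩; exact v.2
  · intro h; exact ⟨⟨w, h⟩, rfl⟩

theorem ext_vec_perm (i : Fin 3) (s : St) (j : Fin 3) :
    vec (perm i s) j = vec s (Equiv.swap 0 i j) := by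
  unfold vec perm
  have h : j = Equiv.swap 0 i s.1 ↔ Equiv.swap 0 i j = s.1 := by
    constructor
    · rintro rfl; simp
    · intro h; rw [← h]; simp
  simp only [h]

theorem ext_sum_perm (i : Fin 3) (w : List St) (j : Fin 3) :
    (((w.map (perm i)).map vec).sum : V) j = ((w.map vec).sum : V) (Equiv.swap 0 i j) := by
  induction w with
  | nil => simp
  | cons s w ih =>
    simp only [List.map_cons, List.sum_cons, Pi.add_apply]
    rw [ih, ext_vec_perm]

theorem ext_pos_perm (i : Fin 3) (w : List St) (k : ℕ) (j : Fin 3) :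
    pos (w.map (perm i)) k j = pos w k (Equiv.swap 0 i j) := by
  unfold pos
  rw [← List.map_take, ext_sum_perm]

theorem ext_perm_inj (i : Fin 3) : Function.Injective (perm i) := by
  intro s t h
  unfold perm at h
  have h1 := congrArg Prod.fst h
  have h2 := congrArg Prod.snd h
  exact Prod.ext ((Equiv.swap 0 i).injective h1) h2

theorem ext_saw_perm (i : Fin 3) (w : List St) (h : Saw w) : Saw (w.map (perm i)) := by
  intro a b hab hb heq
  rw [List.length_map] at hb
  apply h a b hab hb
  funext j
  have := congrFun heq (Equiv.swap 0 i j)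
  rw [ext_pos_perm, ext_pos_perm] at this
  simpa using this

/-- the extension is large in some direction -/
theorem ext_exists {n r : ℕ} (h : r ^ 3 ≤ n) {w : List St} (hw : w.length = n) (hs : Saw w) :
    ∃ i : Fin 3, ∃ a ≤ n, ∃ b ≤ n, (r : ℤ) ≤ pos w a i - pos w b i := by
  classical
  by_contra hcon
  push Not at hcon
  have hmin : ∀ i : Fin 3, ∃ b ∈ range (n + 1), ∀ a ∈ range (n + 1), pos w b i ≤ pos w a i :=
    fun i => Finset.exists_min_image _ _ ⟨0, by simp⟩
  choose b hb hb2 using hmin
  have hcard : #(range (n + 1)) ≤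
      #(Fintype.piFinset fun i : Fin 3 => Ico (pos w (b i) i) (pos w (b i) i + (r : ℤ))) := by
    refine Finset.card_le_card_of_injOn (pos w) ?_ ?_
    · intro a ha
      rw [Finset.mem_coe] at ha
      rw [Finset.mem_coe, Fintype.mem_piFinset]
      intro i
      rw [Finset.mem_Ico]
      have h1 := hb2 i a ha
      have h2 := hcon i a (by rw [mem_range] at ha; omega) (b i)
        (by have := hb i; rw [mem_range] at this; omega)
      constructor <;> omega
    · intro a ha a' ha' haa
      rw [Finset.mem_coe, mem_range] at ha ha'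
      rcases lt_trichotomy a a' with h1 | h1 | h1
      · exact absurd haa (hs a a' h1 (by omega))
      · exact h1
      · exact absurd haa.symm (hs a' a h1 (by omega))
  rw [Fintype.card_piFinset] at hcard
  simp only [Int.card_Ico, add_sub_cancel_left, Int.toNat_natCast, prod_const, card_univ,
    Fintype.card_fin, card_range] at hcard
  omega

theorem c_le_cext (n r : ℕ) (h : r ^ 3 ≤ n) : c n ≤ 3 * cext n r := by
  classical
  unfold c
  have h1 : (W n).filter Saw ⊆ (univ : Finset (Fin 3)).biUnion fun i =>
      (W n).filter fun w => Saw w ∧ ∃ a ≤ n, ∃ b ≤ n, (r : ℤ) ≤ pos w a i - pos w b i := by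
    intro w hw
    rw [mem_filter] at hw
    obtain ⟨i, hi⟩ := ext_exists h (ext_mem_W.mp hw.1) hw.2
    rw [mem_biUnion]
    exact ⟨i, mem_univ _, mem_filter.mpr ⟨hw.1, hw.2, hi⟩⟩
  refine (card_le_card h1).trans ?_
  refine (card_biUnion_le_card_mul _ _ (cext n r) fun i _ => ?_).trans (by simp)
  unfold cext
  refine card_le_card_of_injOn (List.map (perm i)) ?_ ?_
  · intro w hw
    rw [Finset.mem_coe, mem_filter] at hw
    rw [Finset.mem_coe, mem_filter, ext_mem_W]
    refine ⟨by rw [List.length_map]; exact ext_mem_W.mp hw.1, ext_saw_perm i w hw.2.1, ?_⟩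
    obtain ⟨a, ha, b, hb, hab⟩ := hw.2.2
    refine ⟨a, ha, b, hb, ?_⟩
    rw [ext_pos_perm, ext_pos_perm, Equiv.swap_apply_left]
    exact hab
  · intro w _ w' _ h2
    exact (List.map_injective_iff.mpr (ext_perm_inj i)) h2

end Pool.Agent.H46R2.K3.P
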