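import Pool.Agent.H46R2.K3.MAIN
import Pool.Agent.H46R2.K3.MU

/-! Task FIN: from the polynomial form of the bound to real exponents. -/

namespace Pool.Agent.H46R2.K3.P

open Finset

theorem fin_c_zero : c 0 ≤ 1 := by
  classical
  unfold c
  refine (Finset.card_filter_le _ _).trans ?_
  unfold W
  refine Finset.card_image_le.trans ?_
  rw [Finset.card_univ, card_vector]
  simp

/-- real-exponent bookkeeping -/
theorem fin_aux (ε : ℝ) (hε : 0 < ε) (J : ℕ) (hJ : 1 ≤ J) (hJε : 1 / (12 * (J : ℝ)) ≤ ε / 2)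
    (C : ℝ) (hC : 0 < C) (n : ℕ) (hn : 1 ≤ n) :
    ∃ Q : ℕ, 2 ≤ Q ∧ n ≤ Q ^ (24 * J) ∧
      C * (Q : ℝ) ^ (9 * J + 2) * (Real.log Q) ^ 2 ≤
        (C * 3 ^ (9 * J + 2) * ((3 : ℝ) ^ (12 * (J : ℝ) * ε) / (6 * J * ε) ^ 2)) *
          (n : ℝ) ^ (3 / 8 + ε) := by
  have hJ0 : (0 : ℝ) < J := by exact_mod_cast hJ
  have hn1 : (1 : ℝ) ≤ n := by exact_mod_cast hn
  have hn0 : (0 : ℝ) ≤ n := by linarith
  set a : ℝ := 1 / (24 * (J : ℝ)) with ha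
  have ha0 : 0 < a := by rw [ha]; positivity
  set x : ℝ := (n : ℝ) ^ a with hx
  have hx1 : 1 ≤ x := Real.one_le_rpow hn1 ha0.le
  have hx0 : 0 < x := by linarith
  refine ⟨⌈x⌉₊ + 1, ?_, ?_, ?_⟩
  · have : 0 < ⌈x⌉₊ := Nat.ceil_pos.2 hx0
    omega
  · have h1 : x ≤ ((⌈x⌉₊ + 1 : ℕ) : ℝ) := by
      push_cast
      linarith [Nat.le_ceil x]
    have h2 : (n : ℝ) = x ^ (24 * J) := by
      rw [hx, ← Real.rpow_natCast, ← Real.rpow_mul hn0]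
      have : a * ((24 * J : ℕ) : ℝ) = 1 := by
        rw [ha]; push_cast; field_simp
      rw [this, Real.rpow_one]
    have h3 : (n : ℝ) ≤ ((⌈x⌉₊ + 1 : ℕ) : ℝ) ^ (24 * J) := by
      rw [h2]
      exact pow_le_pow_left₀ hx0.le h1 _
    exact_mod_cast h3
  · set Q : ℕ := ⌈x⌉₊ + 1 with hQ
    have hQ1 : (1 : ℝ) ≤ (Q : ℝ) := by
      rw [hQ]; push_cast
      have : (0 : ℝ) ≤ (⌈x⌉₊ : ℝ) := Nat.cast_nonneg _
      linarith
    have hQ0 : (0 : ℝ) ≤ (Q : ℝ) := by linarith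
    have hQ3 : (Q : ℝ) ≤ 3 * x := by
      rw [hQ]; push_cast
      have := (Nat.ceil_lt_add_one hx0.le).le
      linarith
    -- the power
    have hp : (Q : ℝ) ^ (9 * J + 2) ≤ 3 ^ (9 * J + 2) * (n : ℝ) ^ (3 / 8 + 1 / (12 * (J : ℝ))) := by
      calc (Q : ℝ) ^ (9 * J + 2) ≤ (3 * x) ^ (9 * J + 2) := pow_le_pow_left₀ hQ0 hQ3 _
        _ = 3 ^ (9 * J + 2) * x ^ (9 * J + 2) := mul_pow _ _ _
        _ = 3 ^ (9 * J + 2) * (n : ℝ) ^ (3 / 8 + 1 / (12 * (J : ℝ))) := by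
            congr 1
            rw [hx, ← Real.rpow_natCast, ← Real.rpow_mul hn0]
            congr 1
            rw [ha]; push_cast; field_simp; ring
    -- the logarithm
    set δ : ℝ := 6 * J * ε with hδ
    have hδ0 : 0 < δ := by rw [hδ]; positivity
    have hl : Real.log Q ≤ (Q : ℝ) ^ δ / δ := Real.log_le_rpow_div hQ0 hδ0
    have hl0 : 0 ≤ Real.log Q := Real.log_nonneg hQ1
    have hl2 : (Real.log Q) ^ 2 ≤ (3 : ℝ) ^ (12 * (J : ℝ) * ε) / (6 * J * ε) ^ 2 *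
        (n : ℝ) ^ (ε / 2) := by
      calc (Real.log Q) ^ 2 ≤ ((Q : ℝ) ^ δ / δ) ^ 2 := pow_le_pow_left₀ hl0 hl 2
        _ = (Q : ℝ) ^ (δ * 2) / δ ^ 2 := by
            rw [div_pow, ← Real.rpow_natCast ((Q : ℝ) ^ δ) 2, ← Real.rpow_mul hQ0]
            norm_num
        _ ≤ (3 * x) ^ (δ * 2) / δ ^ 2 := by
            gcongr
        _ = (3 : ℝ) ^ (δ * 2) * x ^ (δ * 2) / δ ^ 2 := by
            rw [Real.mul_rpow (by norm_num) hx0.le]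
        _ = (3 : ℝ) ^ (12 * (J : ℝ) * ε) / (6 * J * ε) ^ 2 * (n : ℝ) ^ (ε / 2) := by
            have e1 : x ^ (δ * 2) = (n : ℝ) ^ (ε / 2) := by
              rw [hx, ← Real.rpow_mul hn0]
              congr 1
              rw [ha, hδ]; field_simp; ring
            have e2 : δ * 2 = 12 * (J : ℝ) * ε := by rw [hδ]; ring
            rw [e1, e2, hδ]
            ring
    have hexp : (n : ℝ) ^ (3 / 8 + 1 / (12 * (J : ℝ))) * (n : ℝ) ^ (ε / 2) ≤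
        (n : ℝ) ^ (3 / 8 + ε) := by
      rw [← Real.rpow_add (by linarith)]
      refine Real.rpow_le_rpow_of_exponent_le hn1 ?_
      linarith
    have hK1 : 0 ≤ (3 : ℝ) ^ (12 * (J : ℝ) * ε) / (6 * J * ε) ^ 2 := by positivity
    calc C * (Q : ℝ) ^ (9 * J + 2) * (Real.log Q) ^ 2
        ≤ C * (3 ^ (9 * J + 2) * (n : ℝ) ^ (3 / 8 + 1 / (12 * (J : ℝ)))) *
          ((3 : ℝ) ^ (12 * (J : ℝ) * ε) / (6 * J * ε) ^ 2 * (n : ℝ) ^ (ε / 2)) := by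
          gcongr
      _ = (C * 3 ^ (9 * J + 2) * ((3 : ℝ) ^ (12 * (J : ℝ) * ε) / (6 * J * ε) ^ 2)) *
          ((n : ℝ) ^ (3 / 8 + 1 / (12 * (J : ℝ))) * (n : ℝ) ^ (ε / 2)) := by ring
      _ ≤ (C * 3 ^ (9 * J + 2) * ((3 : ℝ) ^ (12 * (J : ℝ) * ε) / (6 * J * ε) ^ 2)) *
          (n : ℝ) ^ (3 / 8 + ε) := by
          gcongr

theorem c_final (ε : ℝ) (hε : 0 < ε) : ∃ K : ℝ, ∀ n : ℕ,
    (c n : ℝ) ≤ mu ^ n * Real.exp (K * (n : ℝ) ^ (3 / 8 + ε)) := by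
  obtain ⟨J0, hJ0⟩ := exists_nat_ge (1 / (6 * ε))
  set J : ℕ := J0 + 1 with hJdef
  have hJ : 1 ≤ J := by omega
  have hJr : 1 / (6 * ε) ≤ (J : ℝ) := by
    rw [hJdef]; push_cast; linarith
  have hJpos : (0 : ℝ) < J := by exact_mod_cast hJ
  have hJε : 1 / (12 * (J : ℝ)) ≤ ε / 2 := by
    rw [div_le_iff₀ (by positivity)] at hJr ⊢
    nlinarith
  obtain ⟨C, hC, hcb⟩ := c_bound J hJ
  have hmu : (0 : ℝ) ≤ mu := zero_le_one.trans one_le_mu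
  refine ⟨C * 3 ^ (9 * J + 2) * ((3 : ℝ) ^ (12 * (J : ℝ) * ε) / (6 * J * ε) ^ 2), ?_⟩
  intro n
  rcases Nat.eq_zero_or_pos n with rfl | hn
  · have h0 : ((0 : ℕ) : ℝ) ^ (3 / 8 + ε) = 0 := by
      rw [Nat.cast_zero]
      exact Real.zero_rpow (by positivity)
    rw [h0, mul_zero, Real.exp_zero, pow_zero, mul_one]
    exact_mod_cast fin_c_zero
  · obtain ⟨Q, hQ2, hQn, hQb⟩ := fin_aux ε hε J hJ hJε C hC n hn
    refine (hcb Q hQ2 n hQn).trans ?_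
    gcongr

end Pool.Agent.H46R2.K3.P
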