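import Pool.Agent.H46R2.K3.Defs

/-!
Task HK: calculus of `K` and `H`.
-/

namespace Pool.Agent.H46R2.K3.P

open Finset

/-! ### positions -/

theorem hk_pos_append_le (u v : List St) {i : ℕ} (h : i ≤ u.length) :
    pos (u ++ v) i = pos u i := by
  unfold pos
  rw [List.take_append_of_le_length h]

theorem hk_pos_append_add (u v : List St) (j : ℕ) :
    pos (u ++ v) (u.length + j) = disp u + pos v j := by
  unfold pos disp
  rw [List.take_length_add_append, List.map_append, List.sum_append]

theorem hk_disp_append (u v : List St) : disp (u ++ v) = disp u + disp v := by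
  unfold disp
  rw [List.map_append, List.sum_append]

theorem hk_disp_reverse (u : List St) : disp u.reverse = disp u := by
  unfold disp
  rw [List.map_reverse, List.sum_reverse]

theorem hk_pos_length (u : List St) : pos u u.length = disp u := by
  unfold pos disp
  rw [List.take_length]

theorem hk_pos_reverse (u : List St) {i : ℕ} (h : i ≤ u.length) :
    pos u.reverse i = disp u - pos u (u.length - i) := by
  unfold pos disp
  rw [List.take_reverse, List.map_reverse, List.sum_reverse, eq_sub_iff_add_eq, add_comm]
  rw [← List.sum_append, ← List.map_append, List.take_append_drop]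

/-! ### `K` and `H` as sums -/

theorem hk_K (w : List St) : K w = ∑ j ∈ range (w.length + 1),
    #((range j).filter fun i => pos w i = pos w j) := by
  classical
  unfold K
  rw [card_filter, sum_product_right]
  refine sum_congr rfl fun j hj => ?_
  rw [card_filter]
  rw [mem_range] at hj
  have h1 : ∑ i ∈ range (w.length + 1), (if i < j ∧ pos w i = pos w j then 1 else 0) =
      ∑ i ∈ range j, (if i < j ∧ pos w i = pos w j then 1 else 0) := by
    symm
    refine sum_subset (range_subset_range.2 (by omega)) fun i _ hi => ?_
    rw [mem_range] at hi
    rw [if_neg]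
    exact fun h => hi h.1
  simp only [] at h1 ⊢
  rw [h1]
  refine sum_congr rfl fun i hi => ?_
  rw [mem_range] at hi
  simp [hi]

theorem hk_H (A : List V) (w : List St) :
    H A w = ∑ j ∈ range w.length, A.count (pos w (j + 1)) := by
  unfold H
  have h1 : Icc 1 w.length = Ico (0 + 1) (w.length + 1) := by
    ext j
    simp only [mem_Icc, mem_Ico]
    omega
  rw [range_eq_Ico, h1, sum_Ico_add' (fun j => A.count (pos w j)) 0 w.length 1]

theorem hk_count_rel (u : List St) (z : V) :
    (rel u).count z = #((range (u.length + 1)).filter fun i => pos u i - disp u = z) := by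
  unfold rel
  rw [List.count, List.countP_map, ← Nat.count_eq_card_filter_range]
  unfold Nat.count
  congr 1

theorem hk_count_sh (A : List V) (z y : V) : (sh A z).count y = A.count (z + y) := by
  unfold sh
  have h : y = (fun p : V => p - z) (z + y) := by
    simp
  conv_lhs => rw [h]
  exact List.count_map_of_injective A (fun p : V => p - z) (sub_left_injective) (z + y)

/-! ### the statements -/

theorem K_append (u v : List St) : K (u ++ v) ≤ K u + K v + H (rel u) v := by
  classical
  rw [hk_K, hk_K, hk_K, hk_H, List.length_append]
  have e1 : u.length + v.length + 1 = (u.length + 1) + v.length := by omega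
  rw [e1, sum_range_add, add_assoc]
  have h1 : ∑ j ∈ range (u.length + 1), #((range j).filter fun i => pos (u ++ v) i = pos (u ++ v) j)
      = ∑ j ∈ range (u.length + 1), #((range j).filter fun i => pos u i = pos u j) := by
    refine sum_congr rfl fun j hj => ?_
    rw [mem_range] at hj
    congr 1
    refine filter_congr fun i hi => ?_
    rw [mem_range] at hi
    rw [hk_pos_append_le u v (by omega), hk_pos_append_le u v (by omega)]
  rw [h1]
  gcongr
  rw [sum_range_succ' _ v.length]
  simp only [range_zero, filter_empty, card_empty, add_zero]
  rw [← sum_add_distrib]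
  refine sum_le_sum fun j hj => ?_
  rw [mem_range] at hj
  have e2 : u.length + 1 + j = u.length + (j + 1) := by omega
  rw [e2, hk_count_rel]
  -- split the pairs
  have h2 : (range (u.length + (j + 1))).filter (fun i => pos (u ++ v) i =
      pos (u ++ v) (u.length + (j + 1))) ⊆
      ((range (u.length + 1)).filter fun i => pos u i - disp u = pos v (j + 1)) ∪
      (((range (j + 1)).filter fun i => pos v i = pos v (j + 1)).image fun i => u.length + i) := by
    intro i hi
    rw [mem_filter, mem_range, hk_pos_append_add] at hi
    rw [mem_union]
    by_cases hiu : i ≤ u.length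
    · left
      rw [mem_filter, mem_range]
      rw [hk_pos_append_le u v hiu] at hi
      refine ⟨by omega, ?_⟩
      rw [hi.2]
      abel
    · right
      rw [mem_image]
      refine ⟨i - u.length, ?_, by omega⟩
      rw [mem_filter, mem_range]
      refine ⟨by omega, ?_⟩
      have e3 : i = u.length + (i - u.length) := by omega
      have h3 := hi.2
      rw [e3, hk_pos_append_add] at h3
      exact add_left_cancel h3
  refine (card_le_card h2).trans ((card_union_le _ _).trans ?_)
  rw [add_comm]
  exact Nat.add_le_add_right (Finset.card_image_le (f := fun i : ℕ => u.length + i)) _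

theorem K_reverse (u : List St) : K u.reverse = K u := by
  classical
  unfold K
  rw [List.length_reverse]
  refine card_nbij' (fun p => (u.length - p.2, u.length - p.1))
    (fun p => (u.length - p.2, u.length - p.1)) ?_ ?_ ?_ ?_
  · intro p hp
    simp only [coe_filter, mem_product, mem_range, Set.mem_setOf_eq] at hp ⊢
    obtain ⟨⟨h1, h2⟩, h3, h4⟩ := hp
    rw [hk_pos_reverse u (by omega), hk_pos_reverse u (by omega)] at h4
    refine ⟨⟨by omega, by omega⟩, by omega, ?_⟩
    exact (sub_right_injective h4).symm
  · intro p hp
    simp only [coe_filter, mem_product, mem_range, Set.mem_setOf_eq] at hp ⊢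
    obtain ⟨⟨h1, h2⟩, h3, h4⟩ := hp
    refine ⟨⟨by omega, by omega⟩, by omega, ?_⟩
    rw [hk_pos_reverse u (by omega), hk_pos_reverse u (by omega)]
    have e1 : u.length - (u.length - p.2) = p.2 := by omega
    have e2 : u.length - (u.length - p.1) = p.1 := by omega
    rw [e1, e2, h4]
  · intro p hp
    simp only [coe_filter, mem_product, mem_range, Set.mem_setOf_eq] at hp
    obtain ⟨⟨h1, h2⟩, h3, h4⟩ := hp
    ext <;> simp <;> omega
  · intro p hp
    simp only [coe_filter, mem_product, mem_range, Set.mem_setOf_eq] at hp
    obtain ⟨⟨h1, h2⟩, h3, h4⟩ := hp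
    ext <;> simp <;> omega

theorem K_saw {u : List St} (h : Saw u) : K u = 0 := by
  classical
  unfold K
  rw [card_eq_zero, filter_eq_empty_iff]
  intro p hp h2
  rw [mem_product, mem_range, mem_range] at hp
  exact h p.1 p.2 h2.1 (by omega) h2.2

theorem H_append (A : List V) (u v : List St) : H A (u ++ v) = H A u + H (sh A (disp u)) v := by
  rw [hk_H, hk_H, hk_H, List.length_append, sum_range_add]
  congr 1
  · refine sum_congr rfl fun j hj => ?_
    rw [mem_range] at hj
    rw [hk_pos_append_le u v (by omega)]
  · refine sum_congr rfl fun j hj => ?_
    rw [add_assoc, hk_pos_append_add, hk_count_sh]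

theorem count_rel_append (u v : List St) (z : V) :
    (rel (u ++ v)).count z ≤ (rel u).count (z + disp v) + (rel v).count z := by
  classical
  rw [hk_count_rel, hk_count_rel, hk_count_rel, List.length_append]
  have h2 : (range (u.length + v.length + 1)).filter (fun i => pos (u ++ v) i - disp (u ++ v) = z) ⊆
      ((range (u.length + 1)).filter fun i => pos u i - disp u = z + disp v) ∪
      (((range (v.length + 1)).filter fun i => pos v i - disp v = z).image
        fun i => u.length + i) := by
    intro i hi
    rw [mem_filter, mem_range, hk_disp_append] at hi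
    rw [mem_union]
    by_cases hiu : i ≤ u.length
    · left
      rw [mem_filter, mem_range]
      rw [hk_pos_append_le u v hiu] at hi
      refine ⟨by omega, ?_⟩
      rw [← hi.2]
      abel
    · right
      rw [mem_image]
      refine ⟨i - u.length, ?_, by omega⟩
      rw [mem_filter, mem_range]
      refine ⟨by omega, ?_⟩
      have e3 : i = u.length + (i - u.length) := by omega
      have h3 := hi.2
      rw [e3, hk_pos_append_add] at h3
      rw [← h3]
      abel
  refine (card_le_card h2).trans ((card_union_le _ _).trans ?_)
  exact Nat.add_le_add_left (Finset.card_image_le (f := fun i : ℕ => u.length + i)) _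

theorem H_rel_append (u v w : List St) :
    H (rel (u ++ v)) w ≤ H (sh (rel u) (disp v)) w + H (rel v) w := by
  rw [hk_H, hk_H, hk_H, ← sum_add_distrib]
  refine sum_le_sum fun j _ => ?_
  rw [hk_count_sh, add_comm (disp v)]
  exact count_rel_append u v _

theorem count_rel_saw {u : List St} (h : Saw u) (z : V) : (rel u).count z ≤ 1 := by
  classical
  rw [hk_count_rel, card_le_one]
  intro i hi j hj
  rw [mem_filter, mem_range] at hi hj
  have e : pos u i = pos u j := by
    have := hi.2.trans hj.2.symm
    exact sub_left_injective this
  rcases lt_trichotomy i j with h1 | h1 | h1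
  · exact absurd e (h i j h1 (by omega))
  · exact h1
  · exact absurd e.symm (h j i h1 (by omega))

theorem count_rel_reverse (u : List St) (z : V) :
    (rel u.reverse).count z = (rel u).count (-z - disp u) := by
  classical
  rw [hk_count_rel, hk_count_rel, List.length_reverse, hk_disp_reverse]
  refine card_nbij' (fun i => u.length - i) (fun i => u.length - i) ?_ ?_ ?_ ?_
  · intro i hi
    simp only [coe_filter, mem_range, Set.mem_setOf_eq] at hi ⊢
    refine ⟨by omega, ?_⟩
    have h2 := hi.2
    rw [hk_pos_reverse u (by omega)] at h2
    rw [← h2]
    abel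
  · intro i hi
    simp only [coe_filter, mem_range, Set.mem_setOf_eq] at hi ⊢
    refine ⟨by omega, ?_⟩
    have h2 := hi.2
    rw [hk_pos_reverse u (by omega)]
    have e1 : u.length - (u.length - i) = i := by omega
    rw [e1]
    have h3 : pos u i = -z := sub_left_injective h2
    rw [h3]
    abel
  · intro i hi
    simp only [coe_filter, mem_range, Set.mem_setOf_eq] at hi
    simp only []
    omega
  · intro i hi
    simp only [coe_filter, mem_range, Set.mem_setOf_eq] at hi
    simp only []
    omega

theorem H_le_length {w : List St} (h : Saw w) (A : List V) : H A w ≤ A.length := by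
  classical
  rw [hk_H]
  induction A with
  | nil => simp
  | cons x A ih =>
    simp only [List.count_cons, List.length_cons]
    rw [sum_add_distrib]
    gcongr
    have e : ∀ j ∈ range w.length, (if (x == pos w (j + 1)) = true then 1 else 0) =
        if x = pos w (j + 1) then 1 else 0 := by
      intro j _
      simp
    rw [sum_congr rfl e, ← card_filter, card_le_one]
    intro i hi j hj
    rw [mem_filter, mem_range] at hi hj
    have e : pos w (i + 1) = pos w (j + 1) := hi.2.symm.trans hj.2
    rcases lt_trichotomy i j with h1 | h1 | h1
    · exact absurd e (h (i + 1) (j + 1) (by omega) (by omega))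
    · exact h1
    · exact absurd e.symm (h (j + 1) (i + 1) (by omega) (by omega))

theorem H_le_count {A : List V} {ν : ℕ} (h : ∀ z, A.count z ≤ ν) (w : List St) :
    H A w ≤ ν * w.length := by
  rw [hk_H]
  calc ∑ j ∈ range w.length, A.count (pos w (j + 1)) ≤ ∑ j ∈ range w.length, ν :=
        sum_le_sum fun j _ => h _
    _ = ν * w.length := by simp [mul_comm]

end Pool.Agent.H46R2.K3.P
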