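import Pool.Agent.H46R2.K3.LOOP
import Pool.Agent.H46R2.K3.MU

/-! # Loop erasure (helper412) -/

namespace Pool.Agent.H46R2.K3.P

open Finset Pool.Agent.H46R2.K3

theorem le_pos_left (u v : List St) {i : ℕ} (h : i ≤ u.length) : pos (u ++ v) i = pos u i := by
  unfold pos; rw [List.take_append_of_le_length h]

theorem le_pos_right (u v : List St) (j : ℕ) : pos (u ++ v) (u.length + j) = disp u + pos v j := by
  unfold pos disp
  rw [List.take_append, List.take_of_length_le (by omega)]
  simp

theorem le_pos_length (w : List St) : pos w w.length = disp w := by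
  unfold pos disp; rw [List.take_length]

theorem le_disp_append (u v : List St) : disp (u ++ v) = disp u + disp v := by
  unfold disp; simp

theorem le_mem_W {n : ℕ} {w : List St} : w ∈ W n ↔ w.length = n := by
  unfold W
  simp only [Finset.mem_image, Finset.mem_univ, true_and]
  constructor
  · rintro ⟨v, rfl⟩; exact v.2
  · intro h; exact ⟨⟨w, h⟩, rfl⟩

theorem le_K_zero {w : List St} (h : K w = 0) : Saw w := by
  intro i j hij hj he
  unfold K at h
  rw [Finset.card_eq_zero, Finset.filter_eq_empty_iff] at h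
  exact h (x := (i, j)) (by simp only [Finset.mem_product, Finset.mem_range]; omega) ⟨hij, he⟩

/-- cutting out a closed piece -/
theorem le_cut (u e v : List St) (he : disp e = 0) :
    (∀ t ≤ u.length, pos (u ++ v) t = pos (u ++ e ++ v) t) ∧
    (∀ s, pos (u ++ v) (u.length + s) = pos (u ++ e ++ v) (u.length + e.length + s)) ∧
    disp (u ++ v) = disp (u ++ e ++ v) := by
  refine ⟨fun t ht => ?_, fun s => ?_, ?_⟩
  · rw [le_pos_left _ _ ht, List.append_assoc, le_pos_left _ _ ht]
  · rw [le_pos_right, ← List.length_append, le_pos_right, le_disp_append, he, add_zero]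
  · rw [le_disp_append, le_disp_append, le_disp_append, he, add_zero]

theorem le_BrL (u e v : List St) (he : disp e = 0) (h : BrL (u ++ e ++ v)) : BrL (u ++ v) := by
  obtain ⟨c1, c2, c3⟩ := le_cut u e v he
  intro i hi1 hi2
  rw [c3]
  rw [List.length_append] at hi2
  rcases le_total i u.length with h' | h'
  · rw [c1 i h']
    exact h i hi1 (by simp only [List.length_append]; omega)
  · obtain ⟨s, rfl⟩ := Nat.exists_eq_add_of_le h'
    rw [c2 s]
    exact h _ (by omega) (by simp only [List.length_append]; omega)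

theorem le_K (u e v : List St) (he : disp e = 0) (hm : 1 ≤ e.length) :
    K (u ++ v) + 1 ≤ K (u ++ e ++ v) := by
  classical
  obtain ⟨c1, c2, c3⟩ := le_cut u e v he
  set i := u.length with hi
  set m := e.length with hm'
  set φ : ℕ → ℕ := fun t => if t ≤ i then t else t + m with hφ
  have hpos : ∀ t, t ≤ (u ++ v).length → pos (u ++ v) t = pos (u ++ e ++ v) (φ t) := by
    intro t ht
    by_cases h' : t ≤ i
    · simp only [hφ, if_pos h']; exact c1 t h'
    · simp only [hφ, if_neg h']
      obtain ⟨s, rfl⟩ := Nat.exists_eq_add_of_le (le_of_not_ge h')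
      rw [c2 s]; congr 1; omega
  have hφm : ∀ a b, a < b → φ a < φ b := by
    intro a b hab
    simp only [hφ]
    split_ifs <;> omega
  have hlen : (u ++ e ++ v).length = i + m + v.length := by
    rw [List.length_append, List.length_append]
  have hlen' : (u ++ v).length = i + v.length := by simp [hi]
  unfold K
  set S' := (range ((u ++ v).length + 1) ×ˢ range ((u ++ v).length + 1)).filter
    fun p => p.1 < p.2 ∧ pos (u ++ v) p.1 = pos (u ++ v) p.2 with hS'
  set S := (range ((u ++ e ++ v).length + 1) ×ˢ range ((u ++ e ++ v).length + 1)).filter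
    fun p => p.1 < p.2 ∧ pos (u ++ e ++ v) p.1 = pos (u ++ e ++ v) p.2 with hS
  have hφle : ∀ t, t ≤ (u ++ v).length → φ t ≤ (u ++ e ++ v).length := by
    intro t ht
    rw [hlen, hlen'] at *
    simp only [hφ]
    split_ifs <;> omega
  have hmap : ∀ p ∈ S', (φ p.1, φ p.2) ∈ S.erase (i, i + m) := by
    rintro ⟨a, b⟩ hp
    simp only [hS', Finset.mem_filter, Finset.mem_product, Finset.mem_range] at hp
    obtain ⟨⟨ha, hb⟩, hab, hpe⟩ := hp
    rw [Finset.mem_erase]
    constructor
    · intro heq
      rw [Prod.mk.injEq] at heq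
      have : φ b = i + m := heq.2
      simp only [hφ] at this
      split_ifs at this <;> omega
    · simp only [hS, Finset.mem_filter, Finset.mem_product, Finset.mem_range]
      refine ⟨⟨?_, ?_⟩, hφm a b hab, ?_⟩
      · exact Nat.lt_succ_of_le (hφle a (by omega))
      · exact Nat.lt_succ_of_le (hφle b (by omega))
      · rw [← hpos a (by omega), ← hpos b (by omega)]; exact hpe
  have hinj : Set.InjOn (fun p : ℕ × ℕ => (φ p.1, φ p.2)) S' := by
    have hφs : StrictMono φ := fun a b hab => hφm a b hab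
    have hφi : Function.Injective φ := hφs.injective
    rintro ⟨a, b⟩ _ ⟨a', b'⟩ _ h
    simp only [Prod.mk.injEq] at h
    exact Prod.ext (hφi h.1) (hφi h.2)
  have hcard := Finset.card_le_card_of_injOn _ hmap hinj
  have hmem : (i, i + m) ∈ S := by
    simp only [hS, Finset.mem_filter, Finset.mem_product, Finset.mem_range]
    refine ⟨⟨by omega, by omega⟩, by omega, ?_⟩
    have e1 := c1 i (le_refl _)
    have e2 := c2 0
    simp only [add_zero] at e2
    rw [← e1, ← e2]
  rw [Finset.card_erase_of_mem hmem] at hcard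
  have : 0 < S.card := Finset.card_pos.mpr ⟨_, hmem⟩
  omega


open Classical in
/-- simple closed words -/
noncomputable def leLoops (m : ℕ) : Finset (List St) :=
  (W m).filter fun w => disp w = 0 ∧ ∀ i j, i < j → j < m → pos w i ≠ pos w j

open Classical in
/-- bridge-like words with few coincidences -/
noncomputable def leG (L k : ℕ) : Finset (List St) := (W L).filter fun w => BrL w ∧ K w ≤ k

open Classical in
/-- bridges -/
noncomputable def leB (L : ℕ) : Finset (List St) := (W L).filter Br

theorem le_card_loops (m : ℕ) : (leLoops m).card = loops m := rfl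
theorem le_card_G (L k : ℕ) : (leG L k).card = G L k := rfl
theorem le_card_B (L : ℕ) : (leB L).card = b L := rfl

theorem le_decomp (L k : ℕ) (w : List St) (hw : w ∈ leG L (k + 1)) (hns : ¬ Saw w) :
    ∃ m ∈ Icc 1 L, ∃ i ∈ range (L + 1), ∃ e ∈ leLoops m, ∃ w' ∈ leG (L - m) k,
      w = w'.take i ++ e ++ w'.drop i := by
  classical
  obtain ⟨hwW, hBr, hK⟩ : w ∈ W L ∧ BrL w ∧ K w ≤ k + 1 := by
    simpa [leG] using hw
  have hlen : w.length = L := le_mem_W.mp hwW
  have hex : ∃ j, ∃ i, i < j ∧ j ≤ w.length ∧ pos w i = pos w j := by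
    unfold Saw at hns
    push Not at hns
    obtain ⟨i, j, h1, h2, h3⟩ := hns
    exact ⟨j, i, h1, h2, h3⟩
  obtain ⟨i, hij, hj, hpe⟩ := Nat.find_spec hex
  have hmin : ∀ j' < Nat.find hex, ∀ i' < j', pos w i' ≠ pos w j' := by
    intro j' hj' i' hi' he
    exact Nat.find_min hex hj' ⟨i', hi', by omega, he⟩
  set j := Nat.find hex with hjdef
  -- decomposition
  set u := w.take i with hu
  set e := (w.drop i).take (j - i) with he
  set v := w.drop j with hv
  have hwd : w = u ++ e ++ v := by
    have h1 : w = w.take i ++ w.drop i := (List.take_append_drop i w).symm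
    have h2 : w.drop i = (w.drop i).take (j - i) ++ (w.drop i).drop (j - i) :=
      (List.take_append_drop _ _).symm
    have h3 : (w.drop i).drop (j - i) = w.drop j := by
      rw [List.drop_drop]; congr 1; omega
    rw [List.append_assoc]
    rw [h3] at h2
    rw [← h2, ← h1]
  have hul : u.length = i := by rw [hu, List.length_take]; omega
  have hel : e.length = j - i := by rw [he, List.length_take, List.length_drop]; omega
  have hvl : v.length = L - j := by rw [hv, List.length_drop, hlen]
  have hpe' : ∀ t ≤ j - i, pos w (i + t) = disp u + pos e t := by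
    intro t ht
    conv_lhs => rw [hwd, List.append_assoc, ← hul]
    rw [le_pos_right, le_pos_left _ _ (by omega)]
  have hde : disp e = 0 := by
    have h1 := hpe' (j - i) (le_refl _)
    have h2 := hpe' 0 (by omega)
    have h3 : pos e 0 = 0 := by simp [pos]
    rw [show i + (j - i) = j by omega] at h1
    rw [add_zero, h3, add_zero] at h2
    have h4 : pos e (j - i) = disp e := by rw [← hel]; exact le_pos_length e
    rw [← hpe, h2, h4] at h1
    exact (left_eq_add.mp h1)
  have hm1 : 1 ≤ j - i := by omega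
  refine ⟨j - i, Finset.mem_Icc.mpr ⟨hm1, by omega⟩, i, Finset.mem_range.mpr (by omega), e, ?_, u ++ v,
    ?_, ?_⟩
  · simp only [leLoops, Finset.mem_filter]
    refine ⟨le_mem_W.mpr hel, hde, ?_⟩
    intro a b' hab hb he'
    have h1 := hpe' a (by omega)
    have h2 := hpe' b' (by omega)
    exact hmin (i + b') (by omega) (i + a) (by omega) (by rw [h1, h2, he'])
  · simp only [leG, Finset.mem_filter]
    refine ⟨le_mem_W.mpr ?_, ?_, ?_⟩
    · rw [List.length_append]; omega
    · exact le_BrL u e v hde (hwd ▸ hBr)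
    · have := le_K u e v hde (by omega)
      rw [← hwd] at this
      omega
  · rw [List.take_append_of_le_length (by omega), List.drop_append_of_le_length (by omega)]
    rw [List.take_of_length_le (by omega), List.drop_of_length_le (by omega), List.nil_append]
    exact hwd

theorem G_succ (L k : ℕ) :
    G L (k + 1) ≤ b L + ∑ m ∈ Icc 1 L, (L + 1) * (loops m * G (L - m) k) := by
  classical
  have hsub : leG L (k + 1) ⊆ leB L ∪ (Icc 1 L).biUnion fun m =>
      (range (L + 1) ×ˢ (leLoops m ×ˢ leG (L - m) k)).image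
        fun p => p.2.2.take p.1 ++ p.2.1 ++ p.2.2.drop p.1 := by
    intro w hw
    rw [Finset.mem_union]
    by_cases hs : Saw w
    · left
      obtain ⟨hwW, hBr, hK⟩ : w ∈ W L ∧ BrL w ∧ K w ≤ k + 1 := by
        simpa [leG] using hw
      simp only [leB, Finset.mem_filter]
      exact ⟨hwW, hs, hBr⟩
    · right
      obtain ⟨m, hm, i, hi, e, he, w', hw', heq⟩ := le_decomp L k w hw hs
      rw [Finset.mem_biUnion]
      refine ⟨m, hm, ?_⟩
      rw [Finset.mem_image]
      exact ⟨(i, e, w'), by simp only [Finset.mem_product]; exact ⟨hi, he, hw'⟩, heq.symm⟩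
  calc G L (k + 1) = (leG L (k + 1)).card := rfl
    _ ≤ _ := Finset.card_le_card hsub
    _ ≤ (leB L).card + _ := Finset.card_union_le _ _
    _ ≤ b L + ∑ m ∈ Icc 1 L, (L + 1) * (loops m * G (L - m) k) := by
      refine Nat.add_le_add (le_refl _) ?_
      refine Finset.card_biUnion_le.trans ?_
      refine Finset.sum_le_sum (fun m _ => ?_)
      refine Finset.card_image_le.trans ?_
      rw [Finset.card_product, Finset.card_product, Finset.card_range]
      rfl

theorem le_G_zero (L : ℕ) : G L 0 ≤ b L := by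
  classical
  have hsub : leG L 0 ⊆ leB L := by
    intro w hw
    obtain ⟨hwW, hBr, hK⟩ : w ∈ W L ∧ BrL w ∧ K w ≤ 0 := by
      simpa [leG] using hw
    simp only [leB, Finset.mem_filter]
    exact ⟨hwW, le_K_zero (by omega), hBr⟩
  exact Finset.card_le_card hsub

theorem G_le (L k : ℕ) : (G L k : ℝ) ≤ mu ^ L * (37 * ((L : ℝ) + 1) ^ 4) ^ k := by
  have hmu1 : 1 ≤ mu := one_le_mu
  have hmu6 : mu ≤ 6 := mu_le_six
  have hmu0 : 0 < mu := by linarith
  induction k generalizing L with
  | zero =>
    rw [pow_zero, mul_one]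
    exact (Nat.cast_le.mpr (le_G_zero L)).trans (b_le L)
  | succ k ih =>
    have h1 : (G L (k + 1) : ℝ) ≤ b L + ∑ m ∈ Icc 1 L, ((L : ℝ) + 1) * (loops m * G (L - m) k) := by
      have := G_succ L k
      exact_mod_cast this
    set X : ℝ := (37 * ((L : ℝ) + 1) ^ 4) ^ k with hX
    have hL0 : (0 : ℝ) ≤ L := Nat.cast_nonneg L
    have hbase : (1 : ℝ) ≤ 37 * ((L : ℝ) + 1) ^ 4 := by
      have : (1 : ℝ) ≤ ((L : ℝ) + 1) ^ 4 := one_le_pow₀ (by linarith)
      linarith
    have hX1 : 1 ≤ X := one_le_pow₀ hbase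
    have hterm : ∀ m ∈ Icc 1 L, ((L : ℝ) + 1) * (loops m * G (L - m) k) ≤
        36 * ((L : ℝ) + 1) ^ 3 * mu ^ L * X := by
      intro m hm
      rw [Finset.mem_Icc] at hm
      have hm' : (m : ℝ) ≤ L := Nat.cast_le.mpr hm.2
      have a1 : (loops m : ℝ) ≤ ((L : ℝ) + 1) ^ 2 * mu ^ (m + 2) := by
        refine (loops_le m hm.1).trans ?_
        gcongr
      have a2 : (G (L - m) k : ℝ) ≤ mu ^ (L - m) * X := by
        refine (ih (L - m)).trans ?_
        rw [hX]
        gcongr
        omega
      have a3 : mu ^ (m + 2) * mu ^ (L - m) ≤ 36 * mu ^ L := by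
        rw [← pow_add, show m + 2 + (L - m) = L + 2 by omega, pow_add]
        have : mu ^ 2 ≤ 36 := by nlinarith
        nlinarith [pow_pos hmu0 L]
      calc ((L : ℝ) + 1) * (loops m * G (L - m) k)
          ≤ ((L : ℝ) + 1) * ((((L : ℝ) + 1) ^ 2 * mu ^ (m + 2)) * (mu ^ (L - m) * X)) := by
            gcongr
        _ = ((L : ℝ) + 1) ^ 3 * (mu ^ (m + 2) * mu ^ (L - m)) * X := by ring
        _ ≤ ((L : ℝ) + 1) ^ 3 * (36 * mu ^ L) * X := by gcongr
        _ = _ := by ring
    have hsum := Finset.sum_le_sum hterm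
    rw [Finset.sum_const, Nat.card_Icc, nsmul_eq_mul, Nat.add_sub_cancel] at hsum
    have hmuL : 0 < mu ^ L := pow_pos hmu0 L
    calc (G L (k + 1) : ℝ) ≤ mu ^ L + L * (36 * ((L : ℝ) + 1) ^ 3 * mu ^ L * X) := by
          have := b_le L
          linarith
      _ ≤ mu ^ L * (((L : ℝ) + 1) ^ 4 * X) + 36 * ((L : ℝ) + 1) ^ 4 * mu ^ L * X := by
          have b1 : (1 : ℝ) ≤ ((L : ℝ) + 1) ^ 4 := one_le_pow₀ (by linarith)
          have b2 : (1 : ℝ) ≤ ((L : ℝ) + 1) ^ 4 * X := by nlinarith
          have b3 : mu ^ L * 1 ≤ mu ^ L * (((L : ℝ) + 1) ^ 4 * X) :=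
            mul_le_mul_of_nonneg_left b2 hmuL.le
          have b4 : (L : ℝ) * (36 * ((L : ℝ) + 1) ^ 3 * mu ^ L * X) ≤
              ((L : ℝ) + 1) * (36 * ((L : ℝ) + 1) ^ 3 * mu ^ L * X) := by
            apply mul_le_mul_of_nonneg_right (by linarith) (by positivity)
          have b5 : ((L : ℝ) + 1) * (36 * ((L : ℝ) + 1) ^ 3 * mu ^ L * X) =
            36 * ((L : ℝ) + 1) ^ 4 * mu ^ L * X := by ring
          linarith
      _ = mu ^ L * (37 * ((L : ℝ) + 1) ^ 4) ^ (k + 1) := by
          rw [pow_succ (37 * ((L : ℝ) + 1) ^ 4) k, ← hX]; ring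

end Pool.Agent.H46R2.K3.P
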