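import Pool.Agent.H46R2.K3.Basic
import Pool.Agent.H46R2.K3.MU

/-!
Task LOOP: the number of simple closed words.
-/

namespace Pool.Agent.H46R2.K3.P

open Finset

theorem loop_vec0 : vec ((0 : Fin 3), true) 0 = 1 := by simp [vec]

/-- A self-avoiding word between two heights gives a bridge, after one step up. -/
theorem loop_br_cons {x : List St} (hs : Saw x)
    (h : ∀ i ≤ x.length, 0 ≤ pos x i 0 ∧ pos x i 0 ≤ disp x 0) :
    Br (((0 : Fin 3), true) :: x) := by
  constructor
  · intro i j h1 h2
    rw [List.length_cons] at h2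
    obtain ⟨j, rfl⟩ : ∃ j', j = j' + 1 := ⟨j - 1, by omega⟩
    rcases Nat.eq_zero_or_pos i with h0 | h0
    · subst h0
      intro hc
      have h3 := congrFun hc 0
      rw [pos_succ_cons, pos_zero, Pi.add_apply, loop_vec0, Pi.zero_apply] at h3
      have := (h j (by omega)).1
      omega
    · obtain ⟨i, rfl⟩ : ∃ i', i = i' + 1 := ⟨i - 1, by omega⟩
      rw [pos_succ_cons, pos_succ_cons]
      intro hc
      exact hs i j (by omega) (by omega) (add_left_cancel hc)
  · intro i h1 h2
    rw [List.length_cons] at h2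
    obtain ⟨i, rfl⟩ : ∃ i', i = i' + 1 := ⟨i - 1, by omega⟩
    rw [pos_succ_cons, disp_cons, Pi.add_apply, Pi.add_apply, loop_vec0]
    have := h i (by omega)
    omega

open Classical in
/-- simple closed words in the upper half space -/
noncomputable def loopP (m : ℕ) : Finset (List St) :=
  (W m).filter fun w => disp w = 0 ∧ (∀ i j, i < j → j < m → pos w i ≠ pos w j) ∧
    ∀ i ≤ m, 0 ≤ pos w i 0

open Classical in
/-- bridges of length `n` -/
noncomputable def loopB (n : ℕ) : Finset (List St) := (W n).filter Br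

theorem loopB_card (n : ℕ) : #(loopB n) = b n := rfl

theorem loop_mem_B {n : ℕ} {w : List St} : w ∈ loopB n ↔ w.length = n ∧ Br w := by
  classical
  unfold loopB
  rw [Finset.mem_filter, mem_W]

theorem loop_mem_P {m : ℕ} {w : List St} : w ∈ loopP m ↔ w.length = m ∧ disp w = 0 ∧
    (∀ i j, i < j → j < m → pos w i ≠ pos w j) ∧ ∀ i ≤ m, 0 ≤ pos w i 0 := by
  classical
  unfold loopP
  rw [Finset.mem_filter, mem_W]

/-- A simple closed word in the upper half space is cut at its highest point. -/
theorem loop_cut {m : ℕ} (hm : 2 ≤ m) {w : List St} (hw : w ∈ loopP m) :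
    ∃ k ≤ m, ((0 : Fin 3), true) :: w.take k ∈ loopB (k + 1) ∧
      ((0 : Fin 3), true) :: (w.drop k).map flip0 ∈ loopB (m - k + 1) := by
  rw [loop_mem_P] at hw
  obtain ⟨hl, hd, hne, hpos⟩ := hw
  obtain ⟨k, hk, hmax⟩ := Finset.exists_max_image (Finset.Icc 1 (m - 1)) (fun i => pos w i 0)
    ⟨1, by rw [Finset.mem_Icc]; omega⟩
  rw [Finset.mem_Icc] at hk
  have hpm : pos w m = 0 := by rw [← hl, pos_length, hd]
  have hmax' : ∀ i ≤ m, pos w i 0 ≤ pos w k 0 := by
    intro i hi
    by_cases h1 : i = 0
    · subst h1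
      rw [pos_zero]
      exact hpos k (by omega)
    · by_cases h2 : i = m
      · rw [h2, hpm]
        exact hpos k (by omega)
      · exact hmax i (by rw [Finset.mem_Icc]; omega)
  have hkl : k ≤ w.length := by omega
  refine ⟨k, by omega, ?_, ?_⟩
  · rw [loop_mem_B]
    refine ⟨by rw [List.length_cons, List.length_take]; omega, ?_⟩
    apply loop_br_cons
    · intro i j h1 h2
      rw [List.length_take] at h2
      rw [pos_take (by omega), pos_take (by omega)]
      exact hne i j h1 (by omega)
    · intro i hi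
      rw [List.length_take] at hi
      rw [pos_take (by omega), disp_take]
      exact ⟨hpos i (by omega), hmax' i (by omega)⟩
  · rw [loop_mem_B]
    refine ⟨by rw [List.length_cons, List.length_map, List.length_drop, hl], ?_⟩
    apply loop_br_cons
    · apply saw_map_flip0
      intro i j h1 h2
      rw [List.length_drop] at h2
      rw [pos_drop w hkl, pos_drop w hkl]
      intro hc
      have hc' : pos w (k + i) = pos w (k + j) := by
        have := congrArg (fun x => x + pos w k) hc
        simpa using this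
      by_cases h3 : k + j < m
      · exact hne (k + i) (k + j) (by omega) h3 hc'
      · have h4 : k + j = m := by omega
        rw [h4, hpm] at hc'
        exact hne 0 (k + i) (by omega) (by omega) (by rw [pos_zero, hc'])
    · intro i hi
      rw [List.length_map, List.length_drop] at hi
      rw [pos_map_flip0, disp_map_flip0, if_pos rfl, if_pos rfl, pos_drop w hkl, disp_drop, hd]
      have h1 := hmax' (k + i) (by omega)
      have h2 := hpos (k + i) (by omega)
      simp only [Pi.sub_apply, Pi.zero_apply]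
      omega

theorem loop_P_le {m : ℕ} (hm : 2 ≤ m) :
    #(loopP m) ≤ ∑ k ∈ range (m + 1), b (k + 1) * b (m - k + 1) := by
  classical
  have hsub : loopP m ⊆ (range (m + 1)).biUnion fun k =>
      Finset.image₂ (fun u v : List St => u.tail ++ (v.tail).map flip0) (loopB (k + 1))
        (loopB (m - k + 1)) := by
    intro w hw
    obtain ⟨k, hk, h1, h2⟩ := loop_cut hm hw
    rw [Finset.mem_biUnion]
    refine ⟨k, by rw [Finset.mem_range]; omega, ?_⟩
    rw [Finset.mem_image₂]
    refine ⟨_, h1, _, h2, ?_⟩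
    simp only [List.tail_cons, map_flip0_flip0, List.take_append_drop]
  refine (Finset.card_le_card hsub).trans (Finset.card_biUnion_le.trans ?_)
  apply Finset.sum_le_sum
  intro k _
  exact (Finset.card_image₂_le _ _ _).trans (by rw [loopB_card, loopB_card])

/-- Rotation to the lowest point. -/
theorem loop_rot {m : ℕ} (hm : 1 ≤ m) {w : List St} (hl : w.length = m) (hd : disp w = 0)
    (hne : ∀ i j, i < j → j < m → pos w i ≠ pos w j) :
    ∃ k < m, w.drop k ++ w.take k ∈ loopP m := by
  obtain ⟨k, hk, hmin⟩ := Finset.exists_min_image (Finset.range m) (fun i => pos w i 0)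
    ⟨0, by rw [Finset.mem_range]; omega⟩
  rw [Finset.mem_range] at hk
  have hpm : pos w m = 0 := by rw [← hl, pos_length, hd]
  have hmin' : ∀ i ≤ m, pos w k 0 ≤ pos w i 0 := by
    intro i hi
    by_cases h2 : i = m
    · rw [h2, hpm, ← pos_zero w]
      exact hmin 0 (by rw [Finset.mem_range]; omega)
    · exact hmin i (by rw [Finset.mem_range]; omega)
  have hkl : k ≤ w.length := by omega
  have hlen : (w.drop k).length = m - k := by rw [List.length_drop, hl]
  have p1 : ∀ i, i ≤ m - k → pos (w.drop k ++ w.take k) i = pos w (k + i) - pos w k := by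
    intro i hi
    rw [pos_append_left _ (by omega), pos_drop w hkl]
  have p2 : ∀ i, m - k ≤ i → i ≤ m →
      pos (w.drop k ++ w.take k) i = pos w (i - (m - k)) - pos w k := by
    intro i hi hi2
    rw [pos_append_right' _ (by omega), disp_drop, hd, hlen, pos_take (by omega)]
    abel
  refine ⟨k, hk, ?_⟩
  rw [loop_mem_P]
  refine ⟨?_, ?_, ?_, ?_⟩
  · rw [List.length_append, List.length_drop, List.length_take]; omega
  · rw [disp_append, disp_drop, disp_take, hd]; abel
  · intro i j h1 h2 hc
    rcases Nat.lt_or_ge i (m - k) with hi | hi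
    · rcases Nat.lt_or_ge j (m - k) with hj | hj
      · rw [p1 i hi.le, p1 j hj.le] at hc
        exact hne (k + i) (k + j) (by omega) (by omega) (sub_left_inj.mp hc)
      · rw [p1 i hi.le, p2 j hj h2.le] at hc
        exact hne (j - (m - k)) (k + i) (by omega) (by omega) (sub_left_inj.mp hc).symm
    · rw [p2 i hi (by omega), p2 j (by omega) h2.le] at hc
      exact hne (i - (m - k)) (j - (m - k)) (by omega) (by omega) (sub_left_inj.mp hc)
  · intro i hi
    rcases Nat.le_total i (m - k) with h1 | h1
    · rw [p1 i h1, Pi.sub_apply]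
      have := hmin' (k + i) (by omega)
      omega
    · rw [p2 i h1 hi, Pi.sub_apply]
      have := hmin' (i - (m - k)) (by omega)
      omega

theorem loop_le_P {m : ℕ} (hm : 1 ≤ m) : loops m ≤ m * #(loopP m) := by
  classical
  have hsub : ((W m).filter fun w => disp w = 0 ∧ ∀ i j, i < j → j < m → pos w i ≠ pos w j) ⊆
      Finset.image₂ (fun (k : ℕ) (w : List St) => w.drop (m - k) ++ w.take (m - k)) (range m)
        (loopP m) := by
    intro w hw
    rw [Finset.mem_filter, mem_W] at hw
    obtain ⟨hl, hd, hne⟩ := hw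
    obtain ⟨k, hk, h1⟩ := loop_rot hm hl hd hne
    rw [Finset.mem_image₂]
    refine ⟨k, by rw [Finset.mem_range]; exact hk, _, h1, ?_⟩
    have hlen : (w.drop k).length = m - k := by rw [List.length_drop, hl]
    rw [← hlen, List.drop_left, List.take_left, List.take_append_drop]
  have h2 := (Finset.card_le_card hsub).trans (Finset.card_image₂_le _ _ _)
  rw [Finset.card_range] at h2
  unfold loops
  exact h2

theorem loop_one : loops 1 = 0 := by
  classical
  unfold loops
  rw [Finset.card_eq_zero, Finset.filter_eq_empty_iff]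
  intro w hw hc
  rw [mem_W] at hw
  obtain ⟨s, rfl⟩ := List.length_eq_one_iff.mp hw
  have h := congrFun hc.1 s.1
  rw [disp_singleton] at h
  obtain ⟨d, b⟩ := s
  cases b <;> simp [vec] at h

theorem loops_le_of (hb : ∀ n : ℕ, (b n : ℝ) ≤ mu ^ n) (m : ℕ) (hm : 1 ≤ m) :
    (loops m : ℝ) ≤ ((m : ℝ) + 1) ^ 2 * mu ^ (m + 2) := by
  have hmu : ∀ n, 0 ≤ mu ^ n := fun n => (Nat.cast_nonneg _).trans (hb n)
  rcases Nat.lt_or_ge m 2 with h2 | h2
  · have h1 : m = 1 := by omega
    rw [h1, loop_one]
    have := hmu (1 + 2)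
    push_cast
    positivity
  · have e1 : (loops m : ℝ) ≤ m * #(loopP m) := by exact_mod_cast loop_le_P hm
    have e2 : (#(loopP m) : ℝ) ≤ ∑ k ∈ range (m + 1), (b (k + 1) : ℝ) * (b (m - k + 1) : ℝ) := by
      exact_mod_cast loop_P_le h2
    have e3 : ∑ k ∈ range (m + 1), (b (k + 1) : ℝ) * (b (m - k + 1) : ℝ) ≤
        ∑ k ∈ range (m + 1), mu ^ (m + 2) := by
      apply Finset.sum_le_sum
      intro k hk
      rw [Finset.mem_range] at hk
      calc (b (k + 1) : ℝ) * (b (m - k + 1) : ℝ) ≤ mu ^ (k + 1) * mu ^ (m - k + 1) :=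
            mul_le_mul (hb _) (hb _) (Nat.cast_nonneg _) (hmu _)
        _ = mu ^ (m + 2) := by rw [← pow_add]; congr 1; omega
    rw [Finset.sum_const, Finset.card_range, nsmul_eq_mul] at e3
    have hm0 : (0 : ℝ) ≤ m := Nat.cast_nonneg _
    calc (loops m : ℝ) ≤ m * #(loopP m) := e1
      _ ≤ m * (((m + 1 : ℕ) : ℝ) * mu ^ (m + 2)) :=
          mul_le_mul_of_nonneg_left (e2.trans e3) hm0
      _ ≤ ((m : ℝ) + 1) * (((m + 1 : ℕ) : ℝ) * mu ^ (m + 2)) := by
          apply mul_le_mul_of_nonneg_right (by linarith)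
          exact mul_nonneg (Nat.cast_nonneg _) (hmu _)
      _ = ((m : ℝ) + 1) ^ 2 * mu ^ (m + 2) := by push_cast; ring

theorem loops_le (m : ℕ) (hm : 1 ≤ m) : (loops m : ℝ) ≤ ((m : ℝ) + 1) ^ 2 * mu ^ (m + 2) :=
  loops_le_of b_le m hm

end Pool.Agent.H46R2.K3.P
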