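import Pool.Agent.H46R2.K3.Defs

/-!
# UNF: the Hammersley–Welsh step
-/

set_option autoImplicit false

namespace Pool.Agent.H46R2.K3.P

open Finset

/-! ### auxiliary lemmas on words -/

theorem unf_mem_W {n : ℕ} {w : List St} : w ∈ W n ↔ w.length = n := by
  unfold W
  rw [mem_image]
  constructor
  · rintro ⟨v, -, rfl⟩
    exact v.2
  · intro h
    exact ⟨⟨w, h⟩, mem_univ _, rfl⟩

theorem unf_pos_zero (w : List St) : pos w 0 = 0 := by simp [pos]

theorem unf_pos_take (w : List St) {k i : ℕ} (h : i ≤ k) : pos (w.take k) i = pos w i := by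
  unfold pos
  rw [List.take_take, min_eq_left h]

theorem unf_disp_take (w : List St) (k : ℕ) : disp (w.take k) = pos w k := rfl

theorem unf_pos_add (w : List St) (k j : ℕ) : pos w (k + j) = pos w k + pos (w.drop k) j := by
  unfold pos
  rw [List.take_add, List.map_append, List.sum_append]

theorem unf_flip0_flip0 (s : St) : flip0 (flip0 s) = s := by
  obtain ⟨i, b⟩ := s
  unfold flip0
  by_cases hi : i = 0
  · simp [hi]
  · simp [hi]

/-- the reflection of the coordinate `0` -/
def unfR (v : V) : V := fun i => if i = 0 then - v 0 else v i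

theorem unf_R_add (u v : V) : unfR (u + v) = unfR u + unfR v := by
  funext i
  unfold unfR
  by_cases hi : i = 0
  · simp [hi]; ring
  · simp [hi]

theorem unf_R_R (v : V) : unfR (unfR v) = v := by
  funext i
  unfold unfR
  by_cases hi : i = 0
  · simp [hi]
  · simp [hi]

theorem unf_vec_flip0 (s : St) : vec (flip0 s) = unfR (vec s) := by
  obtain ⟨i, b⟩ := s
  funext j
  unfold vec flip0 unfR
  by_cases hi : i = 0
  · subst hi
    by_cases hj : j = 0
    · cases b <;> simp [hj]
    · simp [hj]
  · by_cases hj : j = 0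
    · subst hj
      have : (0 : Fin 3) ≠ i := fun h => hi h.symm
      simp [hi, this]
    · simp [hi, hj]

theorem unf_sum_map_flip0 (l : List St) :
    ((l.map flip0).map vec).sum = unfR ((l.map vec).sum) := by
  induction l with
  | nil =>
    funext i
    simp [unfR]
  | cons s l ih =>
    rw [List.map_cons, List.map_cons, List.map_cons, List.sum_cons, List.sum_cons, ih,
      unf_vec_flip0, unf_R_add]

theorem unf_pos_map (w : List St) (j : ℕ) : pos (w.map flip0) j = unfR (pos w j) := by
  unfold pos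
  rw [← List.map_take, unf_sum_map_flip0]

/-- the last maximum of the height -/
theorem unf_last_max (f : ℕ → ℤ) (n : ℕ) : ∃ k ≤ n, (∀ i ≤ n, f i ≤ f k) ∧
    ∀ i ≤ n, k < i → f i < f k := by
  induction n with
  | zero =>
    refine ⟨0, le_rfl, ?_, ?_⟩
    · intro i hi
      rw [Nat.le_zero.1 hi]
    · intro i hi h
      omega
  | succ n ih =>
    obtain ⟨k, hk, h1, h2⟩ := ih
    by_cases h : f k ≤ f (n + 1)
    · refine ⟨n + 1, le_rfl, ?_, ?_⟩
      · intro i hi
        rcases Nat.lt_or_ge n i with h3 | h3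
        · have : i = n + 1 := by omega
          rw [this]
        · exact (h1 i h3).trans h
      · intro i hi h3
        omega
    · refine ⟨k, by omega, ?_, ?_⟩
      · intro i hi
        rcases Nat.lt_or_ge n i with h3 | h3
        · have : i = n + 1 := by omega
          rw [this]
          omega
        · exact h1 i h3
      · intro i hi h4
        rcases Nat.lt_or_ge n i with h3 | h3
        · have : i = n + 1 := by omega
          rw [this]
          omega
        · exact h2 i h3 h4

/-- the decomposition of a half-space walk -/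
theorem unf_decomp {w : List St} {n : ℕ} (hl : w.length = n) (hw : Hsp w) :
    ∃ k ≤ n, (w.take k).length = k ∧ Br (w.take k) ∧ ((w.drop k).map flip0).length = n - k ∧
      Hsp ((w.drop k).map flip0) ∧ (∀ i ≤ n, pos w i 0 ≤ pos w k 0) ∧
      ∀ j, pos ((w.drop k).map flip0) j 0 = pos w k 0 - pos w (k + j) 0 := by
  obtain ⟨k, hk, h1, h2⟩ := unf_last_max (fun i => pos w i 0) n
  have hlt : (w.take k).length = k := by
    rw [List.length_take, hl]
    exact min_eq_left hk
  have hld : ((w.drop k).map flip0).length = n - k := by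
    rw [List.length_map, List.length_drop, hl]
  have hpos : ∀ j, pos ((w.drop k).map flip0) j = unfR (pos w (k + j) - pos w k) := by
    intro j
    rw [unf_pos_map, unf_pos_add, add_sub_cancel_left]
  have hpos0 : ∀ j, pos ((w.drop k).map flip0) j 0 = pos w k 0 - pos w (k + j) 0 := by
    intro j
    rw [hpos]
    simp [unfR]
  refine ⟨k, hk, hlt, ⟨?_, ?_⟩, hld, ⟨?_, ?_⟩, h1, hpos0⟩
  · intro i j hij hj
    rw [hlt] at hj
    rw [unf_pos_take w (by omega), unf_pos_take w hj]
    exact hw.1 i j hij (by omega)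
  · intro i hi1 hi2
    rw [hlt] at hi2
    rw [unf_pos_take w hi2, unf_disp_take]
    exact ⟨hw.2 i hi1 (by omega), h1 i (by omega)⟩
  · intro i j hij hj heq
    rw [hld] at hj
    rw [hpos, hpos] at heq
    have h3 := congrArg unfR heq
    rw [unf_R_R, unf_R_R] at h3
    have h4 : pos w (k + i) = pos w (k + j) := sub_left_injective h3
    exact hw.1 (k + i) (k + j) (by omega) (by omega) h4
  · intro i hi1 hi2
    rw [hld] at hi2
    rw [hpos0]
    have := h2 (k + i) (by omega) (by omega)
    omega

/-- counting by decompositions -/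
theorem unf_count (n : ℕ) (S : Finset (List St)) (A B : ℕ → Finset (List St))
    (h : ∀ w ∈ S, ∃ k ≤ n, w.take k ∈ A k ∧ (w.drop k).map flip0 ∈ B k) :
    #S ≤ ∑ k ∈ range (n + 1), #(A k) * #(B k) := by
  classical
  have hsub : S ⊆ (range (n + 1)).biUnion fun k =>
      (A k ×ˢ B k).image fun p => p.1 ++ p.2.map flip0 := by
    intro w hw
    obtain ⟨k, hk, h1, h2⟩ := h w hw
    rw [mem_biUnion]
    refine ⟨k, mem_range.2 (by omega), ?_⟩
    rw [mem_image]
    refine ⟨(w.take k, (w.drop k).map flip0), mem_product.2 ⟨h1, h2⟩, ?_⟩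
    have h3 : ((w.drop k).map flip0).map flip0 = w.drop k := by
      rw [List.map_map]
      have : flip0 ∘ flip0 = id := funext unf_flip0_flip0
      rw [this, List.map_id]
    show w.take k ++ ((w.drop k).map flip0).map flip0 = w
    rw [h3, List.take_append_drop]
  refine (card_le_card hsub).trans (card_biUnion_le.trans ?_)
  apply sum_le_sum
  intro k _
  refine card_image_le.trans ?_
  rw [card_product]

/-! ### the theorems -/

theorem hge_split (n r : ℕ) : hge n r ≤ ∑ k ∈ range (n + 1), bge k r * hs (n - k) := by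
  classical
  unfold hge bge hs
  apply unf_count n _ (fun k => (W k).filter fun w => Br w ∧ (r : ℤ) ≤ disp w 0)
    (fun k => (W (n - k)).filter Hsp)
  intro w hw
  rw [mem_filter, unf_mem_W] at hw
  obtain ⟨hl, hH, i, hi, hr⟩ := hw
  obtain ⟨k, hk, h1, h2, h3, h4, h5, h6⟩ := unf_decomp hl hH
  refine ⟨k, hk, ?_, ?_⟩
  · rw [mem_filter, unf_mem_W, unf_disp_take]
    exact ⟨h1, h2, hr.trans (h5 i hi)⟩
  · rw [mem_filter, unf_mem_W]
    exact ⟨h3, h4⟩

theorem hs_split (n r : ℕ) :
    hs n ≤ hle n r + ∑ k ∈ range (n + 1), bge k (r + 1) * hs (n - k) := by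
  classical
  refine le_trans ?_ (Nat.add_le_add_left (hge_split n (r + 1)) _)
  unfold hs hle hge
  rw [← card_union_add_card_inter]
  refine le_trans (card_le_card ?_) (Nat.le_add_right _ _)
  intro w hw
  rw [mem_filter] at hw
  rw [mem_union, mem_filter, mem_filter]
  by_cases h : ∀ i ≤ n, pos w i 0 ≤ (r : ℤ)
  · exact Or.inl ⟨hw.1, hw.2, h⟩
  · push Not at h
    obtain ⟨i, hi, h⟩ := h
    refine Or.inr ⟨hw.1, hw.2, i, hi, ?_⟩
    push_cast
    omega

theorem hle_succ (n r : ℕ) :
    hle n (r + 1) ≤ hle n r + ∑ k ∈ range (n + 1), b k * hle (n - k) r := by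
  classical
  have key : #((W n).filter fun w => Hsp w ∧ (∀ i ≤ n, pos w i 0 ≤ (r : ℤ) + 1) ∧
      ∃ i ≤ n, (r : ℤ) + 1 ≤ pos w i 0) ≤ ∑ k ∈ range (n + 1), b k * hle (n - k) r := by
    unfold b hle
    apply unf_count n _ (fun k => (W k).filter Br)
      (fun k => (W (n - k)).filter fun w => Hsp w ∧ ∀ i ≤ n - k, pos w i 0 ≤ (r : ℤ))
    intro w hw
    rw [mem_filter, unf_mem_W] at hw
    obtain ⟨hl, hH, hle, i, hi, hr⟩ := hw
    obtain ⟨k, hk, h1, h2, h3, h4, h5, h6⟩ := unf_decomp hl hH
    refine ⟨k, hk, ?_, ?_⟩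
    · rw [mem_filter, unf_mem_W]
      exact ⟨h1, h2⟩
    · rw [mem_filter, unf_mem_W]
      refine ⟨h3, h4, ?_⟩
      intro j hj
      rw [h6]
      have hk1 : 1 ≤ k := by
        rcases Nat.eq_zero_or_pos k with h0 | h0
        · exfalso
          have h7 := h5 i hi
          rw [h0, unf_pos_zero] at h7
          simp only [Pi.zero_apply] at h7
          omega
        · exact h0
      have h8 := hH.2 (k + j) (by omega) (by omega)
      have h9 := hle k hk
      omega
  refine le_trans ?_ (Nat.add_le_add_left key _)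
  unfold hle
  rw [← card_union_add_card_inter]
  refine le_trans (card_le_card ?_) (Nat.le_add_right _ _)
  intro w hw
  rw [mem_filter] at hw
  obtain ⟨hW, hH, hle⟩ := hw
  push_cast at hle
  rw [mem_union, mem_filter, mem_filter]
  by_cases h : ∀ i ≤ n, pos w i 0 ≤ (r : ℤ)
  · exact Or.inl ⟨hW, hH, h⟩
  · push Not at h
    obtain ⟨i, hi, h⟩ := h
    exact Or.inr ⟨hW, hH, hle, i, hi, by omega⟩

theorem hle_zero (n : ℕ) : hle n 0 ≤ 1 := by
  classical
  unfold hle
  rw [card_le_one]
  have h0 : ∀ w ∈ (W n).filter (fun w => Hsp w ∧ ∀ i ≤ n, pos w i 0 ≤ ((0 : ℕ) : ℤ)), w = [] := by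
    intro w hw
    rw [mem_filter, unf_mem_W] at hw
    obtain ⟨hl, hH, hle⟩ := hw
    rcases Nat.eq_zero_or_pos n with h | h
    · rw [h] at hl
      exact List.length_eq_zero_iff.1 hl
    · exfalso
      have h1 := hle 1 h
      have h2 := hH.2 1 le_rfl (by omega)
      push_cast at h1
      omega
  intro w hw w' hw'
  rw [h0 w hw, h0 w' hw']

end Pool.Agent.H46R2.K3.P
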