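import Pool.Agent.H46R2.K3.MU
import Pool.Agent.H46R2.K3.UNF

/-!
Task REC: the recursion of Hammersley and Welsh, solved.
-/

set_option autoImplicit false

namespace Pool.Agent.H46R2.K3.P

open Finset

theorem hle_bound (N n r : ℕ) (hn : n ≤ N) : (hle n r : ℝ) ≤ ((N : ℝ) + 2) ^ r * mu ^ n := by
  have hμ := one_le_mu
  have hμ0 : (0 : ℝ) < mu := by linarith
  have hN : (0 : ℝ) ≤ N := Nat.cast_nonneg N
  induction r generalizing n with
  | zero =>
    have h1 : (hle n 0 : ℝ) ≤ 1 := by exact_mod_cast hle_zero n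
    have h2 : (1 : ℝ) ≤ mu ^ n := one_le_pow₀ hμ
    rw [pow_zero, one_mul]
    linarith
  | succ r ih =>
    have h1 : (hle n (r + 1) : ℝ) ≤
        (hle n r : ℝ) + ∑ k ∈ range (n + 1), (b k : ℝ) * (hle (n - k) r : ℝ) := by
      exact_mod_cast hle_succ n r
    have h2 : ∀ k ∈ range (n + 1), (b k : ℝ) * (hle (n - k) r : ℝ) ≤
        ((N : ℝ) + 2) ^ r * mu ^ n := by
      intro k hk
      have hk' : k ≤ n := Nat.lt_succ_iff.mp (mem_range.mp hk)
      have h3 := b_le k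
      have h4 := ih (n - k) ((Nat.sub_le _ _).trans hn)
      have h5 : mu ^ n = mu ^ k * mu ^ (n - k) := by
        rw [← pow_add, Nat.add_sub_cancel' hk']
      calc (b k : ℝ) * (hle (n - k) r : ℝ)
          ≤ mu ^ k * (((N : ℝ) + 2) ^ r * mu ^ (n - k)) :=
            mul_le_mul h3 h4 (Nat.cast_nonneg _) (by positivity)
        _ = ((N : ℝ) + 2) ^ r * mu ^ n := by rw [h5]; ring
    have h3 := Finset.sum_le_card_nsmul _ _ _ h2
    rw [card_range, nsmul_eq_mul] at h3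
    have h4 := ih n hn
    have h5 : (n : ℝ) ≤ N := by exact_mod_cast hn
    have h6 : (0 : ℝ) ≤ ((N : ℝ) + 2) ^ r * mu ^ n := by positivity
    push_cast at h3
    calc (hle n (r + 1) : ℝ) ≤ ((N : ℝ) + 2) ^ r * mu ^ n +
          ((n : ℝ) + 1) * (((N : ℝ) + 2) ^ r * mu ^ n) := by linarith
      _ = ((n : ℝ) + 2) * (((N : ℝ) + 2) ^ r * mu ^ n) := by ring
      _ ≤ ((N : ℝ) + 2) * (((N : ℝ) + 2) ^ r * mu ^ n) :=
          mul_le_mul_of_nonneg_right (by linarith) h6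
      _ = ((N : ℝ) + 2) ^ (r + 1) * mu ^ n := by ring

theorem rec_bge_le (k r : ℕ) : bge k r ≤ b k := by
  classical
  unfold bge b
  refine card_le_card ?_
  intro w hw
  rw [mem_filter] at hw ⊢
  exact ⟨hw.1, hw.2.1⟩

theorem hs_bound {N Lb ρ : ℕ} {σ : ℝ} (hσ : 1 ≤ σ) (hLb : 1 ≤ Lb)
    (h1 : ∀ n ≤ N, (hle n ρ : ℝ) ≤ σ * mu ^ n)
    (h2 : ∀ k < Lb, (bge k (ρ + 1) : ℝ) ≤ mu ^ k / (8 * ((N : ℝ) + 2))) :
    ∀ n ≤ N, (hs n : ℝ) ≤ 2 * σ * (4 * ((N : ℝ) + 2)) ^ (n / Lb) * mu ^ n := by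
  intro n
  induction n using Nat.strong_induction_on with
  | _ n ih =>
  intro hn
  have hμ := one_le_mu
  have hμ0 : (0 : ℝ) < mu := by linarith
  have hN : (0 : ℝ) ≤ N := Nat.cast_nonneg N
  set q : ℝ := 4 * ((N : ℝ) + 2) with hq
  have hq1 : (1 : ℝ) ≤ q := by linarith
  have hq0 : (0 : ℝ) < q := by linarith
  have hσ0 : (0 : ℝ) < σ := by linarith
  have key : ∀ k ∈ range (n + 1), (bge k (ρ + 1) : ℝ) * (hs (n - k) : ℝ) ≤
      σ * q ^ (n / Lb) * mu ^ n / (2 * ((N : ℝ) + 2)) := by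
    intro k hk
    have hk' : k ≤ n := Nat.lt_succ_iff.mp (mem_range.mp hk)
    have h5 : mu ^ n = mu ^ k * mu ^ (n - k) := by
      rw [← pow_add, Nat.add_sub_cancel' hk']
    rcases Nat.eq_zero_or_pos k with rfl | hk0
    · have h3 := h2 0 (by omega)
      have h4 : (bge 0 (ρ + 1) : ℝ) < 1 := by
        refine h3.trans_lt ?_
        rw [pow_zero, div_lt_one (by positivity)]
        linarith
      have h6 : bge 0 (ρ + 1) = 0 := by
        have : bge 0 (ρ + 1) < 1 := by exact_mod_cast h4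
        omega
      rw [h6, Nat.cast_zero, zero_mul]
      positivity
    · have h4 := ih (n - k) (by omega) (by omega)
      rcases lt_or_ge k Lb with hkL | hkL
      · have h3 := h2 k hkL
        have h6 : q ^ ((n - k) / Lb) ≤ q ^ (n / Lb) :=
          pow_le_pow_right₀ hq1 (Nat.div_le_div_right (Nat.sub_le _ _))
        calc (bge k (ρ + 1) : ℝ) * (hs (n - k) : ℝ)
            ≤ mu ^ k / (8 * ((N : ℝ) + 2)) * (2 * σ * q ^ ((n - k) / Lb) * mu ^ (n - k)) :=
              mul_le_mul h3 h4 (Nat.cast_nonneg _) (by positivity)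
          _ ≤ mu ^ k / (8 * ((N : ℝ) + 2)) * (2 * σ * q ^ (n / Lb) * mu ^ (n - k)) := by
              gcongr
          _ = (σ * q ^ (n / Lb) * mu ^ n / (2 * ((N : ℝ) + 2))) / 2 := by
              rw [h5]; field_simp; ring
          _ ≤ σ * q ^ (n / Lb) * mu ^ n / (2 * ((N : ℝ) + 2)) :=
              half_le_self (by positivity)
      · have h3 : (bge k (ρ + 1) : ℝ) ≤ mu ^ k :=
          (Nat.cast_le.mpr (rec_bge_le k (ρ + 1))).trans (b_le k)
        have h7 : (n - k) / Lb + 1 ≤ n / Lb := by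
          have h8 : (n - k) / Lb ≤ (n - Lb) / Lb := Nat.div_le_div_right (by omega)
          have h9 : (n - Lb) / Lb + 1 = n / Lb := by
            rw [← Nat.add_div_right _ (by omega)]
            congr 1
            omega
          omega
        have h6 : q ^ ((n - k) / Lb) * q ≤ q ^ (n / Lb) := by
          rw [← pow_succ]
          exact pow_le_pow_right₀ hq1 h7
        have h6' : q ^ ((n - k) / Lb) ≤ q ^ (n / Lb) / q := by
          rw [le_div_iff₀ hq0]; exact h6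
        calc (bge k (ρ + 1) : ℝ) * (hs (n - k) : ℝ)
            ≤ mu ^ k * (2 * σ * q ^ ((n - k) / Lb) * mu ^ (n - k)) :=
              mul_le_mul h3 h4 (Nat.cast_nonneg _) (by positivity)
          _ ≤ mu ^ k * (2 * σ * (q ^ (n / Lb) / q) * mu ^ (n - k)) := by
              gcongr
          _ = σ * q ^ (n / Lb) * mu ^ n / (2 * ((N : ℝ) + 2)) := by
              rw [h5, hq]; field_simp; ring
  have h3 := Finset.sum_le_card_nsmul _ _ _ key
  rw [card_range, nsmul_eq_mul] at h3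
  have h4 : (hs n : ℝ) ≤
      (hle n ρ : ℝ) + ∑ k ∈ range (n + 1), (bge k (ρ + 1) : ℝ) * (hs (n - k) : ℝ) := by
    exact_mod_cast hs_split n ρ
  have h5 := h1 n hn
  have h6 : (n : ℝ) ≤ N := by exact_mod_cast hn
  have h7 : ((n + 1 : ℕ) : ℝ) * (σ * q ^ (n / Lb) * mu ^ n / (2 * ((N : ℝ) + 2))) ≤
      σ * q ^ (n / Lb) * mu ^ n / 2 := by
    have h8 : ((n + 1 : ℕ) : ℝ) ≤ (N : ℝ) + 2 := by push_cast; linarith
    calc ((n + 1 : ℕ) : ℝ) * (σ * q ^ (n / Lb) * mu ^ n / (2 * ((N : ℝ) + 2)))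
        ≤ ((N : ℝ) + 2) * (σ * q ^ (n / Lb) * mu ^ n / (2 * ((N : ℝ) + 2))) :=
          mul_le_mul_of_nonneg_right h8 (by positivity)
      _ = σ * q ^ (n / Lb) * mu ^ n / 2 := by field_simp
  have h8 : (1 : ℝ) ≤ q ^ (n / Lb) := one_le_pow₀ hq1
  have h9 : σ * mu ^ n ≤ σ * q ^ (n / Lb) * mu ^ n := by
    have : (0 : ℝ) < σ * mu ^ n := by positivity
    nlinarith
  have h10 : (0 : ℝ) ≤ σ * q ^ (n / Lb) * mu ^ n := by positivity
  calc (hs n : ℝ) ≤ σ * mu ^ n + σ * q ^ (n / Lb) * mu ^ n / 2 := by linarith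
    _ ≤ 2 * (σ * q ^ (n / Lb) * mu ^ n) := by linarith
    _ = 2 * σ * q ^ (n / Lb) * mu ^ n := by ring

end Pool.Agent.H46R2.K3.P
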