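import Pool.Agent.H46R2.K3.HK
import Pool.Agent.H46R2.K3.FAM
import Pool.Agent.H46R2.K3.LE
import Pool.Agent.H46R2.K3.MU

/-!
Task SLAB: counting the walks of a slab with two exit paths.
-/

namespace Pool.Agent.H46R2.K3.P

open Finset

theorem slab_disp_append (u v : List St) : disp (u ++ v) = disp u + disp v := by
  simp [disp]

theorem slab_pos_append_left (u v : List St) {i : ℕ} (hi : i ≤ u.length) :
    pos (u ++ v) i = pos u i := by
  unfold pos
  rw [List.take_append_of_le_length hi]

theorem slab_pos_append_right (u v : List St) (j : ℕ) :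
    pos (u ++ v) (u.length + j) = disp u + pos v j := by
  unfold pos disp
  rw [List.take_length_add_append]
  simp

theorem slab_pos_length (u : List St) : pos u u.length = disp u := by
  simp [pos, disp]

theorem slab_disp_reverse (u : List St) : disp u.reverse = disp u := by
  unfold disp
  rw [List.map_reverse, List.sum_reverse]

theorem slab_pos_reverse (u : List St) (i : ℕ) :
    pos u.reverse i = disp u - pos u (u.length - i) := by
  have h1 : u.take (u.length - i) ++ u.drop (u.length - i) = u := List.take_append_drop _ _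
  have h2 : u.reverse.take i = (u.drop (u.length - i)).reverse := by
    rw [List.take_reverse]
  unfold pos
  rw [h2, List.map_reverse, List.sum_reverse]
  have h3 : disp u = ((u.take (u.length - i)).map vec).sum
      + ((u.drop (u.length - i)).map vec).sum := by
    conv_lhs => rw [← h1]
    simp [disp]
  rw [h3]
  abel

theorem slab_mem_W {n : ℕ} {w : List St} : w ∈ W n ↔ w.length = n := by
  unfold W
  simp only [mem_image, mem_univ, true_and]
  constructor
  · rintro ⟨v, rfl⟩
    exact v.2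
  · intro h
    exact ⟨⟨w, h⟩, rfl⟩

/-- the word `u = w ++ v ++ [(0,true)]` -/
def slabU (w v : List St) : List St := w ++ v ++ [((0 : Fin 3), true)]

theorem slab_vec0 : vec ((0 : Fin 3), true) 0 = 1 := by simp [vec]

theorem slab_dispU (w v : List St) : disp (slabU w v) 0 = disp w 0 + disp v 0 + 1 := by
  unfold slabU
  rw [slab_disp_append, slab_disp_append]
  simp [disp, slab_vec0]

theorem slab_lenU (w v : List St) : (slabU w v).length = w.length + v.length + 1 := by
  simp [slabU]
  omega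

/-- heights of `u` -/
theorem slab_heightU {w v : List St} {ρ R : ℤ} (hρ : 0 ≤ ρ) (hR : 0 ≤ R)
    (hw : ∀ i ≤ w.length, |pos w i 0| ≤ ρ)
    (htop : ∀ i ≤ v.length, pos v i 0 ≤ disp v 0)
    (hlow : ∀ i ≤ v.length, -R ≤ pos v i 0)
    (hd : 2 * ρ + R ≤ disp v 0) :
    (∀ i < (slabU w v).length, pos (slabU w v) i 0 < disp (slabU w v) 0) ∧
    (∀ i ≤ (slabU w v).length, - ρ - R ≤ pos (slabU w v) i 0) ∧
    ρ + R + 1 ≤ disp (slabU w v) 0 := by
  have hdw : |disp w 0| ≤ ρ := by
    have := hw w.length le_rfl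
    rwa [slab_pos_length] at this
  rw [abs_le] at hdw
  have hD := slab_dispU w v
  have key : ∀ i, i ≤ w.length + v.length →
      pos (slabU w v) i 0 ≤ disp w 0 + disp v 0 ∧ - ρ - R ≤ pos (slabU w v) i 0 := by
    intro i hi
    have h1 : pos (slabU w v) i = pos (w ++ v) i := by
      unfold slabU
      rw [slab_pos_append_left]
      simpa using hi
    rw [h1]
    rcases le_total i w.length with h | h
    · rw [slab_pos_append_left _ _ h]
      have := hw i h
      rw [abs_le] at this
      constructor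
      · linarith
      · linarith
    · obtain ⟨j, rfl⟩ := Nat.exists_eq_add_of_le h
      rw [slab_pos_append_right]
      have hj : j ≤ v.length := by omega
      have := htop j hj
      have := hlow j hj
      simp only [Pi.add_apply]
      constructor
      · linarith
      · linarith
  refine ⟨?_, ?_, ?_⟩
  · intro i hi
    rw [slab_lenU] at hi
    have := (key i (by omega)).1
    linarith
  · intro i hi
    rw [slab_lenU] at hi
    rcases Nat.lt_or_ge i (w.length + v.length + 1) with h | h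
    · exact (key i (by omega)).2
    · have h2 : i = (slabU w v).length := by rw [slab_lenU]; omega
      rw [h2, slab_pos_length]
      linarith
  · linarith

theorem slab_KU {w v : List St}
    (h : ∀ i < (slabU w v).length, pos (slabU w v) i 0 < disp (slabU w v) 0) :
    K (slabU w v) ≤ K (w ++ v) := by
  have h1 := K_append (w ++ v) [((0 : Fin 3), true)]
  have h2 : K [((0 : Fin 3), true)] = 0 := by
    apply K_saw
    intro i j hij hj
    have : i = 0 ∧ j = 1 := by
      simp at hj
      omega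
    obtain ⟨rfl, rfl⟩ := this
    intro h
    have := congrFun h 0
    simp [pos, slab_vec0] at this
  have h3 : H (rel (w ++ v)) [((0 : Fin 3), true)] = 0 := by
    unfold H
    simp only [List.length_singleton, Icc_self, sum_singleton]
    rw [List.count_eq_zero]
    intro hmem
    unfold rel at hmem
    rw [List.mem_map] at hmem
    obtain ⟨i, hi, he⟩ := hmem
    rw [List.mem_range] at hi
    have h4 := h i (by rw [slab_lenU]; simpa using hi)
    have h5 : pos (slabU w v) i = pos (w ++ v) i := by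
      unfold slabU
      rw [slab_pos_append_left]
      omega
    rw [h5] at h4
    have h6 := congrFun he 0
    simp only [Pi.sub_apply] at h6
    have h7 : pos [((0 : Fin 3), true)] 1 0 = 1 := by simp [pos, slab_vec0]
    rw [h7] at h6
    rw [slab_dispU] at h4
    have h8 : disp (w ++ v) 0 = disp w 0 + disp v 0 := by rw [slab_disp_append]; rfl
    linarith
  have : slabU w v = (w ++ v) ++ [((0 : Fin 3), true)] := rfl
  rw [this]
  omega

/-- the concatenation is bridge-like -/
theorem slab_brl {u v : List St} {ρ R : ℤ} (hρ : 0 ≤ ρ)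
    (h1 : ∀ i < u.length, pos u i 0 < disp u 0)
    (h2 : ∀ i ≤ u.length, - ρ - R ≤ pos u i 0)
    (h3 : ρ + R + 1 ≤ disp u 0)
    (htop : ∀ i ≤ v.length, pos v i 0 ≤ disp v 0)
    (hlow : ∀ i ≤ v.length, -R ≤ pos v i 0)
    (hd : 2 * ρ + R ≤ disp v 0) :
    BrL (u.reverse ++ v) := by
  intro i hi hi2
  rw [List.length_append, List.length_reverse] at hi2
  rw [slab_disp_append, slab_disp_reverse]
  simp only [Pi.add_apply]
  rcases le_total i u.length with h | h
  · rw [slab_pos_append_left _ _ (by simpa using h), slab_pos_reverse]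
    simp only [Pi.sub_apply]
    have a1 := h1 (u.length - i) (by omega)
    have a2 := h2 (u.length - i) (by omega)
    constructor
    · linarith
    · linarith
  · obtain ⟨j, rfl⟩ := Nat.exists_eq_add_of_le h
    have hj : j ≤ v.length := by omega
    have e : pos (u.reverse ++ v) (u.length + j) = disp u + pos v j := by
      have := slab_pos_append_right u.reverse v j
      rw [List.length_reverse, slab_disp_reverse] at this
      exact this
    rw [e]
    simp only [Pi.add_apply]
    have a1 := htop j hj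
    have a2 := hlow j hj
    constructor
    · linarith
    · linarith

theorem slab_exists {𝒢 : Fam} {ρ L J : ℕ} {Y : ℝ} (h : ExitF 𝒢 ρ L J Y) (A : List V)
    (h1 : A.length ≤ 2 * L + 2) (h2 : ∀ z, A.count z ≤ J + 2) :
    ∃ (l : ℕ) (g : Finset (List St)), l ≤ L ∧ (∀ v ∈ g, v.length = l) ∧
      (∀ v ∈ g, ∃ θ, v ∈ 𝒢.F θ) ∧
      (∀ v ∈ g, (K v : ℝ) + (H A v : ℝ) ≤ 4 * Y) ∧
      mu ^ l * Real.exp (-Y) / 2 ≤ (#g : ℝ) := by
  classical
  have hE : 𝒢.E (fun v => (K v : ℝ) + (H A v : ℝ)) ≤ 2 * Y := by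
    rw [E_add]
    have := h.Kexp
    have := h.hit A h1 h2
    linarith
  obtain ⟨θ, hθ⟩ := exists_half 𝒢 (f := fun v => (K v : ℝ) + (H A v : ℝ))
    (fun w => by positivity) hE
  refine ⟨𝒢.len θ, (𝒢.F θ).filter fun v => (K v : ℝ) + (H A v : ℝ) ≤ 2 * (2 * Y), h.len_le θ,
    ?_, ?_, ?_, ?_⟩
  · intro v hv
    exact 𝒢.hlen θ v (mem_filter.1 hv).1
  · intro v hv
    exact ⟨θ, (mem_filter.1 hv).1⟩
  · intro v hv
    have := (mem_filter.1 hv).2
    linarith
  · have := h.cost θ
    have h3 : (#(𝒢.F θ) : ℝ) ≤ 2 * (#((𝒢.F θ).filter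
        fun v => (K v : ℝ) + (H A v : ℝ) ≤ 2 * (2 * Y)) : ℝ) := by
      convert hθ
    linarith

theorem slab_le {𝒢 : Fam} {ρ L J : ℕ} {Y : ℝ} (h : ExitF 𝒢 ρ L J Y) {n : ℕ} (hn : n ≤ L) :
    (slab n ρ : ℝ) ≤ 4 * Real.exp (2 * Y) * ((L : ℝ) + 1) ^ 2 * mu ^ (n + 1) *
      (37 * (3 * (L : ℝ) + 2) ^ 4) ^ ⌊8 * Y⌋₊ := by
  classical
  have hmu : (1 : ℝ) ≤ mu := one_le_mu
  have hmu0 : (0 : ℝ) < mu := by linarith
  obtain ⟨R, hR, hlow, hspan⟩ := h.low
  -- the walks of the slab
  set S : Finset (List St) := (W n).filter fun w => Saw w ∧ ∀ i ≤ n, |pos w i 0| ≤ (ρ : ℤ) with hS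
  have hcard : slab n ρ = #S := by
    unfold slab
    rw [hS]
  -- first exit path
  have hex1 : ∀ w : List St, ∃ (l : ℕ) (g : Finset (List St)), w ∈ S → (l ≤ L ∧
      (∀ v ∈ g, v.length = l) ∧ (∀ v ∈ g, ∃ θ, v ∈ 𝒢.F θ) ∧
      (∀ v ∈ g, (K v : ℝ) + (H (rel w) v : ℝ) ≤ 4 * Y) ∧
      mu ^ l * Real.exp (-Y) / 2 ≤ (#g : ℝ)) := by
    intro w
    by_cases hw : w ∈ S
    · have hw' := mem_filter.1 hw
      have hlen : w.length = n := slab_mem_W.1 hw'.1
      obtain ⟨l, g, hh⟩ := slab_exists h (rel w) (by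
        unfold rel
        rw [List.length_map, List.length_range]
        omega) (fun z => le_trans (count_rel_saw hw'.2.1 z) (by omega))
      exact ⟨l, g, fun _ => hh⟩
    · exact ⟨0, ∅, fun hh => absurd hh hw⟩
  choose l1 g1 hg1 using hex1
  -- second exit path
  have hex2 : ∀ w v : List St, ∃ (l : ℕ) (g : Finset (List St)), w ∈ S → v ∈ g1 w → (l ≤ L ∧
      (∀ v' ∈ g, v'.length = l) ∧ (∀ v' ∈ g, ∃ θ, v' ∈ 𝒢.F θ) ∧
      (∀ v' ∈ g, (K v' : ℝ) + (H (rel (slabU w v).reverse) v' : ℝ) ≤ 4 * Y) ∧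
      mu ^ l * Real.exp (-Y) / 2 ≤ (#g : ℝ)) := by
    intro w v
    by_cases hwv : w ∈ S ∧ v ∈ g1 w
    · obtain ⟨hw, hv⟩ := hwv
      have hw' := mem_filter.1 hw
      have hlen : w.length = n := slab_mem_W.1 hw'.1
      obtain ⟨q1, q2, q3, q4, q5⟩ := hg1 w hw
      obtain ⟨θ, hθ⟩ := q3 v hv
      obtain ⟨l, g, hh⟩ := slab_exists h (rel (slabU w v).reverse) (by
        unfold rel
        rw [List.length_map, List.length_range, List.length_reverse, slab_lenU, hlen, q2 v hv]
        omega) (fun z => by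
          rw [count_rel_reverse]
          have e1 := count_rel_append (w ++ v) [((0 : Fin 3), true)] (-z - disp (slabU w v))
          have e2 := count_rel_append w v
            (-z - disp (slabU w v) + disp [((0 : Fin 3), true)])
          have e3 := count_rel_saw hw'.2.1
            (-z - disp (slabU w v) + disp [((0 : Fin 3), true)] + disp v)
          have e4 := h.vis θ v hθ (-z - disp (slabU w v) + disp [((0 : Fin 3), true)])
          have e5 : (rel [((0 : Fin 3), true)]).count (-z - disp (slabU w v)) ≤ 1 := by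
            apply count_rel_saw
            intro i j hij hj
            have : i = 0 ∧ j = 1 := by
              simp at hj
              omega
            obtain ⟨rfl, rfl⟩ := this
            intro h
            have := congrFun h 0
            simp [pos, slab_vec0] at this
          have e6 : slabU w v = (w ++ v) ++ [((0 : Fin 3), true)] := rfl
          rw [← e6] at e1
          omega)
      exact ⟨l, g, fun _ _ => hh⟩
    · exact ⟨0, ∅, fun hh1 hh2 => absurd ⟨hh1, hh2⟩ hwv⟩
  choose l2 g2 hg2 using hex2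
  -- the triples
  set e : ℝ := Real.exp (-Y) / 2 with he
  have he0 : 0 < e := by rw [he]; positivity
  set S3 : Finset (Σ _ : (Σ _ : List St, List St), List St) :=
    (S.sigma g1).sigma (fun x => g2 x.1 x.2) with hS3
  set F : (Σ _ : (Σ _ : List St, List St), List St) → ℝ :=
    fun x => (mu ^ x.1.2.length)⁻¹ * (mu ^ x.2.length)⁻¹ with hF
  have hlower : (#S : ℝ) * e ^ 2 ≤ ∑ x ∈ S3, F x := by
    have s1 : ∑ x ∈ S3, F x = ∑ w ∈ S, ∑ v ∈ g1 w, ∑ v' ∈ g2 w v,
        (mu ^ v.length)⁻¹ * (mu ^ v'.length)⁻¹ := by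
      rw [hS3, Finset.sum_sigma, Finset.sum_sigma]
    rw [s1]
    have s2 : ∀ w ∈ S, e ^ 2 ≤ ∑ v ∈ g1 w, ∑ v' ∈ g2 w v,
        (mu ^ v.length)⁻¹ * (mu ^ v'.length)⁻¹ := by
      intro w hw
      obtain ⟨q1, q2, q3, q4, q5⟩ := hg1 w hw
      have s3 : ∀ v ∈ g1 w, (mu ^ l1 w)⁻¹ * e ≤ ∑ v' ∈ g2 w v,
          (mu ^ v.length)⁻¹ * (mu ^ v'.length)⁻¹ := by
        intro v hv
        obtain ⟨p1, p2, p3, p4, p5⟩ := hg2 w v hw hv
        have s4 : ∑ v' ∈ g2 w v, (mu ^ v.length)⁻¹ * (mu ^ v'.length)⁻¹
            = #(g2 w v) * ((mu ^ l1 w)⁻¹ * (mu ^ l2 w v)⁻¹) := by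
          rw [← nsmul_eq_mul, ← Finset.sum_const]
          apply Finset.sum_congr rfl
          intro v' hv'
          rw [q2 v hv, p2 v' hv']
        rw [s4]
        have pos1 : 0 < mu ^ l1 w := pow_pos hmu0 _
        have pos2 : 0 < mu ^ l2 w v := pow_pos hmu0 _
        have s5 : e ≤ #(g2 w v) * (mu ^ l2 w v)⁻¹ := by
          rw [← div_eq_mul_inv, le_div_iff₀ pos2]
          calc e * mu ^ l2 w v = mu ^ l2 w v * Real.exp (-Y) / 2 := by rw [he]; ring
            _ ≤ _ := p5
        calc (mu ^ l1 w)⁻¹ * e ≤ (mu ^ l1 w)⁻¹ * (#(g2 w v) * (mu ^ l2 w v)⁻¹) := by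
              apply mul_le_mul_of_nonneg_left s5
              positivity
          _ = _ := by ring
      calc e ^ 2 ≤ #(g1 w) * ((mu ^ l1 w)⁻¹ * e) := by
            have pos1 : 0 < mu ^ l1 w := pow_pos hmu0 _
            have s5 : e ≤ #(g1 w) * (mu ^ l1 w)⁻¹ := by
              rw [← div_eq_mul_inv, le_div_iff₀ pos1]
              calc e * mu ^ l1 w = mu ^ l1 w * Real.exp (-Y) / 2 := by rw [he]; ring
                _ ≤ _ := q5
            calc e ^ 2 = e * e := by ring
              _ ≤ (#(g1 w) * (mu ^ l1 w)⁻¹) * e := mul_le_mul_of_nonneg_right s5 he0.le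
              _ = _ := by ring
        _ ≤ _ := by
            rw [← nsmul_eq_mul]
            exact Finset.card_nsmul_le_sum _ _ _ s3
    calc (#S : ℝ) * e ^ 2 = #S • e ^ 2 := by rw [nsmul_eq_mul]
      _ ≤ _ := Finset.card_nsmul_le_sum _ _ _ s2
  -- upper bound
  set k := ⌊8 * Y⌋₊ with hk
  have hmaps : ∀ x ∈ S3, (x.1.2.length, x.2.length) ∈ range (L + 1) ×ˢ range (L + 1) := by
    intro x hx
    rw [hS3, Finset.mem_sigma, Finset.mem_sigma] at hx
    obtain ⟨⟨hw, hv⟩, hv'⟩ := hx
    obtain ⟨q1, q2, q3, q4, q5⟩ := hg1 _ hw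
    obtain ⟨p1, p2, p3, p4, p5⟩ := hg2 _ _ hw hv
    rw [mem_product, mem_range, mem_range]
    dsimp only
    rw [q2 _ hv, p2 _ hv']
    omega
  have hupper : ∑ x ∈ S3, F x ≤ ((L : ℝ) + 1) ^ 2 * mu ^ (n + 1) *
      (37 * (3 * (L : ℝ) + 2) ^ 4) ^ k := by
    rw [← Finset.sum_fiberwise_of_maps_to hmaps]
    have hfib : ∀ q ∈ range (L + 1) ×ˢ range (L + 1),
        ∑ x ∈ S3 with (x.1.2.length, x.2.length) = q, F x ≤
          mu ^ (n + 1) * (37 * (3 * (L : ℝ) + 2) ^ 4) ^ k := by
      rintro ⟨l, l'⟩ hq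
      rw [mem_product, mem_range, mem_range] at hq
      dsimp only at hq
      have t1 : ∑ x ∈ S3 with (x.1.2.length, x.2.length) = (l, l'), F x
          = #(S3.filter fun x => (x.1.2.length, x.2.length) = (l, l')) *
            ((mu ^ l)⁻¹ * (mu ^ l')⁻¹) := by
        rw [← nsmul_eq_mul, ← Finset.sum_const]
        apply Finset.sum_congr rfl
        intro x hx
        have := (mem_filter.1 hx).2
        rw [Prod.mk.injEq] at this
        rw [hF]
        dsimp only
        rw [this.1, this.2]
      rw [t1]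
      have t2 : #(S3.filter fun x => (x.1.2.length, x.2.length) = (l, l')) ≤
          G (n + 1 + l + l') k := by
        unfold G
        apply Finset.card_le_card_of_injOn
          (fun x => (slabU x.1.1 x.1.2).reverse ++ x.2)
        · intro x hx
          have hx1 := (mem_filter.1 (Finset.mem_coe.1 hx)).1
          have hx2 := (mem_filter.1 (Finset.mem_coe.1 hx)).2
          rw [Prod.mk.injEq] at hx2
          rw [hS3, Finset.mem_sigma, Finset.mem_sigma] at hx1
          obtain ⟨⟨hw, hv⟩, hv'⟩ := hx1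
          have hw' := mem_filter.1 hw
          have hlen : x.1.1.length = n := slab_mem_W.1 hw'.1
          obtain ⟨q1, q2, q3, q4, q5⟩ := hg1 _ hw
          obtain ⟨p1, p2, p3, p4, p5⟩ := hg2 _ _ hw hv
          obtain ⟨θ, hθ⟩ := q3 _ hv
          obtain ⟨θ', hθ'⟩ := p3 _ hv'
          have hwb : ∀ i ≤ x.1.1.length, |pos x.1.1 i 0| ≤ (ρ : ℤ) := by
            rw [hlen]
            exact hw'.2.2
          obtain ⟨u1, u2, u3⟩ := slab_heightU (Int.natCast_nonneg ρ) hR hwb (h.top θ _ hθ)
            (hlow θ _ hθ) (hspan θ _ hθ)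
          rw [Finset.mem_coe, mem_filter]
          refine ⟨?_, ?_, ?_⟩
          · rw [slab_mem_W, List.length_append, List.length_reverse, slab_lenU, hlen, hx2.1,
              hx2.2]
            omega
          · exact slab_brl (Int.natCast_nonneg ρ) u1 u2 u3 (h.top θ' _ hθ')
              (hlow θ' _ hθ') (hspan θ' _ hθ')
          · rw [hk]
            apply Nat.le_floor
            have k1 := K_append (slabU x.1.1 x.1.2).reverse x.2
            have k2 := K_reverse (slabU x.1.1 x.1.2)
            have k3 := slab_KU u1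
            have k4 := K_append x.1.1 x.1.2
            have k5 := K_saw hw'.2.1
            have k6 := q4 _ hv
            have k7 := p4 _ hv'
            have k8 : K ((slabU x.1.1 x.1.2).reverse ++ x.2) ≤
              (K x.1.2 + H (rel x.1.1) x.1.2) + (K x.2 + H (rel (slabU x.1.1 x.1.2).reverse) x.2) := by
              omega
            have k9 : (K ((slabU x.1.1 x.1.2).reverse ++ x.2) : ℝ) ≤
              ((K x.1.2 : ℝ) + (H (rel x.1.1) x.1.2 : ℝ)) + ((K x.2 : ℝ) +
                (H (rel (slabU x.1.1 x.1.2).reverse) x.2 : ℝ)) := by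
              exact_mod_cast k8
            linarith
        · intro x hx y hy hxy
          have hx1 := (mem_filter.1 (Finset.mem_coe.1 hx)).1
          have hx2 := (mem_filter.1 (Finset.mem_coe.1 hx)).2
          have hy1 := (mem_filter.1 (Finset.mem_coe.1 hy)).1
          have hy2 := (mem_filter.1 (Finset.mem_coe.1 hy)).2
          rw [Prod.mk.injEq] at hx2 hy2
          rw [hS3, Finset.mem_sigma, Finset.mem_sigma] at hx1 hy1
          have hxlen : x.1.1.length = n := slab_mem_W.1 (mem_filter.1 hx1.1.1).1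
          have hylen : y.1.1.length = n := slab_mem_W.1 (mem_filter.1 hy1.1.1).1
          dsimp only at hxy
          have a1 := List.append_inj hxy (by
            rw [List.length_reverse, List.length_reverse, slab_lenU, slab_lenU]
            omega)
          have a2 : slabU x.1.1 x.1.2 = slabU y.1.1 y.1.2 := List.reverse_injective a1.1
          unfold slabU at a2
          have a3 := List.append_inj a2 (by simp; omega)
          have a4 := List.append_inj a3.1 (by omega)
          obtain ⟨⟨x1, x2⟩, x3⟩ := x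
          obtain ⟨⟨y1, y2⟩, y3⟩ := y
          dsimp only at a1 a4
          obtain ⟨rfl, rfl⟩ := a4
          obtain ⟨_, rfl⟩ := a1
          rfl
      have t3 := G_le (n + 1 + l + l') k
      have posl : 0 < mu ^ l := pow_pos hmu0 _
      have posl' : 0 < mu ^ l' := pow_pos hmu0 _
      have t4 : (37 * (((n + 1 + l + l' : ℕ) : ℝ) + 1) ^ 4) ^ k ≤
          (37 * (3 * (L : ℝ) + 2) ^ 4) ^ k := by
        have : ((n + 1 + l + l' : ℕ) : ℝ) + 1 ≤ 3 * (L : ℝ) + 2 := by
          have : n + 1 + l + l' + 1 ≤ 3 * L + 2 := by omega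
          exact_mod_cast this
        gcongr
      calc (#(S3.filter fun x => (x.1.2.length, x.2.length) = (l, l')) : ℝ) *
            ((mu ^ l)⁻¹ * (mu ^ l')⁻¹)
          ≤ (mu ^ (n + 1 + l + l') * (37 * (((n + 1 + l + l' : ℕ) : ℝ) + 1) ^ 4) ^ k) *
            ((mu ^ l)⁻¹ * (mu ^ l')⁻¹) := by
            apply mul_le_mul_of_nonneg_right _ (by positivity)
            refine le_trans ?_ t3
            exact_mod_cast t2
        _ = mu ^ (n + 1) * (37 * (((n + 1 + l + l' : ℕ) : ℝ) + 1) ^ 4) ^ k := by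
            rw [pow_add mu (n + 1 + l) l', pow_add mu (n + 1) l]
            field_simp
        _ ≤ _ := by
            apply mul_le_mul_of_nonneg_left t4
            positivity
    calc ∑ q ∈ range (L + 1) ×ˢ range (L + 1),
          ∑ x ∈ S3 with (x.1.2.length, x.2.length) = q, F x
        ≤ #(range (L + 1) ×ˢ range (L + 1)) • (mu ^ (n + 1) *
          (37 * (3 * (L : ℝ) + 2) ^ 4) ^ k) := Finset.sum_le_card_nsmul _ _ _ hfib
      _ = _ := by
          rw [card_product, card_range, nsmul_eq_mul]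
          push_cast
          ring
  -- conclusion
  rw [hcard]
  have hfin : (#S : ℝ) * e ^ 2 ≤ ((L : ℝ) + 1) ^ 2 * mu ^ (n + 1) *
      (37 * (3 * (L : ℝ) + 2) ^ 4) ^ k := le_trans hlower hupper
  have he2 : 4 * Real.exp (2 * Y) * e ^ 2 = 1 := by
    rw [he, div_pow, ← Real.exp_nat_mul]
    have : Real.exp (2 * Y) * Real.exp (((2 : ℕ) : ℝ) * -Y) = 1 := by
      rw [← Real.exp_add]
      simp
    calc 4 * Real.exp (2 * Y) * (Real.exp (((2 : ℕ) : ℝ) * -Y) / 2 ^ 2)
        = Real.exp (2 * Y) * Real.exp (((2 : ℕ) : ℝ) * -Y) := by ring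
      _ = 1 := this
  calc (#S : ℝ) = 4 * Real.exp (2 * Y) * ((#S : ℝ) * e ^ 2) := by
        calc (#S : ℝ) = (#S : ℝ) * (4 * Real.exp (2 * Y) * e ^ 2) := by rw [he2, mul_one]
          _ = _ := by ring
    _ ≤ 4 * Real.exp (2 * Y) * (((L : ℝ) + 1) ^ 2 * mu ^ (n + 1) *
      (37 * (3 * (L : ℝ) + 2) ^ 4) ^ k) := by
        apply mul_le_mul_of_nonneg_left hfin
        positivity
    _ = _ := by ring

end Pool.Agent.H46R2.K3.P
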