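import Pool.Agent.H46R2.K3.EXIT
import Pool.Agent.H46R2.K3.SLAB
import Pool.Agent.H46R2.K3.REC
import Pool.Agent.H46R2.K3.CUT
import Pool.Agent.H46R2.K3.MU

/-!
MAIN: the bound `c n ≤ mu ^ n * exp (C Q ^ (9 J + 2) (log Q) ^ 2)` for `n ≤ Q ^ (24 J)`.
-/

namespace Pool.Agent.H46R2.K3.P

open Finset

theorem main_mem_W {n : ℕ} {w : List St} : w ∈ W n ↔ w.length = n := by
  unfold W
  simp only [Finset.mem_image, Finset.mem_univ, true_and]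
  constructor
  · rintro ⟨v, rfl⟩
    exact v.2
  · intro h
    exact ⟨⟨w, h⟩, rfl⟩

theorem main_vec_le (s : St) : vec s 0 ≤ 1 := by
  unfold vec
  split_ifs <;> norm_num

theorem main_disp_le (w : List St) : disp w 0 ≤ (w.length : ℤ) := by
  induction w with
  | nil => simp [disp]
  | cons a w ih =>
    have h1 := main_vec_le a
    have h2 : disp (a :: w) 0 = vec a 0 + disp w 0 := by
      simp [disp]
    rw [h2]
    push_cast [List.length_cons]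
    linarith

theorem main_bge_zero {k r : ℕ} (h : k < r) : bge k r = 0 := by
  classical
  unfold bge
  rw [Finset.card_eq_zero, Finset.filter_eq_empty_iff]
  rintro w hw ⟨_, h2⟩
  have h3 := main_disp_le w
  rw [main_mem_W.1 hw] at h3
  have h4 : (r : ℤ) ≤ (k : ℤ) := le_trans h2 h3
  have h5 : r ≤ k := by exact_mod_cast h4
  omega

theorem main_bge_anti {k r r' : ℕ} (h : r ≤ r') : bge k r' ≤ bge k r := by
  classical
  unfold bge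
  apply Finset.card_le_card
  intro w hw
  rw [Finset.mem_filter] at hw ⊢
  refine ⟨hw.1, hw.2.1, le_trans ?_ hw.2.2⟩
  exact_mod_cast h

theorem main_hle_slab (n r : ℕ) : hle n r ≤ slab n r := by
  classical
  unfold hle slab
  apply Finset.card_le_card
  intro w hw
  rw [Finset.mem_filter] at hw ⊢
  obtain ⟨h1, h2, h3⟩ := hw
  refine ⟨h1, h2.1, ?_⟩
  intro i hi
  rw [abs_le]
  refine ⟨?_, h3 i hi⟩
  rcases Nat.eq_zero_or_pos i with h0 | h0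
  · subst h0
    simp [pos]
  · have h4 := h2.2 i h0 (by rw [main_mem_W.1 h1]; exact hi)
    have h5 : (0 : ℤ) ≤ r := by positivity
    linarith

/-- constants are absorbed by powers of `Q` -/
theorem main_pow {Q : ℕ} (hQ : 2 ≤ Q) (K : ℕ) : (K : ℝ) ≤ (Q : ℝ) ^ K := by
  have h1 : K ≤ 2 ^ K := Nat.lt_two_pow_self.le
  have h2 : K ≤ Q ^ K := le_trans h1 (Nat.pow_le_pow_left hQ K)
  exact_mod_cast h2

theorem main_half_le_log {Q : ℕ} (hQ : 2 ≤ Q) : (1 / 2 : ℝ) ≤ Real.log Q := by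
  have h1 : Real.log 2 ≤ Real.log Q := Real.log_le_log (by norm_num) (by exact_mod_cast hQ)
  have h2 := Real.log_two_gt_d9
  linarith

/-- the choice of the width of the slab -/
theorem main_rho {J Q : ℕ} : ∃ ρ : ℕ,
    (ρ = Q ^ (10 * J + 1) ∨ (Q ^ (10 * J + 1) ≤ ρ ∧ ∃ k < Q ^ (15 * J - 1),
      mu ^ k / (8 * ((Q : ℝ) ^ (24 * J) + 3)) < (bge k ρ : ℝ))) ∧
    ∀ k < Q ^ (15 * J - 1), (bge k (ρ + 1) : ℝ) ≤ mu ^ k / (8 * ((Q : ℝ) ^ (24 * J) + 3)) := by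
  classical
  have hmu : 0 ≤ mu := le_trans zero_le_one one_le_mu
  have hex : ∃ ρ : ℕ, ∀ k < Q ^ (15 * J - 1),
      (bge k (ρ + 1) : ℝ) ≤ mu ^ k / (8 * ((Q : ℝ) ^ (24 * J) + 3)) := by
    refine ⟨Q ^ (15 * J - 1), fun k hk => ?_⟩
    rw [main_bge_zero (by omega)]
    push_cast
    positivity
  set ρ₀ := Nat.find hex with hρ₀
  have hP := Nat.find_spec hex
  rw [← hρ₀] at hP
  by_cases h : ρ₀ ≤ Q ^ (10 * J + 1)
  · refine ⟨Q ^ (10 * J + 1), Or.inl rfl, fun k hk => le_trans ?_ (hP k hk)⟩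
    exact_mod_cast main_bge_anti (Nat.succ_le_succ h)
  · push Not at h
    refine ⟨ρ₀, Or.inr ⟨h.le, ?_⟩, hP⟩
    have h1 : ρ₀ - 1 < ρ₀ := by omega
    have h2 := Nat.find_min hex (m := ρ₀ - 1) (by rw [← hρ₀]; exact h1)
    push Not at h2
    obtain ⟨k, hk, h3⟩ := h2
    refine ⟨k, hk, ?_⟩
    have h4 : ρ₀ - 1 + 1 = ρ₀ := by omega
    rw [h4] at h3
    exact h3

/-- `P ^ m` as an exponential -/
theorem main_exp {Q : ℕ} (hQ : 2 ≤ Q) (m : ℕ) : (Q : ℝ) ^ m = Real.exp (m * Real.log Q) := by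
  have h : (0 : ℝ) < Q := by
    have : (2 : ℝ) ≤ Q := by exact_mod_cast hQ
    linarith
  rw [mul_comm, Real.exp_mul, Real.exp_log h, Real.rpow_natCast]

theorem main_sigma {J C₁ Q : ℕ} {Y : ℝ} (hC₁ : 2 ≤ C₁) (hQ : 2 ≤ Q) (hY : 0 ≤ Y) :
    4 * Real.exp (2 * Y) * (((C₁ * Q ^ (24 * J) : ℕ) : ℝ) + 1) ^ 2 * mu *
      (37 * (3 * ((C₁ * Q ^ (24 * J) : ℕ) : ℝ) + 2) ^ 4) ^ ⌊8 * Y⌋₊ ≤
    Real.exp (2 * Y + (24 * (2 * C₁) ^ 2 + 48 * J : ℕ) * Real.log Q +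
      8 * Y * ((37 * (5 * C₁) ^ 4 + 96 * J : ℕ) * Real.log Q)) := by
  have hP : (2 : ℝ) ≤ Q := by exact_mod_cast hQ
  have hmu : 0 ≤ mu := le_trans zero_le_one one_le_mu
  have hx : 0 ≤ Real.log Q := by have := main_half_le_log hQ; linarith
  have hL : (1 : ℝ) ≤ ((C₁ * Q ^ (24 * J) : ℕ) : ℝ) := by
    have : 1 ≤ C₁ * Q ^ (24 * J) := Nat.one_le_iff_ne_zero.2 (by positivity)
    exact_mod_cast this
  have hLe : ((C₁ * Q ^ (24 * J) : ℕ) : ℝ) = C₁ * (Q : ℝ) ^ (24 * J) := by push_cast; ring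
  have e1 : 4 * (((C₁ * Q ^ (24 * J) : ℕ) : ℝ) + 1) ^ 2 * mu ≤
      Real.exp ((24 * (2 * C₁) ^ 2 + 48 * J : ℕ) * Real.log Q) := by
    rw [← main_exp hQ, pow_add]
    have h1 : (((C₁ * Q ^ (24 * J) : ℕ) : ℝ) + 1) ^ 2 ≤ (2 * (C₁ * (Q : ℝ) ^ (24 * J))) ^ 2 := by
      apply pow_le_pow_left₀ (by positivity)
      rw [← hLe]; linarith
    have h2 : (4 : ℝ) * (((C₁ * Q ^ (24 * J) : ℕ) : ℝ) + 1) ^ 2 * mu ≤
        4 * (2 * (C₁ * (Q : ℝ) ^ (24 * J))) ^ 2 * 6 := by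
      apply mul_le_mul _ mu_le_six hmu (by positivity)
      linarith
    refine le_trans h2 ?_
    have h3 : (4 : ℝ) * (2 * (C₁ * (Q : ℝ) ^ (24 * J))) ^ 2 * 6 =
        ((24 * (2 * C₁) ^ 2 : ℕ) : ℝ) * (Q : ℝ) ^ (48 * J) := by
      push_cast
      have : (Q : ℝ) ^ (48 * J) = ((Q : ℝ) ^ (24 * J)) ^ 2 := by rw [← pow_mul]; congr 1; ring
      rw [this]; ring
    rw [h3]
    exact mul_le_mul_of_nonneg_right (main_pow hQ _) (by positivity)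
  have e2 : (37 * (3 * ((C₁ * Q ^ (24 * J) : ℕ) : ℝ) + 2) ^ 4) ≤
      Real.exp ((37 * (5 * C₁) ^ 4 + 96 * J : ℕ) * Real.log Q) := by
    rw [← main_exp hQ, pow_add]
    have h1 : (3 * ((C₁ * Q ^ (24 * J) : ℕ) : ℝ) + 2) ^ 4 ≤ (5 * (C₁ * (Q : ℝ) ^ (24 * J))) ^ 4 := by
      apply pow_le_pow_left₀ (by positivity)
      rw [← hLe]; linarith
    refine le_trans (mul_le_mul_of_nonneg_left h1 (by norm_num)) ?_
    have h3 : (37 : ℝ) * (5 * (C₁ * (Q : ℝ) ^ (24 * J))) ^ 4 =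
        ((37 * (5 * C₁) ^ 4 : ℕ) : ℝ) * (Q : ℝ) ^ (96 * J) := by
      push_cast
      have : (Q : ℝ) ^ (96 * J) = ((Q : ℝ) ^ (24 * J)) ^ 4 := by rw [← pow_mul]; congr 1; ring
      rw [this]; ring
    rw [h3]
    exact mul_le_mul_of_nonneg_right (main_pow hQ _) (by positivity)
  have e3 : (37 * (3 * ((C₁ * Q ^ (24 * J) : ℕ) : ℝ) + 2) ^ 4) ^ ⌊8 * Y⌋₊ ≤
      Real.exp (8 * Y * ((37 * (5 * C₁) ^ 4 + 96 * J : ℕ) * Real.log Q)) := by
    refine le_trans (pow_le_pow_left₀ (by positivity) e2 _) ?_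
    rw [← Real.exp_nat_mul]
    apply Real.exp_le_exp.2
    apply mul_le_mul_of_nonneg_right (Nat.floor_le (by positivity)) (by positivity)
  calc _ = Real.exp (2 * Y) * (4 * (((C₁ * Q ^ (24 * J) : ℕ) : ℝ) + 1) ^ 2 * mu) *
        (37 * (3 * ((C₁ * Q ^ (24 * J) : ℕ) : ℝ) + 2) ^ 4) ^ ⌊8 * Y⌋₊ := by ring
    _ ≤ Real.exp (2 * Y) * Real.exp ((24 * (2 * C₁) ^ 2 + 48 * J : ℕ) * Real.log Q) *
        Real.exp (8 * Y * ((37 * (5 * C₁) ^ 4 + 96 * J : ℕ) * Real.log Q)) := by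
        gcongr
    _ = _ := by rw [← Real.exp_add, ← Real.exp_add]

theorem c_bound (J : ℕ) (hJ : 1 ≤ J) : ∃ C : ℝ, 0 < C ∧ ∀ Q : ℕ, 2 ≤ Q → ∀ n ≤ Q ^ (24 * J),
    (c n : ℝ) ≤ mu ^ n * Real.exp (C * (Q : ℝ) ^ (9 * J + 2) * (Real.log Q) ^ 2) := by
  obtain ⟨C₁, C₂, hC₁, hex⟩ := exit_exists J hJ
  -- exponents
  obtain ⟨a, ha⟩ : ∃ a : ℕ, a = 37 * (5 * C₁) ^ 4 + 96 * J := ⟨_, rfl⟩
  obtain ⟨a₁, ha₁⟩ : ∃ a : ℕ, a = 24 * (2 * C₁) ^ 2 + 48 * J := ⟨_, rfl⟩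
  obtain ⟨a₂, ha₂⟩ : ∃ a : ℕ, a = 16 + 24 * J := ⟨_, rfl⟩
  obtain ⟨a₃, ha₃⟩ : ∃ a : ℕ, a = 48 + 24 * J := ⟨_, rfl⟩
  refine ⟨2 * a₃ + 8 * C₂ + 4 * a₁ + 16 * a * C₂ + 8 * a₂, ?_, ?_⟩
  · have : (0 : ℝ) < a₃ := by rw [ha₃]; positivity
    positivity
  intro Q hQ n hn
  have hP : (2 : ℝ) ≤ Q := by exact_mod_cast hQ
  have hmu1 : 1 ≤ mu := one_le_mu
  have hmu : 0 ≤ mu := le_trans zero_le_one hmu1
  have hxh := main_half_le_log hQ
  have hx : 0 ≤ Real.log Q := by linarith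
  obtain ⟨ρ, hρ1, hρ2⟩ := main_rho (J := J) (Q := Q)
  obtain ⟨𝒢, hG⟩ := hex Q hQ ρ hρ1
  obtain ⟨Y, hYe⟩ : ∃ Y : ℝ, Y = C₂ * (Q : ℝ) ^ (9 * J + 2) * Real.log Q := ⟨_, rfl⟩
  rw [← hYe] at hG
  have hY : 0 ≤ Y := by rw [hYe]; positivity
  obtain ⟨σ, hσe⟩ : ∃ σ : ℝ, σ = 4 * Real.exp (2 * Y) *
      (((C₁ * Q ^ (24 * J) : ℕ) : ℝ) + 1) ^ 2 * mu *
      (37 * (3 * ((C₁ * Q ^ (24 * J) : ℕ) : ℝ) + 2) ^ 4) ^ ⌊8 * Y⌋₊ := ⟨_, rfl⟩
  have hσ2 := main_sigma (J := J) hC₁ hQ hY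
  rw [← hσe, ← ha, ← ha₁] at hσ2
  have hσ1 : 1 ≤ σ := by
    rw [hσe]
    have h1 : (1 : ℝ) ≤ 4 * Real.exp (2 * Y) := by
      have := Real.one_le_exp (by positivity : 0 ≤ 2 * Y)
      linarith
    have hL0 : (0 : ℝ) ≤ ((C₁ * Q ^ (24 * J) : ℕ) : ℝ) := by positivity
    have h2 : (1 : ℝ) ≤ (((C₁ * Q ^ (24 * J) : ℕ) : ℝ) + 1) ^ 2 := one_le_pow₀ (by linarith)
    have h3 : (1 : ℝ) ≤ (37 * (3 * ((C₁ * Q ^ (24 * J) : ℕ) : ℝ) + 2) ^ 4) ^ ⌊8 * Y⌋₊ := by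
      apply one_le_pow₀
      have : (1 : ℝ) ≤ (3 * ((C₁ * Q ^ (24 * J) : ℕ) : ℝ) + 2) ^ 4 := one_le_pow₀ (by linarith)
      linarith
    exact one_le_mul_of_one_le_of_one_le (one_le_mul_of_one_le_of_one_le
      (one_le_mul_of_one_le_of_one_le h1 h2) hmu1) h3
  -- the half-space walks
  have hQ24 : 1 ≤ Q ^ (24 * J) := Nat.one_le_iff_ne_zero.2 (by positivity)
  have hNL : Q ^ (24 * J) + 1 ≤ C₁ * Q ^ (24 * J) := by nlinarith
  have hNe : (((Q ^ (24 * J) + 1 : ℕ) : ℝ) + 2) = (Q : ℝ) ^ (24 * J) + 3 := by push_cast; ring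
  have hhs := hs_bound (N := Q ^ (24 * J) + 1) (Lb := Q ^ (15 * J - 1)) (ρ := ρ) (σ := σ) hσ1
    (Nat.one_le_iff_ne_zero.2 (by positivity))
    (fun m hm => by
      have h1 : (hle m ρ : ℝ) ≤ (slab m ρ : ℝ) := by exact_mod_cast main_hle_slab m ρ
      refine le_trans h1 (le_trans (slab_le hG (le_trans hm hNL)) (le_of_eq ?_))
      rw [hσe]; ring)
    (fun k hk => by rw [hNe]; exact hρ2 k hk)
  obtain ⟨B, hB⟩ : ∃ B : ℝ, B = 2 * σ * (4 * (((Q ^ (24 * J) + 1 : ℕ) : ℝ) + 2)) ^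
      ((Q ^ (24 * J) + 1) / Q ^ (15 * J - 1)) := ⟨_, rfl⟩
  have hbase : (1 : ℝ) ≤ 4 * (((Q ^ (24 * J) + 1 : ℕ) : ℝ) + 2) := by
    rw [hNe]
    have : (0 : ℝ) ≤ (Q : ℝ) ^ (24 * J) := by positivity
    linarith
  have hB0 : 0 ≤ B := by rw [hB]; positivity
  have hhs' : ∀ m ≤ Q ^ (24 * J) + 1, (hs m : ℝ) ≤ B * mu ^ m := by
    intro m hm
    refine le_trans (hhs m hm) ?_
    rw [hB]
    apply mul_le_mul_of_nonneg_right _ (by positivity)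
    apply mul_le_mul_of_nonneg_left _ (by positivity)
    exact pow_le_pow_right₀ hbase (Nat.div_le_div_right hm)
  -- the walks
  have hc : (c n : ℝ) ≤ ((n : ℝ) + 1) * B ^ 2 * mu ^ (n + 1) := by
    have h1 : (c n : ℝ) ≤ ∑ k ∈ range (n + 1), (hs (k + 1) : ℝ) * (hs (n - k) : ℝ) := by
      exact_mod_cast c_split n
    refine le_trans h1 ?_
    have h2 : ∀ k ∈ range (n + 1), (hs (k + 1) : ℝ) * (hs (n - k) : ℝ) ≤ B ^ 2 * mu ^ (n + 1) := by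
      intro k hk
      rw [Finset.mem_range] at hk
      calc (hs (k + 1) : ℝ) * (hs (n - k) : ℝ) ≤ (B * mu ^ (k + 1)) * (B * mu ^ (n - k)) := by
            apply mul_le_mul (hhs' _ (by omega)) (hhs' _ (by omega)) (by positivity)
              (by positivity)
        _ = B ^ 2 * mu ^ (k + 1 + (n - k)) := by rw [pow_add]; ring
        _ = B ^ 2 * mu ^ (n + 1) := by congr 2; omega
    refine le_trans (Finset.sum_le_sum h2) ?_
    rw [Finset.sum_const, Finset.card_range, nsmul_eq_mul]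
    push_cast
    exact le_of_eq (by ring)
  -- the numerics
  obtain ⟨E, hE⟩ : ∃ E : ℝ, E = (Q : ℝ) ^ (9 * J + 2) := ⟨_, rfl⟩
  have hE1 : 1 ≤ E := by rw [hE]; exact one_le_pow₀ (by linarith)
  have hdiv : (Q ^ (24 * J) + 1) / Q ^ (15 * J - 1) ≤ 2 * Q ^ (9 * J + 1) := by
    apply Nat.div_le_of_le_mul
    have h1 : Q ^ (15 * J - 1) * (2 * Q ^ (9 * J + 1)) = 2 * Q ^ (24 * J) := by
      have : Q ^ (24 * J) = Q ^ (15 * J - 1) * Q ^ (9 * J + 1) := by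
        rw [← pow_add]; congr 1; omega
      rw [this]; ring
    rw [h1]; omega
  have hdiv' : (((Q ^ (24 * J) + 1) / Q ^ (15 * J - 1) : ℕ) : ℝ) ≤ 2 * E := by
    have h1 : (((Q ^ (24 * J) + 1) / Q ^ (15 * J - 1) : ℕ) : ℝ) ≤ ((2 * Q ^ (9 * J + 1) : ℕ) : ℝ) := by
      exact_mod_cast hdiv
    refine le_trans h1 ?_
    push_cast
    rw [hE]
    apply mul_le_mul_of_nonneg_left _ (by norm_num)
    exact pow_le_pow_right₀ (by linarith) (by omega)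
  have f1 : (4 * (((Q ^ (24 * J) + 1 : ℕ) : ℝ) + 2)) ^
      ((Q ^ (24 * J) + 1) / Q ^ (15 * J - 1)) ≤ Real.exp (2 * E * (a₂ * Real.log Q)) := by
    have h1 : 4 * (((Q ^ (24 * J) + 1 : ℕ) : ℝ) + 2) ≤ Real.exp (a₂ * Real.log Q) := by
      rw [← main_exp hQ, ha₂, pow_add, hNe]
      have h2 : (1 : ℝ) ≤ (Q : ℝ) ^ (24 * J) := one_le_pow₀ (by linarith)
      have h3 := main_pow hQ 16
      push_cast at h3
      calc 4 * ((Q : ℝ) ^ (24 * J) + 3) ≤ 16 * (Q : ℝ) ^ (24 * J) := by linarith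
        _ ≤ _ := mul_le_mul_of_nonneg_right h3 (by positivity)
    refine le_trans (pow_le_pow_left₀ (by linarith) h1 _) ?_
    rw [← Real.exp_nat_mul]
    apply Real.exp_le_exp.2
    exact mul_le_mul_of_nonneg_right hdiv' (by positivity)
  have f2 : ((n : ℝ) + 1) * 4 * mu ≤ Real.exp (a₃ * Real.log Q) := by
    rw [← main_exp hQ, ha₃, pow_add]
    have h1 : (n : ℝ) ≤ (Q : ℝ) ^ (24 * J) := by exact_mod_cast hn
    have h2 : (1 : ℝ) ≤ (Q : ℝ) ^ (24 * J) := one_le_pow₀ (by linarith)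
    have h3 := main_pow hQ 48
    push_cast at h3
    calc ((n : ℝ) + 1) * 4 * mu ≤ ((n : ℝ) + 1) * 4 * 6 :=
          mul_le_mul_of_nonneg_left mu_le_six (by positivity)
      _ ≤ 48 * (Q : ℝ) ^ (24 * J) := by linarith
      _ ≤ _ := mul_le_mul_of_nonneg_right h3 (by positivity)
  have f3 : B ≤ 2 * (Real.exp (2 * Y + a₁ * Real.log Q + 8 * Y * (a * Real.log Q)) *
      Real.exp (2 * E * (a₂ * Real.log Q))) := by
    rw [hB, mul_assoc]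
    apply mul_le_mul_of_nonneg_left _ (by norm_num)
    exact mul_le_mul hσ2 f1 (by positivity) (by positivity)
  calc (c n : ℝ) ≤ ((n : ℝ) + 1) * B ^ 2 * mu ^ (n + 1) := hc
    _ ≤ ((n : ℝ) + 1) * (2 * (Real.exp (2 * Y + a₁ * Real.log Q + 8 * Y * (a * Real.log Q)) *
        Real.exp (2 * E * (a₂ * Real.log Q)))) ^ 2 * mu ^ (n + 1) := by
        apply mul_le_mul_of_nonneg_right _ (by positivity)
        apply mul_le_mul_of_nonneg_left _ (by positivity)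
        exact pow_le_pow_left₀ hB0 f3 2
    _ = mu ^ n * ((((n : ℝ) + 1) * 4 * mu) *
        (Real.exp (2 * Y + a₁ * Real.log Q + 8 * Y * (a * Real.log Q)) *
        Real.exp (2 * E * (a₂ * Real.log Q))) ^ 2) := by ring
    _ ≤ mu ^ n * (Real.exp (a₃ * Real.log Q) *
        (Real.exp (2 * Y + a₁ * Real.log Q + 8 * Y * (a * Real.log Q)) *
        Real.exp (2 * E * (a₂ * Real.log Q))) ^ 2) := by
        apply mul_le_mul_of_nonneg_left _ (by positivity)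
        exact mul_le_mul_of_nonneg_right f2 (by positivity)
    _ = mu ^ n * Real.exp (a₃ * Real.log Q +
        2 * (2 * Y + a₁ * Real.log Q + 8 * Y * (a * Real.log Q) +
        2 * E * (a₂ * Real.log Q))) := by
        rw [← Real.exp_add, ← Real.exp_nat_mul, ← Real.exp_add]
        push_cast
        rfl
    _ ≤ _ := by
        apply mul_le_mul_of_nonneg_left _ (by positivity)
        apply Real.exp_le_exp.2
        rw [← hE] at hYe ⊢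
        obtain ⟨x, hxe⟩ : ∃ x : ℝ, x = Real.log Q := ⟨_, rfl⟩
        rw [← hxe] at hYe hx hxh ⊢
        have g1 : x ≤ 2 * x ^ 2 := by nlinarith
        have g2 : E * x ≤ 2 * (E * x ^ 2) := by nlinarith
        have g3 : x ≤ 2 * (E * x ^ 2) := by nlinarith
        have k1 : (a₃ : ℝ) * x ≤ a₃ * (2 * (E * x ^ 2)) :=
          mul_le_mul_of_nonneg_left g3 (by positivity)
        have k2 : (a₁ : ℝ) * x ≤ a₁ * (2 * (E * x ^ 2)) :=
          mul_le_mul_of_nonneg_left g3 (by positivity)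
        have k3 : (C₂ : ℝ) * (E * x) ≤ C₂ * (2 * (E * x ^ 2)) :=
          mul_le_mul_of_nonneg_left g2 (by positivity)
        have k4 : (a₂ : ℝ) * (E * x) ≤ a₂ * (2 * (E * x ^ 2)) :=
          mul_le_mul_of_nonneg_left g2 (by positivity)
        rw [hYe]
        nlinarith [k1, k2, k3, k4]

end Pool.Agent.H46R2.K3.P
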