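import Pool.Agent.H46R2.K3.MU
import Pool.Agent.H46R2.K3.APP
import Pool.Agent.H46R2.K3.CHAIN
import Pool.Agent.H46R2.K3.DENS
import Pool.Agent.H46R2.K3.BLOB

/-!
Task STAGES: the iteration.
-/

namespace Pool.Agent.H46R2.K3.P

open Finset

theorem good_one : Good Fam.one 0 1 0 0 0 0 0 1 := by
  have hE : ∀ f : List St → ℝ, Fam.one.E f = f [] := by
    intro f
    unfold Fam.E Fam.one
    simp
  refine ⟨?_, ?_, ?_, ?_, ?_, ?_, ?_⟩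
  · intro θ
    exact le_rfl
  · intro θ w hw z
    have hw' : w = [] := by simpa [Fam.one] using hw
    subst hw'
    exact (List.count_le_length).trans (by simp [rel])
  · intro θ w hw i hi
    have hw' : w = [] := by simpa [Fam.one] using hw
    subst hw'
    simp [pos]
  · intro θ
    simp [Fam.one]
  · rw [hE]
    simp [K]
  · intro A ν _
    rw [hE]
    simp [H]
  · intro z
    rw [hE]
    split_ifs <;> norm_num

theorem stages_mono {𝒢 : Fam} {L J L' J' : ℕ} {R R' : ℤ} {c k h₀ h₁ D c' k' h₀' h₁' D' : ℝ}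
    (h : Good 𝒢 L J R c k h₀ h₁ D) (hL : L ≤ L') (hJ : J ≤ J') (hR : R ≤ R') (hc : c ≤ c')
    (hk : k ≤ k') (h0 : h₀ ≤ h₀') (h1 : h₁ ≤ h₁')
    (hD : ∀ z, 𝒢.E (fun w => if disp w = z then 1 else 0) ≤ D') :
    Good 𝒢 L' J' R' c' k' h₀' h₁' D' := by
  refine ⟨fun θ => (h.len_le θ).trans hL, fun θ w hw z => (h.vis θ w hw z).trans hJ,
    fun θ w hw i hi => (h.wan θ w hw i hi).trans hR, ?_, h.Kexp.trans hk, ?_, hD⟩
  · intro θ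
    refine le_trans ?_ (h.cost θ)
    apply mul_le_mul_of_nonneg_left (Real.exp_le_exp.2 (by linarith))
    have := one_le_mu
    positivity
  · intro A ν hA
    refine (h.hit A ν hA).trans ?_
    have e1 : h₀ * A.length ≤ h₀' * A.length := mul_le_mul_of_nonneg_right h0 (by positivity)
    have e2 : h₁ * ν ≤ h₁' * ν := mul_le_mul_of_nonneg_right h1 (by positivity)
    linarith

/-- one application of `app_good`, with constants -/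
theorem stages_app {𝒢 𝒞 : Fam} {J Q C Cb J₀ j L' : ℕ} {R' : ℤ} {c' D : ℝ} (hJ : 1 ≤ J)
    (hQ : 2 ≤ Q) (hj : j < J) (hJ₀ : J₀ ≤ 6 * J + 1) (hD : 0 ≤ D)
    (hG : Good 𝒢 (C * Q ^ (15 * J + 2)) J₀ (C * (Q : ℤ) ^ (10 * J + 1))
      (C * (Q : ℝ) ^ (9 * J + 1) * Real.log Q) (C * (Q : ℝ) ^ (9 * J + 1))
      (C * (Q : ℝ) ^ 2 / (Q : ℝ) ^ (15 * J)) (C * (Q : ℝ) ^ (9 * J + 1)) D)
    (hmin : min D (1 / (((Q ^ (9 * J + 1) : ℕ) : ℝ) + 1) ^ 3) ≤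
      8 / ((Q : ℝ) ^ (9 * J + 1) * (Q : ℝ) ^ j) ^ 3)
    (hC : SawF 𝒞 L' R' c') (hL' : L' ≤ 4 * (Q ^ (9 * J + 1) * Q ^ (3 * J + 3 * j + 4)))
    (hR' : R' ≤ 2 * (Q : ℤ) ^ (10 * J + 1))
    (hc' : c' ≤ Cb * (Q : ℝ) ^ (9 * J + 1) * Real.log Q) :
    Good (𝒢.app (Q ^ (9 * J + 1)) 𝒞) ((5 * C + 18 * J + 50 + Cb) * Q ^ (15 * J + 2)) (J₀ + 2)
      (((5 * C + 18 * J + 50 + Cb : ℕ) : ℤ) * (Q : ℤ) ^ (10 * J + 1))
      (((5 * C + 18 * J + 50 + Cb : ℕ) : ℝ) * (Q : ℝ) ^ (9 * J + 1) * Real.log Q)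
      (((5 * C + 18 * J + 50 + Cb : ℕ) : ℝ) * (Q : ℝ) ^ (9 * J + 1))
      (((5 * C + 18 * J + 50 + Cb : ℕ) : ℝ) * (Q : ℝ) ^ 2 / (Q : ℝ) ^ (15 * J))
      (((5 * C + 18 * J + 50 + Cb : ℕ) : ℝ) * (Q : ℝ) ^ (9 * J + 1))
      (min D (1 / (((Q ^ (9 * J + 1) : ℕ) : ℝ) + 1) ^ 3)) := by
  have h := app_good hG hC hD (Q ^ (9 * J + 1))
  have hQ1 : 1 ≤ Q := by omega
  have hq : (2:ℝ) ≤ Q := by exact_mod_cast hQ
  have hq1 : (1:ℝ) ≤ Q := by linarith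
  have hlog2 : Real.log 2 ≤ Real.log Q := Real.log_le_log (by norm_num) hq
  have hlog : 0.69 ≤ Real.log Q := by
    have := Real.log_two_gt_d9
    linarith
  have hTpos : (1:ℝ) ≤ (Q:ℝ) ^ (9 * J + 1) := one_le_pow₀ hq1
  have hp1 : Q ^ (9 * J + 1) * Q ^ (3 * J + 3 * j + 4) ≤ Q ^ (15 * J + 2) := by
    rw [← pow_add]
    exact Nat.pow_le_pow_right hQ1 (by omega)
  have hp2 : Q ^ (9 * J + 1) ≤ Q ^ (15 * J + 2) := Nat.pow_le_pow_right hQ1 (by omega)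
  have hL'2 : L' ≤ 4 * Q ^ (15 * J + 2) := hL'.trans (by omega)
  have hL'r : (L' : ℝ) ≤ 4 * (Q:ℝ) ^ (15 * J + 2) := by exact_mod_cast hL'2
  have hL'r2 : (L' : ℝ) ≤ 4 * ((Q:ℝ) ^ (9 * J + 1) * (Q:ℝ) ^ (3 * J + 3 * j + 4)) := by
    exact_mod_cast hL'
  refine stages_mono h ?_ le_rfl ?_ ?_ ?_ ?_ ?_ (fun z => h.dens z)
  · -- length
    have e : (5 * C + 18 * J + 50 + Cb) * Q ^ (15 * J + 2) = C * Q ^ (15 * J + 2) +
      (4 * C + 18 * J + 43 + Cb) * Q ^ (15 * J + 2) + 7 * Q ^ (15 * J + 2) := by ring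
    rw [e]
    have : 0 ≤ (4 * C + 18 * J + 43 + Cb) * Q ^ (15 * J + 2) := Nat.zero_le _
    omega
  · -- range
    have hp3 : (Q:ℤ) ^ (9 * J + 1) ≤ (Q:ℤ) ^ (10 * J + 1) := by
      exact_mod_cast Nat.pow_le_pow_right hQ1 (by omega)
    have hp4 : (0:ℤ) ≤ (Q:ℤ) ^ (10 * J + 1) := by positivity
    have e : ((5 * C + 18 * J + 50 + Cb : ℕ) : ℤ) * (Q:ℤ) ^ (10 * J + 1) =
      C * (Q:ℤ) ^ (10 * J + 1) + (4 * C + 18 * J + 47 + Cb) * (Q:ℤ) ^ (10 * J + 1) +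
        3 * (Q:ℤ) ^ (10 * J + 1) := by push_cast; ring
    rw [e]
    have : (0:ℤ) ≤ (4 * C + 18 * J + 47 + Cb) * (Q:ℤ) ^ (10 * J + 1) := by positivity
    push_cast
    linarith
  · -- cost
    have h6 : Real.log 6 ≤ 3 * Real.log Q := by
      have : Real.log 6 ≤ Real.log (2 ^ 3) := Real.log_le_log (by norm_num) (by norm_num)
      rw [Real.log_pow] at this
      push_cast at this
      linarith
    have e : ((5 * C + 18 * J + 50 + Cb : ℕ) : ℝ) * (Q:ℝ) ^ (9 * J + 1) * Real.log Q =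
      C * (Q:ℝ) ^ (9 * J + 1) * Real.log Q + 9 * ((Q:ℝ) ^ (9 * J + 1) * Real.log Q) +
        Cb * (Q:ℝ) ^ (9 * J + 1) * Real.log Q +
        (4 * C + 18 * J + 41) * ((Q:ℝ) ^ (9 * J + 1) * Real.log Q) := by push_cast; ring
    rw [e]
    have h7 : (0:ℝ) ≤ (4 * C + 18 * J + 41) * ((Q:ℝ) ^ (9 * J + 1) * Real.log Q) := by
      positivity
    have h8 : 3 * (Q:ℝ) ^ (9 * J + 1) * Real.log 6 ≤ 9 * ((Q:ℝ) ^ (9 * J + 1) * Real.log Q) := by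
      have := mul_le_mul_of_nonneg_left h6 (by positivity : 0 ≤ 3 * (Q:ℝ) ^ (9 * J + 1))
      linarith
    push_cast
    linarith
  · -- coincidences
    have h9 : ((C * Q ^ (15 * J + 2) : ℕ) : ℝ) + 1 ≤ (C + 1) * (Q:ℝ) ^ (15 * J + 2) := by
      have : (1:ℝ) ≤ (Q:ℝ) ^ (15 * J + 2) := one_le_pow₀ hq1
      push_cast
      linarith
    have h10 : (((C * Q ^ (15 * J + 2) : ℕ) : ℝ) + 1) * L' / (((Q ^ (9 * J + 1) : ℕ) : ℝ) + 1) ^ 3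
        ≤ 4 * (C + 1) * (Q:ℝ) ^ (9 * J + 1) := by
      rw [div_le_iff₀ (by positivity)]
      have h11 : ((Q:ℝ) ^ (9 * J + 1)) ^ 3 ≤ (((Q ^ (9 * J + 1) : ℕ) : ℝ) + 1) ^ 3 := by
        apply pow_le_pow_left₀ (by positivity)
        push_cast
        linarith
      calc (((C * Q ^ (15 * J + 2) : ℕ) : ℝ) + 1) * L'
          ≤ ((C + 1) * (Q:ℝ) ^ (15 * J + 2)) * (4 * (Q:ℝ) ^ (15 * J + 2)) :=
            mul_le_mul h9 hL'r (by positivity) (by positivity)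
        _ = 4 * (C + 1) * (Q:ℝ) ^ (30 * J + 4) := by
            rw [show 30 * J + 4 = (15 * J + 2) + (15 * J + 2) by ring, pow_add]
            ring
        _ ≤ 4 * (C + 1) * (Q:ℝ) ^ (36 * J + 4) := by
            apply mul_le_mul_of_nonneg_left _ (by positivity)
            exact pow_le_pow_right₀ hq1 (by omega)
        _ = 4 * (C + 1) * (Q:ℝ) ^ (9 * J + 1) * ((Q:ℝ) ^ (9 * J + 1)) ^ 3 := by
            rw [← pow_mul, show 36 * J + 4 = (9 * J + 1) + (9 * J + 1) * 3 by ring, pow_add]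
            ring
        _ ≤ _ := mul_le_mul_of_nonneg_left h11 (by positivity)
    have h12 : 3 * (((Q ^ (9 * J + 1) : ℕ) : ℝ)) * J₀ ≤ 3 * (6 * J + 1) * (Q:ℝ) ^ (9 * J + 1) := by
      have : (J₀ : ℝ) ≤ 6 * J + 1 := by exact_mod_cast hJ₀
      push_cast
      nlinarith [mul_le_mul_of_nonneg_left this (by positivity : 0 ≤ 3 * (Q:ℝ) ^ (9 * J + 1))]
    have h13 : 3 * (((Q ^ (9 * J + 1) : ℕ) : ℝ)) + 1 ≤ 4 * (Q:ℝ) ^ (9 * J + 1) := by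
      push_cast
      linarith
    have e : ((5 * C + 18 * J + 50 + Cb : ℕ) : ℝ) * (Q:ℝ) ^ (9 * J + 1) =
      C * (Q:ℝ) ^ (9 * J + 1) + 3 * (6 * J + 1) * (Q:ℝ) ^ (9 * J + 1) + 4 * (Q:ℝ) ^ (9 * J + 1) +
        4 * (C + 1) * (Q:ℝ) ^ (9 * J + 1) + (39 + Cb) * (Q:ℝ) ^ (9 * J + 1) := by push_cast; ring
    rw [e]
    have h14 : (0:ℝ) ≤ (39 + Cb) * (Q:ℝ) ^ (9 * J + 1) := by positivity
    linarith
  · -- hits I
    have h15 : (L' : ℝ) * min D (1 / (((Q ^ (9 * J + 1) : ℕ) : ℝ) + 1) ^ 3) ≤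
        32 * ((Q:ℝ) ^ 2 / (Q:ℝ) ^ (15 * J)) := by
      calc (L' : ℝ) * min D (1 / (((Q ^ (9 * J + 1) : ℕ) : ℝ) + 1) ^ 3)
          ≤ (4 * ((Q:ℝ) ^ (9 * J + 1) * (Q:ℝ) ^ (3 * J + 3 * j + 4))) *
            (8 / ((Q : ℝ) ^ (9 * J + 1) * (Q : ℝ) ^ j) ^ 3) :=
            mul_le_mul hL'r2 hmin (le_min hD (by positivity)) (by positivity)
        _ = 32 * ((Q:ℝ) ^ 2 / (Q:ℝ) ^ (15 * J)) := by
            have e1 : ((Q : ℝ) ^ (9 * J + 1) * (Q : ℝ) ^ j) ^ 3 =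
              (Q:ℝ) ^ (9 * J + 1) * ((Q:ℝ) ^ (15 * J) * (Q:ℝ) ^ (3 * J + 3 * j + 2)) := by
              rw [← pow_add, ← pow_mul, ← pow_add, ← pow_add]
              congr 1
              ring
            have e2 : (Q:ℝ) ^ (3 * J + 3 * j + 4) = (Q:ℝ) ^ 2 * (Q:ℝ) ^ (3 * J + 3 * j + 2) := by
              rw [← pow_add]
              congr 1
              ring
            rw [e1, e2]
            have p1 : (0:ℝ) < (Q:ℝ) ^ (9 * J + 1) := by positivity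
            have p2 : (0:ℝ) < (Q:ℝ) ^ (15 * J) := by positivity
            have p3 : (0:ℝ) < (Q:ℝ) ^ (3 * J + 3 * j + 2) := by positivity
            field_simp
            norm_num
    have e : ((5 * C + 18 * J + 50 + Cb : ℕ) : ℝ) * (Q:ℝ) ^ 2 / (Q:ℝ) ^ (15 * J) =
      C * (Q:ℝ) ^ 2 / (Q:ℝ) ^ (15 * J) + 32 * ((Q:ℝ) ^ 2 / (Q:ℝ) ^ (15 * J)) +
        (4 * C + 18 * J + 18 + Cb) * ((Q:ℝ) ^ 2 / (Q:ℝ) ^ (15 * J)) := by push_cast; ring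
    rw [e]
    have h16 : (0:ℝ) ≤ (4 * C + 18 * J + 18 + Cb) * ((Q:ℝ) ^ 2 / (Q:ℝ) ^ (15 * J)) := by
      positivity
    linarith
  · -- hits II
    have e : ((5 * C + 18 * J + 50 + Cb : ℕ) : ℝ) * (Q:ℝ) ^ (9 * J + 1) =
      C * (Q:ℝ) ^ (9 * J + 1) + 3 * (Q:ℝ) ^ (9 * J + 1) +
        (4 * C + 18 * J + 47 + Cb) * (Q:ℝ) ^ (9 * J + 1) := by push_cast; ring
    rw [e]
    have h16 : (0:ℝ) ≤ (4 * C + 18 * J + 47 + Cb) * (Q:ℝ) ^ (9 * J + 1) := by positivity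
    push_cast
    linarith

theorem stages_step {J Q C Cb j : ℕ} {D : ℝ} {𝒢 : Fam} (hJ : 1 ≤ J) (hQ : 2 ≤ Q) (hj : j < J)
    {Cr : ℝ} (hCr : 0 < Cr) (hCb : Cr ≤ Cb)
    (hblob : ∃ n a : ℕ, Q ^ (j + 1) ≤ a ∧ a ≤ n ∧ n ≤ 4 * Q ^ (3 * J + 3 * j + 4) ∧
      n ≤ 4 * a * Q ^ (3 * J + 2 * j + 3) ∧
      mu ^ n * Real.exp (-(Cr * ((a : ℝ) / (Q : ℝ) ^ (j + 1)) * Real.log Q)) ≤ (#(Bl n a) : ℝ))
    (hG : Good 𝒢 (C * Q ^ (15 * J + 2)) (6 * j + 1) (C * (Q : ℤ) ^ (10 * J + 1))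
      (C * (Q : ℝ) ^ (9 * J + 1) * Real.log Q) (C * (Q : ℝ) ^ (9 * J + 1))
      (C * (Q : ℝ) ^ 2 / (Q : ℝ) ^ (15 * J)) (C * (Q : ℝ) ^ (9 * J + 1)) D)
    (hD : 0 ≤ D) (hmin : min D (1 / (((Q ^ (9 * J + 1) : ℕ) : ℝ) + 1) ^ 3) ≤
      8 / ((Q : ℝ) ^ (9 * J + 1) * (Q : ℝ) ^ j) ^ 3) :
    ∃ (𝒢' : Fam) (D' : ℝ),
      Good 𝒢' ((5 * (5 * (5 * C + 18 * J + 50 + Cb) + 18 * J + 50 + Cb) + 18 * J + 50 + Cb) *
          Q ^ (15 * J + 2)) (6 * (j + 1) + 1)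
        (((5 * (5 * (5 * C + 18 * J + 50 + Cb) + 18 * J + 50 + Cb) + 18 * J + 50 + Cb : ℕ) : ℤ) *
          (Q : ℤ) ^ (10 * J + 1))
        (((5 * (5 * (5 * C + 18 * J + 50 + Cb) + 18 * J + 50 + Cb) + 18 * J + 50 + Cb : ℕ) : ℝ) *
          (Q : ℝ) ^ (9 * J + 1) * Real.log Q)
        (((5 * (5 * (5 * C + 18 * J + 50 + Cb) + 18 * J + 50 + Cb) + 18 * J + 50 + Cb : ℕ) : ℝ) *
          (Q : ℝ) ^ (9 * J + 1))
        (((5 * (5 * (5 * C + 18 * J + 50 + Cb) + 18 * J + 50 + Cb) + 18 * J + 50 + Cb : ℕ) : ℝ) *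
          (Q : ℝ) ^ 2 / (Q : ℝ) ^ (15 * J))
        (((5 * (5 * (5 * C + 18 * J + 50 + Cb) + 18 * J + 50 + Cb) + 18 * J + 50 + Cb : ℕ) : ℝ) *
          (Q : ℝ) ^ (9 * J + 1)) D' ∧
      0 ≤ D' ∧ D' ≤ 8 / ((Q : ℝ) ^ (9 * J + 1) * (Q : ℝ) ^ (j + 1)) ^ 3 := by
  classical
  obtain ⟨n, a, ha1, han, hn1, hn2, hB⟩ := hblob
  have hQ1 : 1 ≤ Q := by omega
  have hq : (2:ℝ) ≤ Q := by exact_mod_cast hQ
  have hq1 : (1:ℝ) ≤ Q := by linarith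
  have hlog : 0 ≤ Real.log Q := Real.log_nonneg hq1
  have hmu := one_le_mu
  have hapos : 1 ≤ a := le_trans (Nat.one_le_pow _ _ hQ1) ha1
  have har : (1:ℝ) ≤ a := by exact_mod_cast hapos
  -- the blocks
  have hlen : ∀ w ∈ Bl n a, w.length = n := by
    intro w hw
    have hw' := (mem_filter.1 hw).1
    unfold W at hw'
    rw [Finset.mem_image] at hw'
    obtain ⟨v, _, rfl⟩ := hw'
    exact v.2
  have hdisp : ∀ w ∈ Bl n a, disp w = ax 0 a := fun w hw => (mem_filter.1 hw).2.2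
  have hne : (Bl n a).Nonempty := by
    rw [← Finset.card_pos]
    have : (0:ℝ) < (#(Bl n a) : ℝ) := lt_of_lt_of_le (by positivity) hB
    exact_mod_cast this
  set T : ℕ := Q ^ (9 * J + 1) with hT
  set M : ℕ := T * Q ^ (j + 1) / a with hM
  have haM : a * M ≤ T * Q ^ (j + 1) := Nat.mul_div_le _ _
  have haM2 : T * Q ^ (j + 1) < a * (M + 1) := by
    rw [mul_add, mul_one, hM]
    exact Nat.lt_mul_div_succ _ hapos
  have hcB : 0 ≤ Cr * ((a : ℝ) / (Q : ℝ) ^ (j + 1)) * Real.log Q := by positivity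
  have hS : ∀ i, SawF (ChF (Bl n a) n hlen hne i M) (n * M) ((n : ℤ) + a * M)
      (M * (Cr * ((a : ℝ) / (Q : ℝ) ^ (j + 1)) * Real.log Q)) :=
    fun i => ChF_sawF hlen hne hcB hB i M
  -- numerical bounds
  have b1 : n * M ≤ 4 * (T * Q ^ (3 * J + 3 * j + 4)) := by
    calc n * M ≤ (4 * a * Q ^ (3 * J + 2 * j + 3)) * M := Nat.mul_le_mul_right _ hn2
      _ = 4 * Q ^ (3 * J + 2 * j + 3) * (a * M) := by ring
      _ ≤ 4 * Q ^ (3 * J + 2 * j + 3) * (T * Q ^ (j + 1)) := Nat.mul_le_mul_left _ haM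
      _ = 4 * (T * Q ^ (3 * J + 3 * j + 4)) := by
        rw [show 3 * J + 3 * j + 4 = (3 * J + 2 * j + 3) + (j + 1) by ring, pow_add]
        ring
  have b2 : n ≤ Q ^ (6 * J + 3) := by
    calc n ≤ 4 * Q ^ (3 * J + 3 * j + 4) := hn1
      _ ≤ 4 * Q ^ (6 * J + 1) :=
        Nat.mul_le_mul_left _ (Nat.pow_le_pow_right hQ1 (by omega))
      _ ≤ Q ^ 2 * Q ^ (6 * J + 1) := Nat.mul_le_mul_right _ (by nlinarith)
      _ = Q ^ (6 * J + 3) := by rw [← pow_add]; congr 1; ring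
  have b3 : n ≤ Q ^ (10 * J + 1) := b2.trans (Nat.pow_le_pow_right hQ1 (by omega))
  have b4 : a ≤ T := (han.trans b2).trans (Nat.pow_le_pow_right hQ1 (by omega))
  have b5 : a * M ≤ Q ^ (10 * J + 1) := by
    refine haM.trans ?_
    rw [hT, ← pow_add]
    exact Nat.pow_le_pow_right hQ1 (by omega)
  have b6 : (n : ℤ) + a * M ≤ 2 * (Q : ℤ) ^ (10 * J + 1) := by
    have : n + a * M ≤ 2 * Q ^ (10 * J + 1) := by omega
    exact_mod_cast this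
  have b7 : (M : ℝ) * (Cr * ((a : ℝ) / (Q : ℝ) ^ (j + 1)) * Real.log Q) ≤
      Cb * (Q : ℝ) ^ (9 * J + 1) * Real.log Q := by
    have e1 : (a : ℝ) * M / (Q : ℝ) ^ (j + 1) ≤ (Q : ℝ) ^ (9 * J + 1) := by
      rw [div_le_iff₀ (by positivity)]
      exact_mod_cast haM
    calc (M : ℝ) * (Cr * ((a : ℝ) / (Q : ℝ) ^ (j + 1)) * Real.log Q)
        = Cr * ((a : ℝ) * M / (Q : ℝ) ^ (j + 1)) * Real.log Q := by ring
      _ ≤ Cb * (Q : ℝ) ^ (9 * J + 1) * Real.log Q := by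
        apply mul_le_mul_of_nonneg_right _ hlog
        exact mul_le_mul hCb e1 (by positivity) (by positivity)
  -- three applications
  set X : ℝ := 1 / (((T : ℕ) : ℝ) + 1) ^ 3 with hX
  have hX0 : 0 ≤ X := by positivity
  have G1 := stages_app hJ hQ hj (by omega) hD hG hmin (hS 0) b1 b6 b7
  have hD1 : 0 ≤ min D X := le_min hD hX0
  have hm1 : min (min D X) X ≤ 8 / ((Q : ℝ) ^ (9 * J + 1) * (Q : ℝ) ^ j) ^ 3 :=
    (min_le_left _ _).trans hmin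
  have G2 := stages_app hJ hQ hj (by omega) hD1 G1 hm1 (hS 1) b1 b6 b7
  have hD2 : 0 ≤ min (min D X) X := le_min hD1 hX0
  have hm2 : min (min (min D X) X) X ≤ 8 / ((Q : ℝ) ^ (9 * J + 1) * (Q : ℝ) ^ j) ^ 3 :=
    (min_le_left _ _).trans hm1
  have G3 := stages_app hJ hQ hj (by omega) hD2 G2 hm2 (hS 2) b1 b6 b7
  refine ⟨_, 8 / ((a : ℝ) * ((M : ℝ) + 1)) ^ 3, stages_mono G3 le_rfl (by omega) le_rfl le_rfl
    le_rfl le_rfl le_rfl (fun z => dens_stage 𝒢 hlen hne hdisp hapos M T b4 z), by positivity, ?_⟩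
  apply div_le_div_of_nonneg_left (by norm_num) (by positivity)
  apply pow_le_pow_left₀ (by positivity)
  have : T * Q ^ (j + 1) ≤ a * (M + 1) := haM2.le
  exact_mod_cast this

theorem stages (J : ℕ) (hJ : 1 ≤ J) : ∃ C : ℕ, ∀ Q : ℕ, 2 ≤ Q → ∃ (𝒢 : Fam) (D : ℝ),
    Good 𝒢 (C * Q ^ (15 * J + 2)) (6 * J + 1) (C * (Q : ℤ) ^ (10 * J + 1))
      (C * (Q : ℝ) ^ (9 * J + 1) * Real.log Q) (C * (Q : ℝ) ^ (9 * J + 1))
      (C * (Q : ℝ) ^ 2 / (Q : ℝ) ^ (15 * J)) (C * (Q : ℝ) ^ (9 * J + 1)) D ∧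
    0 ≤ D ∧ D ≤ 8 / ((Q : ℝ) ^ (10 * J + 1)) ^ 3 := by
  obtain ⟨Cr, hCr, hblob⟩ := blob J hJ
  have hCb : Cr ≤ (⌈Cr⌉₊ : ℝ) := Nat.le_ceil Cr
  have key : ∀ j ≤ J, ∃ C : ℕ, ∀ Q : ℕ, 2 ≤ Q → ∃ (𝒢 : Fam) (D : ℝ),
      Good 𝒢 (C * Q ^ (15 * J + 2)) (6 * j + 1) (C * (Q : ℤ) ^ (10 * J + 1))
        (C * (Q : ℝ) ^ (9 * J + 1) * Real.log Q) (C * (Q : ℝ) ^ (9 * J + 1))
        (C * (Q : ℝ) ^ 2 / (Q : ℝ) ^ (15 * J)) (C * (Q : ℝ) ^ (9 * J + 1)) D ∧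
      0 ≤ D ∧ (min D (1 / (((Q ^ (9 * J + 1) : ℕ) : ℝ) + 1) ^ 3) ≤
        8 / ((Q : ℝ) ^ (9 * J + 1) * (Q : ℝ) ^ j) ^ 3) ∧
      (1 ≤ j → D ≤ 8 / ((Q : ℝ) ^ (9 * J + 1) * (Q : ℝ) ^ j) ^ 3) := by
    intro j
    induction j with
    | zero =>
      intro _
      refine ⟨0, ?_⟩
      intro Q hQ
      have hq : (2:ℝ) ≤ Q := by exact_mod_cast hQ
      refine ⟨Fam.one, 1, ?_, by norm_num, ?_, by omega⟩
      · refine stages_mono good_one ?_ le_rfl ?_ ?_ ?_ ?_ ?_ (fun z => good_one.dens z) <;> simp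
      · refine (min_le_right _ _).trans ?_
        rw [pow_zero, mul_one]
        apply div_le_div₀ (by norm_num) (by norm_num) (by positivity)
        apply pow_le_pow_left₀ (by positivity)
        push_cast
        linarith
    | succ j ih =>
      intro hj
      obtain ⟨C, hC⟩ := ih (by omega)
      refine ⟨5 * (5 * (5 * C + 18 * J + 50 + ⌈Cr⌉₊) + 18 * J + 50 + ⌈Cr⌉₊) + 18 * J + 50 + ⌈Cr⌉₊,
        ?_⟩
      intro Q hQ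
      obtain ⟨𝒢, D, hG, hD, hmin, _⟩ := hC Q hQ
      obtain ⟨𝒢', D', h1, h2, h3⟩ := stages_step hJ hQ (by omega : j < J) hCr hCb
        (hblob Q hQ j (by omega)) hG hD hmin
      exact ⟨𝒢', D', h1, h2, (min_le_left _ _).trans h3, fun _ => h3⟩
  obtain ⟨C, hC⟩ := key J le_rfl
  refine ⟨C, ?_⟩
  intro Q hQ
  obtain ⟨𝒢, D, hG, hD, _, h4⟩ := hC Q hQ
  refine ⟨𝒢, D, hG, hD, ?_⟩
  have := h4 hJ
  rwa [← pow_add, show 9 * J + 1 + J = 10 * J + 1 by ring] at this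

end Pool.Agent.H46R2.K3.P
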