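import Pool.Agent.H46R2.K3.Defs

/-!
STUBS (statements with `sorry`) of the tasks of table `h46_tasks`.  Never import this file in a final
file; every task gets its own file `Pool/Agent/H46R2/K3/<ID>.lean`.
-/

namespace Pool.Agent.H46R2.K3

open Finset

/-! ### MU -/

theorem one_le_mu : 1 ≤ mu := sorry

theorem mu_le_six : mu ≤ 6 := sorry

theorem mu_pow_le (n : ℕ) : mu ^ n ≤ (c n : ℝ) := sorry

theorem b_le (n : ℕ) : (b n : ℝ) ≤ mu ^ n := sorry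

theorem tendsto_c :
    Filter.Tendsto (fun n : ℕ => (c n : ℝ) ^ (1 / (n : ℝ))) Filter.atTop (nhds mu) := sorry

/-! ### UNF -/

theorem hs_split (n r : ℕ) :
    hs n ≤ hle n r + ∑ k ∈ range (n + 1), bge k (r + 1) * hs (n - k) := sorry

theorem hge_split (n r : ℕ) : hge n r ≤ ∑ k ∈ range (n + 1), bge k r * hs (n - k) := sorry

theorem hle_succ (n r : ℕ) :
    hle n (r + 1) ≤ hle n r + ∑ k ∈ range (n + 1), b k * hle (n - k) r := sorry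

theorem hle_zero (n : ℕ) : hle n 0 ≤ 1 := sorry

/-! ### CUT -/

theorem c_split (n : ℕ) : c n ≤ ∑ k ∈ range (n + 1), hs (k + 1) * hs (n - k) := sorry

theorem cext_split (n r : ℕ) :
    cext n r ≤ ∑ k ∈ range (n + 1), (hge (k + 1) r * hs (n - k) + hs (k + 1) * hge (n - k) r) := sorry

/-! ### EXT -/

theorem c_le_cext (n r : ℕ) (h : r ^ 3 ≤ n) : c n ≤ 3 * cext n r := sorry

/-! ### REC -/

theorem hle_bound (N n r : ℕ) (hn : n ≤ N) : (hle n r : ℝ) ≤ ((N : ℝ) + 2) ^ r * mu ^ n := sorry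

theorem hs_bound {N Lb ρ : ℕ} {σ : ℝ} (hσ : 1 ≤ σ) (hLb : 1 ≤ Lb)
    (h1 : ∀ n ≤ N, (hle n ρ : ℝ) ≤ σ * mu ^ n)
    (h2 : ∀ k < Lb, (bge k (ρ + 1) : ℝ) ≤ mu ^ k / (8 * ((N : ℝ) + 2))) :
    ∀ n ≤ N, (hs n : ℝ) ≤ 2 * σ * (4 * ((N : ℝ) + 2)) ^ (n / Lb) * mu ^ n := sorry

/-! ### TYP2 -/

theorem type2 (N s ℓ R : ℕ) (hs : 1 ≤ s) (hR : R ^ 3 ≤ ℓ) (hN : ℓ + 1 ≤ N) :
    (∃ k ≤ ℓ + 1, mu ^ k / (8 * ((N : ℝ) + 2)) < (bge k s : ℝ)) ∨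
      (∃ k ≤ ℓ + 1, mu ^ k / (145 * ((N : ℝ) + 2) ^ (2 * s)) ≤ (bge k R : ℝ)) := sorry

/-! ### DBL -/

theorem dbl {k r : ℕ} {δ : ℝ} (hδ : 0 < δ) (h : mu ^ k * δ ≤ (bge k r : ℝ)) :
    ∃ a, r ≤ a ∧ a ≤ k ∧
      mu ^ (2 * k) * (δ / (2 * (k : ℝ) + 1) ^ 3) ^ 2 ≤ (#(Bl (2 * k) (2 * a)) : ℝ) := sorry

/-! ### BLOB -/

theorem blob (J : ℕ) (hJ : 1 ≤ J) : ∃ C : ℝ, 0 < C ∧ ∀ Q : ℕ, 2 ≤ Q → ∀ j < J, ∃ n a : ℕ,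
    Q ^ (j + 1) ≤ a ∧ a ≤ n ∧ n ≤ 4 * Q ^ (3 * J + 3 * j + 4) ∧
    n ≤ 4 * a * Q ^ (3 * J + 2 * j + 3) ∧
    mu ^ n * Real.exp (-(C * ((a : ℝ) / (Q : ℝ) ^ (j + 1)) * Real.log Q)) ≤ (#(Bl n a) : ℝ) := sorry

/-! ### LOOP -/

theorem loops_le (m : ℕ) (hm : 1 ≤ m) : (loops m : ℝ) ≤ ((m : ℝ) + 1) ^ 2 * mu ^ (m + 2) := sorry

/-! ### LE -/

theorem G_succ (L k : ℕ) :
    G L (k + 1) ≤ b L + ∑ m ∈ Icc 1 L, (L + 1) * (loops m * G (L - m) k) := sorry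

theorem G_le (L k : ℕ) : (G L k : ℝ) ≤ mu ^ L * (37 * ((L : ℝ) + 1) ^ 4) ^ k := sorry

/-! ### HK -/

theorem K_append (u v : List St) : K (u ++ v) ≤ K u + K v + H (rel u) v := sorry

theorem K_reverse (u : List St) : K u.reverse = K u := sorry

theorem K_saw {u : List St} (h : Saw u) : K u = 0 := sorry

theorem H_append (A : List V) (u v : List St) : H A (u ++ v) = H A u + H (sh A (disp u)) v := sorry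

theorem H_rel_append (u v w : List St) :
    H (rel (u ++ v)) w ≤ H (sh (rel u) (disp v)) w + H (rel v) w := sorry

theorem count_rel_append (u v : List St) (z : V) :
    (rel (u ++ v)).count z ≤ (rel u).count (z + disp v) + (rel v).count z := sorry

theorem count_rel_saw {u : List St} (h : Saw u) (z : V) : (rel u).count z ≤ 1 := sorry

theorem count_rel_reverse (u : List St) (z : V) :
    (rel u.reverse).count z = (rel u).count (-z - disp u) := sorry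

theorem H_le_length {w : List St} (h : Saw w) (A : List V) : H A w ≤ A.length := sorry

theorem H_le_count {A : List V} {ν : ℕ} (h : ∀ z, A.count z ≤ ν) (w : List St) :
    H A w ≤ ν * w.length := sorry

/-! ### FAM -/

theorem E_mul (𝒢 ℋ : Fam) (f : List St → ℝ) :
    (𝒢.mul ℋ).E f = 𝒢.E fun u => ℋ.E fun v => f (u ++ v) := sorry

theorem E_comm (𝒢 ℋ : Fam) (f : List St → List St → ℝ) :
    (𝒢.E fun u => ℋ.E fun v => f u v) = ℋ.E fun v => 𝒢.E fun u => f u v := sorry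

theorem card_mul (𝒢 ℋ : Fam) (θ : 𝒢.ι × ℋ.ι) :
    #((𝒢.mul ℋ).F θ) = #(𝒢.F θ.1) * #(ℋ.F θ.2) := sorry

theorem E_mono (𝒢 : Fam) {f g : List St → ℝ} (h : ∀ θ, ∀ w ∈ 𝒢.F θ, f w ≤ g w) :
    𝒢.E f ≤ 𝒢.E g := sorry

theorem E_add (𝒢 : Fam) (f g : List St → ℝ) : 𝒢.E (fun w => f w + g w) = 𝒢.E f + 𝒢.E g := sorry

theorem E_const (𝒢 : Fam) (x : ℝ) : 𝒢.E (fun _ => x) = x := sorry

theorem E_mul_left (𝒢 : Fam) (x : ℝ) (f : List St → ℝ) :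
    𝒢.E (fun w => x * f w) = x * 𝒢.E f := sorry

theorem E_sum (𝒢 : Fam) {κ : Type} (s : Finset κ) (f : κ → List St → ℝ) :
    𝒢.E (fun w => ∑ i ∈ s, f i w) = ∑ i ∈ s, 𝒢.E (f i) := sorry

theorem E_listsum (𝒢 : Fam) {κ : Type} (s : List κ) (f : κ → List St → ℝ) :
    𝒢.E (fun w => (s.map fun i => f i w).sum) = (s.map fun i => 𝒢.E (f i)).sum := sorry

open Classical in
theorem exists_half (𝒢 : Fam) {f : List St → ℝ} (hf : ∀ w, 0 ≤ f w) {y : ℝ} (h : 𝒢.E f ≤ y) :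
    ∃ θ, (#(𝒢.F θ) : ℝ) ≤ 2 * #((𝒢.F θ).filter fun w => f w ≤ 2 * y) := sorry

/-! ### SHIFT -/

theorem saw_sw (y : Fin 3 → ℕ) : Saw (sw y) := sorry

theorem disp_sw (y : Fin 3 → ℕ) : disp (sw y) = fun i => (y i : ℤ) := sorry

theorem pos_sw (y : Fin 3 → ℕ) (i : ℕ) : 0 ≤ pos (sw y) i 0 ∧ pos (sw y) i 0 ≤ y 0 := sorry

theorem Sh_dens (T : ℕ) (z : V) :
    (Sh T).E (fun w => if disp w = z then 1 else 0) ≤ 1 / ((T : ℝ) + 1) ^ 3 := sorry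

theorem Sh_sawF (T : ℕ) : SawF (Sh T) (3 * T) T (3 * (T : ℝ) * Real.log 6) := sorry

/-! ### CHAIN -/

theorem br_append {u v : List St} (hu : Br u) (hv : Br v) : Br (u ++ v) := sorry

theorem Ch_br {B : Finset (List St)} (h : ∀ w ∈ B, Br w) (m : ℕ) : ∀ w ∈ Ch B m, Br w := sorry

theorem Ch_span {B : Finset (List St)} {r : ℤ} (h : ∀ w ∈ B, r ≤ disp w 0) (m : ℕ) :
    ∀ w ∈ Ch B m, r * m ≤ disp w 0 := sorry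

theorem Ch_disp {B : Finset (List St)} {a : ℕ} (h : ∀ w ∈ B, disp w = ax 0 a) (m : ℕ) :
    ∀ w ∈ Ch B m, disp w = ax 0 (a * m) := sorry

theorem Ch_card {B : Finset (List St)} {n : ℕ} (h : ∀ w ∈ B, w.length = n) (m : ℕ) :
    #(Ch B m) = #B ^ m := sorry

theorem ChF_disp {B : Finset (List St)} {n a : ℕ} (h : ∀ w ∈ B, w.length = n) (hne : B.Nonempty)
    (hd : ∀ w ∈ B, disp w = ax 0 a) (i : Fin 3) (M : ℕ) (θ : (ChF B n h hne i M).ι) :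
    ∀ w ∈ (ChF B n h hne i M).F θ, disp w = ax i (a * ((show Fin (M + 1) from θ : ℕ) : ℤ)) := sorry

theorem ChF_sawF {n a : ℕ} (h : ∀ w ∈ Bl n a, w.length = n) (hne : (Bl n a).Nonempty)
    {cB : ℝ} (hc : 0 ≤ cB) (hB : mu ^ n * Real.exp (-cB) ≤ (#(Bl n a) : ℝ)) (i : Fin 3) (M : ℕ) :
    SawF (ChF (Bl n a) n h hne i M) (n * M) ((n : ℤ) + a * M) (M * cB) := sorry

/-! ### APP -/

theorem app_good {𝒢 𝒞 : Fam} {L J L' : ℕ} {R R' : ℤ} {c k h₀ h₁ D c' : ℝ}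
    (hG : Good 𝒢 L J R c k h₀ h₁ D) (hC : SawF 𝒞 L' R' c') (hD : 0 ≤ D) (T : ℕ) :
    Good (𝒢.app T 𝒞) (L + 3 * T + L') (J + 2) (R + T + R') (c + 3 * T * Real.log 6 + c')
      (k + 3 * T * J + (3 * T + 1) + ((L : ℝ) + 1) * L' / ((T : ℝ) + 1) ^ 3)
      (h₀ + L' * min D (1 / ((T : ℝ) + 1) ^ 3)) (h₁ + 3 * T)
      (min D (1 / ((T : ℝ) + 1) ^ 3)) := sorry

/-! ### DENS -/

theorem dens_stage (𝒢 : Fam) {B : Finset (List St)} {n a : ℕ} (h : ∀ w ∈ B, w.length = n)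
    (hne : B.Nonempty) (hd : ∀ w ∈ B, disp w = ax 0 a) (ha : 1 ≤ a) (M T : ℕ) (haT : a ≤ T)
    (z : V) :
    (((𝒢.app T (ChF B n h hne 0 M)).app T (ChF B n h hne 1 M)).app T (ChF B n h hne 2 M)).E
      (fun w => if disp w = z then 1 else 0) ≤ 8 / ((a : ℝ) * ((M : ℝ) + 1)) ^ 3 := sorry

/-! ### STAGES -/

theorem good_one : Good Fam.one 0 1 0 0 0 0 0 1 := sorry

theorem stages (J : ℕ) (hJ : 1 ≤ J) : ∃ C : ℕ, ∀ Q : ℕ, 2 ≤ Q → ∃ (𝒢 : Fam) (D : ℝ),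
    Good 𝒢 (C * Q ^ (15 * J + 2)) (6 * J + 1) (C * (Q : ℤ) ^ (10 * J + 1))
      (C * (Q : ℝ) ^ (9 * J + 1) * Real.log Q) (C * (Q : ℝ) ^ (9 * J + 1))
      (C * (Q : ℝ) ^ 2 / (Q : ℝ) ^ (15 * J)) (C * (Q : ℝ) ^ (9 * J + 1)) D ∧
    0 ≤ D ∧ D ≤ 8 / ((Q : ℝ) ^ (10 * J + 1)) ^ 3 := sorry

/-! ### EXITG -/

theorem exit_of_good {𝒢 : Fam} {L J n Λ ρ L₁ J₁ T : ℕ} {R : ℤ} {c k h₀ h₁ D c' Y : ℝ}
    (hG : Good 𝒢 L J R c k h₀ h₁ D) (hD : 0 ≤ D) (hh₀ : 0 ≤ h₀) (hh₁ : 0 ≤ h₁)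
    (S : Finset (List St)) (hne : S.Nonempty)
    (hS : ∀ w ∈ S, w.length = n) (hS1 : ∀ w ∈ S, Br w) (hS2 : ∀ w ∈ S, (Λ : ℤ) ≤ disp w 0)
    (hΛ : 2 * (ρ : ℤ) + 2 * (R + T) ≤ Λ)
    (hc : mu ^ n * Real.exp (-c') ≤ (#S : ℝ)) (hL : L + 3 * T + n ≤ L₁) (hJ : J + 2 ≤ J₁)
    (hY1 : c + 3 * T * Real.log 6 + c' ≤ Y)
    (hY2 : k + 3 * T * J + (3 * T + 1) + ((L : ℝ) + 1) * n / ((T : ℝ) + 1) ^ 3 ≤ Y)
    (hY3 : (h₀ + n * D) * (2 * L₁ + 2) + (h₁ + 3 * T) * (J₁ + 2) ≤ Y) :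
    ExitF (𝒢.app T (Fam.ofSet S n hS hne)) ρ L₁ J₁ Y := sorry

/-! ### EXIT -/

theorem exit_exists (J : ℕ) (hJ : 1 ≤ J) : ∃ C₁ C₂ : ℕ, 2 ≤ C₁ ∧ ∀ Q : ℕ, 2 ≤ Q → ∀ ρ : ℕ,
    (ρ = Q ^ (10 * J + 1) ∨ (Q ^ (10 * J + 1) ≤ ρ ∧ ∃ k < Q ^ (15 * J - 1),
      mu ^ k / (8 * ((Q : ℝ) ^ (24 * J) + 3)) < (bge k ρ : ℝ))) →
    ∃ 𝒢 : Fam, ExitF 𝒢 ρ (C₁ * Q ^ (24 * J)) C₁ (C₂ * (Q : ℝ) ^ (9 * J + 2) * Real.log Q) := sorry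

/-! ### SLAB -/

theorem slab_le {𝒢 : Fam} {ρ L J : ℕ} {Y : ℝ} (h : ExitF 𝒢 ρ L J Y) {n : ℕ} (hn : n ≤ L) :
    (slab n ρ : ℝ) ≤ 4 * Real.exp (2 * Y) * ((L : ℝ) + 1) ^ 2 * mu ^ (n + 1) *
      (37 * (3 * (L : ℝ) + 2) ^ 4) ^ ⌊8 * Y⌋₊ := sorry

/-! ### MAIN -/

theorem c_bound (J : ℕ) (hJ : 1 ≤ J) : ∃ C : ℝ, 0 < C ∧ ∀ Q : ℕ, 2 ≤ Q → ∀ n ≤ Q ^ (24 * J),
    (c n : ℝ) ≤ mu ^ n * Real.exp (C * (Q : ℝ) ^ (9 * J + 2) * (Real.log Q) ^ 2) := sorry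

/-! ### FIN -/

theorem c_final (ε : ℝ) (hε : 0 < ε) : ∃ K : ℝ, ∀ n : ℕ,
    (c n : ℝ) ≤ mu ^ n * Real.exp (K * (n : ℝ) ^ (3 / 8 + ε)) := sorry

/-! ### EQ -/

theorem card_eq (n : ℕ) :
    Nat.card {f : Fin (n + 1) → (Fin 3 → ℤ) // f 0 = 0 ∧ Function.Injective f ∧
      ∀ i : Fin n, ∑ j : Fin 3, |f i.succ j - f i.castSucc j| = 1} = c n := sorry

end Pool.Agent.H46R2.K3
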