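import Pool.Agent.H46R2.K3.MU
import Pool.Agent.H46R2.K3.UNF
import Pool.Agent.H46R2.K3.EXT
import Pool.Agent.H46R2.K3.CUT
import Pool.Agent.H46R2.K3.REC

/-! Task TYP2 (helper58): the two-scale lemma. -/

namespace Pool.Agent.H46R2.K3.P

open Finset

theorem type2 (N s ℓ R : ℕ) (hs : 1 ≤ s) (hR : R ^ 3 ≤ ℓ) (hN : ℓ + 1 ≤ N) :
    (∃ k ≤ ℓ + 1, mu ^ k / (8 * ((N : ℝ) + 2)) < (bge k s : ℝ)) ∨
      (∃ k ≤ ℓ + 1, mu ^ k / (145 * ((N : ℝ) + 2) ^ (2 * s)) ≤ (bge k R : ℝ)) := by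
  by_contra hcon
  push Not at hcon
  obtain ⟨hA, hB⟩ := hcon
  have hmu1 := one_le_mu
  have hmu6 := mu_le_six
  have hmu0 : (0 : ℝ) < mu := by linarith
  have hN2 : (1 : ℝ) ≤ (N : ℝ) + 2 := by
    have : (0 : ℝ) ≤ N := Nat.cast_nonneg _
    linarith
  obtain ⟨r, rfl⟩ : ∃ r, s = r + 1 := ⟨s - 1, by omega⟩
  clear hs
  set σ : ℝ := ((N : ℝ) + 2) ^ r with hσ
  have hσ1 : 1 ≤ σ := one_le_pow₀ hN2
  set δ : ℝ := 1 / (145 * ((N : ℝ) + 2) ^ (2 * (r + 1))) with hδ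
  have hδ0 : 0 < δ := by positivity
  have hhs : ∀ n ≤ ℓ + 1, (hs n : ℝ) ≤ 2 * σ * mu ^ n := by
    intro n hn
    have := hs_bound (N := N) (Lb := ℓ + 2) (ρ := r) hσ1 (by omega)
      (fun n hn => hle_bound N n r hn) (fun k hk => hA k (by omega)) n (by omega)
    rw [Nat.div_eq_of_lt (by omega), pow_zero, mul_one] at this
    exact this
  have hbR : ∀ k ≤ ℓ + 1, (bge k R : ℝ) ≤ δ * mu ^ k := by
    intro k hk
    refine (hB k hk).le.trans (le_of_eq ?_)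
    rw [hδ]; ring
  have hhge : ∀ n ≤ ℓ + 1, (hge n R : ℝ) ≤ ((ℓ : ℝ) + 2) * (2 * δ * σ) * mu ^ n := by
    intro n hn
    have h1 : (hge n R : ℝ) ≤ ∑ k ∈ range (n + 1), (bge k R : ℝ) * (hs (n - k) : ℝ) := by
      exact_mod_cast hge_split n R
    refine h1.trans ?_
    have h2 : ∀ k ∈ range (n + 1), (bge k R : ℝ) * (hs (n - k) : ℝ) ≤ 2 * δ * σ * mu ^ n := by
      intro k hk
      have hk' : k ≤ n := by simpa [Nat.lt_succ_iff] using hk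
      have := mul_le_mul (hbR k (by omega)) (hhs (n - k) (by omega)) (Nat.cast_nonneg _)
        (by positivity)
      refine this.trans (le_of_eq ?_)
      have hp : mu ^ n = mu ^ k * mu ^ (n - k) := by rw [← pow_add]; congr 1; omega
      rw [hp]; ring
    refine (Finset.sum_le_sum h2).trans ?_
    rw [Finset.sum_const, card_range, nsmul_eq_mul]
    have h3 : ((n + 1 : ℕ) : ℝ) ≤ (ℓ : ℝ) + 2 := by
      have : ((n + 1 : ℕ) : ℝ) ≤ ((ℓ + 2 : ℕ) : ℝ) := by exact_mod_cast (by omega : n + 1 ≤ ℓ + 2)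
      push_cast at this ⊢
      linarith
    have h4 : 0 ≤ 2 * δ * σ * mu ^ n := by positivity
    calc ((n + 1 : ℕ) : ℝ) * (2 * δ * σ * mu ^ n) ≤ ((ℓ : ℝ) + 2) * (2 * δ * σ * mu ^ n) :=
          mul_le_mul_of_nonneg_right h3 h4
      _ = _ := by ring
  have hcext : (cext ℓ R : ℝ) ≤ 8 * (((ℓ : ℝ) + 1) * ((ℓ : ℝ) + 2)) * δ * σ ^ 2 * mu ^ (ℓ + 1) := by
    have h1 : (cext ℓ R : ℝ) ≤ ∑ k ∈ range (ℓ + 1),
        ((hge (k + 1) R : ℝ) * (hs (ℓ - k) : ℝ) + (hs (k + 1) : ℝ) * (hge (ℓ - k) R : ℝ)) := by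
      exact_mod_cast cext_split ℓ R
    refine h1.trans ?_
    have h2 : ∀ k ∈ range (ℓ + 1), (hge (k + 1) R : ℝ) * (hs (ℓ - k) : ℝ) +
        (hs (k + 1) : ℝ) * (hge (ℓ - k) R : ℝ) ≤ 8 * ((ℓ : ℝ) + 2) * δ * σ ^ 2 * mu ^ (ℓ + 1) := by
      intro k hk
      have hk' : k ≤ ℓ := by simpa [Nat.lt_succ_iff] using hk
      have hp : mu ^ (ℓ + 1) = mu ^ (k + 1) * mu ^ (ℓ - k) := by rw [← pow_add]; congr 1; omega
      have e1 := mul_le_mul (hhge (k + 1) (by omega)) (hhs (ℓ - k) (by omega))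
        (Nat.cast_nonneg _) (by positivity)
      have e2 := mul_le_mul (hhs (k + 1) (by omega)) (hhge (ℓ - k) (by omega))
        (Nat.cast_nonneg _) (by positivity)
      refine (add_le_add e1 e2).trans (le_of_eq ?_)
      rw [hp]; ring
    refine (Finset.sum_le_sum h2).trans (le_of_eq ?_)
    rw [Finset.sum_const, card_range, nsmul_eq_mul]
    push_cast
    ring
  have hfin : 8 * (((ℓ : ℝ) + 1) * ((ℓ : ℝ) + 2)) * δ * σ ^ 2 * mu ^ (ℓ + 1) ≤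
      8 / 145 * mu ^ (ℓ + 1) := by
    apply mul_le_mul_of_nonneg_right _ (by positivity)
    have hℓN : (ℓ : ℝ) + 1 ≤ N := by exact_mod_cast hN
    have hℓ0 : (0 : ℝ) ≤ ℓ := Nat.cast_nonneg _
    have e1 : ((ℓ : ℝ) + 1) * ((ℓ : ℝ) + 2) ≤ ((N : ℝ) + 2) ^ 2 := by nlinarith
    have e2 : σ ^ 2 * ((N : ℝ) + 2) ^ 2 = ((N : ℝ) + 2) ^ (2 * (r + 1)) := by
      rw [hσ]; ring
    have e3 : δ * (σ ^ 2 * ((N : ℝ) + 2) ^ 2) = 1 / 145 := by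
      rw [e2, hδ]
      field_simp
    calc 8 * (((ℓ : ℝ) + 1) * ((ℓ : ℝ) + 2)) * δ * σ ^ 2
        = 8 * (δ * σ ^ 2) * (((ℓ : ℝ) + 1) * ((ℓ : ℝ) + 2)) := by ring
      _ ≤ 8 * (δ * σ ^ 2) * ((N : ℝ) + 2) ^ 2 :=
          mul_le_mul_of_nonneg_left e1 (by positivity)
      _ = 8 * (δ * (σ ^ 2 * ((N : ℝ) + 2) ^ 2)) := by ring
      _ = 8 / 145 := by rw [e3]; norm_num
  have hc1 := mu_pow_le ℓ
  have hc2 : (c ℓ : ℝ) ≤ 3 * (cext ℓ R : ℝ) := by exact_mod_cast c_le_cext ℓ R hR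
  have hp : mu ^ (ℓ + 1) = mu ^ ℓ * mu := pow_succ _ _
  have hpos : 0 < mu ^ ℓ := by positivity
  have : mu ^ ℓ * mu ≤ mu ^ ℓ * 6 := mul_le_mul_of_nonneg_left hmu6 hpos.le
  rw [hp] at hfin hcext
  nlinarith

end Pool.Agent.H46R2.K3.P
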